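import Pool.Agent.J4.H39.HM.L2

/-!
# One block: reduction to the diagonal
-/

set_option autoImplicit false

namespace Pool.Agent.J4.H39.HM

open MeasureTheory Set Topology
open Filter hiding mk
open Complex hiding mk
open FourierTransform hiding mk
open Pool.Agent.Y969.GP Pool.Agent.N879.GD

/-- the diagonal term of a fraction `ρ` -/
noncomputable def DD {m : ℕ} (a : Fin (m + 1) → ℤ) (v : Fin (m + 1) → ℝ) (w : Fin (m + 1) → ℝ → ℝ) (H : ℝ) (X : ℕ)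
    (ρ : ℕ × ℕ) (τ : ℝ) : ℝ :=
  ∫ x : Fin m → ℝ, (∏ j, (w j.succ ((x j - v j.succ * τ) / H) * cr X (pw ρ (a j.succ)) (x j))) *
    (w 0 ((-(∑ j, (a j.succ : ℝ) * x j) / a 0 - v 0 * τ) / H) *
      cr X (pw ρ (a 0)) (-(∑ j, (a j.succ : ℝ) * x j) / a 0))

/-- the phases cancel on the diagonal -/
lemma hi_diag {m : ℕ} {a : Fin (m + 1) → ℤ} (ha : a 0 ≠ 0) (v : Fin (m + 1) → ℝ) (w : Fin (m + 1) → ℝ → ℝ) (H : ℝ)
    (X : ℕ) (ρ : ℕ × ℕ) (τ : ℝ) :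
    HI a (fun i x => AA (w i) (v i * τ) H X (pw ρ (a i)) x * cexp (I * ((x * lam (pw ρ (a i)) : ℝ) : ℂ))) =
      ((DD a v w H X ρ τ : ℝ) : ℂ) := by
  have ha' : (a 0 : ℝ) ≠ 0 := by exact_mod_cast ha
  unfold HI DD
  rw [← integral_complex_ofReal]
  refine integral_congr_ae (Filter.Eventually.of_forall fun x => ?_)
  simp only
  rw [Finset.prod_mul_distrib, ← Complex.exp_sum, mul_mul_mul_comm, ← Complex.exp_add]
  have h1 : ∑ j : Fin m, I * ((x j * lam (pw ρ (a j.succ)) : ℝ) : ℂ) +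
      I * ((-(∑ j : Fin m, (a j.succ : ℝ) * x j) / a 0 * lam (pw ρ (a 0)) : ℝ) : ℂ) = 0 := by
    rw [← Finset.mul_sum, ← mul_add, ← Complex.ofReal_sum, ← Complex.ofReal_add]
    have h2 : ∑ j : Fin m, x j * lam (pw ρ (a j.succ)) +
        -(∑ j : Fin m, (a j.succ : ℝ) * x j) / a 0 * lam (pw ρ (a 0)) = 0 := by
      simp only [lam_pw]
      have h3 : -(∑ j : Fin m, (a j.succ : ℝ) * x j) / a 0 * (a 0 * lam ρ) =
          -(∑ j : Fin m, (a j.succ : ℝ) * x j) * lam ρ := by field_simp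
      rw [h3, neg_mul, Finset.sum_mul, ← sub_eq_add_neg, sub_eq_zero]
      refine Finset.sum_congr rfl fun j _ => ?_
      ring
    rw [h2, Complex.ofReal_zero, mul_zero]
  rw [h1, Complex.exp_zero, mul_one]
  unfold AA
  push_cast
  rfl

/-- expansion of the block of the Dirichlet polynomials -/
lemma hi_expand {m : ℕ} {a : Fin (m + 1) → ℤ} (ha : ∀ i, a i ≠ 0) {v : Fin (m + 1) → ℝ} {w : Fin (m + 1) → ℝ → ℝ}
    {R B H τ : ℝ} (hw : ∀ i, Wt (w i) R B) (hH : 0 < H) (hs : ∀ i, R * H < v i * τ) (X Y : ℕ) :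
    HI a (fun i => GB (w i) (v i * τ) H X Y) = ∑ q ∈ Fintype.piFinset (fun _ : Fin (m + 1) => FR Y),
      HI a (fun i x => AA (w i) (v i * τ) H X (q i) x * cexp (I * ((x * lam (q i) : ℝ) : ℂ))) := by
  have hn : ∀ q ∈ Fintype.piFinset (fun _ : Fin (m + 1) => FR Y), ∀ i : Fin (m + 1),
      Nice (fun x => AA (w i) (v i * τ) H X (q i) x * cexp (I * ((x * lam (q i) : ℝ) : ℂ))) := fun q hq i =>
    ((AA_cs (hw i) hH (hs i) (Fintype.mem_piFinset.1 hq i)).mod _).nice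
  rw [hi_eq (ha 0) (fun i => (GB_cs (hw i) hH (hs i) X Y).nice), Finset.sum_congr rfl fun q hq => hi_eq (ha 0) (hn q hq),
    ← Finset.mul_sum, ← integral_finsetSum _ fun q hq => prod_int ha (hn q hq)]
  congr 1
  refine integral_congr_ae (Filter.Eventually.of_forall fun ξ => ?_)
  simp only
  rw [← Finset.prod_univ_sum (fun _ : Fin (m + 1) => FR Y)
    (fun i p => 𝓕 (fun x => AA (w i) (v i * τ) H X p x * cexp (I * ((x * lam p : ℝ) : ℂ))) (a i * ξ))]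
  refine Finset.prod_congr rfl fun i _ => ?_
  rw [GB_fou (hw i) hH (hs i)]
  exact Finset.sum_congr rfl fun p _ => (fou_mod _ _ _).symm

/-- **the off-diagonal part of a block** -/
theorem blk_off {r : ℕ} {a : Fin (r + 3) → ℤ} (ha : ∀ i, a i ≠ 0) (hk : ∃ k : Fin (r + 3) → ℤ, ∑ i, k i * a i = 1)
    {A : ℕ} (hA : ∀ i, (a i).natAbs ≤ A) (hA1 : 1 ≤ A) {R : ℝ} (hR : 1 ≤ R) :
    ∃ K : ℝ, 0 < K ∧ ∀ (B : ℝ) (w : Fin (r + 3) → ℝ → ℝ) (v : Fin (r + 3) → ℝ) (H τ : ℝ) (X Y : ℕ),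
      (∀ i, Wt (w i) R B) → 1 ≤ H → (∀ i, 2 * (R * H) ≤ v i * τ) → 1 ≤ Y → Y ≤ X →
      ‖HI (m := r + 2) a (fun i => GB (w i) (v i * τ) H X Y) - ∑ ρ ∈ RT a Y, ((DD (m := r + 2) a v w H X ρ τ : ℝ) : ℂ)‖ ≤
        K * B ^ (r + 3) * ((Y : ℝ) ^ (2 * (r + 3) + A) * (1 + Real.log X) ^ (r + 3) * H ^ (r + 1)) := by
  classical
  obtain ⟨K₀, hK₀, hAA⟩ := AA_fou
  have hAR : (1 : ℝ) ≤ A := by exact_mod_cast hA1
  refine ⟨|(a 0 : ℝ)| * ((K₀ * R) ^ (r + 3) * (2 * (2 * (A : ℝ) ^ 2) * (2 * (r + 3)))) + 1, by positivity,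
    fun B w v H τ X Y hw hH hs hY hYX => ?_⟩
  have hB : 0 ≤ B := (hw 0).hB
  have hH0 : 0 < H := by linarith
  have hRH : 1 ≤ R * H := by nlinarith
  have hs' : ∀ i, R * H < v i * τ := fun i => by linarith [hs i]
  have hX1 : 1 ≤ X := hY.trans hYX
  have hX0 : (1 : ℝ) ≤ X := by exact_mod_cast hX1
  have hY0 : (1 : ℝ) ≤ Y := by exact_mod_cast hY
  have hlX : 0 ≤ Real.log X := Real.log_nonneg hX0
  rw [hi_expand ha hw hH0 hs' X Y]
  have hDG : DG a Y ⊆ Fintype.piFinset (fun _ : Fin (r + 3) => FR Y) := Finset.filter_subset _ _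
  have hdiag : ∑ ρ ∈ RT a Y, ((DD (m := r + 2) a v w H X ρ τ : ℝ) : ℂ) =
      ∑ q ∈ DG a Y, HI (m := r + 2) a (fun i x => AA (w i) (v i * τ) H X (q i) x *
        cexp (I * ((x * lam (q i) : ℝ) : ℂ))) := by
    rw [sum_diag (n := r + 2) ha hk Y]
    exact Finset.sum_congr rfl fun ρ _ => (hi_diag (m := r + 2) (ha 0) v w H X ρ τ).symm
  rw [hdiag, ← Finset.sum_sdiff hDG, add_sub_cancel_right]
  obtain ⟨Q, hQ⟩ : ∃ Q : ℝ, Q = |(a 0 : ℝ)| * ((K₀ * (R * B) * (1 + Real.log X)) ^ (r + 3) *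
      (H ^ r * (2 * (2 * (A : ℝ) ^ 2 * (Y : ℝ) ^ A)) * (2 * ((r + 3) * H)))) := ⟨_, rfl⟩
  have hterm : ∀ q ∈ Fintype.piFinset (fun _ : Fin (r + 3) => FR Y) \ DG a Y,
      ‖HI (m := r + 2) a (fun i x => AA (w i) (v i * τ) H X (q i) x * cexp (I * ((x * lam (q i) : ℝ) : ℂ)))‖ ≤ Q := by
    intro q hq
    rw [Finset.mem_sdiff] at hq
    obtain ⟨hq1, hq2⟩ := hq
    have hq3 := Fintype.mem_piFinset.1 hq1
    have hex : ∃ i k, lam (q i) / a i ≠ lam (q k) / a k := by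
      by_contra hcon
      push Not at hcon
      apply hq2
      unfold DG
      rw [Finset.mem_filter]
      exact ⟨hq1, hcon⟩
    obtain ⟨i, k, hik⟩ := hex
    have hgap := gap (hq3 i) (hq3 k) (ha i) (ha k) (hA i) (hA k) hik
    have hΔ : (0 : ℝ) < 1 / (2 * (A : ℝ) ^ 2 * (Y : ℝ) ^ A) := by positivity
    have h1 := hi_off (r := r) ha (A := fun i => AA (w i) (v i * τ) H X (q i)) (fun i => lam (q i))
      (fun i => K₀ * (R * B) * (1 + Real.log X)) hH0 hΔ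
      (fun i => ((AA_cs (hw i) hH0 (hs' i) (hq3 i)).mod _).nice)
      (fun i ξ => by
        refine (hAA (w i) R B (v i * τ) H X (q i) ξ (hw i) hH (hs i) hX1 (FR_mono hYX (hq3 i))).trans ?_
        refine mul_le_mul_of_nonneg_right ?_ (mk_nonneg hH0.le _)
        refine mul_le_of_le_one_right (by positivity) ?_
        exact inv_le_one_of_one_le₀ (Real.one_le_sqrt.2 (ht_pos' (hq3 i))))
      (fun i => by positivity) hgap
    refine h1.trans (le_of_eq ?_)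
    rw [hQ, Finset.prod_const, Finset.card_univ, Fintype.card_fin]
    congr 3
    rw [div_div_eq_mul_div, div_one]
  refine (norm_sum_le _ _).trans ((Finset.sum_le_sum hterm).trans ?_)
  rw [Finset.sum_const, nsmul_eq_mul]
  have hcard : ((Fintype.piFinset (fun _ : Fin (r + 3) => FR Y) \ DG a Y).card : ℝ) ≤ (Y : ℝ) ^ (2 * (r + 3)) := by
    have h1 : (Fintype.piFinset (fun _ : Fin (r + 3) => FR Y) \ DG a Y).card ≤ Y ^ (2 * (r + 3)) := by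
      refine (Finset.card_le_card Finset.sdiff_subset).trans ?_
      rw [Fintype.card_piFinset, Finset.prod_const, Finset.card_univ, Fintype.card_fin, pow_mul]
      refine Nat.pow_le_pow_left ?_ _
      rw [sq]
      exact Pool.Agent.Y379.GP.card_FR Y
    exact_mod_cast h1
  have hQ0 : 0 ≤ Q := by rw [hQ]; positivity
  calc _ ≤ (Y : ℝ) ^ (2 * (r + 3)) * Q := mul_le_mul_of_nonneg_right hcard hQ0
    _ = (|(a 0 : ℝ)| * ((K₀ * R) ^ (r + 3) * (2 * (2 * (A : ℝ) ^ 2) * (2 * (r + 3))))) * B ^ (r + 3) *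
        ((Y : ℝ) ^ (2 * (r + 3) + A) * (1 + Real.log X) ^ (r + 3) * H ^ (r + 1)) := by
        rw [hQ, ← mul_assoc K₀ R B, mul_pow (K₀ * R * B) (1 + Real.log X), mul_pow (K₀ * R) B, pow_add, pow_succ H r]
        ring
    _ ≤ _ := by
        refine mul_le_mul_of_nonneg_right (mul_le_mul_of_nonneg_right (by linarith) (by positivity)) (by positivity)

/-- **the difference between zeta and the Dirichlet polynomials in a block** -/
theorem blk_diff {r : ℕ} {a : Fin (r + 3) → ℤ} (ha : ∀ i, a i ≠ 0) {R : ℝ} (hR : 1 ≤ R) {ε : ℝ} (hε : 0 < ε)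
    (hε2 : ε < 1 / 2) :
    ∃ K : ℝ, 0 < K ∧ ∀ (B : ℝ) (w : Fin (r + 3) → ℝ → ℝ) (v : Fin (r + 3) → ℝ) (H τ : ℝ) (X Y : ℕ),
      (∀ i, Wt (w i) R B) → 1 ≤ H → (∀ i, 2 * (R * H) ≤ v i * τ) →
      (∀ i, (2 * (v i * τ)) ^ (1 + ε) ≤ X) → 1 ≤ Y → Y ≤ X →
      ‖HI (m := r + 2) a (fun i => GG (w i) (v i * τ) H) - HI (m := r + 2) a (fun i => GB (w i) (v i * τ) H X Y)‖ ≤
        K * B ^ (r + 1) * (((1 + Real.log X) ^ 3 * (H / √Y + √(X * Y)) + H * H ^ (-(1 / 2) + ε)) *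
          ((1 + Real.log X) ^ 3 * (H + √X)) ^ r) *
          ∑ i, ((∫ x, ‖GG (w i) (v i * τ) H x‖ ^ 2) + ∫ x, ‖GB (w i) (v i * τ) H X Y x‖ ^ 2) := by
  obtain ⟨K₁, hK₁, h1⟩ := sup_tail
  obtain ⟨K₂, hK₂, h2⟩ := sup_afe hε hε2
  refine ⟨|(a 0 : ℝ)| * ((r + 3) * ((K₁ + K₂) * R) * (3 * ((K₁ + K₂) * R)) ^ r * 2) + 1, by positivity,
    fun B w v H τ X Y hw hH hs hX hY hYX => ?_⟩
  have hB : 0 ≤ B := (hw 0).hB
  obtain ⟨P, hP⟩ : ∃ P : ℝ, P = (K₁ + K₂) * (R * B) := ⟨_, rfl⟩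
  have hP0 : 0 ≤ P := by rw [hP]; positivity
  have hH0 : 0 < H := by linarith
  have hRH : H ≤ R * H := by nlinarith
  have hs' : ∀ i, R * H < v i * τ := fun i => by linarith [hs i]
  have hX1 : 1 ≤ X := hY.trans hYX
  have hX0 : (1 : ℝ) ≤ X := by exact_mod_cast hX1
  have hlX : 0 ≤ Real.log X := Real.log_nonneg hX0
  obtain ⟨S, hS⟩ : ∃ S : ℝ, S = (1 + Real.log X) ^ 3 * (H / √Y + √(X * Y)) + H * H ^ (-(1 / 2) + ε) := ⟨_, rfl⟩
  obtain ⟨M, hM⟩ : ∃ M : ℝ, M = (1 + Real.log X) ^ 3 * (H + √X) := ⟨_, rfl⟩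
  have hL1 : (1 : ℝ) ≤ (1 + Real.log X) ^ 3 := one_le_pow₀ (by linarith)
  have hM0 : 0 ≤ M := by rw [hM]; positivity
  have hS0 : 0 ≤ S := by rw [hS]; positivity
  have hHpow : H * H ^ (-(1 / 2) + ε) ≤ M := by
    have e1 : H ^ (-(1 / 2) + ε) ≤ 1 := Real.rpow_le_one_of_one_le_of_nonpos hH (by linarith)
    have e2 : 0 ≤ √(X : ℝ) := Real.sqrt_nonneg _
    calc H * H ^ (-(1 / 2) + ε) ≤ H * 1 := mul_le_mul_of_nonneg_left e1 hH0.le
      _ ≤ 1 * (H + √X) := by linarith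
      _ ≤ M := by rw [hM]; exact mul_le_mul_of_nonneg_right hL1 (by positivity)
  have hRB : 0 ≤ R * B := by positivity
  have hKP1 : K₁ * (R * B) ≤ P := by rw [hP]; exact mul_le_mul_of_nonneg_right (by linarith) hRB
  have hKP2 : K₂ * (R * B) ≤ P := by rw [hP]; exact mul_le_mul_of_nonneg_right (by linarith) hRB
  have hafe : ∀ i ξ, ‖𝓕 (GG (w i) (v i * τ) H) ξ - 𝓕 (GB (w i) (v i * τ) H X X) ξ‖ ≤ P * (H * H ^ (-(1 / 2) + ε)) := by
    intro i ξ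
    have hvi : 0 < v i * τ := by linarith [hs i]
    refine (h2 (w i) R B (v i * τ) H X ξ (hw i) hH (hs i) (hX i)).trans ?_
    have e1 : (v i * τ) ^ (-(1 / 2) + ε) ≤ H ^ (-(1 / 2) + ε) :=
      Real.rpow_le_rpow_of_nonpos hH0 (by linarith [hs i]) (by linarith)
    exact mul_le_mul hKP2 (mul_le_mul_of_nonneg_left e1 hH0.le) (by positivity) hP0
  have htail : ∀ i ξ, ‖𝓕 (GB (w i) (v i * τ) H X X) ξ - 𝓕 (GB (w i) (v i * τ) H X Y) ξ‖ ≤
      P * ((1 + Real.log X) ^ 3 * (H / √Y + √(X * Y))) := by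
    intro i ξ
    refine (h1 (w i) R B (v i * τ) H X Y ξ (hw i) hH (hs i) hY hYX).1.trans ?_
    rw [mul_assoc (K₁ * (R * B))]
    exact mul_le_mul_of_nonneg_right hKP1 (by positivity)
  have hSb : ∀ i ξ, ‖𝓕 (GG (w i) (v i * τ) H) ξ - 𝓕 (GB (w i) (v i * τ) H X Y) ξ‖ ≤ P * S := by
    intro i ξ
    have e1 : 𝓕 (GG (w i) (v i * τ) H) ξ - 𝓕 (GB (w i) (v i * τ) H X Y) ξ =
        (𝓕 (GG (w i) (v i * τ) H) ξ - 𝓕 (GB (w i) (v i * τ) H X X) ξ) +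
        (𝓕 (GB (w i) (v i * τ) H X X) ξ - 𝓕 (GB (w i) (v i * τ) H X Y) ξ) := by ring
    rw [e1]
    refine (norm_add_le _ _).trans ((add_le_add (hafe i ξ) (htail i ξ)).trans (le_of_eq ?_))
    rw [hS]
    ring
  have hGBb : ∀ Y' : ℕ, 1 ≤ Y' → Y' ≤ X → ∀ i ξ, ‖𝓕 (GB (w i) (v i * τ) H X Y') ξ‖ ≤ P * M := by
    intro Y' hY' hYX' i ξ
    refine (h1 (w i) R B (v i * τ) H X Y' ξ (hw i) hH (hs i) hY' hYX').2.trans ?_
    rw [hM, mul_assoc (K₁ * (R * B))]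
    exact mul_le_mul_of_nonneg_right hKP1 (by positivity)
  have hMb : ∀ i ξ, ‖𝓕 (GG (w i) (v i * τ) H) ξ‖ + ‖𝓕 (GB (w i) (v i * τ) H X Y) ξ‖ ≤ 3 * P * M := by
    intro i ξ
    have e1 : ‖𝓕 (GG (w i) (v i * τ) H) ξ‖ ≤ P * M + P * M := by
      have e2 : 𝓕 (GG (w i) (v i * τ) H) ξ = (𝓕 (GG (w i) (v i * τ) H) ξ - 𝓕 (GB (w i) (v i * τ) H X X) ξ) +
        𝓕 (GB (w i) (v i * τ) H X X) ξ := by ring
      rw [e2]
      exact (norm_add_le _ _).trans (add_le_add ((hafe i ξ).trans (mul_le_mul_of_nonneg_left hHpow hP0))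
        (hGBb X hX1 le_rfl i ξ))
    linarith [hGBb Y hY hYX i ξ]
  have h3 := hi_diff (r := r) ha (f := fun i => GG (w i) (v i * τ) H) (g := fun i => GB (w i) (v i * τ) H X Y)
    (fun i => (GG_cs (hw i) hH0 (hs' i)).nice) (fun i => (GB_cs (hw i) hH0 (hs' i) X Y).nice) hSb hMb
  refine h3.trans ?_
  obtain ⟨N, hN⟩ : ∃ N : ℝ, N = ∑ i, ((∫ x, ‖GG (w i) (v i * τ) H x‖ ^ 2) + ∫ x, ‖GB (w i) (v i * τ) H X Y x‖ ^ 2) :=
    ⟨_, rfl⟩
  have hN0 : 0 ≤ N := by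
    rw [hN]
    exact Finset.sum_nonneg fun i _ => add_nonneg (integral_nonneg fun _ => by positivity)
      (integral_nonneg fun _ => by positivity)
  rw [← hN, ← hS, ← hM]
  have e1 : |(a 0 : ℝ)| * ((r + 3) * (P * S) * (3 * P * M) ^ r * (2 * N)) =
      (|(a 0 : ℝ)| * ((r + 3) * ((K₁ + K₂) * R) * (3 * ((K₁ + K₂) * R)) ^ r * 2)) * (B ^ (r + 1) * ((S * M ^ r) * N)) := by
    have e2 : P = (K₁ + K₂) * R * B := by rw [hP]; ring
    rw [e2, show 3 * ((K₁ + K₂) * R * B) * M = (3 * ((K₁ + K₂) * R)) * (B * M) by ring, mul_pow, mul_pow B M, pow_succ B r]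
    ring
  rw [e1]
  calc _ ≤ (|(a 0 : ℝ)| * ((r + 3) * ((K₁ + K₂) * R) * (3 * ((K₁ + K₂) * R)) ^ r * 2) + 1) *
        (B ^ (r + 1) * ((S * M ^ r) * N)) :=
        mul_le_mul_of_nonneg_right (by linarith) (by positivity)
    _ = _ := by ring

end Pool.Agent.J4.H39.HM
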