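import Pool.Agent.J4.H39.HM.Err

/-!
# The error terms are of lower order
-/

set_option autoImplicit false

namespace Pool.Agent.J4.H39.HM

open MeasureTheory Set Topology
open Filter hiding mk
open Complex hiding mk
open Pool.Agent.Y969.GP Pool.Agent.N879.GD

lemma pow_lim {N : ℕ} {δ η : ℝ} (h : N * δ < η) : Tendsto (fun T : ℝ => (T ^ δ) ^ N / T ^ η) atTop (𝓝 0) := by
  have h1 : Tendsto (fun T : ℝ => T ^ (-(η - N * δ))) atTop (𝓝 0) := tendsto_rpow_neg_atTop (by linarith)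
  refine h1.congr' ?_
  filter_upwards [eventually_gt_atTop 0] with T hT
  rw [← Real.rpow_natCast, ← Real.rpow_mul hT.le, ← Real.rpow_sub hT]
  congr 1
  ring

lemma alg1 {q u e G : ℝ} (hq : 0 < q) (hu : 1 ≤ u) (he : 1 ≤ e) (h : q * u * e ^ 2 ≤ G) :
    q ≤ G ∧ q * u ≤ G ∧ q * u * e ≤ G / e := by
  have he2 : 1 ≤ e ^ 2 := one_le_pow₀ he
  have hqu : 0 < q * u := by positivity
  have h1 : q * u ≤ G := (le_mul_of_one_le_right hqu.le he2).trans h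
  refine ⟨(le_mul_of_one_le_right hq.le hu).trans h1, h1, ?_⟩
  rw [le_div_iff₀ (by linarith)]
  refine le_trans (le_of_eq ?_) h
  ring

lemma alg2 {u x y z : ℝ} (hu : 1 ≤ u) (hz : 0 ≤ z) (hx : x ≤ 2 * z) (hy : y ≤ z) {L b : ℝ} (hL : 0 ≤ L) (hLu : L ≤ u)
    (hx0 : 0 ≤ x) (hy0 : 0 ≤ y) (hb : b ≤ z) : L ^ 3 * (x + y) + b ≤ 4 * u ^ 3 * z := by
  have h1 : L ^ 3 ≤ u ^ 3 := pow_le_pow_left₀ hL hLu 3
  have h2 : 1 ≤ u ^ 3 := one_le_pow₀ hu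
  have h3 : L ^ 3 * (x + y) ≤ u ^ 3 * (3 * z) := mul_le_mul h1 (by linarith) (by linarith) (by positivity)
  have h4 : z ≤ u ^ 3 * z := le_mul_of_one_le_left hz h2
  linarith

lemma alg3 {R G v α β T c : ℝ} (hR : 1 ≤ R) (hG : 0 ≤ G) (hv : 0 < v) (hT : 0 < T) (hαβ : α ≤ β)
    (h1 : 2 * (R * G) ≤ v * (α * T)) (h2 : 2 * (v * β) ≤ c) : G ≤ c * T := by
  have hRG : G ≤ R * G := le_mul_of_one_le_left hG hR
  have h3 : v * (α * T) ≤ v * (β * T) := mul_le_mul_of_nonneg_left (mul_le_mul_of_nonneg_right hαβ hT.le) hv.le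
  have h4 : 2 * (v * β) * T ≤ c * T := mul_le_mul_of_nonneg_right h2 hT.le
  linarith

theorem err_pow {r : ℕ} {a : Fin (r + 3) → ℤ} (ha : ∀ i, a i ≠ 0) (hk : ∃ k : Fin (r + 3) → ℤ, ∑ i, k i * a i = 1)
    {R : ℝ} (hR : 1 ≤ R) {v : Fin (r + 3) → ℝ} (hv : ∀ i, 0 < v i)
    {κ : ℝ} (hκ : 0 < κ) : ∃ δ η c₁ : ℝ, 0 < δ ∧ δ ≤ 1 ∧ 0 < η ∧ η ≤ 1 / 4 ∧ 0 < c₁ ∧ ∀ (α β c : ℝ), 0 < α → α ≤ β →
      0 < c → (∀ i, 2 * (v i * β) ≤ c) → ∃ K : ℝ, 0 < K ∧ ∀ᶠ T : ℝ in atTop, YY η T ≤ XX c δ T ∧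
      ∀ (H B : ℝ) (w : Fin (r + 3) → ℝ → ℝ) (τ₁ τ₂ : ℝ),
      T ^ (1 / 2 + κ) ≤ H → (∀ i, 2 * (R * H) ≤ v i * (α * T)) → 1 ≤ B → (∀ i, Wt (w i) R B) →
      α * T ≤ τ₁ → τ₁ ≤ τ₂ → τ₂ ≤ β * T →
      ∃ g : ℝ → ℝ, IntegrableOn g (Icc τ₁ τ₂) ∧ (∀ τ ∈ Icc τ₁ τ₂, ‖RM a v w H (XX c δ T) (YY η T) τ‖ ≤ g τ) ∧
      ∫ τ in Icc τ₁ τ₂, g τ ≤ K * B ^ (r + 3) * (T ^ (1 - c₁) * H ^ (r + 2)) := by
  classical
  obtain ⟨A, hA, hA1⟩ : ∃ A : ℕ, (∀ i, (a i).natAbs ≤ A) ∧ 1 ≤ A := by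
    refine ⟨∑ i, (a i).natAbs + 1, fun i => ?_, by omega⟩
    have := Finset.single_le_sum (f := fun i => (a i).natAbs) (fun _ _ => Nat.zero_le _) (Finset.mem_univ i)
    omega
  obtain ⟨N, hN⟩ : ∃ N : ℕ, N = 2 * (r + 3) + A := ⟨_, rfl⟩
  have hN7 : (7 : ℝ) ≤ N := by
    have : 7 ≤ N := by omega
    exact_mod_cast this
  obtain ⟨κ₁, hκ₁⟩ : ∃ κ₁ : ℝ, κ₁ = min κ (1 / 4) := ⟨_, rfl⟩
  have hκ₁0 : 0 < κ₁ := by rw [hκ₁]; exact lt_min hκ (by norm_num)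
  have hκ₁κ : κ₁ ≤ κ := by rw [hκ₁]; exact min_le_left _ _
  have hκ₁4 : κ₁ ≤ 1 / 4 := by rw [hκ₁]; exact min_le_right _ _
  obtain ⟨η, hη⟩ : ∃ η : ℝ, η = κ₁ / N := ⟨_, rfl⟩
  have hη0 : 0 < η := by rw [hη]; positivity
  have hηN : N * η = κ₁ := by rw [hη]; field_simp
  have hη7 : 7 * η ≤ κ₁ := by nlinarith
  obtain ⟨δ, hδ⟩ : ∃ δ : ℝ, δ = η / (48 * (r + 1)) := ⟨_, rfl⟩
  have hδ0 : 0 < δ := by rw [hδ]; positivity
  have hδη : (r + 1) * δ = η / 48 := by rw [hδ]; field_simp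
  have hr0 : (0 : ℝ) ≤ r := Nat.cast_nonneg r
  have hδ1 : δ ≤ η / 48 := by nlinarith
  refine ⟨δ, η, η / 4, hδ0, by linarith, hη0, by linarith, by linarith, fun α β c hα hαβ hc hcv => ?_⟩
  obtain ⟨K, hK, hE⟩ := err_int ha hk hA hA1 hR hv hδ0 (by linarith : δ < 1 / 2)
  refine ⟨K * (4 * 2 ^ r + β), by have := hα.trans_le hαβ; positivity, ?_⟩
  filter_upwards [XX_le hc hδ0, XX_pos hc hδ0, XX_log hc hδ0, YY_bd hη0, eventually_ge_atTop 1,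
      eventually_ge_atTop (1 / c), (tendsto_rpow_atTop hδ0).eventually_ge_atTop (c ^ (-(1 + δ)))] with
      T g3 g4 g5 g6 hT hTc hTcδ
  have hT0 : 0 < T := by linarith
  have hYX : YY η T ≤ XX c δ T := by
    have h1 : (YY η T : ℝ) ≤ XX c δ T := by
      refine g6.2.1.trans (le_trans ?_ (XX_ge c δ T))
      rw [Real.mul_rpow hc.le hT0.le, Real.rpow_add hT0, Real.rpow_one]
      have h2 : T ^ η ≤ T := by
        calc T ^ η ≤ T ^ (1 : ℝ) := Real.rpow_le_rpow_of_exponent_le hT (by linarith)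
          _ = T := Real.rpow_one T
      have h3 : 1 ≤ c ^ (1 + δ) * T ^ δ := by
        rw [Real.rpow_neg hc.le] at hTcδ
        have h4 : 0 < c ^ (1 + δ) := by positivity
        calc 1 = c ^ (1 + δ) * (c ^ (1 + δ))⁻¹ := (mul_inv_cancel₀ h4.ne').symm
          _ ≤ _ := mul_le_mul_of_nonneg_left hTcδ h4.le
      calc T ^ η ≤ T := h2
        _ = 1 * T := (one_mul T).symm
        _ ≤ (c ^ (1 + δ) * T ^ δ) * T := mul_le_mul_of_nonneg_right h3 hT0.le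
        _ = _ := by ring
    exact_mod_cast h1
  refine ⟨hYX, fun G B w τ₁ τ₂ g1 g2 hB hw hτ1 hτ hτ2 => ?_⟩
  obtain ⟨g7, g8, g9⟩ := g6
  obtain ⟨u, hu⟩ : ∃ u : ℝ, u = T ^ δ := ⟨_, rfl⟩
  obtain ⟨e, he⟩ : ∃ e : ℝ, e = T ^ (η / 2) := ⟨_, rfl⟩
  have hu1 : 1 ≤ u := by rw [hu]; exact Real.one_le_rpow hT hδ0.le
  have he1 : 1 ≤ e := by rw [he]; exact Real.one_le_rpow hT (by linarith)
  have hu0 : 0 < u := by linarith
  have he0 : 0 < e := by linarith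
  obtain ⟨q, hq⟩ : ∃ q : ℝ, q = √T := ⟨_, rfl⟩
  have hq2 : q ^ 2 = T := by rw [hq]; exact Real.sq_sqrt hT0.le
  have hq0 : 0 < q := by rw [hq]; exact Real.sqrt_pos.2 hT0
  have hqT : q = T ^ (1 / 2 : ℝ) := by rw [hq]; exact Real.sqrt_eq_rpow T
  obtain ⟨X, hX⟩ : ∃ X : ℕ, X = XX c δ T := ⟨_, rfl⟩
  obtain ⟨Y, hY⟩ : ∃ Y : ℕ, Y = YY η T := ⟨_, rfl⟩
  rw [← hX] at g3 g4 g5 hYX ⊢
  rw [← hY] at g7 g8 g9 hYX ⊢
  rw [← hu] at g5
  have hTη : T ^ η = e ^ 2 := by rw [he, ← Real.rpow_natCast, ← Real.rpow_mul hT0.le]; congr 1; push_cast; ring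
  have hXu : (X : ℝ) ≤ (q * u) ^ 2 := by
    refine g3.trans (le_of_eq ?_)
    rw [mul_pow, hq2, hu, ← Real.rpow_natCast, ← Real.rpow_mul hT0.le, ← Real.rpow_one_add' hT0.le (by positivity)]
    congr 1
    push_cast
    ring
  -- the length
  have hGq : q * u * e ^ 2 ≤ G := by
    refine le_trans (le_of_eq ?_) (le_trans (Real.rpow_le_rpow_of_exponent_le hT
      (show 1 / 2 + δ + η ≤ 1 / 2 + κ by linarith)) g1)
    rw [Real.rpow_add hT0, Real.rpow_add hT0, ← hqT, ← hu, hTη]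
  obtain ⟨hqG, hquG, hquGe⟩ := alg1 hq0 hu1 he1 hGq
  have hq1 : 1 ≤ q := by rw [hq]; exact Real.one_le_sqrt.2 hT
  have hG1 : 1 ≤ G := hq1.trans hqG
  have hG0 : 0 < G := by linarith
  have hX0 : (1 : ℝ) ≤ X := by exact_mod_cast g4
  have hY0 : (1 : ℝ) ≤ Y := by exact_mod_cast g9
  have hlX : 0 ≤ Real.log X := Real.log_nonneg hX0
  obtain ⟨L, hL⟩ : ∃ L : ℝ, L = 1 + Real.log X := ⟨_, rfl⟩
  rw [← hL] at g5
  have hL0 : 0 < L := by rw [hL]; linarith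
  have hsY : e / 2 ≤ √(Y : ℝ) := by
    rw [Real.le_sqrt' (by positivity)]
    refine le_trans ?_ g7
    rw [hTη, div_pow]
    have := pow_pos he0 2
    linarith
  have hb1 : G / √(Y : ℝ) ≤ 2 * (G / e) := by
    rw [div_le_iff₀ (by linarith)]
    have h1 : 2 * (G / e) * (e / 2) = G := by field_simp
    calc G = 2 * (G / e) * (e / 2) := h1.symm
      _ ≤ _ := mul_le_mul_of_nonneg_left hsY (by positivity)
  have hb2 : √((X : ℝ) * Y) ≤ G / e := by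
    refine le_trans ?_ hquGe
    rw [Real.sqrt_le_left (by positivity)]
    calc (X : ℝ) * Y ≤ (q * u) ^ 2 * e ^ 2 := mul_le_mul hXu (g8.trans (le_of_eq hTη)) (by positivity) (by positivity)
      _ = _ := by ring
  have hb3 : √(X : ℝ) ≤ G := by
    refine le_trans ?_ hquG
    rw [Real.sqrt_le_left (by positivity)]
    exact hXu
  have hb4 : G * G ^ (-(1 / 2) + δ) ≤ G / e := by
    rw [div_eq_mul_inv]
    refine mul_le_mul_of_nonneg_left ?_ hG0.le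
    have h1 : G ^ (-(1 / 2) + δ) ≤ q ^ (-(1 / 2) + δ) := Real.rpow_le_rpow_of_nonpos hq0 hqG (by linarith)
    refine h1.trans ?_
    rw [hqT, ← Real.rpow_mul hT0.le, he, ← Real.rpow_neg hT0.le]
    exact Real.rpow_le_rpow_of_exponent_le hT (by linarith)
  have hβ0 : 0 < β := hα.trans_le hαβ
  have hvα : ∀ i, v i * (α * T) ≤ v i * τ₁ := fun i => mul_le_mul_of_nonneg_left hτ1 (hv i).le
  obtain ⟨g, hgi, hgb, hmain⟩ := hE B w G τ₁ τ₂ (c * T) X Y hw hB hG1 ((by positivity : 0 < α * T).trans_le hτ1) hτ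
    (fun i => (g2 i).trans (hvα i))
    (fun i => by
      have h1 := mul_le_mul_of_nonneg_right (hcv i) hT0.le
      have h2 : v i * τ₂ ≤ v i * (β * T) := mul_le_mul_of_nonneg_left hτ2 (hv i).le
      linarith) (by rw [hX]; exact XX_ge c δ T) g9 hYX
  rw [← hL, ← hN] at hmain
  have hGe : 0 < G / e := by positivity
  have hS : L ^ 3 * (G / √(Y : ℝ) + √((X : ℝ) * Y)) + G * G ^ (-(1 / 2) + δ) ≤ 4 * u ^ 3 * (G / e) := by
    exact alg2 hu1 hGe.le hb1 hb2 hL0.le g5 (by positivity) (by positivity) hb4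
  have hM : (L ^ 3 * (G + √(X : ℝ))) ^ r ≤ (2 * u ^ 3 * G) ^ r := by
    refine pow_le_pow_left₀ (by positivity) ?_ r
    calc L ^ 3 * (G + √(X : ℝ)) ≤ u ^ 3 * (G + G) :=
          mul_le_mul (pow_le_pow_left₀ hL0.le g5 3) (by linarith) (by positivity) (by positivity)
      _ = _ := by ring
  have hX3 : G * ((X : ℝ) * L ^ 7) ≤ G * (T * u ^ 9) := by
    refine mul_le_mul_of_nonneg_left ?_ hG0.le
    calc (X : ℝ) * L ^ 7 ≤ (q * u) ^ 2 * u ^ 7 :=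
          mul_le_mul hXu (pow_le_pow_left₀ hL0.le g5 7) (by positivity) (by positivity)
      _ = q ^ 2 * u ^ 9 := by ring
      _ = _ := by rw [hq2]
  have hYN : (Y : ℝ) ^ N * L ^ (r + 3) * G ^ (r + 1) ≤ T ^ (1 / 4 : ℝ) * u ^ (r + 3) * G ^ (r + 1) := by
    have h1 : (Y : ℝ) ^ N ≤ T ^ (1 / 4 : ℝ) := by
      calc (Y : ℝ) ^ N ≤ (T ^ η) ^ N := pow_le_pow_left₀ (by positivity) g8 N
        _ = T ^ (η * N) := by rw [← Real.rpow_natCast, ← Real.rpow_mul hT0.le]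
        _ ≤ _ := Real.rpow_le_rpow_of_exponent_le hT (by linarith)
    have h2 : L ^ (r + 3) ≤ u ^ (r + 3) := pow_le_pow_left₀ hL0.le g5 _
    gcongr
  have hq4 : T ^ (1 / 4 : ℝ) * T ^ (1 / 4 : ℝ) = q := by
    rw [hqT, ← Real.rpow_add hT0]
    norm_num
  have hT4 : 0 < T ^ (1 / 4 : ℝ) := by positivity
  refine ⟨g, hgi, hgb, hmain.trans ?_⟩
  have hβα : τ₂ - τ₁ ≤ β * T := by
    have : 0 < α * T := by positivity
    linarith
  have hβα0 : 0 ≤ τ₂ - τ₁ := by linarith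
  have hBp : 0 < B ^ (r + 3) := by positivity
  have hu12 : u ^ (12 + 3 * r) / e ≤ T ^ (-(η / 4)) := by
    rw [hu, he, ← Real.rpow_natCast, ← Real.rpow_mul hT0.le, ← Real.rpow_sub hT0]
    refine Real.rpow_le_rpow_of_exponent_le hT ?_
    push_cast
    nlinarith
  have hu3 : u ^ (r + 3) / T ^ (1 / 4 : ℝ) ≤ T ^ (-(η / 4)) := by
    rw [hu, ← Real.rpow_natCast, ← Real.rpow_mul hT0.le, ← Real.rpow_sub hT0]
    refine Real.rpow_le_rpow_of_exponent_le hT ?_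
    push_cast
    nlinarith
  have hTe : T ^ (1 - η / 4) = T ^ (-(η / 4)) * T := by
    rw [sub_eq_add_neg, Real.rpow_add hT0, Real.rpow_one, mul_comm]
  calc K * B ^ (r + 3) * (((L ^ 3 * (G / √(Y : ℝ) + √((X : ℝ) * Y)) + G * G ^ (-(1 / 2) + δ)) *
        (L ^ 3 * (G + √(X : ℝ))) ^ r) * (G * ((X : ℝ) * L ^ 7)) +
       (τ₂ - τ₁) * ((Y : ℝ) ^ N * L ^ (r + 3) * G ^ (r + 1))) ≤
      K * B ^ (r + 3) * (((4 * u ^ 3 * (G / e)) * (2 * u ^ 3 * G) ^ r) * (G * (T * u ^ 9)) +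
       (β * T) * (T ^ (1 / 4 : ℝ) * u ^ (r + 3) * G ^ (r + 1))) := by
        refine mul_le_mul_of_nonneg_left (add_le_add ?_ ?_) (by positivity)
        · refine mul_le_mul (mul_le_mul hS hM (by positivity) (by positivity)) hX3 (by positivity) (by positivity)
        · exact mul_le_mul hβα hYN (by positivity) (by positivity)
    _ ≤ K * B ^ (r + 3) * (4 * 2 ^ r * (u ^ (12 + 3 * r) / e) * (T * G ^ (r + 2)) +
          β * (u ^ (r + 3) / T ^ (1 / 4 : ℝ)) * (T * G ^ (r + 2))) := by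
        refine mul_le_mul_of_nonneg_left (add_le_add (le_of_eq ?_) ?_) (by positivity)
        · rw [mul_pow, mul_pow, ← pow_mul u 3 r, pow_add u 12]
          field_simp
          ring
        · have h1 : T ^ (1 / 4 : ℝ) ≤ G / T ^ (1 / 4 : ℝ) := by
            rw [le_div_iff₀ hT4, hq4]
            exact hqG
          calc (β * T) * (T ^ (1 / 4 : ℝ) * u ^ (r + 3) * G ^ (r + 1)) ≤
              (β * T) * ((G / T ^ (1 / 4 : ℝ)) * u ^ (r + 3) * G ^ (r + 1)) := by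
                refine mul_le_mul_of_nonneg_left ?_ (by positivity)
                gcongr
            _ = _ := by
                rw [pow_succ G (r + 1)]
                ring
    _ ≤ K * B ^ (r + 3) * (4 * 2 ^ r * T ^ (-(η / 4)) * (T * G ^ (r + 2)) +
          β * T ^ (-(η / 4)) * (T * G ^ (r + 2))) := by
        gcongr
    _ = _ := by rw [hTe]; ring

end Pool.Agent.J4.H39.HM
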