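import Pool.Agent.J4.H39.HM.MainU
import Pool.Agent.J4.H39.HM.Elim

/-!
# The block theorem
-/

set_option autoImplicit false

namespace Pool.Agent.J4.H39.HM

open MeasureTheory Set Topology
open Filter hiding mk
open Complex hiding mk
open Pool.Agent.Y969.GP Pool.Agent.N879.GD

variable {m : ℕ}

/-- the dependent coordinate of a point of the hyperplane -/
noncomputable def x0 (a : Fin (m + 1) → ℤ) (x : Fin m → ℝ) : ℝ := -(∑ j, (a j.succ : ℝ) * x j) / a 0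

/-- the product of the windows -/
noncomputable def Wn (a : Fin (m + 1) → ℤ) (v : Fin (m + 1) → ℝ) (w : Fin (m + 1) → ℝ → ℝ) (H τ : ℝ) (x : Fin m → ℝ) : ℝ :=
  (∏ j, w j.succ ((x j - v j.succ * τ) / H)) * w 0 ((x0 a x - v 0 * τ) / H)

/-- the product of the values of `|ζ|²` -/
noncomputable def Pf (a : Fin (m + 1) → ℤ) (x : Fin m → ℝ) : ℝ := (∏ j, ff (x j)) * ff (x0 a x)

/-- the integral over one block -/
noncomputable def BB (a : Fin (m + 1) → ℤ) (v : Fin (m + 1) → ℝ) (w : Fin (m + 1) → ℝ → ℝ) (H τ : ℝ) : ℝ :=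
  ∫ x : Fin m → ℝ, Wn a v w H τ x * Pf a x

lemma BB_eq (a : Fin (m + 1) → ℤ) (v : Fin (m + 1) → ℝ) (w : Fin (m + 1) → ℝ → ℝ) (H τ : ℝ) :
    HI a (fun i => GG (w i) (v i * τ) H) = ((BB a v w H τ : ℝ) : ℂ) := by
  unfold HI BB
  rw [← integral_complex_ofReal]
  refine integral_congr_ae (Filter.Eventually.of_forall fun x => ?_)
  simp only
  unfold GG Wn Pf x0
  push_cast
  rw [Finset.prod_mul_distrib]
  ring

lemma x0_cont (a : Fin (m + 1) → ℤ) : Continuous (x0 a) := by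
  unfold x0
  fun_prop

lemma Pf_cont (a : Fin (m + 1) → ℤ) : Continuous (Pf a) := by
  obtain ⟨_, _, _, hcont, _, _⟩ := t_CRU
  unfold Pf
  refine (continuous_finsetProd _ fun j _ => hcont.comp (continuous_apply j)).mul (hcont.comp (x0_cont a))

lemma Pf_nonneg (a : Fin (m + 1) → ℤ) (x : Fin m → ℝ) : 0 ≤ Pf a x := by
  unfold Pf ff
  positivity

lemma Wn_cont {a : Fin (m + 1) → ℤ} {v : Fin (m + 1) → ℝ} {w : Fin (m + 1) → ℝ → ℝ} (hw : ∀ i, Continuous (w i)) (H : ℝ) :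
    Continuous fun p : ℝ × (Fin m → ℝ) => Wn a v w H p.1 p.2 := by
  unfold Wn
  refine (continuous_finsetProd _ fun j _ => (hw j.succ).comp ?_).mul ((hw 0).comp ?_)
  · fun_prop
  · exact (((x0_cont a).comp continuous_snd).sub (by fun_prop)).div_const H

/-- the windows are contained in a box -/
lemma Wn_zero {a : Fin (m + 1) → ℤ} {v : Fin (m + 1) → ℝ} {w : Fin (m + 1) → ℝ → ℝ} {R B H : ℝ} (hw : ∀ i, Wt (w i) R B)
    (hv : ∀ i, 0 < v i) (hH : 0 < H) {τ₁ τ₂ τ : ℝ} (hτ : τ ∈ Icc τ₁ τ₂) {x : Fin m → ℝ}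
    (hx : x ∉ Icc (fun j : Fin m => v j.succ * τ₁ - R * H) (fun j => v j.succ * τ₂ + R * H)) : Wn a v w H τ x = 0 := by
  rw [mem_Icc, not_and_or, Pi.le_def, Pi.le_def, not_forall, not_forall] at hx
  have hz : ∃ j : Fin m, w j.succ ((x j - v j.succ * τ) / H) = 0 := by
    rcases hx with ⟨j, hj⟩ | ⟨j, hj⟩
    · refine ⟨j, win_zero (hw j.succ) hH fun hcon => hj ?_⟩
      have h1 : v j.succ * τ₁ ≤ v j.succ * τ := mul_le_mul_of_nonneg_left hτ.1 (hv _).le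
      linarith [hcon.1]
    · refine ⟨j, win_zero (hw j.succ) hH fun hcon => hj ?_⟩
      have h1 : v j.succ * τ ≤ v j.succ * τ₂ := mul_le_mul_of_nonneg_left hτ.2 (hv _).le
      linarith [hcon.2]
  obtain ⟨j, hj⟩ := hz
  unfold Wn
  rw [Finset.prod_eq_zero (Finset.mem_univ j) hj, zero_mul]

/-- joint integrability -/
lemma joint_int {a : Fin (m + 1) → ℤ} {v : Fin (m + 1) → ℝ} {w : Fin (m + 1) → ℝ → ℝ} {R B H : ℝ} (hw : ∀ i, Wt (w i) R B)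
    (hv : ∀ i, 0 < v i) (hH : 0 < H) (τ₁ τ₂ : ℝ) :
    Integrable (Function.uncurry fun (τ : ℝ) (x : Fin m → ℝ) => Wn a v w H τ x * Pf a x)
      ((volume.restrict (Icc τ₁ τ₂)).prod volume) := by
  have e : (volume.restrict (Icc τ₁ τ₂)).prod (volume : Measure (Fin m → ℝ)) =
      ((volume : Measure ℝ).prod (volume : Measure (Fin m → ℝ))).restrict (Icc τ₁ τ₂ ×ˢ univ) := by
    rw [← Measure.prod_restrict, Measure.restrict_univ]
  rw [e]
  have hc : Continuous (Function.uncurry fun (τ : ℝ) (x : Fin m → ℝ) => Wn a v w H τ x * Pf a x) :=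
    (Wn_cont (fun i => (hw i).diff.continuous) H).mul ((Pf_cont a).comp continuous_snd)
  have h1 : IntegrableOn (Function.uncurry fun (τ : ℝ) (x : Fin m → ℝ) => Wn a v w H τ x * Pf a x)
      (Icc τ₁ τ₂ ×ˢ Icc (fun j : Fin m => v j.succ * τ₁ - R * H) (fun j => v j.succ * τ₂ + R * H))
      ((volume : Measure ℝ).prod (volume : Measure (Fin m → ℝ))) :=
    hc.continuousOn.integrableOn_compact (isCompact_Icc.prod isCompact_Icc)
  refine IntegrableOn.of_forall_sdiff_eq_zero h1 (measurableSet_Icc.prod MeasurableSet.univ) fun p hp => ?_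
  have hp1 : p.1 ∈ Icc τ₁ τ₂ := hp.1.1
  have hp2 : p.2 ∉ Icc (fun j : Fin m => v j.succ * τ₁ - R * H) (fun j => v j.succ * τ₂ + R * H) :=
    fun hcon => hp.2 ⟨hp1, hcon⟩
  show Wn a v w H p.1 p.2 * Pf a p.2 = 0
  rw [Wn_zero hw hv hH hp1 hp2, zero_mul]

lemma BB_int {a : Fin (m + 1) → ℤ} {v : Fin (m + 1) → ℝ} {w : Fin (m + 1) → ℝ → ℝ} {R B H : ℝ} (hw : ∀ i, Wt (w i) R B)
    (hv : ∀ i, 0 < v i) (hH : 0 < H) (τ₁ τ₂ : ℝ) : IntegrableOn (BB a v w H) (Icc τ₁ τ₂) :=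
  (joint_int (a := a) hw hv hH τ₁ τ₂).integral_prod_left

/-- the main term is continuous -/
lemma MT_contOn {a : Fin (m + 1) → ℤ} (hs : 3 / 2 ≤ sx a) {v : Fin (m + 1) → ℝ} (hv : ∀ i, 0 < v i) {τ₁ τ₂ : ℝ}
    (hτ₁ : 0 < τ₁) : ContinuousOn (MT a v) (Icc τ₁ τ₂) := by
  have hpi := Real.pi_pos
  have hlc : ∀ i, ContinuousOn (fun τ : ℝ => Real.log (v i * τ / (2 * Real.pi)) + 2 * eγ) (Icc τ₁ τ₂) := by
    intro i
    refine ContinuousOn.add (ContinuousOn.log (by fun_prop) fun τ hτ => ?_) continuousOn_const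
    have := hv i
    have : 0 < τ := hτ₁.trans_le hτ.1
    positivity
  -- a uniform bound for the logarithms
  obtain ⟨Λ, hΛ, hb⟩ : ∃ Λ : ℝ, 1 ≤ Λ ∧ ∀ τ ∈ Icc τ₁ τ₂, ∀ i, |Real.log (v i * τ / (2 * Real.pi)) + 2 * eγ| ≤ Λ := by
    have h1 : ∀ i, ∃ Λ : ℝ, ∀ τ ∈ Icc τ₁ τ₂, |Real.log (v i * τ / (2 * Real.pi)) + 2 * eγ| ≤ Λ := fun i => by
      obtain ⟨C, hC⟩ := isCompact_Icc.exists_bound_of_continuousOn (hlc i)
      exact ⟨C, fun τ hτ => by have := hC τ hτ; rwa [Real.norm_eq_abs] at this⟩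
    choose Λ hΛ using h1
    refine ⟨1 + ∑ i, |Λ i|, by have := Finset.sum_nonneg (fun i (_ : i ∈ Finset.univ) => abs_nonneg (Λ i)); linarith,
      fun τ hτ i => ?_⟩
    have h2 := Finset.single_le_sum (f := fun i => |Λ i|) (fun _ _ => abs_nonneg _) (Finset.mem_univ i)
    have h3 := hΛ i τ hτ
    have h4 := le_abs_self (Λ i)
    linarith
  have hA : ∀ i, (a i).natAbs ≤ ∑ i, (a i).natAbs := fun i =>
    Finset.single_le_sum (f := fun i => (a i).natAbs) (fun _ _ => Nat.zero_le _) (Finset.mem_univ i)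
  refine continuousOn_tsum (f := fun ρ τ => mt a (fun i => Real.log (v i * τ / (2 * Real.pi)) + 2 * eγ) ρ)
    (u := fun ρ => ((1 + ((∑ i, (a i).natAbs : ℕ) : ℝ)) * Λ) ^ (m + 1) * (8 * ((m + 1 : ℕ) : ℝ) + 9) ^ (m + 1) *
      (1 : ℝ) ^ (-(1 / 8) : ℝ) * (ht ρ) ^ (-(5 / 4) : ℝ)) ?_ ((ht_summable (s := 5 / 4) (by norm_num)).mul_left _) ?_
  · intro ρ
    unfold mt
    split_ifs
    · refine ContinuousOn.mul continuousOn_const ?_
      exact continuousOn_finsetProd _ fun i _ => (hlc i).sub continuousOn_const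
    · exact continuousOn_const
  · intro ρ τ hτ
    rw [Real.norm_eq_abs]
    refine mt_bound hs hA hΛ (hb τ hτ) le_rfl fun h => ?_
    rcases ht_cases ρ with h' | ⟨-, -, h3⟩
    · exact absurd h' h
    · exact h3

lemma sx_ge {r : ℕ} {a : Fin (r + 3) → ℤ} (ha : ∀ i, a i ≠ 0) : 3 / 2 ≤ sx (m := r + 2) a := by
  unfold sx
  have h1 : ∀ i, (1 : ℝ) ≤ ((a i).natAbs : ℝ) := fun i => by
    have : 1 ≤ (a i).natAbs := by have := ha i; omega
    exact_mod_cast this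
  have h2 : (3 : ℝ) ≤ ∑ i : Fin (r + 3), ((a i).natAbs : ℝ) := by
    calc (3 : ℝ) ≤ ∑ _i : Fin (r + 3), (1 : ℝ) := by
          rw [Finset.sum_const, Finset.card_univ, Fintype.card_fin, nsmul_eq_mul, mul_one]
          push_cast
          have : (0 : ℝ) ≤ r := Nat.cast_nonneg r
          linarith
      _ ≤ _ := Finset.sum_le_sum fun i _ => h1 i
  linarith

/-- **the block theorem** -/
theorem block {r : ℕ} {a : Fin (r + 3) → ℤ} (ha : ∀ i, a i ≠ 0) (hk : ∃ k : Fin (r + 3) → ℤ, ∑ i, k i * a i = 1)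
    {R : ℝ} (hR : 1 ≤ R) {v : Fin (r + 3) → ℝ} (hv : ∀ i, 0 < v i) (hav : ∑ i, (a i : ℝ) * v i = 0)
    {κ : ℝ} (hκ : 0 < κ) {α β : ℝ} (hα : 0 < α) (hαβ : α ≤ β) : ∃ c₁ K : ℝ, 0 < c₁ ∧ c₁ < 1 ∧ 0 < K ∧ ∀ᶠ T : ℝ in atTop,
      ∀ (H B : ℝ) (w : Fin (r + 3) → ℝ → ℝ) (τ₁ τ₂ : ℝ), T ^ (1 / 2 + κ) ≤ H → H ≤ T ^ (1 - κ) → 1 ≤ B →
      (∀ i, Wt (w i) R B) → α * T ≤ τ₁ → τ₁ ≤ τ₂ → τ₂ ≤ β * T →
      |(∫ τ in Icc τ₁ τ₂, BB (m := r + 2) a v w H τ) - H ^ (r + 2) * Om (m := r + 2) a w *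
        ∫ τ in Icc τ₁ τ₂, MT (m := r + 2) a v τ| ≤ K * B ^ (r + 3) * (T ^ (1 - c₁) * H ^ (r + 2)) := by
  obtain ⟨δ, η, c₁, hδ, hδ1, hη, hη1, hc₁, hE⟩ := err_pow ha hk hR hv hκ
  have hβ : 0 < β := hα.trans_le hαβ
  obtain ⟨c, hc, hcv⟩ : ∃ c : ℝ, 0 < c ∧ ∀ i, 2 * (v i * β) ≤ c := by
    obtain ⟨i, -, hi⟩ := Finset.exists_max_image Finset.univ v ⟨0, Finset.mem_univ _⟩
    refine ⟨2 * (v i * β), by have := hv i; positivity, fun j => ?_⟩
    have := mul_le_mul_of_nonneg_right (hi j (Finset.mem_univ _)) hβ.le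
    linarith
  obtain ⟨K, hK, hEv⟩ := hE α β c hα hαβ hc hcv
  obtain ⟨c₂, K₂, hc₂, hK₂, hD⟩ := diag_main (m := r + 2) (ha 0) (sx_ge ha) hv hav hR hκ hδ hη hη1 hα hαβ hc hcv
  obtain ⟨c₃, hc₃⟩ : ∃ c₃ : ℝ, c₃ = min (min c₁ c₂) (1 / 2) := ⟨_, rfl⟩
  have hc₃0 : 0 < c₃ := by rw [hc₃]; exact lt_min (lt_min hc₁ hc₂) (by norm_num)
  have hc₃1 : c₃ < 1 := by rw [hc₃]; exact (min_le_right _ _).trans_lt (by norm_num)
  have h31 : c₃ ≤ c₁ := by rw [hc₃]; exact (min_le_left _ _).trans (min_le_left _ _)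
  have h32 : c₃ ≤ c₂ := by rw [hc₃]; exact (min_le_left _ _).trans (min_le_right _ _)
  refine ⟨c₃, K + K₂ * β, hc₃0, hc₃1, by positivity, ?_⟩
  have hHev : ∀ᶠ T : ℝ in atTop, ∀ i, 2 * (R * T ^ (1 - κ)) ≤ v i * (α * T) := by
    refine Filter.eventually_all.2 fun i => ?_
    have hvi := hv i
    filter_upwards [(tendsto_rpow_atTop hκ).eventually_ge_atTop (2 * R / (v i * α)), eventually_gt_atTop 0] with T hT hT0
    have h1 : T = T ^ (1 - κ) * T ^ κ := by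
      rw [← Real.rpow_add hT0]
      norm_num
    rw [div_le_iff₀ (by positivity)] at hT
    have h2 : 0 < T ^ (1 - κ) := by positivity
    calc 2 * (R * T ^ (1 - κ)) = (2 * R) * T ^ (1 - κ) := by ring
      _ ≤ (T ^ κ * (v i * α)) * T ^ (1 - κ) := mul_le_mul_of_nonneg_right hT h2.le
      _ = v i * (α * (T ^ (1 - κ) * T ^ κ)) := by ring
      _ = _ := by rw [← h1]
  filter_upwards [hEv, hD, hHev, eventually_ge_atTop 1] with T hEv hD hHev hT H B w τ₁ τ₂ hH1 hH2 hB hw hτ1 hτ hτ2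
  have hT0 : 0 < T := by linarith
  have hH0 : 0 < H := (by positivity : 0 < T ^ (1 / 2 + κ)).trans_le hH1
  obtain ⟨hYX, hEv⟩ := hEv
  have hHv : ∀ i, 2 * (R * H) ≤ v i * (α * T) := fun i => by
    refine le_trans ?_ (hHev i)
    have := mul_le_mul_of_nonneg_left hH2 (by linarith : 0 ≤ R)
    linarith
  obtain ⟨g, hgi, hgb, hg⟩ := hEv H B w τ₁ τ₂ hH1 hHv hB hw hτ1 hτ hτ2
  have hτ₁0 : 0 < τ₁ := (by positivity : 0 < α * T).trans_le hτ1
  have hBi := BB_int (a := a) hw hv hH0 τ₁ τ₂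
  have hMi : IntegrableOn (MT (m := r + 2) a v) (Icc τ₁ τ₂) :=
    (MT_contOn (m := r + 2) (sx_ge ha) hv hτ₁0).integrableOn_Icc
  have e1 : (∫ τ in Icc τ₁ τ₂, BB (m := r + 2) a v w H τ) - H ^ (r + 2) * Om (m := r + 2) a w *
        ∫ τ in Icc τ₁ τ₂, MT (m := r + 2) a v τ =
      ∫ τ in Icc τ₁ τ₂, (BB (m := r + 2) a v w H τ - H ^ (r + 2) * Om (m := r + 2) a w * MT (m := r + 2) a v τ) := by
    rw [integral_sub hBi (hMi.const_mul _), integral_const_mul]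
  obtain ⟨Q, hQ⟩ : ∃ Q : ℝ, Q = K₂ * B ^ (r + 3) * (T ^ (-c₂) * H ^ (r + 2)) := ⟨_, rfl⟩
  have hQ0 : 0 ≤ Q := by rw [hQ]; positivity
  have hpt : ∀ τ ∈ Icc τ₁ τ₂, ‖BB (m := r + 2) a v w H τ - H ^ (r + 2) * Om (m := r + 2) a w * MT (m := r + 2) a v τ‖ ≤
      g τ + Q := by
    intro τ hτ'
    have h1 := hgb τ hτ'
    unfold RM at h1
    rw [BB_eq, ← Complex.ofReal_sum, ← Complex.ofReal_sub, Complex.norm_real] at h1
    have h2 := hD hYX H B w τ hH0 hH2 hHv hB hw ⟨hτ1.trans hτ'.1, hτ'.2.trans hτ2⟩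
    rw [← Real.norm_eq_abs] at h2
    have e2 : BB (m := r + 2) a v w H τ - H ^ (r + 2) * Om (m := r + 2) a w * MT (m := r + 2) a v τ =
        (BB (m := r + 2) a v w H τ - ∑ ρ ∈ RT a (YY η T), DD (m := r + 2) a v w H (XX c δ T) ρ τ) +
        (∑ ρ ∈ RT a (YY η T), DD (m := r + 2) a v w H (XX c δ T) ρ τ -
          H ^ (r + 2) * Om (m := r + 2) a w * MT (m := r + 2) a v τ) := by ring
    rw [e2]
    exact (norm_add_le _ _).trans (add_le_add h1 (h2.trans (le_of_eq hQ.symm)))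
  have hfin : volume (Icc τ₁ τ₂) ≠ ⊤ := by rw [Real.volume_Icc]; exact ENNReal.ofReal_ne_top
  rw [e1, ← Real.norm_eq_abs]
  refine (norm_integral_le_of_norm_le (hgi.add (integrableOn_const (C := Q) hfin)) ((ae_restrict_iff' measurableSet_Icc).2
    (Filter.Eventually.of_forall hpt))).trans ?_
  simp only [Pi.add_apply]
  rw [integral_add hgi (integrableOn_const hfin), setIntegral_const, Measure.real, Real.volume_Icc,
    ENNReal.toReal_ofReal (by linarith), smul_eq_mul]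
  have h3 : T ^ (1 - c₁) ≤ T ^ (1 - c₃) := Real.rpow_le_rpow_of_exponent_le hT (by linarith)
  have h4 : (τ₂ - τ₁) * Q ≤ K₂ * β * B ^ (r + 3) * (T ^ (1 - c₃) * H ^ (r + 2)) := by
    have h5 : τ₂ - τ₁ ≤ β * T := by linarith
    have h6 : T * T ^ (-c₂) ≤ T ^ (1 - c₃) := by
      nth_rewrite 1 [← Real.rpow_one T]
      rw [← Real.rpow_add hT0]
      exact Real.rpow_le_rpow_of_exponent_le hT (by linarith)
    calc (τ₂ - τ₁) * Q ≤ (β * T) * Q := mul_le_mul_of_nonneg_right h5 hQ0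
      _ = K₂ * β * B ^ (r + 3) * ((T * T ^ (-c₂)) * H ^ (r + 2)) := by rw [hQ]; ring
      _ ≤ _ := by gcongr
  calc (∫ τ in Icc τ₁ τ₂, g τ) + (τ₂ - τ₁) * Q ≤ K * B ^ (r + 3) * (T ^ (1 - c₃) * H ^ (r + 2)) +
      K₂ * β * B ^ (r + 3) * (T ^ (1 - c₃) * H ^ (r + 2)) := by
        refine add_le_add (hg.trans ?_) h4
        gcongr
    _ = _ := by ring

end Pool.Agent.J4.H39.HM
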