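import Mathlib

/-!
# A change of variables
-/

set_option autoImplicit false

namespace Pool.Agent.J4.H39.HM

open MeasureTheory Set Topology

variable {k : ℕ}

/-- the parametrisation -/
noncomputable def par (c : Fin k → ℝ) (v₁ : ℝ) (p : ℝ × (Fin k → ℝ)) : Fin (k + 1) → ℝ :=
  Fin.cons (v₁ * p.1) (fun j => c j * p.1 + p.2 j)

/-- the region -/
def SS (c : Fin k → ℝ) (v₁ T₁ T₂ H : ℝ) : Set (Fin (k + 1) → ℝ) :=
  {x | x 0 / v₁ ∈ Icc T₁ T₂ ∧ ∀ j, x j.succ - c j * (x 0 / v₁) ∈ Icc (-H) H}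

lemma par_cont (c : Fin k → ℝ) (v₁ : ℝ) : Continuous (par c v₁) := by
  unfold par
  refine continuous_pi fun i => ?_
  refine Fin.cases ?_ (fun j => ?_) i
  · simp only [Fin.cons_zero]; fun_prop
  · simp only [Fin.cons_succ]; fun_prop

lemma SS_eq (c : Fin k → ℝ) {v₁ : ℝ} (hv : 0 < v₁) (T₁ T₂ H : ℝ) :
    SS c v₁ T₁ T₂ H = par c v₁ '' (Icc T₁ T₂ ×ˢ Icc (fun _ => -H) (fun _ => H)) := by
  ext x
  constructor
  · rintro ⟨h1, h2⟩
    refine ⟨(x 0 / v₁, fun j => x j.succ - c j * (x 0 / v₁)), ⟨h1, fun j => (h2 j).1, fun j => (h2 j).2⟩, ?_⟩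
    funext i
    refine Fin.cases ?_ (fun j => ?_) i
    · simp only [par, Fin.cons_zero]; field_simp
    · simp only [par, Fin.cons_succ]; ring
  · rintro ⟨p, ⟨h1, h2⟩, rfl⟩
    have e1 : v₁ * p.1 / v₁ = p.1 := by field_simp
    refine ⟨?_, fun j => ?_⟩
    · simp only [par, Fin.cons_zero]
      rw [e1]; exact h1
    · simp only [par, Fin.cons_zero, Fin.cons_succ]
      rw [e1, add_sub_cancel_left]
      exact ⟨h2.1 j, h2.2 j⟩

lemma SS_compact (c : Fin k → ℝ) {v₁ : ℝ} (hv : 0 < v₁) (T₁ T₂ H : ℝ) : IsCompact (SS c v₁ T₁ T₂ H) := by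
  rw [SS_eq c hv]
  exact (isCompact_Icc.prod isCompact_Icc).image (par_cont c v₁)

/-- **the change of variables** -/
theorem cov {F : (Fin (k + 1) → ℝ) → ℝ} (hF : Continuous F) (c : Fin k → ℝ) {v₁ : ℝ} (hv : 0 < v₁) (T₁ T₂ H : ℝ) :
    ∫ x in SS c v₁ T₁ T₂ H, F x =
      v₁ * ∫ t in Icc T₁ T₂, ∫ h in Icc (fun _ : Fin k => -H) (fun _ => H), F (Fin.cons (v₁ * t) (fun j => c j * t + h j)) := by
  have hms := (SS_compact c hv T₁ T₂ H).measurableSet
  have hint : Integrable ((SS c v₁ T₁ T₂ H).indicator F) :=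
    (integrable_indicator_iff hms).2 (hF.continuousOn.integrableOn_compact (SS_compact c hv T₁ T₂ H))
  have hmp := (volume_preserving_piFinSuccAbove (fun _ : Fin (k + 1) => ℝ) 0).symm
  have e1 : ∀ p : ℝ × (Fin k → ℝ), (MeasurableEquiv.piFinSuccAbove (fun _ : Fin (k + 1) => ℝ) 0).symm p =
      Fin.cons p.1 p.2 := by
    intro p
    simp [MeasurableEquiv.piFinSuccAbove, Fin.consEquiv]
  have h1 : ∫ x in SS c v₁ T₁ T₂ H, F x = ∫ p : ℝ × (Fin k → ℝ), (SS c v₁ T₁ T₂ H).indicator F (Fin.cons p.1 p.2) := by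
    rw [← integral_indicator hms, ← hmp.integral_comp']
    simp only [e1]
  have h2 : Integrable (fun p : ℝ × (Fin k → ℝ) => (SS c v₁ T₁ T₂ H).indicator F (Fin.cons p.1 p.2)) := by
    have := hmp.integrable_comp_of_integrable hint
    simpa only [Function.comp_def, e1] using this
  rw [h1, Measure.volume_eq_prod, integral_prod _ h2]
  have h3 : ∀ u : ℝ, ∫ y : Fin k → ℝ, (SS c v₁ T₁ T₂ H).indicator F (Fin.cons u y) =
      (Icc T₁ T₂).indicator (fun t => ∫ h in Icc (fun _ : Fin k => -H) (fun _ => H),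
        F (Fin.cons (v₁ * t) (fun j => c j * t + h j))) (u / v₁) := by
    intro u
    have hu : v₁ * (u / v₁) = u := by field_simp
    by_cases ht : u / v₁ ∈ Icc T₁ T₂
    · rw [indicator_of_mem ht, ← integral_indicator measurableSet_Icc,
        ← integral_add_left_eq_self (fun y => (SS c v₁ T₁ T₂ H).indicator F (Fin.cons u y)) (fun j => c j * (u / v₁))]
      refine integral_congr_ae (Filter.Eventually.of_forall fun h => ?_)
      simp only
      by_cases hh : h ∈ Icc (fun _ : Fin k => -H) (fun _ => H)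
      · rw [indicator_of_mem hh, indicator_of_mem, hu]
        · rfl
        · refine ⟨?_, fun j => ?_⟩
          · rw [Fin.cons_zero]; exact ht
          · rw [Fin.cons_zero, Fin.cons_succ, Pi.add_apply, add_sub_cancel_left]
            exact ⟨hh.1 j, hh.2 j⟩
      · rw [indicator_of_notMem hh, indicator_of_notMem]
        rintro ⟨-, h5⟩
        refine hh ⟨fun j => ?_, fun j => ?_⟩
        · have := h5 j
          rw [Fin.cons_zero, Fin.cons_succ, Pi.add_apply, add_sub_cancel_left] at this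
          exact this.1
        · have := h5 j
          rw [Fin.cons_zero, Fin.cons_succ, Pi.add_apply, add_sub_cancel_left] at this
          exact this.2
    · rw [indicator_of_notMem ht]
      have h4 : ∀ y : Fin k → ℝ, (SS c v₁ T₁ T₂ H).indicator F (Fin.cons u y) = 0 := by
        intro y
        refine indicator_of_notMem (fun hcon => ht ?_) _
        have := hcon.1
        rwa [Fin.cons_zero] at this
      simp only [h4, integral_zero]
  simp only [h3]
  rw [MeasureTheory.Measure.integral_comp_div, smul_eq_mul, abs_of_pos hv, integral_indicator measurableSet_Icc]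

end Pool.Agent.J4.H39.HM
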