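import Pool.Agent.J4.H39.HM.Crl

/-!
# The coefficients `cr`: asymptotics with a power saving
-/

set_option autoImplicit false

namespace Pool.Agent.J4.H39.HM

open Pool.Agent.Y969.GP Pool.Agent.Y587.GP MeasureTheory Set Filter Topology

/-- Euler's constant -/
noncomputable abbrev eγ : ℝ := Real.eulerMascheroniConstant

lemma gam_bd : 0 < eγ ∧ eγ < 1 := by
  have h1 := Real.one_half_lt_eulerMascheroniConstant
  have h2 := Real.eulerMascheroniConstant_lt_two_thirds
  constructor <;> linarith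

lemma harm_gam {n : ℕ} (hn : 1 ≤ n) : |∑ g ∈ Finset.Icc 1 n, ((g : ℝ))⁻¹ - Real.log n - eγ| ≤ 1 / n := by
  have hn0 : (0 : ℝ) < n := by exact_mod_cast hn
  have e : ∑ g ∈ Finset.Icc 1 n, ((g : ℝ))⁻¹ = (harmonic n : ℝ) := by
    rw [harmonic_eq_sum_Icc]
    push_cast
    rfl
  have h1 := Real.eulerMascheroniSeq_lt_eulerMascheroniConstant n
  have h2 := Real.eulerMascheroniConstant_lt_eulerMascheroniSeq' n
  rw [Real.eulerMascheroniSeq] at h1
  rw [Real.eulerMascheroniSeq', if_neg (by omega)] at h2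
  have h3 : Real.log (n + 1) - Real.log n ≤ 1 / n := by
    rw [← Real.log_div (by positivity) hn0.ne']
    have h4 := Real.log_le_sub_one_of_pos (show 0 < ((n : ℝ) + 1) / n by positivity)
    refine h4.trans (le_of_eq ?_)
    field_simp
    ring
  rw [e, abs_le]
  unfold eγ
  constructor
  · have : 0 ≤ 1 / (n : ℝ) := by positivity
    linarith
  · linarith

/-- the harmonic sum over `g ≤ N`, `g < x` -/
noncomputable def hN (N : ℕ) (x : ℝ) : ℝ := ∑ g ∈ Finset.Icc 1 N, (g : ℝ)⁻¹ * (if (g : ℝ) < x then 1 else 0)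

lemma hN_eq {N n : ℕ} (hn : n ≤ N) {x : ℝ} (h1 : (n : ℝ) < x) (h2 : x ≤ n + 1) :
    hN N x = ∑ g ∈ Finset.Icc 1 n, (g : ℝ)⁻¹ := by
  unfold hN
  simp only [mul_ite, mul_one, mul_zero]
  rw [← Finset.sum_filter]
  refine Finset.sum_congr ?_ fun _ _ => rfl
  ext g
  rw [Finset.mem_filter, Finset.mem_Icc, Finset.mem_Icc]
  constructor
  · rintro ⟨⟨g1, g2⟩, g3⟩
    refine ⟨g1, ?_⟩
    have : (g : ℝ) < n + 1 := by linarith
    have : g < n + 1 := by exact_mod_cast this
    omega
  · rintro ⟨g1, g2⟩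
    refine ⟨⟨g1, g2.trans hn⟩, ?_⟩
    have : (g : ℝ) ≤ n := by exact_mod_cast g2
    linarith

lemma hN_bd {N : ℕ} (hN1 : 1 ≤ N) {x : ℝ} (hx : 0 < x) : |hN N x - (Real.log x + eγ)| ≤ 4 / x + (x / N) ^ 2 := by
  have hN0 : (0 : ℝ) < N := by exact_mod_cast hN1
  have hN0' : (1 : ℝ) ≤ N := by exact_mod_cast hN1
  obtain ⟨hg0, hg1⟩ := gam_bd
  rcases le_or_gt x 1 with hx1 | hx1
  · have e : hN N x = 0 := by
      unfold hN
      refine Finset.sum_eq_zero fun g hg => ?_
      have : (1 : ℝ) ≤ g := by exact_mod_cast (Finset.mem_Icc.1 hg).1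
      rw [if_neg (by linarith), mul_zero]
    rw [e, zero_sub, abs_neg]
    have h1 : Real.log x ≤ 0 := Real.log_nonpos hx.le hx1
    have h2 : -Real.log x ≤ 1 / x - 1 := by
      rw [← Real.log_inv, one_div]
      exact Real.log_le_sub_one_of_pos (by positivity)
    have h3 : 1 ≤ 1 / x := by rw [le_div_iff₀ hx]; linarith
    have h4 : 4 / x = 4 * (1 / x) := by ring
    have h5 : 0 ≤ (x / N) ^ 2 := sq_nonneg _
    rw [abs_le]
    constructor <;> linarith
  · obtain ⟨n, hn⟩ : ∃ n : ℕ, n = ⌈x⌉₊ - 1 := ⟨_, rfl⟩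
    have hc2 : 1 < ⌈x⌉₊ := by rw [Nat.lt_ceil]; exact_mod_cast hx1
    have hn1 : 1 ≤ n := by omega
    have hn2 : (n : ℝ) < x := by
      have : n < ⌈x⌉₊ := by omega
      exact Nat.lt_ceil.1 this
    have hn3 : x ≤ n + 1 := by
      have h1 := Nat.le_ceil x
      have h2 : ⌈x⌉₊ = n + 1 := by omega
      rw [h2] at h1
      exact_mod_cast h1
    have hn0 : (1 : ℝ) ≤ n := by exact_mod_cast hn1
    rcases le_or_gt n N with hnN | hnN
    · rw [hN_eq hnN hn2 hn3]
      have h1 := harm_gam hn1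
      have h2 : 0 ≤ Real.log x - Real.log n := by
        have := Real.log_le_log (by linarith) hn2.le
        linarith
      have h3 : Real.log x - Real.log n ≤ 1 / n := by
        rw [← Real.log_div (by linarith) (by linarith)]
        have h4 := Real.log_le_sub_one_of_pos (show 0 < x / n by positivity)
        refine h4.trans ?_
        rw [sub_le_iff_le_add, div_le_iff₀ (by linarith)]
        have : (1 / (n : ℝ) + 1) * n = n + 1 := by field_simp; ring
        linarith
      have h5 : 1 / (n : ℝ) ≤ 2 / x := by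
        rw [div_le_div_iff₀ (by linarith) hx]
        linarith
      have h6 : 4 / x = 2 / x + 2 / x := by ring
      have h7 : 0 ≤ (x / N) ^ 2 := sq_nonneg _
      rw [abs_le] at h1 ⊢
      constructor <;> linarith
    · have hnN' : (N : ℝ) + 1 ≤ n := by exact_mod_cast hnN
      have e : hN N x = ∑ g ∈ Finset.Icc 1 N, (g : ℝ)⁻¹ := by
        unfold hN
        refine Finset.sum_congr rfl fun g hg => ?_
        have : (g : ℝ) ≤ N := by exact_mod_cast (Finset.mem_Icc.1 hg).2
        rw [if_pos (by linarith), mul_one]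
      rw [e]
      have h1 := harm_gam hN1
      have hxN : 1 < x / N := by rw [lt_div_iff₀ hN0]; linarith
      have h2 : 0 ≤ Real.log x - Real.log N := by
        have := Real.log_le_log hN0 (by linarith : (N : ℝ) ≤ x)
        linarith
      have h3 : Real.log x - Real.log N ≤ x / N - 1 := by
        rw [← Real.log_div (by linarith) hN0.ne']
        exact Real.log_le_sub_one_of_pos (by positivity)
      have h4 : 1 / (N : ℝ) ≤ 1 := by rw [div_le_one hN0]; exact hN0'
      have h5 : x / N ≤ (x / N) ^ 2 := by nlinarith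
      have h6 : 0 ≤ 4 / x := by positivity
      rw [abs_le] at h1 ⊢
      constructor <;> linarith

lemma gs_exp_int (c : ℝ) : Integrable fun v => gs v * Real.exp (c * v) := by
  have h := (gs_int.comp_sub_right (2 * c)).const_mul (Real.exp (c ^ 2))
  refine h.congr (Filter.Eventually.of_forall fun v => ?_)
  simp only
  unfold gs
  rw [← Real.exp_add, ← Real.exp_add]
  congr 1
  ring

lemma gs_id_int : Integrable fun v => gs v * v := by
  have h := integrable_mul_exp_neg_mul_sq (b := 1 / 4) (by norm_num)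
  refine h.congr (Filter.Eventually.of_forall fun v => ?_)
  simp only
  rw [gs_eq, mul_comm]

lemma gs_odd : ∫ v, gs v * v = 0 := by
  have h := integral_neg_eq_self (fun v : ℝ => gs v * v) volume
  have h2 : ∀ v : ℝ, gs (-v) * (-v) = -(gs v * v) := by
    intro v
    unfold gs
    rw [neg_sq]
    ring
  simp only [h2, integral_neg] at h
  linarith

/-- **the smoothed harmonic sum** -/
theorem harm_smooth : ∃ C : ℝ, 0 < C ∧ ∀ (N : ℕ) (y : ℝ), 1 ≤ N → 0 < y →
    |∑ g ∈ Finset.Icc 1 N, (g : ℝ)⁻¹ * V ((g : ℝ) ^ 2 / y ^ 2) - (Real.log y + eγ)| ≤ C * (1 / y + (y / N) ^ 2) := by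
  obtain ⟨A, hA⟩ : ∃ A : ℝ, A = ∫ v, gs v * Real.exp (-(1 / 2) * v) := ⟨_, rfl⟩
  obtain ⟨B, hB⟩ : ∃ B : ℝ, B = ∫ v, gs v * Real.exp (1 * v) := ⟨_, rfl⟩
  have hA0 : 0 ≤ A := by rw [hA]; exact integral_nonneg fun v => mul_nonneg (gs_pos v).le (Real.exp_pos _).le
  have hB0 : 0 ≤ B := by rw [hB]; exact integral_nonneg fun v => mul_nonneg (gs_pos v).le (Real.exp_pos _).le
  refine ⟨4 * A + B + 1, by positivity, fun N y hN1 hy => ?_⟩
  have hN0 : (0 : ℝ) < N := by exact_mod_cast hN1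
  have hc := c0_pos
  -- the sum as an integral
  have hV : ∀ g ∈ Finset.Icc 1 N, (g : ℝ)⁻¹ * V ((g : ℝ) ^ 2 / y ^ 2) =
      (2 * √Real.pi)⁻¹ * ∫ v, gs v * ((g : ℝ)⁻¹ * (if (g : ℝ) < y * Real.exp (v / 2) then 1 else 0)) := by
    intro g hg
    have hg0 : (0 : ℝ) < g := by exact_mod_cast (Finset.mem_Icc.1 hg).1
    rw [V_eq]
    have e1 : ∫ v in Ioi (Real.log ((g : ℝ) ^ 2 / y ^ 2)), gs v =
        ∫ v, gs v * (if (g : ℝ) < y * Real.exp (v / 2) then 1 else 0) := by
      rw [← integral_indicator measurableSet_Ioi]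
      refine integral_congr_ae (Filter.Eventually.of_forall fun v => ?_)
      simp only [indicator, mem_Ioi, mul_ite, mul_one, mul_zero]
      have e2 : Real.log ((g : ℝ) ^ 2 / y ^ 2) < v ↔ (g : ℝ) < y * Real.exp (v / 2) := by
        rw [Real.log_lt_iff_lt_exp (by positivity), div_lt_iff₀ (by positivity)]
        have e3 : Real.exp v * y ^ 2 = (y * Real.exp (v / 2)) ^ 2 := by
          rw [mul_pow, ← Real.exp_nat_mul]
          push_cast
          rw [mul_comm]
          congr 2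
          ring
        rw [e3]
        exact sq_lt_sq₀ hg0.le (by positivity)
      by_cases h : (g : ℝ) < y * Real.exp (v / 2)
      · rw [if_pos h, if_pos (e2.2 h)]
      · rw [if_neg h, if_neg (fun hcon => h (e2.1 hcon))]
    rw [e1, mul_left_comm, ← integral_const_mul]
    congr 1
    refine integral_congr_ae (Filter.Eventually.of_forall fun v => ?_)
    simp only
    ring
  have hmeas : ∀ g : ℕ, Measurable fun v : ℝ => (if (g : ℝ) < y * Real.exp (v / 2) then (1 : ℝ) else 0) := by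
    intro g
    refine Measurable.ite ?_ measurable_const measurable_const
    exact measurableSet_lt measurable_const (by fun_prop)
  have hint : ∀ g ∈ Finset.Icc 1 N, Integrable fun v : ℝ => gs v * ((g : ℝ)⁻¹ * (if (g : ℝ) < y * Real.exp (v / 2) then 1 else 0)) := by
    intro g _
    refine Integrable.mul_bdd (c := (g : ℝ)⁻¹) gs_int ((hmeas g).const_mul _).aestronglyMeasurable
      (Filter.Eventually.of_forall fun v => ?_)
    rw [Real.norm_eq_abs, abs_mul, abs_of_nonneg (by positivity : (0:ℝ) ≤ (g : ℝ)⁻¹)]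
    refine mul_le_of_le_one_right (by positivity) ?_
    split_ifs <;> simp
  have hsum : ∑ g ∈ Finset.Icc 1 N, (g : ℝ)⁻¹ * V ((g : ℝ) ^ 2 / y ^ 2) =
      (2 * √Real.pi)⁻¹ * ∫ v, gs v * hN N (y * Real.exp (v / 2)) := by
    rw [Finset.sum_congr rfl hV, ← Finset.mul_sum, ← integral_finsetSum _ hint]
    congr 1
    refine integral_congr_ae (Filter.Eventually.of_forall fun v => ?_)
    simp only
    unfold hN
    rw [Finset.mul_sum]
  -- the main term as an integral
  have hl : ∀ v : ℝ, Real.log (y * Real.exp (v / 2)) + eγ = (Real.log y + eγ) + (1 / 2) * v := by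
    intro v
    rw [Real.log_mul hy.ne' (Real.exp_pos _).ne', Real.log_exp]
    ring
  have hmi : Integrable fun v => gs v * (Real.log (y * Real.exp (v / 2)) + eγ) := by
    have h := (gs_int.const_mul (Real.log y + eγ)).add (gs_id_int.const_mul (1 / 2))
    refine h.congr (Filter.Eventually.of_forall fun v => ?_)
    simp only [hl, Pi.add_apply]
    ring
  have hmain : Real.log y + eγ = (2 * √Real.pi)⁻¹ * ∫ v, gs v * (Real.log (y * Real.exp (v / 2)) + eγ) := by
    have e1 : ∫ v, gs v * (Real.log (y * Real.exp (v / 2)) + eγ) =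
        ∫ v, ((Real.log y + eγ) * gs v + (1 / 2) * (gs v * v)) := by
      refine integral_congr_ae (Filter.Eventually.of_forall fun v => ?_)
      simp only [hl]
      ring
    rw [e1, integral_add (gs_int.const_mul _) (gs_id_int.const_mul _), integral_const_mul, integral_const_mul, gs_odd,
      gs_total, mul_zero, add_zero]
    field_simp
  have hni : Integrable fun v => gs v * hN N (y * Real.exp (v / 2)) := by
    have h := integrable_finsetSum _ hint
    refine h.congr (Filter.Eventually.of_forall fun v => ?_)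
    simp only
    unfold hN
    rw [Finset.mul_sum]
  rw [hsum]
  nth_rewrite 1 [hmain]
  rw [← mul_sub, ← integral_sub hni hmi, abs_mul, abs_of_pos (inv_pos.2 hc)]
  have hb : Integrable fun v => (4 / y) * (gs v * Real.exp (-(1 / 2) * v)) + (y / N) ^ 2 * (gs v * Real.exp (1 * v)) :=
    ((gs_exp_int _).const_mul _).add ((gs_exp_int _).const_mul _)
  have hpt : ∀ v, ‖gs v * hN N (y * Real.exp (v / 2)) - gs v * (Real.log (y * Real.exp (v / 2)) + eγ)‖ ≤
      (4 / y) * (gs v * Real.exp (-(1 / 2) * v)) + (y / N) ^ 2 * (gs v * Real.exp (1 * v)) := by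
    intro v
    rw [← mul_sub, norm_mul, Real.norm_of_nonneg (gs_pos v).le, Real.norm_eq_abs]
    have h1 := hN_bd hN1 (show 0 < y * Real.exp (v / 2) by positivity)
    refine (mul_le_mul_of_nonneg_left h1 (gs_pos v).le).trans (le_of_eq ?_)
    have e1 : Real.exp (-(1 / 2) * v) = (Real.exp (v / 2))⁻¹ := by rw [← Real.exp_neg]; congr 1; ring
    have e2 : Real.exp (1 * v) = Real.exp (v / 2) ^ 2 := by rw [← Real.exp_nat_mul]; congr 1; push_cast; ring
    rw [e1, e2]
    have := (Real.exp_pos (v / 2)).ne'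
    field_simp
  have h3 := norm_integral_le_of_norm_le hb (Filter.Eventually.of_forall hpt)
  rw [integral_add ((gs_exp_int _).const_mul _) ((gs_exp_int _).const_mul _), integral_const_mul, integral_const_mul,
    ← hA, ← hB, Real.norm_eq_abs] at h3
  have h4 : 0 ≤ (4 / y) * A + (y / N) ^ 2 * B := by positivity
  calc (2 * √Real.pi)⁻¹ * _ ≤ 1 * ((4 / y) * A + (y / N) ^ 2 * B) :=
        mul_le_mul c0_inv_le h3 (abs_nonneg _) zero_le_one
    _ ≤ _ := by
        have h5 : 0 ≤ 1 / y := by positivity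
        have h6 : 0 ≤ (y / N) ^ 2 := sq_nonneg _
        have h7 : (4 / y) * A = 4 * A * (1 / y) := by ring
        rw [h7, one_mul]
        nlinarith [mul_nonneg hA0 h6, mul_nonneg hB0 h5]

/-- **Asymptotics of the coefficients with a power saving** -/
theorem cr_asym : ∃ C : ℝ, 0 < C ∧ ∀ (X : ℕ) (p : ℕ × ℕ) (u : ℝ), 1 ≤ p.1 → 1 ≤ p.2 → p.1 * p.2 ≤ X → 0 < u →
    |√(ht p) * cr X p u - (Real.log (u / (2 * Real.pi)) + 2 * eγ - Real.log (ht p))| ≤ C * (√(ht p / u) + u / X) := by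
  obtain ⟨C, hC, h⟩ := harm_smooth
  refine ⟨6 * C, by positivity, fun X p u h1 h2 hX hu => ?_⟩
  have hpi := Real.pi_gt_three
  have hht : 0 < ht p := Pool.Agent.Y545.GP.ht_pos h1 h2
  obtain ⟨q, hq⟩ : ∃ q : ℕ, q = p.1 * p.2 := ⟨_, rfl⟩
  have hq1 : 1 ≤ q := by rw [hq]; exact Nat.mul_pos h1 h2
  have hqh : (q : ℝ) = ht p := by rw [hq]; unfold ht; push_cast; rfl
  have hX1 : 1 ≤ X := (Nat.mul_pos h1 h2).trans_le hX
  have hX0 : (0 : ℝ) < X := by exact_mod_cast hX1
  obtain ⟨N, hN⟩ : ∃ N : ℕ, N = Nat.sqrt (X / q) := ⟨_, rfl⟩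
  have hXq : 1 ≤ X / q := (Nat.one_le_div_iff (by omega)).2 (by rw [hq]; exact hX)
  have hN1 : 1 ≤ N := by rw [hN]; exact Nat.sqrt_pos.2 hXq
  have hset : (Finset.Icc 1 X).filter (fun g => g * g * (p.1 * p.2) ≤ X) = Finset.Icc 1 N := by
    ext g
    rw [Finset.mem_filter, Finset.mem_Icc, Finset.mem_Icc, ← hq, hN, Nat.le_sqrt, Nat.le_div_iff_mul_le (by omega)]
    constructor
    · rintro ⟨⟨g1, g2⟩, g3⟩
      exact ⟨g1, g3⟩
    · rintro ⟨g1, g3⟩
      refine ⟨⟨g1, ?_⟩, g3⟩
      refine le_trans ?_ g3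
      calc g = g * 1 * 1 := by ring
        _ ≤ g * g * q := Nat.mul_le_mul (Nat.mul_le_mul le_rfl g1) hq1
  obtain ⟨y, hy⟩ : ∃ y : ℝ, y = √(u / (2 * Real.pi * ht p)) := ⟨_, rfl⟩
  have hy2 : y ^ 2 = u / (2 * Real.pi * ht p) := by rw [hy, Real.sq_sqrt (by positivity)]
  have hy0 : 0 < y := by rw [hy]; exact Real.sqrt_pos.2 (by positivity)
  have h4 : √(ht p) * cr X p u = 2 * ∑ g ∈ Finset.Icc 1 N, (g : ℝ)⁻¹ * V ((g : ℝ) ^ 2 / y ^ 2) := by
    unfold cr
    rw [hset, Finset.mul_sum, Finset.mul_sum]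
    refine Finset.sum_congr rfl fun g hg => ?_
    have hg1 : (0 : ℝ) < g := by exact_mod_cast (Finset.mem_Icc.1 hg).1
    unfold co
    rw [ht_mul, Real.sqrt_mul (by positivity), Real.sqrt_sq hg1.le, hy2]
    have hs : √(ht p) ≠ 0 := (Real.sqrt_pos.2 hht).ne'
    have e5 : 2 * Real.pi * ((g : ℝ) ^ 2 * ht p) / u = (g : ℝ) ^ 2 / (u / (2 * Real.pi * ht p)) := by
      field_simp
    rw [e5]
    field_simp
  have h5 : Real.log y = (Real.log (u / (2 * Real.pi)) - Real.log (ht p)) / 2 := by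
    rw [hy, Real.log_sqrt (by positivity)]
    rw [← Real.log_div (by positivity) hht.ne']
    congr 2
    field_simp
  have h6 := h N y hN1 hy0
  have h7 : √(ht p) * cr X p u - (Real.log (u / (2 * Real.pi)) + 2 * eγ - Real.log (ht p)) =
      2 * (∑ g ∈ Finset.Icc 1 N, (g : ℝ)⁻¹ * V ((g : ℝ) ^ 2 / y ^ 2) - (Real.log y + eγ)) := by
    rw [h4, h5]
    ring
  rw [h7, abs_mul, abs_two]
  have h8 : 1 / y ≤ 3 * √(ht p / u) := by
    rw [div_le_iff₀ hy0, hy, mul_assoc, ← Real.sqrt_mul (by positivity)]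
    have e1 : ht p / u * (u / (2 * Real.pi * ht p)) = 1 / (2 * Real.pi) := by field_simp
    rw [e1]
    have e2 : (1 / 3 : ℝ) ≤ √(1 / (2 * Real.pi)) := by
      rw [Real.le_sqrt' (by norm_num), div_pow, one_pow, div_le_div_iff₀ (by norm_num) (by positivity)]
      linarith [Real.pi_lt_d2]
    linarith
  have h9 : (y / N) ^ 2 ≤ u / X := by
    have hN0 : (0 : ℝ) < N := by exact_mod_cast hN1
    have e1 : X < q * ((N + 1) * (N + 1)) := by
      have e2 : X / q < (N + 1) * (N + 1) := by rw [hN]; exact Nat.lt_succ_sqrt (X / q)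
      rw [Nat.div_lt_iff_lt_mul (by omega)] at e2
      linarith
    have e3 : (X : ℝ) ≤ ht p * (4 * (N : ℝ) ^ 2) := by
      have e4 : (X : ℝ) ≤ (q : ℝ) * (((N : ℝ) + 1) * (N + 1)) := by exact_mod_cast e1.le
      have e5 : (1 : ℝ) ≤ N := by exact_mod_cast hN1
      have e6 : ((N : ℝ) + 1) * (N + 1) ≤ 4 * (N : ℝ) ^ 2 := by nlinarith
      rw [hqh] at e4
      exact e4.trans (mul_le_mul_of_nonneg_left e6 hht.le)
    rw [div_pow, hy2, div_div, div_le_div_iff₀ (by positivity) hX0]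
    have e7 : 0 < ht p * (N : ℝ) ^ 2 := by positivity
    have e8 : (X : ℝ) ≤ 2 * Real.pi * ht p * (N : ℝ) ^ 2 := by nlinarith
    nlinarith
  have h10 : 0 ≤ √(ht p / u) := Real.sqrt_nonneg _
  have h11 : 0 ≤ u / X := by positivity
  calc 2 * |∑ g ∈ Finset.Icc 1 N, (g : ℝ)⁻¹ * V ((g : ℝ) ^ 2 / y ^ 2) - (Real.log y + eγ)| ≤
      2 * (C * (1 / y + (y / N) ^ 2)) := by linarith
    _ ≤ 2 * (C * (3 * √(ht p / u) + u / X)) := by
        have := add_le_add h8 h9
        have := mul_le_mul_of_nonneg_left this hC.le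
        linarith
    _ ≤ _ := by nlinarith

end Pool.Agent.J4.H39.HM
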