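import Pool.Agent.Y587.GP.V
import Pool.Agent.Y545.GP.CR

/-!
# The coefficients `cr`: smoothness, measurability, logarithmic asymptotics
-/

set_option autoImplicit false

namespace Pool.Agent.J4.H39.HM

open Pool.Agent.Y969.GP Pool.Agent.Y587.GP MeasureTheory Set Filter Topology

lemma V_meas : Measurable V := by
  have h : Continuous (fun y : ℝ => ∫ v in Ioi y, gs v) :=
    continuous_iff_continuousAt.2 fun y => (tail_deriv y).continuousAt
  have h2 : V = fun x => (2 * √Real.pi)⁻¹ * (fun y : ℝ => ∫ v in Ioi y, gs v) (Real.log x) := rfl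
  rw [h2]
  exact (h.measurable.comp Real.measurable_log).const_mul _

lemma co_meas (q : ℕ × ℕ) : Measurable (co q) := by
  have h2 : co q = fun u => 2 * (√(ht q))⁻¹ * V (2 * Real.pi * ht q / u) := rfl
  rw [h2]
  exact (V_meas.comp (measurable_const.div measurable_id)).const_mul _

lemma cr_meas (X : ℕ) (p : ℕ × ℕ) : Measurable (cr X p) := by
  have h2 : cr X p = fun u => ∑ g ∈ (Finset.Icc 1 X).filter (fun g => g * g * (p.1 * p.2) ≤ X),
    co (g * p.1, g * p.2) u := rfl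
  rw [h2]
  exact Finset.measurable_sum _ fun g _ => co_meas _

lemma V1_contDiffOn : ContDiffOn ℝ 1 V1 (Ioi 0) := by
  unfold V1
  have hlog : ContDiffOn ℝ 1 Real.log (Ioi (0:ℝ)) :=
    Real.contDiffOn_log.mono fun x hx => (ne_of_gt hx : x ≠ 0)
  refine ContDiffOn.neg (ContDiffOn.div (ContDiffOn.mul contDiffOn_const ?_) contDiffOn_id
    fun x hx => (ne_of_gt hx : x ≠ 0))
  exact (((hlog.pow 2).neg).div_const 4).exp

lemma V_contDiffOn : ContDiffOn ℝ 2 V (Ioi 0) := by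
  rw [show (2 : WithTop ℕ∞) = 1 + 1 by norm_num, contDiffOn_succ_iff_deriv_of_isOpen isOpen_Ioi]
  refine ⟨fun x hx => (V_deriv x hx).differentiableAt.differentiableWithinAt, by simp, ?_⟩
  exact V1_contDiffOn.congr fun x hx => (V_deriv x hx).deriv

lemma co_contDiffAt {q : ℕ × ℕ} (hq : 0 < ht q) {u : ℝ} (hu : 0 < u) : ContDiffAt ℝ 2 (co q) u := by
  have h2 : co q = fun u => 2 * (√(ht q))⁻¹ * V (2 * Real.pi * ht q / u) := rfl
  rw [h2]
  have hpos : 0 < 2 * Real.pi * ht q / u := by positivity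
  have h3 : ContDiffAt ℝ 2 V (2 * Real.pi * ht q / u) := V_contDiffOn.contDiffAt (Ioi_mem_nhds hpos)
  have h4 : ContDiffAt ℝ 2 (fun u : ℝ => 2 * Real.pi * ht q / u) u :=
    contDiffAt_const.div contDiffAt_id hu.ne'
  exact contDiffAt_const.mul (h3.comp u h4)

lemma cr_contDiffAt {X : ℕ} {p : ℕ × ℕ} (h1 : 1 ≤ p.1) (h2 : 1 ≤ p.2) {u : ℝ} (hu : 0 < u) :
    ContDiffAt ℝ 2 (cr X p) u := by
  have h3 : cr X p = fun u => ∑ g ∈ (Finset.Icc 1 X).filter (fun g => g * g * (p.1 * p.2) ≤ X),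
    co (g * p.1, g * p.2) u := rfl
  rw [h3]
  refine ContDiffAt.sum fun g hg => ?_
  rw [Finset.mem_filter, Finset.mem_Icc] at hg
  exact co_contDiffAt (Pool.Agent.Y545.GP.ht_pos (q := (g * p.1, g * p.2)) (Nat.mul_pos hg.1.1 h1) (Nat.mul_pos hg.1.1 h2)) hu

lemma one_sub_V {x : ℝ} (hx : 0 < x) : 1 - V x ≤ 3 * x := by
  have h1 : (∫ v in Iic (Real.log x), gs v) + ∫ v in Ioi (Real.log x), gs v = 2 * √Real.pi := by
    rw [intervalIntegral.integral_Iic_add_Ioi gs_int.integrableOn gs_int.integrableOn, gs_total]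
  have h2 : ∫ v in Iic (Real.log x), gs v ≤ Real.exp 1 * x := by
    have h3 : ∫ v in Iic (Real.log x), gs v ≤ ∫ v in Iic (Real.log x), Real.exp 1 * Real.exp v := by
      refine setIntegral_mono_on gs_int.integrableOn ((integrableOn_exp_Iic _).const_mul _) measurableSet_Iic
        fun v _ => ?_
      unfold gs
      rw [← Real.exp_add]
      refine Real.exp_le_exp.2 ?_
      nlinarith [sq_nonneg (v / 2 + 1)]
    refine h3.trans (le_of_eq ?_)
    rw [integral_const_mul, integral_exp_Iic, Real.exp_log hx]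
  have h4 : 1 - V x = (2 * √Real.pi)⁻¹ * ∫ v in Iic (Real.log x), gs v := by
    rw [V_eq]
    have h5 : ∫ v in Ioi (Real.log x), gs v = 2 * √Real.pi - ∫ v in Iic (Real.log x), gs v := by linarith
    rw [h5, mul_sub, inv_mul_cancel₀ c0_pos.ne']
    ring
  rw [h4]
  have h6 : 0 ≤ ∫ v in Iic (Real.log x), gs v := setIntegral_nonneg measurableSet_Iic fun v _ => (gs_pos v).le
  calc (2 * √Real.pi)⁻¹ * ∫ v in Iic (Real.log x), gs v ≤ 1 * (Real.exp 1 * x) :=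
        mul_le_mul c0_inv_le h2 h6 zero_le_one
    _ ≤ 3 * x := by
        rw [one_mul]
        exact mul_le_mul_of_nonneg_right (by linarith [Real.exp_one_lt_d9]) hx.le

/-- the smoothed harmonic sum -/
lemma harm_V : ∃ C : ℝ, 0 < C ∧ ∀ (y : ℝ) (G : Finset ℕ), 1 ≤ y → (∀ g ∈ G, 1 ≤ g) →
    (∀ g : ℕ, 1 ≤ g → (g : ℝ) ≤ y → g ∈ G) →
    |∑ g ∈ G, (g : ℝ)⁻¹ * V ((g : ℝ) ^ 2 / y ^ 2) - Real.log y| ≤ C := by
  obtain ⟨C, hC, hV⟩ := part6 1 zero_le_one
  refine ⟨4 * C + 4, by positivity, fun y G hy hG hG' => ?_⟩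
  have hy0 : 0 < y := by linarith
  obtain ⟨N, hN⟩ : ∃ N : ℕ, N = ⌊y⌋₊ := ⟨_, rfl⟩
  have hN1 : 1 ≤ N := by rw [hN]; exact (Nat.one_le_floor_iff _).2 hy
  have hNy : (N : ℝ) ≤ y := by rw [hN]; exact Nat.floor_le hy0.le
  have hyN : y < N + 1 := by rw [hN]; exact Nat.lt_floor_add_one y
  have hN0 : (1 : ℝ) ≤ N := by exact_mod_cast hN1
  have hsub : Finset.Icc 1 N ⊆ G := by
    intro g hg
    rw [Finset.mem_Icc] at hg
    exact hG' g hg.1 (le_trans (by exact_mod_cast hg.2) hNy)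
  rw [← Finset.sum_sdiff hsub]
  have hnonneg : 0 ≤ ∑ g ∈ G \ Finset.Icc 1 N, (g : ℝ)⁻¹ * V ((g : ℝ) ^ 2 / y ^ 2) :=
    Finset.sum_nonneg fun g _ => mul_nonneg (by positivity) (V_nonneg _)
  -- the tail
  have htail : ∑ g ∈ G \ Finset.Icc 1 N, (g : ℝ)⁻¹ * V ((g : ℝ) ^ 2 / y ^ 2) ≤ 4 * C := by
    obtain ⟨M, hM⟩ : ∃ M : ℕ, G \ Finset.Icc 1 N ⊆ Finset.Ioc N M := by
      refine ⟨G.sup id, fun g hg => ?_⟩
      rw [Finset.mem_sdiff, Finset.mem_Icc, not_and, not_le] at hg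
      rw [Finset.mem_Ioc]
      exact ⟨hg.2 (hG g hg.1), Finset.le_sup (f := id) hg.1⟩
    have h1 : ∀ g ∈ Finset.Ioc N M, (g : ℝ)⁻¹ * V ((g : ℝ) ^ 2 / y ^ 2) ≤ (C * y ^ 2 / N) * ((g : ℝ) ^ 2)⁻¹ := by
      intro g hg
      rw [Finset.mem_Ioc] at hg
      have hgN : (N : ℝ) ≤ g := by exact_mod_cast hg.1.le
      have hg0 : (0 : ℝ) < g := by linarith
      have h2 := hV ((g : ℝ) ^ 2 / y ^ 2) (by positivity)
      rw [Real.rpow_neg (by positivity), Real.rpow_one, inv_div] at h2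
      calc (g : ℝ)⁻¹ * V ((g : ℝ) ^ 2 / y ^ 2) ≤ (N : ℝ)⁻¹ * (C * (y ^ 2 / (g : ℝ) ^ 2)) := by
            refine mul_le_mul ?_ h2 (V_nonneg _) (by positivity)
            exact inv_anti₀ (by linarith) hgN
        _ = _ := by field_simp
    calc ∑ g ∈ G \ Finset.Icc 1 N, (g : ℝ)⁻¹ * V ((g : ℝ) ^ 2 / y ^ 2) ≤
        ∑ g ∈ Finset.Ioc N M, (g : ℝ)⁻¹ * V ((g : ℝ) ^ 2 / y ^ 2) :=
          Finset.sum_le_sum_of_subset_of_nonneg hM fun g _ _ => mul_nonneg (by positivity) (V_nonneg _)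
      _ ≤ ∑ g ∈ Finset.Ioc N M, (C * y ^ 2 / N) * ((g : ℝ) ^ 2)⁻¹ := Finset.sum_le_sum h1
      _ = (C * y ^ 2 / N) * ∑ g ∈ Finset.Ioc N M, ((g : ℝ) ^ 2)⁻¹ := by rw [Finset.mul_sum]
      _ ≤ (C * y ^ 2 / N) * (N : ℝ)⁻¹ := by
          refine mul_le_mul_of_nonneg_left ?_ (by positivity)
          rcases le_total N M with h | h
          · have := sum_Ioc_inv_sq_le_sub (α := ℝ) (k := N) (n := M) (by omega) h
            have h0 : (0:ℝ) ≤ (M : ℝ)⁻¹ := by positivity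
            linarith
          · rw [Finset.Ioc_eq_empty (by omega), Finset.sum_empty]; positivity
      _ ≤ 4 * C := by
          have h3 : y ≤ 2 * N := by linarith
          have h4 : (C * y ^ 2 / N) * (N : ℝ)⁻¹ = C * (y ^ 2 / N ^ 2) := by field_simp
          rw [h4]
          have h5 : y ^ 2 / (N : ℝ) ^ 2 ≤ 4 := by
            rw [div_le_iff₀ (by positivity)]
            nlinarith
          nlinarith
  -- the head
  have hH1 : ∑ g ∈ Finset.Icc 1 N, ((g : ℝ))⁻¹ ≤ 1 + Real.log N := Pool.Agent.Y545.GP.harm N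
  have hH2 : Real.log (N + 1) ≤ ∑ g ∈ Finset.Icc 1 N, ((g : ℝ))⁻¹ := by
    have h := log_add_one_le_harmonic N
    rw [harmonic_eq_sum_Icc] at h
    push_cast at h
    exact h
  have hup : ∑ g ∈ Finset.Icc 1 N, (g : ℝ)⁻¹ * V ((g : ℝ) ^ 2 / y ^ 2) ≤ 1 + Real.log y := by
    calc ∑ g ∈ Finset.Icc 1 N, (g : ℝ)⁻¹ * V ((g : ℝ) ^ 2 / y ^ 2) ≤ ∑ g ∈ Finset.Icc 1 N, (g : ℝ)⁻¹ :=
          Finset.sum_le_sum fun g _ => mul_le_of_le_one_right (by positivity) (V_le_one _)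
      _ ≤ 1 + Real.log N := hH1
      _ ≤ 1 + Real.log y := by
          have := Real.log_le_log (by linarith) hNy
          linarith
  have hlow : Real.log y - 3 ≤ ∑ g ∈ Finset.Icc 1 N, (g : ℝ)⁻¹ * V ((g : ℝ) ^ 2 / y ^ 2) := by
    have h1 : ∀ g ∈ Finset.Icc 1 N, (g : ℝ)⁻¹ - 3 * (N : ℝ) / y ^ 2 ≤ (g : ℝ)⁻¹ * V ((g : ℝ) ^ 2 / y ^ 2) := by
      intro g hg
      rw [Finset.mem_Icc] at hg
      have hg0 : (0 : ℝ) < g := by exact_mod_cast hg.1
      have hgN : (g : ℝ) ≤ N := by exact_mod_cast hg.2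
      have h2 := one_sub_V (x := (g : ℝ) ^ 2 / y ^ 2) (by positivity)
      have h3 : (g : ℝ)⁻¹ * (1 - V ((g : ℝ) ^ 2 / y ^ 2)) ≤ (g : ℝ)⁻¹ * (3 * ((g : ℝ) ^ 2 / y ^ 2)) :=
        mul_le_mul_of_nonneg_left h2 (by positivity)
      have h4 : (g : ℝ)⁻¹ * (3 * ((g : ℝ) ^ 2 / y ^ 2)) = 3 * g / y ^ 2 := by field_simp
      have h5 : 3 * (g : ℝ) / y ^ 2 ≤ 3 * (N : ℝ) / y ^ 2 := by gcongr
      linarith
    have h2 := Finset.sum_le_sum h1
    rw [Finset.sum_sub_distrib, Finset.sum_const, Nat.card_Icc, nsmul_eq_mul] at h2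
    have h3 : ((N + 1 - 1 : ℕ) : ℝ) * (3 * (N : ℝ) / y ^ 2) ≤ 3 := by
      rw [Nat.add_sub_cancel, mul_div_assoc', div_le_iff₀ (by positivity)]
      nlinarith
    have h4 := Real.log_le_log hy0 hyN.le
    linarith
  rw [abs_le]
  constructor <;> linarith

lemma ht_mul (g : ℕ) (p : ℕ × ℕ) : ht (g * p.1, g * p.2) = (g : ℝ) ^ 2 * ht p := by
  unfold ht
  push_cast
  ring

/-- **Logarithmic asymptotics of the coefficients** -/
theorem cr_log : ∃ C : ℝ, 0 < C ∧ ∀ (X : ℕ) (p : ℕ × ℕ) (u : ℝ), 1 ≤ p.1 → 1 ≤ p.2 → 2 * Real.pi * ht p ≤ u →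
    u ≤ X → |√(ht p) * cr X p u - Real.log u| ≤ C + Real.log (2 * Real.pi * ht p) := by
  obtain ⟨C, hC, h⟩ := harm_V
  refine ⟨2 * C, by positivity, fun X p u h1 h2 hu hX => ?_⟩
  have hht : 0 < ht p := Pool.Agent.Y545.GP.ht_pos h1 h2
  have hht1 : 1 ≤ ht p := by
    unfold ht
    have e1 : (1 : ℝ) ≤ p.1 := by exact_mod_cast h1
    have e2 : (1 : ℝ) ≤ p.2 := by exact_mod_cast h2
    nlinarith
  have hpi := Real.pi_gt_three
  have hA : 1 < 2 * Real.pi * ht p := by nlinarith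
  have hu0 : 0 < u := by linarith
  obtain ⟨y, hy⟩ : ∃ y : ℝ, y = √(u / (2 * Real.pi * ht p)) := ⟨_, rfl⟩
  have hy2 : y ^ 2 = u / (2 * Real.pi * ht p) := by rw [hy, Real.sq_sqrt (by positivity)]
  have hy1 : 1 ≤ y := by
    rw [hy, Real.one_le_sqrt, one_le_div (by positivity)]
    exact hu
  have hy0 : 0 < y := by linarith
  have h3 := h y ((Finset.Icc 1 X).filter (fun g => g * g * (p.1 * p.2) ≤ X)) hy1
    (fun g hg => (Finset.mem_Icc.1 (Finset.mem_filter.1 hg).1).1) (fun g hg hgy => by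
      have e1 : (g : ℝ) ^ 2 ≤ u / (2 * Real.pi * ht p) := by
        rw [← hy2]
        exact pow_le_pow_left₀ (by positivity) hgy 2
      have e2 : (g : ℝ) ^ 2 * ht p ≤ u := by
        rw [le_div_iff₀ (by positivity)] at e1
        have : (g : ℝ) ^ 2 * ht p ≤ (g : ℝ) ^ 2 * (2 * Real.pi * ht p) := by
          have : 0 ≤ (g : ℝ) ^ 2 * ht p := by positivity
          nlinarith
        linarith
      have e3 : ((g * g * (p.1 * p.2) : ℕ) : ℝ) ≤ X := by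
        refine le_trans (le_of_eq ?_) (e2.trans hX)
        unfold ht
        push_cast
        ring
      have e4 : g * g * (p.1 * p.2) ≤ X := by exact_mod_cast e3
      rw [Finset.mem_filter, Finset.mem_Icc]
      refine ⟨⟨hg, ?_⟩, e4⟩
      refine le_trans ?_ e4
      calc g = g * 1 * (1 * 1) := by ring
        _ ≤ g * g * (p.1 * p.2) := Nat.mul_le_mul (Nat.mul_le_mul le_rfl hg) (Nat.mul_le_mul h1 h2))
  have h4 : √(ht p) * cr X p u = 2 * ∑ g ∈ (Finset.Icc 1 X).filter (fun g => g * g * (p.1 * p.2) ≤ X),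
      (g : ℝ)⁻¹ * V ((g : ℝ) ^ 2 / y ^ 2) := by
    unfold cr
    rw [Finset.mul_sum, Finset.mul_sum]
    refine Finset.sum_congr rfl fun g hg => ?_
    have hg1 : (0 : ℝ) < g := by exact_mod_cast (Finset.mem_Icc.1 (Finset.mem_filter.1 hg).1).1
    unfold co
    rw [ht_mul, Real.sqrt_mul (by positivity), Real.sqrt_sq hg1.le, hy2]
    have hs : √(ht p) ≠ 0 := (Real.sqrt_pos.2 hht).ne'
    have e5 : 2 * Real.pi * ((g : ℝ) ^ 2 * ht p) / u = (g : ℝ) ^ 2 / (u / (2 * Real.pi * ht p)) := by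
      field_simp
    rw [e5]
    field_simp
  have h5 : Real.log y = (Real.log u - Real.log (2 * Real.pi * ht p)) / 2 := by
    rw [hy, Real.log_sqrt (by positivity), Real.log_div hu0.ne' (by positivity)]
  rw [h4]
  rw [h5, abs_le] at h3
  have h6 := Real.log_pos hA
  rw [abs_le]
  constructor <;> linarith

end Pool.Agent.J4.H39.HM
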