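import Pool.Agent.J4.H39.HM.Blk

/-!
# The error terms, integrated over the centres of the blocks
-/

set_option autoImplicit false

namespace Pool.Agent.J4.H39.HM

open MeasureTheory Set Topology
open Filter hiding mk
open Complex hiding mk
open Pool.Agent.Y969.GP Pool.Agent.N879.GD

/-- the block minus its diagonal -/
noncomputable def RM {r : ℕ} (a : Fin (r + 3) → ℤ) (v : Fin (r + 3) → ℝ) (w : Fin (r + 3) → ℝ → ℝ) (H : ℝ) (X Y : ℕ)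
    (τ : ℝ) : ℂ :=
  HI (m := r + 2) a (fun i => GG (w i) (v i * τ) H) - ∑ ρ ∈ RT a Y, ((DD (m := r + 2) a v w H X ρ τ : ℝ) : ℂ)

theorem err_int {r : ℕ} {a : Fin (r + 3) → ℤ} (ha : ∀ i, a i ≠ 0) (hk : ∃ k : Fin (r + 3) → ℤ, ∑ i, k i * a i = 1)
    {A : ℕ} (hA : ∀ i, (a i).natAbs ≤ A) (hA1 : 1 ≤ A)
    {R : ℝ} (hR : 1 ≤ R) {v : Fin (r + 3) → ℝ} (hv : ∀ i, 0 < v i)
    {ε : ℝ} (hε : 0 < ε) (hε2 : ε < 1 / 2) :
    ∃ K : ℝ, 0 < K ∧ ∀ (B : ℝ) (w : Fin (r + 3) → ℝ → ℝ) (H τ₁ τ₂ Z : ℝ) (X Y : ℕ), (∀ i, Wt (w i) R B) → 1 ≤ B →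
      1 ≤ H → 0 < τ₁ → τ₁ ≤ τ₂ → (∀ i, 2 * (R * H) ≤ v i * τ₁) →
      (∀ i, 2 * (v i * τ₂) ≤ Z) → Z ^ (1 + ε) ≤ X → 1 ≤ Y → Y ≤ X →
      ∃ g : ℝ → ℝ, IntegrableOn g (Icc τ₁ τ₂) ∧ (∀ τ ∈ Icc τ₁ τ₂, ‖RM a v w H X Y τ‖ ≤ g τ) ∧
      ∫ τ in Icc τ₁ τ₂, g τ ≤ K * B ^ (r + 3) *
        ((((1 + Real.log X) ^ 3 * (H / √Y + √(X * Y)) + H * H ^ (-(1 / 2) + ε)) *
          ((1 + Real.log X) ^ 3 * (H + √X)) ^ r) * (H * (X * (1 + Real.log X) ^ 7)) +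
         (τ₂ - τ₁) * ((Y : ℝ) ^ (2 * (r + 3) + A) * (1 + Real.log X) ^ (r + 3) * H ^ (r + 1))) := by
  classical
  obtain ⟨K₁, hK₁, h1⟩ := blk_diff (r := r) ha hR hε hε2
  obtain ⟨K₂, hK₂, h2⟩ := blk_off (r := r) ha hk hA hA1 hR
  obtain ⟨C, hC, h3⟩ := sq_bound hε
  obtain ⟨v₀, hv₀, hvv⟩ : ∃ v₀ : ℝ, 0 < v₀ ∧ ∀ i, v₀ ≤ v i := by
    obtain ⟨i, -, hi⟩ := Finset.exists_min_image Finset.univ v ⟨0, Finset.mem_univ _⟩
    exact ⟨v i, hv i, fun j => hi j (Finset.mem_univ _)⟩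
  obtain ⟨P₀, hP₀⟩ : ∃ P₀ : ℝ, P₀ = (r + 3) * (2 * (R / v₀) * C * 4) := ⟨_, rfl⟩
  have hP₀0 : 0 ≤ P₀ := by rw [hP₀]; positivity
  refine ⟨K₁ * P₀ + K₂ + 1, by positivity, fun B w H τ₁ τ₂ Z X Y hw hB1 hH hτ₁ hτ hs hZ hX hY hYX => ?_⟩
  have hB : 0 ≤ B := (hw 0).hB
  obtain ⟨P, hP⟩ : ∃ P : ℝ, P = (r + 3) * (2 * (R / v₀) * B ^ 2 * C * 4) := ⟨_, rfl⟩
  have hP0 : 0 ≤ P := by rw [hP]; positivity
  have hPP : P = P₀ * B ^ 2 := by rw [hP, hP₀]; ring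
  have hH0 : 0 < H := by linarith
  have hRH : H ≤ R * H := by nlinarith
  have hX1 : 1 ≤ X := hY.trans hYX
  have hX0 : (1 : ℝ) ≤ X := by exact_mod_cast hX1
  have hlX : 0 ≤ Real.log X := Real.log_nonneg hX0
  have hvτ : ∀ i, v i * τ₁ ≤ v i * τ₂ := fun i => mul_le_mul_of_nonneg_left hτ (hv i).le
  have hZ1 : 1 ≤ Z := by linarith [hs 0, hvτ 0, hZ 0]
  have hZX : Z ≤ X := by
    refine le_trans ?_ hX
    calc Z = Z ^ (1 : ℝ) := (Real.rpow_one Z).symm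
      _ ≤ Z ^ (1 + ε) := Real.rpow_le_rpow_of_exponent_le hZ1 (by linarith)
  have hlZ : 0 ≤ Real.log Z := Real.log_nonneg hZ1
  have hlZX : Real.log Z ≤ Real.log X := Real.log_le_log (by linarith) hZX
  have hs2 : ∀ τ ∈ Icc τ₁ τ₂, ∀ i, 2 * (R * H) ≤ v i * τ := fun τ hτ' i =>
    (hs i).trans (mul_le_mul_of_nonneg_left hτ'.1 (hv i).le)
  have hXs : ∀ τ ∈ Icc τ₁ τ₂, ∀ i, (2 * (v i * τ)) ^ (1 + ε) ≤ X := by
    intro τ hτ' i
    refine le_trans (Real.rpow_le_rpow ?_ ?_ (by linarith)) hX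
    · have : 0 < τ := hτ₁.trans_le hτ'.1
      have := hv i
      positivity
    · have : v i * τ ≤ v i * τ₂ := mul_le_mul_of_nonneg_left hτ'.2 (hv i).le
      linarith [hZ i]
  obtain ⟨Q, hQ⟩ : ∃ Q : ℝ, Q = ((1 + Real.log X) ^ 3 * (H / √Y + √(X * Y)) + H * H ^ (-(1 / 2) + ε)) *
          ((1 + Real.log X) ^ 3 * (H + √X)) ^ r := ⟨_, rfl⟩
  have hQ0 : 0 ≤ Q := by rw [hQ]; positivity
  obtain ⟨W, hW⟩ : ∃ W : ℝ, W = (Y : ℝ) ^ (2 * (r + 3) + A) * (1 + Real.log X) ^ (r + 3) * H ^ (r + 1) := ⟨_, rfl⟩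
  have hW0 : 0 ≤ W := by rw [hW]; positivity
  obtain ⟨N, hN⟩ : ∃ N : ℝ → ℝ, N = fun τ => ∑ i, ((∫ x, ‖GG (w i) (v i * τ) H x‖ ^ 2) +
    ∫ x, ‖GB (w i) (v i * τ) H X Y x‖ ^ 2) := ⟨_, rfl⟩
  have hsq := fun i => h3 (w i) R B H (v i) τ₁ τ₂ Z X Y (hw i) hH0 (hv i) hτ (by linarith [hs i])
    (by linarith [hs i, hvτ i, hZ i]) hY hYX
  have hNi : IntegrableOn N (Icc τ₁ τ₂) := by
    rw [hN]
    exact integrable_finsetSum _ fun i _ => (hsq i).1.1.add (hsq i).2.1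
  have hNint : ∫ τ in Icc τ₁ τ₂, N τ ≤ P * (H * (X * (1 + Real.log X) ^ 7)) := by
    have hs1 : ∀ i : Fin (r + 3), Integrable (fun τ : ℝ => (∫ x, ‖GG (w i) (v i * τ) H x‖ ^ 2) +
        ∫ x, ‖GB (w i) (v i * τ) H X Y x‖ ^ 2) (volume.restrict (Icc τ₁ τ₂)) :=
      fun i => (hsq i).1.1.add (hsq i).2.1
    rw [hN, integral_finsetSum _ fun i _ => hs1 i]
    have hterm : ∀ i : Fin (r + 3), ∫ τ in Icc τ₁ τ₂, ((∫ x, ‖GG (w i) (v i * τ) H x‖ ^ 2) +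
        ∫ x, ‖GB (w i) (v i * τ) H X Y x‖ ^ 2) ≤ (2 * (R / v₀) * B ^ 2 * C * 4) * (H * (X * (1 + Real.log X) ^ 7)) := by
      intro i
      rw [integral_add (hsq i).1.1 (hsq i).2.1]
      have e1 : 2 * (R * H / v i) * B ^ 2 ≤ (2 * (R / v₀) * B ^ 2) * H := by
        have e2 : R * H / v i ≤ R * H / v₀ := div_le_div_of_nonneg_left (by positivity) hv₀ (hvv i)
        calc 2 * (R * H / v i) * B ^ 2 ≤ 2 * (R * H / v₀) * B ^ 2 := by gcongr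
          _ = _ := by ring
      have e3 : (1 : ℝ) ≤ (1 + Real.log X) ^ 7 := one_le_pow₀ (by linarith)
      have e4 : C * Z ^ (1 + ε) ≤ C * (X * (1 + Real.log X) ^ 7) := by
        refine mul_le_mul_of_nonneg_left (hX.trans ?_) hC.le
        nlinarith
      have e5 : C * (Z + X) * (1 + Real.log X) ^ 5 * (1 + Real.log Z) ^ 2 ≤ C * (2 * (X * (1 + Real.log X) ^ 7)) := by
        calc C * (Z + X) * (1 + Real.log X) ^ 5 * (1 + Real.log Z) ^ 2 ≤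
            C * (X + X) * (1 + Real.log X) ^ 5 * (1 + Real.log X) ^ 2 := by gcongr
          _ = _ := by ring
      have e6 : 0 ≤ C * (X * (1 + Real.log X) ^ 7) := by positivity
      calc _ ≤ 2 * (R * H / v i) * B ^ 2 * (C * Z ^ (1 + ε)) +
            2 * (R * H / v i) * B ^ 2 * (C * (Z + X) * (1 + Real.log X) ^ 5 * (1 + Real.log Z) ^ 2) :=
            add_le_add (hsq i).1.2 (hsq i).2.2
        _ ≤ 2 * (R * H / v i) * B ^ 2 * (C * (X * (1 + Real.log X) ^ 7)) +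
            2 * (R * H / v i) * B ^ 2 * (C * (2 * (X * (1 + Real.log X) ^ 7))) := by
            have := hv i
            gcongr
        _ = (2 * (R * H / v i) * B ^ 2) * (3 * (C * (X * (1 + Real.log X) ^ 7))) := by ring
        _ ≤ ((2 * (R / v₀) * B ^ 2) * H) * (4 * (C * (X * (1 + Real.log X) ^ 7))) := by
            refine mul_le_mul e1 (by linarith) (by positivity) (by positivity)
        _ = _ := by ring
    refine (Finset.sum_le_sum fun i _ => hterm i).trans (le_of_eq ?_)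
    rw [Finset.sum_const, Finset.card_univ, Fintype.card_fin, nsmul_eq_mul, hP]
    push_cast
    ring
  have hb : ∀ τ ∈ Icc τ₁ τ₂, ‖RM a v w H X Y τ‖ ≤ K₁ * B ^ (r + 1) * Q * N τ + K₂ * B ^ (r + 3) * W := by
    intro τ hτ'
    have g1 := h1 B w v H τ X Y hw hH (hs2 τ hτ') (hXs τ hτ') hY hYX
    have g2 := h2 B w v H τ X Y hw hH (hs2 τ hτ') hY hYX
    unfold RM
    have e1 : HI (m := r + 2) a (fun i => GG (w i) (v i * τ) H) - ∑ ρ ∈ RT a Y, ((DD (m := r + 2) a v w H X ρ τ : ℝ) : ℂ) =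
        (HI (m := r + 2) a (fun i => GG (w i) (v i * τ) H) - HI (m := r + 2) a (fun i => GB (w i) (v i * τ) H X Y)) +
        (HI (m := r + 2) a (fun i => GB (w i) (v i * τ) H X Y) - ∑ ρ ∈ RT a Y, ((DD (m := r + 2) a v w H X ρ τ : ℝ) : ℂ)) := by
      ring
    rw [e1]
    refine (norm_add_le _ _).trans (add_le_add (g1.trans (le_of_eq ?_)) (g2.trans (le_of_eq ?_)))
    · rw [hQ, hN]
    · rw [hW]
  have hbi : IntegrableOn (fun τ => K₁ * B ^ (r + 1) * Q * N τ + K₂ * B ^ (r + 3) * W) (Icc τ₁ τ₂) :=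
    (hNi.const_mul _).add (integrableOn_const (by rw [Real.volume_Icc]; exact ENNReal.ofReal_ne_top))
  refine ⟨_, hbi, hb, ?_⟩
  rw [integral_add (hNi.const_mul _) (integrableOn_const (by rw [Real.volume_Icc]; exact ENNReal.ofReal_ne_top)),
    integral_const_mul, setIntegral_const, Measure.real, Real.volume_Icc, ENNReal.toReal_ofReal (by linarith), smul_eq_mul,
    ← hQ, ← hW]
  obtain ⟨Z', hZ'⟩ : ∃ Z' : ℝ, Z' = H * (X * (1 + Real.log X) ^ 7) := ⟨_, rfl⟩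
  rw [← hZ'] at hNint ⊢
  have hZ'0 : 0 ≤ Z' := by rw [hZ']; positivity
  have f1 : K₁ * B ^ (r + 1) * Q * ∫ τ in Icc τ₁ τ₂, N τ ≤ K₁ * P₀ * B ^ (r + 3) * (Q * Z') := by
    calc K₁ * B ^ (r + 1) * Q * ∫ τ in Icc τ₁ τ₂, N τ ≤ K₁ * B ^ (r + 1) * Q * (P * Z') :=
          mul_le_mul_of_nonneg_left hNint (by positivity)
      _ = _ := by rw [hPP, show r + 3 = (r + 1) + 2 by ring, pow_add B (r + 1) 2]; ring
  have f2 : 0 ≤ Q * Z' := by positivity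
  have f3 : 0 ≤ (τ₂ - τ₁) * W := mul_nonneg (by linarith) hW0
  have hBp : 0 ≤ B ^ (r + 3) := by positivity
  calc (K₁ * B ^ (r + 1) * Q * ∫ τ in Icc τ₁ τ₂, N τ) + (τ₂ - τ₁) * (K₂ * B ^ (r + 3) * W) ≤
      K₁ * P₀ * B ^ (r + 3) * (Q * Z') + K₂ * B ^ (r + 3) * ((τ₂ - τ₁) * W) := by
        have : (τ₂ - τ₁) * (K₂ * B ^ (r + 3) * W) = K₂ * B ^ (r + 3) * ((τ₂ - τ₁) * W) := by ring
        linarith
    _ ≤ (K₁ * P₀ + K₂ + 1) * B ^ (r + 3) * (Q * Z') + (K₁ * P₀ + K₂ + 1) * B ^ (r + 3) * ((τ₂ - τ₁) * W) := by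
        have h5 : 0 ≤ K₁ * P₀ := by positivity
        refine add_le_add (mul_le_mul_of_nonneg_right (mul_le_mul_of_nonneg_right (by linarith) hBp) f2)
          (mul_le_mul_of_nonneg_right (mul_le_mul_of_nonneg_right (by linarith) hBp) f3)
    _ = _ := by ring

/-! ### asymptotics -/

/-- the length of the Dirichlet polynomial -/
noncomputable def XX (c δ T : ℝ) : ℕ := ⌈(c * T) ^ (1 + δ)⌉₊

/-- the bound for the heights on the diagonal -/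
noncomputable def YY (η T : ℝ) : ℕ := ⌊T ^ η⌋₊

lemma XX_ge (c δ T : ℝ) : (c * T) ^ (1 + δ) ≤ (XX c δ T : ℝ) := Nat.le_ceil _

lemma XX_le {c δ : ℝ} (hc : 0 < c) (hδ : 0 < δ) : ∀ᶠ T : ℝ in atTop, (XX c δ T : ℝ) ≤ T ^ (1 + 2 * δ) := by
  have h1 : ∀ᶠ T : ℝ in atTop, 2 * c ^ (1 + δ) ≤ T ^ δ := (tendsto_rpow_atTop hδ).eventually_ge_atTop _
  filter_upwards [h1, eventually_ge_atTop 1, eventually_ge_atTop (1 / c)] with T hT hT1 hTc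
  have hT0 : 0 < T := by linarith
  have hcT : 1 ≤ c * T := by rw [div_le_iff₀ hc] at hTc; linarith
  have h2 : 1 ≤ (c * T) ^ (1 + δ) := Real.one_le_rpow hcT (by linarith)
  have h3 : (XX c δ T : ℝ) ≤ (c * T) ^ (1 + δ) + 1 := (Nat.ceil_lt_add_one (by linarith)).le
  have h4 : (c * T) ^ (1 + δ) = c ^ (1 + δ) * T ^ (1 + δ) := Real.mul_rpow hc.le hT0.le
  have h5 : T ^ (1 + 2 * δ) = T ^ (1 + δ) * T ^ δ := by rw [← Real.rpow_add hT0]; ring_nf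
  have h6 : 0 < T ^ (1 + δ) := by positivity
  rw [h5]
  nlinarith

lemma XX_pos {c δ : ℝ} (hc : 0 < c) (hδ : 0 < δ) : ∀ᶠ T : ℝ in atTop, 1 ≤ XX c δ T := by
  filter_upwards [eventually_ge_atTop (1 / c)] with T hTc
  have hcT : 1 ≤ c * T := by rw [div_le_iff₀ hc] at hTc; linarith
  have h2 : 1 ≤ (c * T) ^ (1 + δ) := Real.one_le_rpow hcT (by linarith)
  exact_mod_cast h2.trans (XX_ge c δ T)

lemma XX_log {c δ : ℝ} (hc : 0 < c) (hδ : 0 < δ) : ∀ᶠ T : ℝ in atTop, 1 + Real.log (XX c δ T) ≤ T ^ δ := by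
  have h1 : ∀ᶠ T : ℝ in atTop, (1 + 2 * δ) * Real.log T ≤ (1 / 2) * T ^ δ := by
    have h2 := (isLittleO_log_rpow_atTop hδ).bound (show 0 < (1 / 2) / (1 + 2 * δ) by positivity)
    filter_upwards [h2, eventually_gt_atTop 1] with T hT hT1
    have hl : 0 < Real.log T := Real.log_pos hT1
    rw [Real.norm_of_nonneg hl.le, Real.norm_of_nonneg (by positivity), div_mul_eq_mul_div, le_div_iff₀ (by positivity)] at hT
    linarith
  have h3 : ∀ᶠ T : ℝ in atTop, 2 ≤ T ^ δ := (tendsto_rpow_atTop hδ).eventually_ge_atTop _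
  filter_upwards [h1, h3, XX_le hc hδ, XX_pos hc hδ, eventually_gt_atTop 1] with T hT1 hT2 hT3 hT4 hT5
  have h4 : (0 : ℝ) < XX c δ T := by exact_mod_cast hT4
  have h5 := Real.log_le_log h4 hT3
  rw [Real.log_rpow (by linarith)] at h5
  linarith

lemma YY_bd {η : ℝ} (hη : 0 < η) : ∀ᶠ T : ℝ in atTop, T ^ η / 2 ≤ (YY η T : ℝ) ∧ (YY η T : ℝ) ≤ T ^ η ∧ 1 ≤ YY η T := by
  have h3 : ∀ᶠ T : ℝ in atTop, 2 ≤ T ^ η := (tendsto_rpow_atTop hη).eventually_ge_atTop _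
  filter_upwards [h3] with T hT
  have h1 : T ^ η < (YY η T : ℝ) + 1 := Nat.lt_floor_add_one _
  have h2 : (YY η T : ℝ) ≤ T ^ η := Nat.floor_le (by linarith)
  refine ⟨by linarith, h2, ?_⟩
  exact (Nat.one_le_floor_iff _).2 (by linarith)

end Pool.Agent.J4.H39.HM
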