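import Pool.Agent.J4.H39.HM.Cra
import Pool.Agent.J4.H39.HM.Err

/-!
# The diagonal terms
-/

set_option autoImplicit false

namespace Pool.Agent.J4.H39.HM

open MeasureTheory Set Topology
open Filter hiding mk
open Pool.Agent.Y969.GP Pool.Agent.N879.GD

variable {m : ℕ}

/-- the dependent coordinate -/
noncomputable def y0 (a : Fin (m + 1) → ℤ) (y : Fin m → ℝ) : ℝ := -(∑ j, (a j.succ : ℝ) * y j) / a 0

/-- all the coordinates -/
noncomputable def yy (a : Fin (m + 1) → ℤ) (y : Fin m → ℝ) : Fin (m + 1) → ℝ := Fin.cons (y0 a y) y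

lemma dd_eq {a : Fin (m + 1) → ℤ} (ha : a 0 ≠ 0) {v : Fin (m + 1) → ℝ} (hav : ∑ i, (a i : ℝ) * v i = 0)
    (w : Fin (m + 1) → ℝ → ℝ) (X : ℕ) {H : ℝ} (hH : 0 < H) (ρ : ℕ × ℕ) (τ : ℝ) :
    DD a v w H X ρ τ = H ^ m * ∫ y : Fin m → ℝ, ∏ i, (w i (yy a y i) * cr X (pw ρ (a i)) (v i * τ + H * yy a y i)) := by
  have ha' : (a 0 : ℝ) ≠ 0 := by exact_mod_cast ha
  obtain ⟨F, hF⟩ : ∃ F : (Fin m → ℝ) → ℝ, F = fun x => (∏ j, (w j.succ ((x j - v j.succ * τ) / H) *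
      cr X (pw ρ (a j.succ)) (x j))) *
    (w 0 ((-(∑ j, (a j.succ : ℝ) * x j) / a 0 - v 0 * τ) / H) *
      cr X (pw ρ (a 0)) (-(∑ j, (a j.succ : ℝ) * x j) / a 0)) := ⟨_, rfl⟩
  have h1 : DD a v w H X ρ τ = ∫ x, F x := by rw [hF]; rfl
  obtain ⟨b, hb⟩ : ∃ b : Fin m → ℝ, b = fun j => v j.succ * τ := ⟨_, rfl⟩
  have h2 : ∫ y : Fin m → ℝ, F (b + H • y) = |(H ^ m)⁻¹| * ∫ x, F x := by
    have e1 := MeasureTheory.Measure.integral_comp_smul (μ := volume) (fun x : Fin m → ℝ => F (b + x)) H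
    rw [Module.finrank_fin_fun] at e1
    rw [e1, integral_add_left_eq_self (fun x => F x) b, smul_eq_mul]
  have h3 : ∫ x, F x = H ^ m * ∫ y : Fin m → ℝ, F (b + H • y) := by
    rw [h2, abs_of_pos (by positivity), ← mul_assoc, mul_inv_cancel₀ (by positivity), one_mul]
  rw [h1, h3]
  refine congrArg (fun t => H ^ m * t) ?_
  refine integral_congr_ae (Filter.Eventually.of_forall fun y => ?_)
  simp only
  rw [Fin.prod_univ_succ, hF]
  simp only [yy, Fin.cons_zero, Fin.cons_succ]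
  have e0 : -(∑ j : Fin m, (a j.succ : ℝ) * (b + H • y) j) / a 0 = v 0 * τ + H * y0 a y := by
    have e2 : ∑ j : Fin m, (a j.succ : ℝ) * (b + H • y) j =
        (∑ j : Fin m, (a j.succ : ℝ) * v j.succ) * τ + H * ∑ j : Fin m, (a j.succ : ℝ) * y j := by
      rw [Finset.sum_mul, Finset.mul_sum, ← Finset.sum_add_distrib]
      refine Finset.sum_congr rfl fun j _ => ?_
      simp only [Pi.add_apply, Pi.smul_apply, smul_eq_mul, hb]
      ring
    rw [e2]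
    rw [Fin.sum_univ_succ] at hav
    have e3 : ∑ j : Fin m, (a j.succ : ℝ) * v j.succ = -((a 0 : ℝ) * v 0) := by linarith
    rw [e3]
    unfold y0
    field_simp
    ring
  rw [e0, mul_comm]
  congr 1
  · congr 1
    · congr 1
      field_simp
      ring
  · refine Finset.prod_congr rfl fun j _ => ?_
    simp only [Pi.add_apply, Pi.smul_apply, smul_eq_mul, hb]
    congr 1
    congr 1
    field_simp
    ring

/-- half the sum of the absolute values of the coefficients -/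
noncomputable def sx (a : Fin (m + 1) → ℤ) : ℝ := (∑ i, ((a i).natAbs : ℝ)) / 2

/-- the singular integral -/
noncomputable def Om (a : Fin (m + 1) → ℤ) (w : Fin (m + 1) → ℝ → ℝ) : ℝ :=
  ∫ y : Fin m → ℝ, ∏ i, w i (yy a y i)

/-- the main term -/
noncomputable def MT (a : Fin (m + 1) → ℤ) (v : Fin (m + 1) → ℝ) (τ : ℝ) : ℝ :=
  ∑' ρ : ℕ × ℕ, if Nat.Coprime ρ.1 ρ.2 then (ht ρ) ^ (-(sx a)) *
    ∏ i, (Real.log (v i * τ / (2 * Real.pi)) + 2 * eγ - (a i).natAbs * Real.log (ht ρ)) else 0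

lemma yy_cont (a : Fin (m + 1) → ℤ) (i : Fin (m + 1)) : Continuous fun y : Fin m → ℝ => yy a y i := by
  refine Fin.cases ?_ (fun j => ?_) i
  · simp only [yy, Fin.cons_zero]
    unfold y0
    fun_prop
  · simp only [yy, Fin.cons_succ]
    fun_prop

lemma abs_int {w : ℝ → ℝ} {R B : ℝ} (hw : Wt w R B) : (Integrable fun x => |w x|) ∧ ∫ x, |w x| ≤ 2 * R * B := by
  have hz : ∀ x, x ∉ Icc (0 - R) (0 + R) → w x = 0 := by
    intro x hx
    apply hw.supp x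
    by_contra hcon
    rw [not_lt, abs_le] at hcon
    exact hx ⟨by linarith [hcon.1], by linarith [hcon.2]⟩
  constructor
  · refine hw.diff.continuous.abs.integrable_of_hasCompactSupport ?_
    exact HasCompactSupport.intro (isCompact_Icc (a := 0 - R) (b := 0 + R)) fun x hx => by rw [hz x hx, abs_zero]
  · exact int_win (f := w) (s := 0) (by linarith [hw.hR]) hz fun x _ => hw.bd x

lemma bnd_int {a : Fin (m + 1) → ℤ} {w : Fin (m + 1) → ℝ → ℝ} {R B : ℝ} (hw : ∀ i, Wt (w i) R B) :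
    (Integrable fun y : Fin m → ℝ => ∏ i, |w i (yy a y i)|) ∧
    ∫ y : Fin m → ℝ, ∏ i, |w i (yy a y i)| ≤ B * (2 * R * B) ^ m := by
  have h1 : Integrable fun y : Fin m → ℝ => ∏ j : Fin m, |w j.succ (y j)| :=
    Integrable.fintype_prod (f := fun j x => |w (Fin.succ j) x|) fun j => (abs_int (hw j.succ)).1
  have h2 := h1.bdd_mul (f := fun y : Fin m → ℝ => |w 0 (y0 a y)|) (c := B)
    (((hw 0).diff.continuous.abs.comp (by simpa [yy] using yy_cont a 0)).aestronglyMeasurable)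
    (Filter.Eventually.of_forall fun y => by rw [Real.norm_eq_abs, abs_abs]; exact (hw 0).bd _)
  have e : (fun y : Fin m → ℝ => ∏ i, |w i (yy a y i)|) = fun y => |w 0 (y0 a y)| * ∏ j : Fin m, |w j.succ (y j)| := by
    funext y
    simp only [Fin.prod_univ_succ, yy, Fin.cons_zero, Fin.cons_succ]
  have hB := (hw 0).hB
  have hR := (hw 0).hR
  rw [e]
  refine ⟨h2, ?_⟩
  calc ∫ y : Fin m → ℝ, |w 0 (y0 a y)| * ∏ j : Fin m, |w j.succ (y j)| ≤
      ∫ y : Fin m → ℝ, B * ∏ j : Fin m, |w j.succ (y j)| := by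
        refine integral_mono h2 (h1.const_mul B) fun y => ?_
        exact mul_le_mul_of_nonneg_right ((hw 0).bd _) (Finset.prod_nonneg fun _ _ => abs_nonneg _)
    _ = B * ∏ j : Fin m, ∫ x, |w j.succ x| := by
        rw [integral_const_mul, integral_fintype_prod_volume_eq_prod (f := fun (j : Fin m) x => |w j.succ x|)]
    _ ≤ B * ∏ _j : Fin m, (2 * R * B) := by
        refine mul_le_mul_of_nonneg_left (Finset.prod_le_prod (fun j _ => integral_nonneg fun _ => abs_nonneg _)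
          fun j _ => (abs_int (hw j.succ)).2) hB
    _ = _ := by rw [Finset.prod_const, Finset.card_univ, Fintype.card_fin]

lemma om_int {a : Fin (m + 1) → ℤ} {w : Fin (m + 1) → ℝ → ℝ} {R B : ℝ} (hw : ∀ i, Wt (w i) R B) :
    (Integrable fun y : Fin m → ℝ => ∏ i, w i (yy a y i)) ∧ |Om a w| ≤ B * (2 * R * B) ^ m := by
  obtain ⟨h1, h2⟩ := bnd_int (a := a) hw
  have hc : Continuous fun y : Fin m → ℝ => ∏ i, w i (yy a y i) :=
    continuous_finsetProd _ fun i _ => (hw i).diff.continuous.comp (yy_cont a i)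
  have hle : ∀ y : Fin m → ℝ, ‖∏ i, w i (yy a y i)‖ ≤ ∏ i, |w i (yy a y i)| := fun y => by
    rw [Real.norm_eq_abs, Finset.abs_prod]
  refine ⟨h1.mono' hc.aestronglyMeasurable (Filter.Eventually.of_forall hle), ?_⟩
  unfold Om
  rw [← Real.norm_eq_abs]
  exact (norm_integral_le_of_norm_le h1 (Filter.Eventually.of_forall hle)).trans h2

lemma ht_prod {a : Fin (m + 1) → ℤ} {ρ : ℕ × ℕ} (h1 : 1 ≤ ρ.1) (h2 : 1 ≤ ρ.2) :
    ∏ i, (√(ht (pw ρ (a i))))⁻¹ = (ht ρ) ^ (-(sx a)) := by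
  have hht : 0 < ht ρ := Pool.Agent.Y545.GP.ht_pos h1 h2
  have e1 : ∀ i, (√(ht (pw ρ (a i))))⁻¹ = (ht ρ) ^ (-(((a i).natAbs : ℝ) / 2)) := by
    intro i
    rw [ht_pw, Real.sqrt_eq_rpow, ← Real.rpow_natCast, ← Real.rpow_mul hht.le, ← Real.rpow_neg hht.le]
    congr 1
    ring
  simp only [e1]
  rw [← Real.rpow_sum_of_pos hht]
  congr 1
  unfold sx
  rw [Finset.sum_neg_distrib, Finset.sum_div]

lemma ht_eq (ρ : ℕ × ℕ) (s : ℝ) : (ht ρ) ^ (-s) = (ρ.1 : ℝ) ^ (-s) * (ρ.2 : ℝ) ^ (-s) := by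
  unfold ht
  rw [Real.mul_rpow (Nat.cast_nonneg _) (Nat.cast_nonneg _)]

lemma ht_summable {s : ℝ} (hs : 1 < s) : Summable fun ρ : ℕ × ℕ => (ht ρ) ^ (-s) := by
  have h1 : Summable fun n : ℕ => (n : ℝ) ^ (-s) := Real.summable_nat_rpow.2 (by linarith)
  have h2 := h1.mul_of_nonneg h1 (fun n => by positivity) (fun n => by positivity)
  exact h2.congr fun ρ => (ht_eq ρ s).symm

lemma ht_nn (ρ : ℕ × ℕ) : 0 ≤ ht ρ := by unfold ht; positivity

lemma ht_cases (ρ : ℕ × ℕ) : ht ρ = 0 ∨ (1 ≤ ρ.1 ∧ 1 ≤ ρ.2 ∧ 1 ≤ ht ρ) := by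
  by_cases h1 : 1 ≤ ρ.1
  · by_cases h2 : 1 ≤ ρ.2
    · right
      refine ⟨h1, h2, ?_⟩
      unfold ht
      have e1 : (1 : ℝ) ≤ ρ.1 := by exact_mod_cast h1
      have e2 : (1 : ℝ) ≤ ρ.2 := by exact_mod_cast h2
      nlinarith
    · left
      have : ρ.2 = 0 := by omega
      unfold ht
      rw [this, Nat.cast_zero, mul_zero]
  · left
    have : ρ.1 = 0 := by omega
    unfold ht
    rw [this, Nat.cast_zero, zero_mul]

/-- powers of logarithms -/
lemma log_pow_le (n : ℕ) {x : ℝ} (hx : 1 ≤ x) : (1 + Real.log x) ^ n ≤ (8 * n + 9) ^ n * x ^ (1 / 8 : ℝ) := by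
  obtain ⟨ε, hε⟩ : ∃ ε : ℝ, ε = 1 / (8 * (n + 1)) := ⟨_, rfl⟩
  have hε0 : 0 < ε := by rw [hε]; positivity
  have hx0 : 0 < x := by linarith
  have h1 : Real.log x ≤ x ^ ε / ε := Real.log_le_rpow_div hx0.le hε0
  have h2 : 1 ≤ x ^ ε := Real.one_le_rpow hx hε0.le
  have h3 : 1 + Real.log x ≤ (8 * n + 9) * x ^ ε := by
    have e1 : x ^ ε / ε = 8 * (n + 1) * x ^ ε := by rw [hε]; field_simp
    rw [e1] at h1
    nlinarith
  have h4 : 0 ≤ 1 + Real.log x := by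
    have := Real.log_nonneg hx
    linarith
  refine (pow_le_pow_left₀ h4 h3 n).trans ?_
  rw [mul_pow]
  refine mul_le_mul_of_nonneg_left ?_ (by positivity)
  rw [← Real.rpow_natCast, ← Real.rpow_mul hx0.le]
  refine Real.rpow_le_rpow_of_exponent_le hx ?_
  rw [hε, div_mul_eq_mul_div, one_mul, div_le_div_iff₀ (by positivity) (by norm_num)]
  linarith

/-- the terms of the main term -/
lemma term_bd {s : ℝ} (hs : 3 / 2 ≤ s) (n : ℕ) {x Z : ℝ} (hx : 1 ≤ x) (hZ : 1 ≤ Z) (hZx : Z ≤ x) :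
    x ^ (-s) * (1 + Real.log x) ^ n ≤ (8 * n + 9) ^ n * x ^ (-(5 / 4) : ℝ) * Z ^ (-(1 / 8) : ℝ) := by
  have hx0 : 0 < x := by linarith
  have hZ0 : 0 < Z := by linarith
  have h1 : x ^ (-s) ≤ x ^ (-(3 / 2) : ℝ) := Real.rpow_le_rpow_of_exponent_le hx (by linarith)
  have h2 := log_pow_le n hx
  have h3 : 0 ≤ (1 + Real.log x) ^ n := by
    have := Real.log_nonneg hx
    positivity
  have h4 : x ^ (-(1 / 8) : ℝ) ≤ Z ^ (-(1 / 8) : ℝ) := Real.rpow_le_rpow_of_nonpos hZ0 hZx (by norm_num)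
  calc x ^ (-s) * (1 + Real.log x) ^ n ≤ x ^ (-(3 / 2) : ℝ) * ((8 * n + 9) ^ n * x ^ (1 / 8 : ℝ)) :=
        mul_le_mul h1 h2 h3 (by positivity)
    _ = (8 * n + 9) ^ n * (x ^ (-(3 / 2) : ℝ) * x ^ (1 / 8 : ℝ)) := by ring
    _ = (8 * n + 9) ^ n * (x ^ (-(5 / 4) : ℝ) * x ^ (-(1 / 8) : ℝ)) := by
        rw [← Real.rpow_add hx0, ← Real.rpow_add hx0]
        norm_num
    _ ≤ (8 * n + 9) ^ n * (x ^ (-(5 / 4) : ℝ) * Z ^ (-(1 / 8) : ℝ)) := by gcongr
    _ = _ := by ring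

end Pool.Agent.J4.H39.HM
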