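import Pool.Agent.J4.H39.HM.Sharp

/-!
# The moments on hyperplanes with sharp cutoffs
-/

set_option autoImplicit false

namespace Pool.Agent.J4.H39.HM

open MeasureTheory Set Topology
open Filter hiding mk
open Pool.Agent.Y969.GP Pool.Agent.N879.GD

/-- the logarithms -/
lemma lm_bd {m : ℕ} {v : Fin (m + 1) → ℝ} (hv : ∀ i, 0 < v i) {α β : ℝ} (hα : 0 < α) (hβ : 0 < β) :
    ∀ᶠ T : ℝ in atTop, ∀ τ ∈ Icc (α * T) (β * T), ∀ i, |Real.log (v i * τ / (2 * Real.pi)) + 2 * eγ| ≤ 2 * Real.log T := by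
  have hpi := Real.pi_pos
  have h1 : ∀ i, ∀ᶠ T : ℝ in atTop, ∀ τ ∈ Icc (α * T) (β * T), |Real.log (v i * τ / (2 * Real.pi)) + 2 * eγ| ≤ 2 * Real.log T := by
    intro i
    have hvi := hv i
    filter_upwards [eventually_gt_atTop 0, Real.tendsto_log_atTop.eventually_ge_atTop
      (|Real.log (v i * α / (2 * Real.pi))| + |Real.log (v i * β / (2 * Real.pi))| + |2 * eγ|)] with T hT0 hT τ hτ
    have hτ0 : 0 < τ := (by positivity : 0 < α * T).trans_le hτ.1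
    have e1 : Real.log (v i * α / (2 * Real.pi)) + Real.log T ≤ Real.log (v i * τ / (2 * Real.pi)) := by
      rw [← Real.log_mul (by positivity) hT0.ne']
      refine Real.log_le_log (by positivity) ?_
      rw [div_mul_eq_mul_div]
      refine div_le_div_of_nonneg_right ?_ (by positivity)
      calc v i * α * T = v i * (α * T) := by ring
        _ ≤ v i * τ := mul_le_mul_of_nonneg_left hτ.1 hvi.le
    have e2 : Real.log (v i * τ / (2 * Real.pi)) ≤ Real.log (v i * β / (2 * Real.pi)) + Real.log T := by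
      rw [← Real.log_mul (by positivity) hT0.ne']
      refine Real.log_le_log (by positivity) ?_
      rw [div_mul_eq_mul_div]
      refine div_le_div_of_nonneg_right ?_ (by positivity)
      calc v i * τ ≤ v i * (β * T) := mul_le_mul_of_nonneg_left hτ.2 hvi.le
        _ = _ := by ring
    have e3 := neg_abs_le (Real.log (v i * α / (2 * Real.pi)))
    have e4 := le_abs_self (Real.log (v i * β / (2 * Real.pi)))
    have e5 := abs_nonneg (Real.log (v i * α / (2 * Real.pi)))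
    have e6 := abs_nonneg (Real.log (v i * β / (2 * Real.pi)))
    have e7 := neg_abs_le (2 * eγ)
    have e8 := le_abs_self (2 * eγ)
    rw [abs_le]
    constructor <;> linarith
  filter_upwards [Filter.eventually_all.2 h1] with T hT τ hτ i
  exact hT i τ hτ

/-- the size of the main term -/
lemma MT_bd {m : ℕ} {a : Fin (m + 1) → ℤ} (hs : 3 / 2 ≤ sx a) {v : Fin (m + 1) → ℝ} (hv : ∀ i, 0 < v i) {α β : ℝ}
    (hα : 0 < α) (hβ : 0 < β) : ∃ C : ℝ, 0 < C ∧ ∀ᶠ T : ℝ in atTop, ∀ τ ∈ Icc (α * T) (β * T),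
      |MT a v τ| ≤ C * (Real.log T) ^ (m + 1) := by
  obtain ⟨A, hA⟩ : ∃ A : ℕ, ∀ i, (a i).natAbs ≤ A := ⟨∑ i, (a i).natAbs, fun i =>
    Finset.single_le_sum (f := fun i => (a i).natAbs) (fun _ _ => Nat.zero_le _) (Finset.mem_univ i)⟩
  obtain ⟨S2, hS2⟩ : ∃ S2 : ℝ, S2 = ∑' ρ : ℕ × ℕ, (ht ρ) ^ (-(5 / 4) : ℝ) := ⟨_, rfl⟩
  have hS20 : 0 ≤ S2 := by rw [hS2]; exact tsum_nonneg fun ρ => Real.rpow_nonneg (ht_nn ρ) _
  refine ⟨((1 + (A : ℝ)) * 2) ^ (m + 1) * (8 * ((m + 1 : ℕ) : ℝ) + 9) ^ (m + 1) * S2 + 1, by positivity, ?_⟩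
  filter_upwards [lm_bd hv hα hβ, Real.tendsto_log_atTop.eventually_ge_atTop 1] with T hT hl τ hτ
  rw [MT_eq]
  have h1 := hT τ hτ
  have h2 : ∀ ρ, ‖mt a (fun i => Real.log (v i * τ / (2 * Real.pi)) + 2 * eγ) ρ‖ ≤
      ((1 + (A : ℝ)) * (2 * Real.log T)) ^ (m + 1) * (8 * ((m + 1 : ℕ) : ℝ) + 9) ^ (m + 1) * (1 : ℝ) ^ (-(1 / 8) : ℝ) *
        (ht ρ) ^ (-(5 / 4) : ℝ) := by
    intro ρ
    rw [Real.norm_eq_abs]
    refine mt_bound hs hA (by linarith) h1 le_rfl fun h => ?_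
    rcases ht_cases ρ with h' | ⟨-, -, h3⟩
    · exact absurd h' h
    · exact h3
  have h3 := tsum_of_norm_bounded (((ht_summable (s := 5 / 4) (by norm_num)).mul_left
    (((1 + (A : ℝ)) * (2 * Real.log T)) ^ (m + 1) * (8 * ((m + 1 : ℕ) : ℝ) + 9) ^ (m + 1) *
      (1 : ℝ) ^ (-(1 / 8) : ℝ))).hasSum) h2
  rw [Real.norm_eq_abs, tsum_mul_left, ← hS2, Real.one_rpow, mul_one] at h3
  refine h3.trans ?_
  rw [show (1 + (A : ℝ)) * (2 * Real.log T) = (1 + A) * 2 * Real.log T by ring, mul_pow ((1 + (A : ℝ)) * 2)]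
  have h4 : 0 ≤ (Real.log T) ^ (m + 1) := by positivity
  nlinarith

lemma prod_near {k : ℕ} {f : Fin k → ℝ} {ε : ℝ} (h : ∀ j, |f j - 2| ≤ ε) (hε : ε ≤ 2) :
    |∏ j, f j - 2 ^ k| ≤ k * ε * 6 ^ k := by
  classical
  have h1 := prod_sub_le Finset.univ f (fun _ => (2 : ℝ))
  rw [Finset.prod_const, Finset.card_univ, Fintype.card_fin, Real.norm_eq_abs] at h1
  refine h1.trans ?_
  have h2 : ∀ i ∈ (Finset.univ : Finset (Fin k)), ‖f i - 2‖ * ∏ k ∈ Finset.univ.erase i, (‖f k‖ + ‖(2 : ℝ)‖) ≤ ε * 6 ^ k := by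
    intro i _
    have hε0 : 0 ≤ ε := (abs_nonneg _).trans (h i)
    refine mul_le_mul (h i) ?_ (Finset.prod_nonneg fun _ _ => by positivity) hε0
    calc ∏ k ∈ Finset.univ.erase i, (‖f k‖ + ‖(2 : ℝ)‖) ≤ ∏ _k ∈ Finset.univ.erase i, (6 : ℝ) := by
          refine Finset.prod_le_prod (fun _ _ => by positivity) fun j _ => ?_
          rw [Real.norm_eq_abs, Real.norm_eq_abs, abs_of_pos (by norm_num : (0 : ℝ) < 2)]
          have h3 := abs_le.1 (h j)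
          have : |f j| ≤ 4 := abs_le.2 ⟨by linarith [h3.1], by linarith [h3.2]⟩
          linarith
      _ = 6 ^ (k - 1) := by rw [Finset.prod_const, Finset.card_erase_of_mem (Finset.mem_univ i), Finset.card_univ, Fintype.card_fin]
      _ ≤ 6 ^ k := pow_le_pow_right₀ (by norm_num) (Nat.sub_le _ _)
  refine (Finset.sum_le_sum h2).trans (le_of_eq ?_)
  rw [Finset.sum_const, Finset.card_univ, Fintype.card_fin, nsmul_eq_mul]
  ring

lemma icc_diff {f : ℝ → ℝ} {L U M A B A' B' : ℝ} (hc : ContinuousOn f (Icc L U)) (hb : ∀ τ ∈ Icc L U, |f τ| ≤ M)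
    (hA : A ∈ Icc L U) (hB : B ∈ Icc L U) (hA' : A' ∈ Icc L U) (hB' : B' ∈ Icc L U) (h1 : A ≤ B) (h2 : A' ≤ B') :
    |(∫ τ in Icc A B, f τ) - ∫ τ in Icc A' B', f τ| ≤ M * (|A - A'| + |B - B'|) := by
  have hi : ∀ {x y : ℝ}, x ∈ Icc L U → y ∈ Icc L U → IntervalIntegrable f volume x y := fun hx hy =>
    (hc.mono (uIcc_subset_Icc hx hy)).intervalIntegrable
  have hn : ∀ {x y : ℝ}, x ∈ Icc L U → y ∈ Icc L U → |∫ τ in x..y, f τ| ≤ M * |y - x| := fun {x y} hx hy => by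
    rw [← Real.norm_eq_abs]
    refine intervalIntegral.norm_integral_le_of_norm_le_const fun z hz => ?_
    rw [Real.norm_eq_abs]
    exact hb z (uIcc_subset_Icc hx hy (uIoc_subset_uIcc hz))
  rw [integral_Icc_eq_integral_Ioc, integral_Icc_eq_integral_Ioc, ← intervalIntegral.integral_of_le h1,
    ← intervalIntegral.integral_of_le h2,
    intervalIntegral.integral_interval_sub_interval_comm (hi hA hB) (hi hA' hB') (hi hA hA')]
  refine (abs_sub _ _).trans ?_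
  have e1 := hn hA hA'
  have e2 := hn hB hB'
  rw [abs_sub_comm A A', abs_sub_comm B B']
  linarith

variable {r : ℕ}

/-- **moments on hyperplanes with sharp cutoffs**, in the coordinates of the hyperplane -/
theorem main {a : Fin (r + 3) → ℤ} (ha : ∀ i, a i ≠ 0) (hk : ∃ k : Fin (r + 3) → ℤ, ∑ i, k i * a i = 1)
    {v : Fin (r + 3) → ℝ} (hv : ∀ i, 0 < v i) (hav : ∑ i, (a i : ℝ) * v i = 0) {κ : ℝ} (hκ : 0 < κ) :
    ∃ c C : ℝ, 0 < c ∧ 0 < C ∧ ∀ᶠ T : ℝ in atTop, ∀ H T₁ T₂ : ℝ, T ^ (1 / 2 + κ) ≤ H → H ≤ T ^ (1 - κ) →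
      T ≤ T₁ → T₁ ≤ T₂ → T₂ ≤ 2 * T →
      |(∫ x in SS (fun j : Fin (r + 1) => v j.succ.succ) (v 1) T₁ T₂ H, Pf (m := r + 2) a x) -
        v 1 * ((2 * H) ^ (r + 1) * ∫ τ in Icc T₁ T₂, MT (m := r + 2) a v τ)| ≤ C * (T ^ (1 - c) * H ^ (r + 1)) := by
  obtain ⟨V, hV, hvV⟩ : ∃ V : ℝ, 0 < V ∧ ∀ i, v i ≤ V := by
    refine ⟨∑ i, v i, Finset.sum_pos (fun i _ => hv i) ⟨0, Finset.mem_univ _⟩, fun i => ?_⟩
    exact Finset.single_le_sum (f := v) (fun i _ => (hv i).le) (Finset.mem_univ i)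
  obtain ⟨W, hW⟩ : ∃ W : ℝ, W = 2 + 2 * V := ⟨_, rfl⟩
  obtain ⟨R, hR⟩ : ∃ R : ℝ, R = W * ∑ j : Fin (r + 2), |(a j.succ : ℝ)| := ⟨_, rfl⟩
  have hW0 : 0 < W := by rw [hW]; positivity
  have hR0 : 0 ≤ R := by rw [hR]; exact mul_nonneg hW0.le (Finset.sum_nonneg fun _ _ => abs_nonneg _)
  obtain ⟨Rb, hRb⟩ : ∃ Rb : ℝ, Rb = R + W + 1 := ⟨_, rfl⟩
  have hRb1 : 1 ≤ Rb := by rw [hRb]; linarith
  obtain ⟨S, hS, hwt⟩ := wd_wt v (hv 1)
  obtain ⟨c₁, K, hc₁, hc₁1, hK, hblock⟩ := block ha hk hRb1 hv hav hκ (by norm_num : (0 : ℝ) < 1 / 2)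
    (by norm_num : (1 / 2 : ℝ) ≤ 3)
  obtain ⟨CM, hCM, hMT⟩ := MT_bd (m := r + 2) (sx_ge ha) hv (by norm_num : (0 : ℝ) < 1 / 2) (by norm_num : (0 : ℝ) < 3)
  obtain ⟨ν, hν⟩ : ∃ ν : ℝ, ν = c₁ / (2 * (r + 4)) := ⟨_, rfl⟩
  have hr0 : (0 : ℝ) ≤ r := Nat.cast_nonneg r
  have hν0 : 0 < ν := by rw [hν]; positivity
  have hν2 : ν * (r + 4) = c₁ / 2 := by rw [hν]; field_simp
  have hν3 : ν ≤ c₁ / 2 := by rw [← hν2]; nlinarith
  obtain ⟨D, hD⟩ : ∃ D : ℝ, D = 4 * V + 2 := ⟨_, rfl⟩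
  have hD0 : 0 < D := by rw [hD]; positivity
  obtain ⟨C₃, hC₃⟩ : ∃ C₃ : ℝ, C₃ = 3 * ((r + 1 : ℕ) * D * 6 ^ (r + 1)) + 2 ^ (r + 1) * 4 := ⟨_, rfl⟩
  have hC₃0 : 0 < C₃ := by rw [hC₃]; positivity
  refine ⟨ν / 2, v 1 * (C₃ * CM) + K * S ^ (r + 3), by positivity, by have := hv 1; positivity, ?_⟩
  filter_upwards [hblock, hMT, eventually_gt_atTop 1, log_pow_ev (r + 3) (half_pos hν0),
    (tendsto_rpow_neg_atTop hν0).eventually (Iio_mem_nhds (show (0 : ℝ) < 1 / D by positivity)),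
    (tendsto_rpow_neg_atTop hκ).eventually (Iio_mem_nhds (show (0 : ℝ) < 1 / 4 by norm_num))] with
    T hblock hMT hT1 hlog hθD hκ4 H T₁ T₂ hH1 hH2 hT₁ hT₁₂ hT₂
  have hT0 : 0 < T := by linarith
  obtain ⟨θ, hθ⟩ : ∃ θ : ℝ, θ = T ^ (-ν) := ⟨_, rfl⟩
  have hθ0 : 0 < θ := by rw [hθ]; positivity
  have hθ1 : θ ≤ 1 := by rw [hθ]; exact Real.rpow_le_one_of_one_le_of_nonpos hT1.le (by linarith)
  have hDθ : D * θ ≤ 1 := by
    have e1 : T ^ (-ν) < 1 / D := hθD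
    rw [lt_div_iff₀ hD0, ← hθ] at e1
    linarith
  have hH0 : 0 < H := (by positivity : 0 < T ^ (1 / 2 + κ)).trans_le hH1
  have hHT : H ≤ T / 4 := by
    have e1 : T ^ (-κ) < 1 / 4 := hκ4
    have e2 : T ^ (1 - κ) = T * T ^ (-κ) := by
      nth_rewrite 2 [← Real.rpow_one T]
      rw [← Real.rpow_add hT0]
      ring_nf
    rw [e2] at hH2
    nlinarith
  have hθH : 2 * θ * H ≤ T / 2 := by nlinarith
  have hθH0 : 0 < 2 * θ * H := by positivity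
  obtain ⟨M, hM⟩ : ∃ M : ℝ, M = CM * (Real.log T) ^ (r + 3) := ⟨_, rfl⟩
  have hMT' : ∀ τ ∈ Icc (1 / 2 * T) (3 * T), |MT (m := r + 2) a v τ| ≤ M := fun τ hτ => by rw [hM]; exact hMT τ hτ
  have hM0 : 0 ≤ M := (abs_nonneg _).trans (hMT' T ⟨by linarith, by linarith⟩)
  have hMc : ContinuousOn (MT (m := r + 2) a v) (Icc (1 / 2 * T) (3 * T)) :=
    MT_contOn (m := r + 2) (sx_ge ha) hv (by positivity)
  obtain ⟨J, hJ⟩ : ∃ J : ℝ, J = ∫ y, pl θ θ y := ⟨_, rfl⟩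
  have hJ1 : 2 * θ ≤ J := by rw [hJ]; exact (pl_int hθ0 hθ0.le).2.1
  have hJ0 : 0 < J := by linarith
  obtain ⟨I0, hI0⟩ : ∃ I0 : ℝ, I0 = ∫ τ in Icc T₁ T₂, MT (m := r + 2) a v τ := ⟨_, rfl⟩
  have hθν : θ * T ^ (ν / 2) * T = T ^ (1 - ν / 2) := by
    rw [hθ, ← Real.rpow_add hT0]
    nth_rewrite 2 [← Real.rpow_one T]
    rw [← Real.rpow_add hT0]
    ring_nf
  have hMle : M ≤ CM * T ^ (ν / 2) := by rw [hM]; exact mul_le_mul_of_nonneg_left hlog hCM.le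
  -- comparison of the main terms
  have hcore : ∀ P X : ℝ, |P - 2 ^ (r + 1)| ≤ (r + 1 : ℕ) * (D * θ) * 6 ^ (r + 1) → |X| ≤ M * (3 * T) →
      |X - I0| ≤ M * (2 * (2 * θ * H)) →
      |H ^ (r + 1) * v 1 * (P * X) - v 1 * ((2 * H) ^ (r + 1) * I0)| ≤ v 1 * (C₃ * CM) * (T ^ (1 - ν / 2) * H ^ (r + 1)) := by
    intro P X hP hX hX2
    have hv1 := hv 1
    have e1 : H ^ (r + 1) * v 1 * (P * X) - v 1 * ((2 * H) ^ (r + 1) * I0) =
        (v 1 * H ^ (r + 1)) * ((P - 2 ^ (r + 1)) * X + 2 ^ (r + 1) * (X - I0)) := by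
      rw [mul_pow 2 H]; ring
    rw [e1, abs_mul, abs_of_pos (by positivity : 0 < v 1 * H ^ (r + 1))]
    have e2 : |(P - 2 ^ (r + 1)) * X + 2 ^ (r + 1) * (X - I0)| ≤ C₃ * (θ * M * T) := by
      refine (abs_add_le _ _).trans ?_
      rw [abs_mul, abs_mul, abs_of_pos (by positivity : (0 : ℝ) < 2 ^ (r + 1))]
      have e3 : |P - 2 ^ (r + 1)| * |X| ≤ ((r + 1 : ℕ) * (D * θ) * 6 ^ (r + 1)) * (M * (3 * T)) :=
        mul_le_mul hP hX (abs_nonneg _) (by positivity)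
      have e4 : |X - I0| ≤ 4 * (θ * M * T) := by
        refine hX2.trans ?_
        have e5 : H ≤ T := by linarith
        have e6 : 0 ≤ M * (4 * θ) := by positivity
        calc M * (2 * (2 * θ * H)) = (M * (4 * θ)) * H := by ring
          _ ≤ (M * (4 * θ)) * T := mul_le_mul_of_nonneg_left e5 e6
          _ = _ := by ring
      calc |P - 2 ^ (r + 1)| * |X| + 2 ^ (r + 1) * |X - I0| ≤
          ((r + 1 : ℕ) * (D * θ) * 6 ^ (r + 1)) * (M * (3 * T)) + 2 ^ (r + 1) * (4 * (θ * M * T)) := by gcongr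
        _ = C₃ * (θ * M * T) := by rw [hC₃]; ring
    have e7 : C₃ * (θ * M * T) ≤ C₃ * CM * T ^ (1 - ν / 2) := by
      rw [← hθν]
      calc C₃ * (θ * M * T) ≤ C₃ * (θ * (CM * T ^ (ν / 2)) * T) := by gcongr
        _ = _ := by ring
    calc v 1 * H ^ (r + 1) * |(P - 2 ^ (r + 1)) * X + 2 ^ (r + 1) * (X - I0)| ≤
        v 1 * H ^ (r + 1) * (C₃ * CM * T ^ (1 - ν / 2)) := by
          exact mul_le_mul_of_nonneg_left (e2.trans e7) (by positivity)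
      _ = _ := by ring
  -- the error of the block theorem
  have hEb : K * (S / θ) ^ (r + 3) * (T ^ (1 - c₁) * H ^ (r + 2)) ≤
      (H * J) * (K * S ^ (r + 3) * (T ^ (1 - ν / 2) * H ^ (r + 1))) := by
    have e1 : T ^ (1 - c₁) ≤ θ ^ (r + 4) * T ^ (1 - ν / 2) := by
      rw [hθ, ← Real.rpow_natCast, ← Real.rpow_mul hT0.le, ← Real.rpow_add hT0]
      refine Real.rpow_le_rpow_of_exponent_le hT1.le ?_
      push_cast
      have e2 : -ν * ((r : ℝ) + 4) = -(c₁ / 2) := by rw [neg_mul, hν2]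
      rw [e2]
      linarith
    have hSp : 0 < S := by linarith
    calc K * (S / θ) ^ (r + 3) * (T ^ (1 - c₁) * H ^ (r + 2)) ≤
        K * (S / θ) ^ (r + 3) * ((θ ^ (r + 4) * T ^ (1 - ν / 2)) * H ^ (r + 2)) := by gcongr
      _ = (H * θ) * (K * S ^ (r + 3) * (T ^ (1 - ν / 2) * H ^ (r + 1))) := by
          rw [div_pow]
          field_simp
          ring
      _ ≤ _ := by
          have e3 : H * θ ≤ H * J := mul_le_mul_of_nonneg_left (by linarith) hH0.le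
          exact mul_le_mul_of_nonneg_right e3 (by positivity)
  have hvl : ∀ i, v i * θ ≤ V * θ := fun i => mul_le_mul_of_nonneg_right (hvV i) hθ0.le
  have hvl0 : ∀ i, 0 < v i * θ := fun i => mul_pos (hv i) hθ0
  have hVθ : V * θ ≤ V := mul_le_of_le_one_right hV.le hθ1
  have h11 : v 1 * (θ + θ) ≤ W := by
    have := hvl 1
    rw [hW]; linarith
  have hDθ' : (4 * V + 2) * θ ≤ 1 := by rw [← hD]; exact hDθ
  -- the block theorem for the two families of windows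
  have hbl : ∀ (l : Fin (r + 1) → ℝ) (τ₁ τ₂ : ℝ), (∀ j, l j + θ ≤ W) → 1 / 2 * T ≤ τ₁ → τ₂ ≤ 3 * T →
      |(∫ τ in Icc τ₁ τ₂, BB (m := r + 2) a v (wd v R θ l) H τ) - (H * J) * (H ^ (r + 1) * v 1 * ((∏ j, ∫ y, pl (l j) θ y) *
        ∫ τ in Icc τ₁ τ₂, MT (m := r + 2) a v τ))| ≤ (H * J) * (K * S ^ (r + 3) * (T ^ (1 - ν / 2) * H ^ (r + 1))) := by
    intro l τ₁ τ₂ hl hτ1 hτ2
    have hw : ∀ i, Wt (wd v R θ l i) Rb (S / θ) :=
      hwt R θ l Rb hθ0 hθ1 hRb1 (by rw [hRb]; linarith) (by rw [hRb]; linarith) (fun j => by rw [hRb]; linarith [hl j])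
    rcases le_or_gt τ₁ τ₂ with h | h
    · have h2 := hblock H (S / θ) (wd v R θ l) τ₁ τ₂ hH1 hH2 (by rw [le_div_iff₀ hθ0]; linarith) hw hτ1 h hτ2
      rw [Om_wd (ha 0) (hv 1) hθ0 h11 hl (le_of_eq hR.symm), ← hJ] at h2
      have e1 : H ^ (r + 2) * (v 1 * J * ∏ j, ∫ y, pl (l j) θ y) * ∫ τ in Icc τ₁ τ₂, MT (m := r + 2) a v τ =
          (H * J) * (H ^ (r + 1) * v 1 * ((∏ j, ∫ y, pl (l j) θ y) * ∫ τ in Icc τ₁ τ₂, MT (m := r + 2) a v τ)) := by ring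
      rw [e1] at h2
      exact h2.trans hEb
    · rw [Icc_eq_empty (not_le.2 h), Measure.restrict_empty, integral_zero_measure, integral_zero_measure, mul_zero, mul_zero,
        mul_zero, sub_zero, abs_zero]
      positivity
  have hmem1 : T₁ ∈ Icc (1 / 2 * T) (3 * T) := ⟨by linarith, by linarith⟩
  have hmem2 : T₂ ∈ Icc (1 / 2 * T) (3 * T) := ⟨by linarith, by linarith⟩
  obtain ⟨A, hA⟩ : ∃ A : ℝ, A = ∫ x in SS (fun j : Fin (r + 1) => v j.succ.succ) (v 1) T₁ T₂ H, Pf (m := r + 2) a x := ⟨_, rfl⟩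
  have hHJ : 0 < H * J := by positivity
  have hXb : ∀ {τ₁ τ₂ : ℝ}, τ₁ ∈ Icc (1 / 2 * T) (3 * T) → τ₂ ∈ Icc (1 / 2 * T) (3 * T) → τ₁ ≤ τ₂ →
      |∫ τ in Icc τ₁ τ₂, MT (m := r + 2) a v τ| ≤ M * (τ₂ - τ₁) := by
    intro τ₁ τ₂ h1 h2 h3
    have h4 := icc_diff hMc hMT' h1 h2 h1 h1 h3 le_rfl
    rw [integral_Icc_eq_integral_Ioc (x := τ₁) (y := τ₁), Ioc_self, Measure.restrict_empty, integral_zero_measure,
      sub_zero, sub_self, abs_zero, zero_add, abs_of_nonneg (by linarith : 0 ≤ τ₂ - τ₁)] at h4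
    exact h4
  -- upper bound
  have hup : A - v 1 * ((2 * H) ^ (r + 1) * I0) ≤ (v 1 * (C₃ * CM) + K * S ^ (r + 3)) * (T ^ (1 - ν / 2) * H ^ (r + 1)) := by
    obtain ⟨l, hl⟩ : ∃ l : Fin (r + 1) → ℝ, l = fun j => 1 + 2 * v j.succ.succ * θ := ⟨_, rfl⟩
    have hl0 : ∀ j, 0 ≤ l j := fun j => by rw [hl]; have := hvl0 j.succ.succ; simp only; linarith
    have hlW : ∀ j, l j + θ ≤ W := fun j => by
      rw [hl, hW]; have := hvl j.succ.succ; simp only; linarith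
    have hm1 : T₁ - 2 * θ * H ∈ Icc (1 / 2 * T) (3 * T) := ⟨by linarith, by linarith⟩
    have hm2 : T₂ + 2 * θ * H ∈ Icc (1 / 2 * T) (3 * T) := ⟨by linarith, by linarith⟩
    have hw : ∀ i, Wt (wd v R θ l i) Rb (S / θ) :=
      hwt R θ l Rb hθ0 hθ1 hRb1 (by rw [hRb]; linarith) (by rw [hRb]; linarith) (fun j => by rw [hRb]; linarith [hlW j])
    have h1 := sharp_upper (ha 0) hav hv hθ0 h11 hlW (le_of_eq hR.symm) (fun j => by rw [hl]) hw hH0 T₁ T₂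
    rw [← hJ, ← hA] at h1
    have h2 := (abs_le.1 (hbl l (T₁ - 2 * θ * H) (T₂ + 2 * θ * H) hlW hm1.1 hm2.2)).2
    have h3 := hcore (∏ j, ∫ y, pl (l j) θ y) (∫ τ in Icc (T₁ - 2 * θ * H) (T₂ + 2 * θ * H), MT (m := r + 2) a v τ) ?_ ?_ ?_
    · have h4 := (abs_le.1 h3).2
      have h5 : (H * J) * A ≤ (H * J) * (H ^ (r + 1) * v 1 * ((∏ j, ∫ y, pl (l j) θ y) *
        ∫ τ in Icc (T₁ - 2 * θ * H) (T₂ + 2 * θ * H), MT (m := r + 2) a v τ) +
          K * S ^ (r + 3) * (T ^ (1 - ν / 2) * H ^ (r + 1))) := by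
        rw [mul_add]; linarith
      have h6 := le_of_mul_le_mul_left h5 hHJ
      rw [add_mul]
      linarith
    · refine prod_near (fun j => ?_) (by linarith)
      obtain ⟨-, h7, h8⟩ := pl_int hθ0 (hl0 j)
      have h9 : l j = 1 + 2 * (v j.succ.succ * θ) := by rw [hl]; simp only; ring
      have h10 := hvl j.succ.succ
      have h12 := hvl0 j.succ.succ
      have h13 : D * θ = 4 * (V * θ) + 2 * θ := by rw [hD]; ring
      rw [abs_le, h13]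
      constructor <;> linarith
    · refine (hXb hm1 hm2 (by linarith)).trans (mul_le_mul_of_nonneg_left (by linarith) hM0)
    · rw [hI0]
      refine (icc_diff hMc hMT' hm1 hm2 hmem1 hmem2 (by linarith) hT₁₂).trans (mul_le_mul_of_nonneg_left ?_ hM0)
      rw [show T₁ - 2 * θ * H - T₁ = -(2 * θ * H) by ring, show T₂ + 2 * θ * H - T₂ = 2 * θ * H by ring, abs_neg,
        abs_of_pos hθH0]
      linarith
  -- lower bound
  have hlow : -((v 1 * (C₃ * CM) + K * S ^ (r + 3)) * (T ^ (1 - ν / 2) * H ^ (r + 1))) ≤ A - v 1 * ((2 * H) ^ (r + 1) * I0) := by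
    obtain ⟨l, hl⟩ : ∃ l : Fin (r + 1) → ℝ, l = fun j => 1 - 2 * v j.succ.succ * θ - θ := ⟨_, rfl⟩
    have hl0 : ∀ j, 0 ≤ l j := fun j => by
      rw [hl]
      have := hvl j.succ.succ
      simp only
      nlinarith
    have hlW : ∀ j, l j + θ ≤ W := fun j => by
      rw [hl, hW]; have := hvl0 j.succ.succ; simp only; linarith
    have hm1 : T₁ + 2 * θ * H ∈ Icc (1 / 2 * T) (3 * T) := ⟨by linarith, by linarith⟩
    have hm2 : T₂ - 2 * θ * H ∈ Icc (1 / 2 * T) (3 * T) := ⟨by linarith, by linarith⟩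
    have hw : ∀ i, Wt (wd v R θ l i) Rb (S / θ) :=
      hwt R θ l Rb hθ0 hθ1 hRb1 (by rw [hRb]; linarith) (by rw [hRb]; linarith) (fun j => by rw [hRb]; linarith [hlW j])
    have h1 := sharp_lower (ha 0) hav hv hθ0 h11 hlW (le_of_eq hR.symm) (fun j => by rw [hl]; simp only; linarith) hw hH0 T₁ T₂
    rw [← hJ, ← hA] at h1
    have h2 := (abs_le.1 (hbl l (T₁ + 2 * θ * H) (T₂ - 2 * θ * H) hlW hm1.1 hm2.2)).1
    have h3 := hcore (∏ j, ∫ y, pl (l j) θ y) (∫ τ in Icc (T₁ + 2 * θ * H) (T₂ - 2 * θ * H), MT (m := r + 2) a v τ) ?_ ?_ ?_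
    · have h4 := (abs_le.1 h3).1
      have h5 : (H * J) * (H ^ (r + 1) * v 1 * ((∏ j, ∫ y, pl (l j) θ y) *
        ∫ τ in Icc (T₁ + 2 * θ * H) (T₂ - 2 * θ * H), MT (m := r + 2) a v τ) -
          K * S ^ (r + 3) * (T ^ (1 - ν / 2) * H ^ (r + 1))) ≤ (H * J) * A := by
        rw [mul_sub]; linarith
      have h6 := le_of_mul_le_mul_left h5 hHJ
      rw [add_mul]
      linarith
    · refine prod_near (fun j => ?_) (by linarith)
      obtain ⟨-, h7, h8⟩ := pl_int hθ0 (hl0 j)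
      have h9 : l j = 1 - 2 * (v j.succ.succ * θ) - θ := by rw [hl]; simp only; ring
      have h10 := hvl j.succ.succ
      have h12 := hvl0 j.succ.succ
      have h13 : D * θ = 4 * (V * θ) + 2 * θ := by rw [hD]; ring
      rw [abs_le, h13]
      constructor <;> linarith
    · rcases le_or_gt (T₁ + 2 * θ * H) (T₂ - 2 * θ * H) with h | h
      · refine (hXb hm1 hm2 h).trans (mul_le_mul_of_nonneg_left (by linarith) hM0)
      · rw [Icc_eq_empty (not_le.2 h), Measure.restrict_empty, integral_zero_measure, abs_zero]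
        positivity
    · rw [hI0]
      rcases le_or_gt (T₁ + 2 * θ * H) (T₂ - 2 * θ * H) with h | h
      · refine (icc_diff hMc hMT' hm1 hm2 hmem1 hmem2 h hT₁₂).trans (mul_le_mul_of_nonneg_left ?_ hM0)
        rw [show T₁ + 2 * θ * H - T₁ = 2 * θ * H by ring, show T₂ - 2 * θ * H - T₂ = -(2 * θ * H) by ring, abs_neg,
          abs_of_pos hθH0]
        linarith
      · rw [Icc_eq_empty (not_le.2 h), Measure.restrict_empty, integral_zero_measure, zero_sub, abs_neg]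
        exact (hXb hmem1 hmem2 hT₁₂).trans (mul_le_mul_of_nonneg_left (by linarith) hM0)
  rw [← hA, ← hI0]
  exact abs_le.2 ⟨hlow, hup⟩

/-- **moments on hyperplanes with sharp cutoffs** -/
theorem main' {a : Fin (r + 3) → ℤ} (ha : ∀ i, a i ≠ 0) (hk : ∃ k : Fin (r + 3) → ℤ, ∑ i, k i * a i = 1)
    {v : Fin (r + 3) → ℝ} (hv : ∀ i, 0 < v i) (hav : ∑ i, (a i : ℝ) * v i = 0) {κ : ℝ} (hκ : 0 < κ) :
    ∃ c C : ℝ, 0 < c ∧ 0 < C ∧ ∀ᶠ T : ℝ in atTop, ∀ H T₁ T₂ : ℝ, T ^ (1 / 2 + κ) ≤ H → H ≤ T ^ (1 - κ) →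
      T ≤ T₁ → T₁ ≤ T₂ → T₂ ≤ 2 * T →
      |(∫ t in Icc T₁ T₂, ∫ h in Icc (fun _ : Fin (r + 1) => -H) (fun _ => H),
          ff (v 1 * t) * (∏ j : Fin (r + 1), ff (v j.succ.succ * t + h j)) *
            ff (v 0 * t - (∑ j : Fin (r + 1), (a j.succ.succ : ℝ) * h j) / a 0)) -
        (2 * H) ^ (r + 1) * ∫ τ in Icc T₁ T₂, MT (m := r + 2) a v τ| ≤ C * (T ^ (1 - c) * H ^ (r + 1)) := by
  obtain ⟨c, C, hc, hC, h⟩ := main ha hk hv hav hκ
  have hv1 := hv 1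
  have ha0 : (a 0 : ℝ) ≠ 0 := by exact_mod_cast ha 0
  refine ⟨c, C / v 1, hc, by positivity, ?_⟩
  filter_upwards [h] with T h H T₁ T₂ hH1 hH2 hT1 hT12 hT2
  have h1 := h H T₁ T₂ hH1 hH2 hT1 hT12 hT2
  rw [cov (Pf_cont (m := r + 2) a) _ hv1] at h1
  have e1 : ∀ (t : ℝ) (h : Fin (r + 1) → ℝ), Pf (m := r + 2) a (Fin.cons (v 1 * t) (fun j => v j.succ.succ * t + h j)) =
      ff (v 1 * t) * (∏ j : Fin (r + 1), ff (v j.succ.succ * t + h j)) *
            ff (v 0 * t - (∑ j : Fin (r + 1), (a j.succ.succ : ℝ) * h j) / a 0) := by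
    intro t h
    unfold Pf x0
    rw [Fin.prod_univ_succ, Fin.sum_univ_succ]
    simp only [Fin.cons_zero, Fin.cons_succ]
    congr 2
    rw [Fin.sum_univ_succ, Fin.sum_univ_succ] at hav
    have e2 : (Fin.succ (0 : Fin (r + 2))) = 1 := rfl
    rw [e2] at hav ⊢
    have e3 : ∑ j : Fin (r + 1), (a j.succ.succ : ℝ) * (v j.succ.succ * t + h j) =
        (∑ j : Fin (r + 1), (a j.succ.succ : ℝ) * v j.succ.succ) * t + ∑ j : Fin (r + 1), (a j.succ.succ : ℝ) * h j := by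
      rw [Finset.sum_mul, ← Finset.sum_add_distrib]
      exact Finset.sum_congr rfl fun j _ => by ring
    rw [e3]
    have e4 : ∑ j : Fin (r + 1), (a j.succ.succ : ℝ) * v j.succ.succ = -((a 0 : ℝ) * v 0 + a 1 * v 1) := by linarith
    rw [e4]
    field_simp
    ring
  simp only [e1] at h1
  rw [← mul_sub, abs_mul, abs_of_pos hv1] at h1
  rw [div_mul_eq_mul_div, le_div_iff₀ hv1]
  linarith

end Pool.Agent.J4.H39.HM
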