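import Mathlib

/-!
# Fourier transform of products over hyperplanes
-/

set_option autoImplicit false

namespace Pool.Agent.J4.H39.HM

open MeasureTheory Complex FourierTransform Set

/-- continuous, integrable, with an integrable Fourier transform -/
structure Nice (f : ℝ → ℂ) : Prop where
  cont : Continuous f
  int : Integrable f
  fint : Integrable (𝓕 f)

lemma fou_eq (f : ℝ → ℂ) (ξ : ℝ) : 𝓕 f ξ = ∫ v : ℝ, cexp (((-2 * Real.pi * v * ξ : ℝ) : ℂ) * I) * f v := by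
  rw [Real.fourier_real_eq_integral_exp_smul]
  rfl

lemma exp_norm (x : ℝ) : ‖cexp ((x : ℂ) * I)‖ = 1 := Complex.norm_exp_ofReal_mul_I x

lemma fou_norm_le (f : ℝ → ℂ) (ξ : ℝ) : ‖𝓕 f ξ‖ ≤ ∫ v, ‖f v‖ := by
  rw [fou_eq]
  refine (norm_integral_le_integral_norm _).trans (le_of_eq ?_)
  refine integral_congr_ae (Filter.Eventually.of_forall fun v => ?_)
  simp only [norm_mul, exp_norm, one_mul]

lemma fou_inv {f : ℝ → ℂ} (hf : Nice f) (x : ℝ) :
    f x = ∫ ξ : ℝ, cexp (((2 * Real.pi * ξ * x : ℝ) : ℂ) * I) * 𝓕 f ξ := by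
  have h := congrFun (hf.cont.fourierInv_fourier_eq hf.int hf.fint) x
  rw [← h, Real.fourierInv_eq']
  refine integral_congr_ae (Filter.Eventually.of_forall fun v => ?_)
  simp only [smul_eq_mul, RCLike.inner_apply, conj_trivial]
  congr 3
  push_cast
  ring

lemma fou_cont {f : ℝ → ℂ} (hf : Integrable f) : Continuous (𝓕 f) := by
  have h := VectorFourier.fourierIntegral_continuous (𝕜 := ℝ) (V := ℝ) (W := ℝ) (e := Real.fourierChar)
    (L := innerₗ ℝ) (μ := volume) Real.continuous_fourierChar (by exact continuous_inner) hf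
  exact h

/-- **Fubini and Fourier inversion**: an integral over the hyperplane -/
theorem hyp {m : ℕ} (f : Fin m → ℝ → ℂ) (f₀ : ℝ → ℂ) (c : Fin m → ℝ) (hf : ∀ j, Integrable (f j))
    (h0 : Nice f₀) :
    ∫ x : Fin m → ℝ, (∏ j, f j (x j)) * f₀ (∑ j, c j * x j) =
      ∫ ξ : ℝ, 𝓕 f₀ ξ * ∏ j, 𝓕 (f j) (-(c j) * ξ) := by
  have h1 : ∀ x : Fin m → ℝ, (∏ j, f j (x j)) * f₀ (∑ j, c j * x j) =
      ∫ ξ : ℝ, (∏ j, f j (x j)) * (cexp (((2 * Real.pi * ξ * (∑ j, c j * x j) : ℝ) : ℂ) * I) * 𝓕 f₀ ξ) := by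
    intro x
    rw [integral_const_mul, ← fou_inv h0]
  simp only [h1]
  have hprod : Integrable (fun x : Fin m → ℝ => ∏ j, f j (x j)) := Integrable.fintype_prod hf
  have hint : Integrable (Function.uncurry fun (x : Fin m → ℝ) (ξ : ℝ) =>
      (∏ j, f j (x j)) * (cexp (((2 * Real.pi * ξ * (∑ j, c j * x j) : ℝ) : ℂ) * I) * 𝓕 f₀ ξ))
      (volume.prod volume) := by
    have h2 := hprod.mul_prod h0.fint
    have h3 : Continuous (fun z : (Fin m → ℝ) × ℝ =>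
        cexp (((2 * Real.pi * z.2 * (∑ j, c j * z.1 j) : ℝ) : ℂ) * I)) := by fun_prop
    have h4 := h2.bdd_mul (c := 1) h3.aestronglyMeasurable (Filter.Eventually.of_forall fun z => by rw [exp_norm])
    refine h4.congr (Filter.Eventually.of_forall fun z => ?_)
    simp only [Function.uncurry]
    ring
  rw [integral_integral_swap hint]
  refine integral_congr_ae (Filter.Eventually.of_forall fun ξ => ?_)
  simp only
  have h5 : ∀ x : Fin m → ℝ, (∏ j, f j (x j)) * (cexp (((2 * Real.pi * ξ * (∑ j, c j * x j) : ℝ) : ℂ) * I) * 𝓕 f₀ ξ) =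
      𝓕 f₀ ξ * ∏ j, (cexp (((-2 * Real.pi * (x j) * (-(c j) * ξ) : ℝ) : ℂ) * I) * f j (x j)) := by
    intro x
    rw [Finset.prod_mul_distrib, ← Complex.exp_sum]
    have h6 : (((2 * Real.pi * ξ * (∑ j, c j * x j) : ℝ) : ℂ) * I) =
        ∑ j, (((-2 * Real.pi * (x j) * (-(c j) * ξ) : ℝ) : ℂ) * I) := by
      rw [← Finset.sum_mul, ← Complex.ofReal_sum, Finset.mul_sum]
      congr 2
      refine Finset.sum_congr rfl fun j _ => ?_
      ring
    rw [h6]
    ring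
  simp only [h5]
  rw [integral_const_mul, integral_fintype_prod_volume_eq_prod (f := fun j v =>
    (cexp (((-2 * Real.pi * v * (-(c j) * ξ) : ℝ) : ℂ) * I) * f j v))]
  congr 1
  refine Finset.prod_congr rfl fun j _ => ?_
  rw [fou_eq]

lemma fou_conj (f : ℝ → ℂ) (ξ : ℝ) : 𝓕 (fun x => (starRingEnd ℂ) (f x)) (-ξ) = (starRingEnd ℂ) (𝓕 f ξ) := by
  rw [fou_eq, fou_eq, ← integral_conj]
  refine integral_congr_ae (Filter.Eventually.of_forall fun v => ?_)
  simp only [map_mul]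
  congr 1
  rw [← Complex.exp_conj]
  simp only [map_mul, conj_I, Complex.conj_ofReal]
  congr 1
  push_cast
  ring

/-- **Plancherel** -/
theorem plancherel {f : ℝ → ℂ} (hf : Nice f) : ∫ ξ : ℝ, ‖𝓕 f ξ‖ ^ 2 = ∫ x : ℝ, ‖f x‖ ^ 2 := by
  have hc : Integrable (fun x => (starRingEnd ℂ) (f x)) := by
    refine hf.int.norm.mono' (Complex.continuous_conj.comp hf.cont).aestronglyMeasurable ?_
    exact Filter.Eventually.of_forall fun x => by simp
  have h := hyp (m := 1) (fun _ x => (starRingEnd ℂ) (f x)) f (fun _ => 1) (fun _ => hc) hf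
  have h1 : ∫ x : Fin 1 → ℝ, (∏ j, (fun _ x => (starRingEnd ℂ) (f x) : Fin 1 → ℝ → ℂ) j (x j)) *
      f (∑ j, (fun _ => (1:ℝ) : Fin 1 → ℝ) j * x j) = ∫ x : ℝ, ((‖f x‖ ^ 2 : ℝ) : ℂ) := by
    have e := (MeasureTheory.volume_preserving_funUnique (Fin 1) ℝ).integral_comp'
      (g := fun x : ℝ => ((‖f x‖ ^ 2 : ℝ) : ℂ))
    rw [← e]
    refine integral_congr_ae (Filter.Eventually.of_forall fun x => ?_)
    simp only [Finset.univ_unique, Fin.default_eq_zero, Fin.isValue, Finset.prod_singleton,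
      Finset.sum_singleton, one_mul]
    rw [Complex.ofReal_pow, ← Complex.conj_mul']
    rfl
  have h2 : ∫ ξ : ℝ, 𝓕 f ξ * ∏ j, 𝓕 ((fun _ x => (starRingEnd ℂ) (f x) : Fin 1 → ℝ → ℂ) j)
      (-((fun _ => (1:ℝ) : Fin 1 → ℝ) j) * ξ) = ∫ ξ : ℝ, ((‖𝓕 f ξ‖ ^ 2 : ℝ) : ℂ) := by
    refine integral_congr_ae (Filter.Eventually.of_forall fun ξ => ?_)
    simp only [Finset.univ_unique, Fin.default_eq_zero, Fin.isValue, Finset.prod_singleton]
    rw [show -1 * ξ = -ξ by ring, fou_conj, Complex.ofReal_pow, ← Complex.mul_conj']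
  rw [h1, h2] at h
  have h3 : ((∫ x : ℝ, ‖f x‖ ^ 2 : ℝ) : ℂ) = ((∫ ξ : ℝ, ‖𝓕 f ξ‖ ^ 2 : ℝ) : ℂ) := by
    rw [← integral_complex_ofReal, ← integral_complex_ofReal]
    exact h
  exact (Complex.ofReal_injective h3).symm

/-- `C²` and compactly supported -/
structure CS (f : ℝ → ℂ) : Prop where
  diff : ContDiff ℝ 2 f
  cs : HasCompactSupport f

lemma CS.nice {f : ℝ → ℂ} (hf : CS f) : Nice f := by
  have hc := hf.diff.continuous
  have hi : Integrable f := hc.integrable_of_hasCompactSupport hf.cs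
  have h1 : ContDiff ℝ 1 (deriv f) := by
    have := hf.diff
    rw [show (2 : WithTop ℕ∞) = 1 + 1 by norm_num, contDiff_succ_iff_deriv] at this
    exact this.2.2
  have hc1 : Continuous (deriv f) := h1.continuous
  have hcs1 : HasCompactSupport (deriv f) := hf.cs.deriv
  have hi1 : Integrable (deriv f) := hc1.integrable_of_hasCompactSupport hcs1
  have hc2 : Continuous (deriv (deriv f)) := h1.continuous_deriv (by norm_num)
  have hcs2 : HasCompactSupport (deriv (deriv f)) := hcs1.deriv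
  have hi2 : Integrable (deriv (deriv f)) := hc2.integrable_of_hasCompactSupport hcs2
  have e1 := Real.fourier_deriv hi (hf.diff.differentiable (by norm_num)) hi1
  have e2 := Real.fourier_deriv hi1 (h1.differentiable (by norm_num)) hi2
  refine ⟨hc, hi, ?_⟩
  obtain ⟨A, hA⟩ : ∃ A : ℝ, A = ∫ v, ‖f v‖ := ⟨_, rfl⟩
  obtain ⟨B, hB⟩ : ∃ B : ℝ, B = ∫ v, ‖deriv (deriv f) v‖ := ⟨_, rfl⟩
  have hbound : ∀ ξ : ℝ, ‖𝓕 f ξ‖ ≤ (A + B) * (1 + ξ ^ 2)⁻¹ := by
    intro ξ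
    have b1 : ‖𝓕 f ξ‖ ≤ A := by rw [hA]; exact fou_norm_le f ξ
    have b2 : ‖𝓕 (deriv (deriv f)) ξ‖ ≤ B := by rw [hB]; exact fou_norm_le _ ξ
    have b3 : ‖𝓕 (deriv (deriv f)) ξ‖ = (2 * Real.pi * ξ) ^ 2 * ‖𝓕 f ξ‖ := by
      rw [congrFun e2 ξ]
      simp only [smul_eq_mul]
      rw [congrFun e1 ξ]
      simp only [smul_eq_mul, norm_mul, Complex.norm_I, Complex.norm_real, Complex.norm_ofNat, Real.norm_eq_abs]
      rw [abs_of_pos Real.pi_pos]
      have : |ξ| * |ξ| = ξ ^ 2 := by rw [← sq, sq_abs]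
      calc 2 * Real.pi * 1 * |ξ| * (2 * Real.pi * 1 * |ξ| * ‖𝓕 f ξ‖) = 4 * Real.pi ^ 2 * (|ξ| * |ξ|) * ‖𝓕 f ξ‖ := by ring
        _ = _ := by rw [this]; ring
    have hpi : 1 ≤ 4 * Real.pi ^ 2 := by nlinarith [Real.pi_gt_three]
    have b4 : ξ ^ 2 * ‖𝓕 f ξ‖ ≤ B := by
      have h0 : 0 ≤ ξ ^ 2 * ‖𝓕 f ξ‖ := by positivity
      calc ξ ^ 2 * ‖𝓕 f ξ‖ ≤ (4 * Real.pi ^ 2) * (ξ ^ 2 * ‖𝓕 f ξ‖) := by nlinarith
        _ = (2 * Real.pi * ξ) ^ 2 * ‖𝓕 f ξ‖ := by ring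
        _ ≤ B := by rw [← b3]; exact b2
    rw [← div_eq_mul_inv, le_div_iff₀ (by positivity)]
    linarith
  exact (integrable_inv_one_add_sq.const_mul (A + B)).mono' (fou_cont hi).aestronglyMeasurable
    (Filter.Eventually.of_forall hbound)

/-- one integration by parts -/
lemma fou_ibp {f : ℝ → ℂ} (hf : CS f) {A B : ℝ} (hA : ∫ v, ‖f v‖ ≤ A) (hB : ∫ v, ‖deriv f v‖ ≤ B) (ξ : ℝ) :
    ‖𝓕 f ξ‖ ≤ A ∧ |2 * Real.pi * ξ| * ‖𝓕 f ξ‖ ≤ B := by
  have hc := hf.diff.continuous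
  have hi : Integrable f := hc.integrable_of_hasCompactSupport hf.cs
  have h1 : ContDiff ℝ 1 (deriv f) := by
    have := hf.diff
    rw [show (2 : WithTop ℕ∞) = 1 + 1 by norm_num, contDiff_succ_iff_deriv] at this
    exact this.2.2
  have hi1 : Integrable (deriv f) := h1.continuous.integrable_of_hasCompactSupport hf.cs.deriv
  have e1 := Real.fourier_deriv hi (hf.diff.differentiable (by norm_num)) hi1
  refine ⟨(fou_norm_le f ξ).trans hA, ?_⟩
  have b3 : ‖𝓕 (deriv f) ξ‖ = |2 * Real.pi * ξ| * ‖𝓕 f ξ‖ := by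
    rw [congrFun e1 ξ]
    simp only [smul_eq_mul, norm_mul, Complex.norm_I, Complex.norm_real, Complex.norm_ofNat, Real.norm_eq_abs,
      abs_mul, mul_one, abs_two]
  rw [← b3]
  exact (fou_norm_le _ ξ).trans hB

/-- modulations -/
lemma fou_mod (f : ℝ → ℂ) (lam ξ : ℝ) :
    𝓕 (fun x => f x * cexp (I * ((x * lam : ℝ) : ℂ))) ξ = 𝓕 f (ξ - lam / (2 * Real.pi)) := by
  rw [fou_eq, fou_eq]
  refine integral_congr_ae (Filter.Eventually.of_forall fun v => ?_)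
  simp only
  have : cexp (((-2 * Real.pi * v * (ξ - lam / (2 * Real.pi)) : ℝ) : ℂ) * I) =
      cexp (((-2 * Real.pi * v * ξ : ℝ) : ℂ) * I) * cexp (I * ((v * lam : ℝ) : ℂ)) := by
    rw [← Complex.exp_add]
    congr 1
    have h : -2 * Real.pi * v * (ξ - lam / (2 * Real.pi)) = -2 * Real.pi * v * ξ + v * lam := by
      field_simp
      ring
    rw [h]
    push_cast
    ring
  rw [this]
  ring

end Pool.Agent.J4.H39.HM
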