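import Mathlib

/-!
# Differences of products
-/

set_option autoImplicit false

namespace Pool.Agent.J4.H39.HM

open Finset

lemma prod_sub_le {ι 𝕜 : Type*} [DecidableEq ι] [NormedField 𝕜] (s : Finset ι) (a b : ι → 𝕜) :
    ‖∏ i ∈ s, a i - ∏ i ∈ s, b i‖ ≤ ∑ i ∈ s, ‖a i - b i‖ * ∏ k ∈ s.erase i, (‖a k‖ + ‖b k‖) := by
  induction s using Finset.induction_on with
  | empty => simp
  | insert x s hx ih =>
    rw [prod_insert hx, prod_insert hx, sum_insert hx, erase_insert hx]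
    have h1 : a x * ∏ i ∈ s, a i - b x * ∏ i ∈ s, b i =
        (a x - b x) * ∏ i ∈ s, a i + b x * (∏ i ∈ s, a i - ∏ i ∈ s, b i) := by ring
    rw [h1]
    refine (norm_add_le _ _).trans (add_le_add ?_ ?_)
    · rw [norm_mul, norm_prod]
      refine mul_le_mul_of_nonneg_left ?_ (norm_nonneg _)
      exact prod_le_prod (fun i _ => norm_nonneg _) fun i _ => le_add_of_nonneg_right (norm_nonneg _)
    · rw [norm_mul]
      calc ‖b x‖ * ‖∏ i ∈ s, a i - ∏ i ∈ s, b i‖ ≤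
          (‖a x‖ + ‖b x‖) * ∑ i ∈ s, ‖a i - b i‖ * ∏ k ∈ s.erase i, (‖a k‖ + ‖b k‖) :=
            mul_le_mul (le_add_of_nonneg_left (norm_nonneg _)) ih (norm_nonneg _) (by positivity)
        _ = ∑ i ∈ s, ‖a i - b i‖ * ∏ k ∈ (insert x s).erase i, (‖a k‖ + ‖b k‖) := by
            rw [mul_sum]
            refine sum_congr rfl fun i hi => ?_
            have hne : x ≠ i := fun h => hx (h ▸ hi)
            rw [erase_insert_of_ne hne, prod_insert (fun h => hx (mem_of_mem_erase h))]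
            ring

lemma prod_two {ι : Type*} [DecidableEq ι] (s : Finset ι) (e : ι → ℝ) {M : ℝ} {r : ℕ} (he : ∀ i ∈ s, 0 ≤ e i)
    (hM : ∀ i ∈ s, e i ≤ M) (hs : s.card = r + 2) : ∏ i ∈ s, e i ≤ M ^ r * ∑ i ∈ s, e i ^ 2 := by
  obtain ⟨x, hx⟩ : s.Nonempty := by rw [← card_pos]; omega
  have h1 : (s.erase x).card = r + 1 := by rw [card_erase_of_mem hx, hs]; rfl
  obtain ⟨y, hy⟩ : (s.erase x).Nonempty := by rw [← card_pos]; omega
  have h2 : ((s.erase x).erase y).card = r := by rw [card_erase_of_mem hy, h1]; rfl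
  rw [← mul_prod_erase s e hx, ← mul_prod_erase (s.erase x) e hy]
  have hys : y ∈ s := mem_of_mem_erase hy
  have hM0 : 0 ≤ M := (he x hx).trans (hM x hx)
  have h3 : ∏ i ∈ (s.erase x).erase y, e i ≤ M ^ r := by
    rw [← h2]
    rw [← prod_const]
    exact prod_le_prod (fun i hi => he i (mem_of_mem_erase (mem_of_mem_erase hi)))
      fun i hi => hM i (mem_of_mem_erase (mem_of_mem_erase hi))
  have h30 : 0 ≤ ∏ i ∈ (s.erase x).erase y, e i :=
    prod_nonneg fun i hi => he i (mem_of_mem_erase (mem_of_mem_erase hi))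
  have h4 : e x * e y ≤ ∑ i ∈ s, e i ^ 2 := by
    have h5 : e x ^ 2 + e y ^ 2 ≤ ∑ i ∈ s, e i ^ 2 := by
      rw [← add_sum_erase s _ hx, ← add_sum_erase (s.erase x) _ hy]
      have : 0 ≤ ∑ i ∈ (s.erase x).erase y, e i ^ 2 := sum_nonneg fun i _ => sq_nonneg _
      linarith
    nlinarith [sq_nonneg (e x - e y), sq_nonneg (e x), sq_nonneg (e y)]
  calc e x * (e y * ∏ i ∈ (s.erase x).erase y, e i) = (e x * e y) * ∏ i ∈ (s.erase x).erase y, e i := by ring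
    _ ≤ (∑ i ∈ s, e i ^ 2) * M ^ r := mul_le_mul h4 h3 h30 (sum_nonneg fun i _ => sq_nonneg _)
    _ = _ := mul_comm _ _

/-- the difference of two products of `r + 3` factors -/
theorem prod_diff {r : ℕ} (a b : Fin (r + 3) → ℂ) {S M : ℝ} (hS : ∀ i, ‖a i - b i‖ ≤ S)
    (hM : ∀ i, ‖a i‖ + ‖b i‖ ≤ M) :
    ‖∏ i, a i - ∏ i, b i‖ ≤ (r + 3) * S * M ^ r * (2 * ∑ i, (‖a i‖ ^ 2 + ‖b i‖ ^ 2)) := by
  classical
  have hS0 : 0 ≤ S := (norm_nonneg _).trans (hS 0)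
  have hM0 : 0 ≤ M := (by positivity : 0 ≤ ‖a 0‖ + ‖b 0‖).trans (hM 0)
  refine (prod_sub_le univ a b).trans ?_
  have h1 : ∀ i : Fin (r + 3), ‖a i - b i‖ * ∏ k ∈ univ.erase i, (‖a k‖ + ‖b k‖) ≤
      S * (M ^ r * (2 * ∑ i, (‖a i‖ ^ 2 + ‖b i‖ ^ 2))) := by
    intro i
    have h2 := prod_two (univ.erase i) (fun k => ‖a k‖ + ‖b k‖) (M := M) (r := r) (fun _ _ => by positivity)
      (fun k _ => hM k) (by rw [card_erase_of_mem (mem_univ _), card_univ, Fintype.card_fin]; rfl)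
    have h3 : ∑ k ∈ univ.erase i, (‖a k‖ + ‖b k‖) ^ 2 ≤ 2 * ∑ i, (‖a i‖ ^ 2 + ‖b i‖ ^ 2) := by
      calc ∑ k ∈ univ.erase i, (‖a k‖ + ‖b k‖) ^ 2 ≤ ∑ k, (‖a k‖ + ‖b k‖) ^ 2 :=
            sum_le_sum_of_subset_of_nonneg (erase_subset _ _) fun _ _ _ => sq_nonneg _
        _ ≤ ∑ k, 2 * (‖a k‖ ^ 2 + ‖b k‖ ^ 2) := by
            refine sum_le_sum fun k _ => ?_
            nlinarith [sq_nonneg (‖a k‖ - ‖b k‖)]
        _ = _ := by rw [mul_sum]
    refine mul_le_mul (hS i) (h2.trans (mul_le_mul_of_nonneg_left h3 (by positivity)))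
      (prod_nonneg fun _ _ => by positivity) hS0
  refine (sum_le_sum fun i _ => h1 i).trans (le_of_eq ?_)
  rw [sum_const, card_univ, Fintype.card_fin]
  simp only [nsmul_eq_mul]
  push_cast
  ring

end Pool.Agent.J4.H39.HM
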