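import Pool.Agent.J4.H39.HM.Fou
import Pool.Agent.J4.H39.HM.Pro
import Pool.Agent.Y969.GP.Def

/-!
# Integrals over hyperplanes: comparison, off-diagonal terms
-/

set_option autoImplicit false

namespace Pool.Agent.J4.H39.HM

open MeasureTheory Set
open Complex hiding mk
open FourierTransform hiding mk
open Pool.Agent.Y969.GP (mk)

variable {m : ℕ}

/-- the integral of `∏ f i (x i)` over the hyperplane `∑ a i x i = 0` -/
noncomputable def HI (a : Fin (m + 1) → ℤ) (f : Fin (m + 1) → ℝ → ℂ) : ℂ :=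
  ∫ x : Fin m → ℝ, (∏ j, f j.succ (x j)) * f 0 (-(∑ j, (a j.succ : ℝ) * x j) / a 0)

lemma hi_eq {a : Fin (m + 1) → ℤ} (ha : a 0 ≠ 0) {f : Fin (m + 1) → ℝ → ℂ} (hf : ∀ i, Nice (f i)) :
    HI a f = ((|(a 0 : ℝ)| : ℝ) : ℂ) * ∫ ξ : ℝ, ∏ i, 𝓕 (f i) (a i * ξ) := by
  have ha' : (a 0 : ℝ) ≠ 0 := by exact_mod_cast ha
  have h1 := hyp (fun j : Fin m => f j.succ) (f 0) (fun j => -(a j.succ : ℝ) / a 0) (fun j => (hf j.succ).int) (hf 0)
  unfold HI
  have e1 : ∀ x : Fin m → ℝ, -(∑ j, (a j.succ : ℝ) * x j) / a 0 = ∑ j, -(a j.succ : ℝ) / a 0 * x j := by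
    intro x
    rw [neg_div, Finset.sum_div, ← Finset.sum_neg_distrib]
    refine Finset.sum_congr rfl fun j _ => ?_
    ring
  simp only [e1]
  rw [h1]
  have h2 := MeasureTheory.Measure.integral_comp_mul_left
    (fun ξ : ℝ => 𝓕 (f 0) ξ * ∏ j : Fin m, 𝓕 (f j.succ) (-(-(a j.succ : ℝ) / a 0) * ξ)) (a 0 : ℝ)
  have h3 : ∀ ξ : ℝ, 𝓕 (f 0) (a 0 * ξ) * ∏ j : Fin m, 𝓕 (f j.succ) (-(-(a j.succ : ℝ) / a 0) * (a 0 * ξ)) =
      ∏ i, 𝓕 (f i) (a i * ξ) := by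
    intro ξ
    rw [Fin.prod_univ_succ]
    congr 1
    refine Finset.prod_congr rfl fun j _ => ?_
    congr 1
    field_simp
  simp only [h3] at h2
  rw [h2, abs_inv, real_smul, ← mul_assoc]
  push_cast
  rw [mul_inv_cancel₀ (by simpa using ha), one_mul]

lemma fou_bdd {f : ℝ → ℂ} (hf : Nice f) : ∃ C : ℝ, 0 ≤ C ∧ ∀ ξ, ‖𝓕 f ξ‖ ≤ C :=
  ⟨∫ v, ‖f v‖, integral_nonneg fun _ => norm_nonneg _, fou_norm_le f⟩

lemma comp_int {f : ℝ → ℂ} (hf : Integrable f) {c : ℤ} (hc : c ≠ 0) : Integrable fun ξ : ℝ => f (c * ξ) := by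
  have hc' : (c : ℝ) ≠ 0 := by exact_mod_cast hc
  exact hf.comp_mul_left' hc'

lemma prod_int {a : Fin (m + 1) → ℤ} (ha : ∀ i, a i ≠ 0) {f : Fin (m + 1) → ℝ → ℂ} (hf : ∀ i, Nice (f i)) :
    Integrable fun ξ : ℝ => ∏ i, 𝓕 (f i) (a i * ξ) := by
  simp only [Fin.prod_univ_succ]
  have h1 : Integrable fun ξ : ℝ => 𝓕 (f 0) (a 0 * ξ) := comp_int (hf 0).fint (ha 0)
  choose C hC0 hC using fun i => fou_bdd (hf i)
  have h2 : Continuous fun ξ : ℝ => ∏ j : Fin m, 𝓕 (f j.succ) (a j.succ * ξ) := by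
    refine continuous_finsetProd _ fun j _ => ?_
    exact (fou_cont (hf j.succ).int).comp (by fun_prop)
  have h3 := h1.bdd_mul (c := ∏ j : Fin m, C j.succ) h2.aestronglyMeasurable (Filter.Eventually.of_forall fun ξ => by
    rw [norm_prod]
    exact Finset.prod_le_prod (fun _ _ => norm_nonneg _) fun j _ => hC _ _)
  refine h3.congr (Filter.Eventually.of_forall fun ξ => ?_)
  simp only
  ring

lemma sq_int {f : ℝ → ℂ} (hf : Nice f) : Integrable fun ξ : ℝ => ‖𝓕 f ξ‖ ^ 2 := by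
  obtain ⟨C, hC0, hC⟩ := fou_bdd hf
  refine (hf.fint.norm.const_mul C).mono' ((fou_cont hf.int).norm.pow 2).aestronglyMeasurable
    (Filter.Eventually.of_forall fun ξ => ?_)
  rw [Real.norm_of_nonneg (by positivity), sq]
  exact mul_le_mul_of_nonneg_right (hC ξ) (norm_nonneg _)

lemma abs_cast_ge {c : ℤ} (hc : c ≠ 0) : (1 : ℝ) ≤ |(c : ℝ)| := by
  rw [← Int.cast_abs]
  exact_mod_cast Int.one_le_abs hc

lemma sq_comp {f : ℝ → ℂ} (hf : Nice f) {c : ℤ} (hc : c ≠ 0) :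
    Integrable (fun ξ : ℝ => ‖𝓕 f (c * ξ)‖ ^ 2) ∧ ∫ ξ : ℝ, ‖𝓕 f (c * ξ)‖ ^ 2 ≤ ∫ x, ‖f x‖ ^ 2 := by
  have hc' : (c : ℝ) ≠ 0 := by exact_mod_cast hc
  have h1 := sq_int hf
  refine ⟨h1.comp_mul_left' hc', ?_⟩
  have h2 := MeasureTheory.Measure.integral_comp_mul_left (fun ξ : ℝ => ‖𝓕 f ξ‖ ^ 2) (c : ℝ)
  rw [h2, plancherel hf, abs_inv, smul_eq_mul]
  have h3 : 0 ≤ ∫ x, ‖f x‖ ^ 2 := integral_nonneg fun _ => by positivity
  have h4 : |(c : ℝ)|⁻¹ ≤ 1 := inv_le_one_of_one_le₀ (abs_cast_ge hc)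
  exact mul_le_of_le_one_left h3 h4

/-- **comparison** -/
theorem hi_diff {r : ℕ} {a : Fin (r + 3) → ℤ} (ha : ∀ i, a i ≠ 0) {f g : Fin (r + 3) → ℝ → ℂ}
    (hf : ∀ i, Nice (f i)) (hg : ∀ i, Nice (g i)) {S M : ℝ}
    (hS : ∀ i ξ, ‖𝓕 (f i) ξ - 𝓕 (g i) ξ‖ ≤ S) (hM : ∀ i ξ, ‖𝓕 (f i) ξ‖ + ‖𝓕 (g i) ξ‖ ≤ M) :
    ‖HI (m := r + 2) a f - HI (m := r + 2) a g‖ ≤ |(a 0 : ℝ)| * ((r + 3) * S * M ^ r *
      (2 * ∑ i, ((∫ x, ‖f i x‖ ^ 2) + ∫ x, ‖g i x‖ ^ 2))) := by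
  rw [hi_eq (ha 0) hf, hi_eq (ha 0) hg, ← mul_sub, norm_mul]
  have hS0 : 0 ≤ S := (norm_nonneg _).trans (hS 0 0)
  have hM0 : 0 ≤ M := (by positivity : 0 ≤ ‖𝓕 (f 0) 0‖ + ‖𝓕 (g 0) 0‖).trans (hM 0 0)
  rw [Complex.norm_real, Real.norm_eq_abs, abs_abs]
  refine mul_le_mul_of_nonneg_left ?_ (abs_nonneg _)
  have i1 := prod_int (m := r + 2) ha hf
  have i2 := prod_int (m := r + 2) ha hg
  have e1 := integral_sub i1 i2
  refine (le_of_eq (congrArg norm e1.symm)).trans ?_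
  have hb : Integrable (fun ξ : ℝ => (r + 3) * S * M ^ r *
      (2 * ∑ i, (‖𝓕 (f i) (a i * ξ)‖ ^ 2 + ‖𝓕 (g i) (a i * ξ)‖ ^ 2))) :=
    ((integrable_finsetSum _ fun i _ => (sq_comp (hf i) (ha i)).1.add (sq_comp (hg i) (ha i)).1).const_mul _).const_mul _
  refine (norm_integral_le_of_norm_le hb (Filter.Eventually.of_forall fun ξ =>
    prod_diff _ _ (fun i => hS i _) (fun i => hM i _))).trans ?_
  have hs1 : ∀ i : Fin (r + 3), Integrable (fun ξ : ℝ => ‖𝓕 (f i) (a i * ξ)‖ ^ 2 + ‖𝓕 (g i) (a i * ξ)‖ ^ 2) :=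
    fun i => (sq_comp (hf i) (ha i)).1.add (sq_comp (hg i) (ha i)).1
  rw [integral_const_mul, integral_const_mul, integral_finsetSum _ fun i _ => hs1 i]
  refine mul_le_mul_of_nonneg_left (mul_le_mul_of_nonneg_left (Finset.sum_le_sum fun i _ => ?_) zero_le_two)
    (by positivity)
  rw [integral_add (sq_comp (hf i) (ha i)).1 (sq_comp (hg i) (ha i)).1]
  exact add_le_add (sq_comp (hf i) (ha i)).2 (sq_comp (hg i) (ha i)).2

/-! ### the kernel -/

lemma mk_nonneg {H : ℝ} (hH : 0 ≤ H) (x : ℝ) : 0 ≤ mk H x := by unfold mk; positivity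

lemma mk_le {H : ℝ} (hH : 0 ≤ H) (x : ℝ) : mk H x ≤ H := by
  unfold mk
  exact div_le_self hH (by nlinarith [abs_nonneg x, mul_nonneg hH (abs_nonneg x)])

lemma mk_anti {H : ℝ} (hH : 0 ≤ H) {x y : ℝ} (h : |x| ≤ |y|) : mk H y ≤ mk H x := by
  unfold mk
  have := mul_nonneg hH (abs_nonneg x)
  exact div_le_div_of_nonneg_left hH (by linarith) (by nlinarith)

lemma mk_far {H δ : ℝ} (hH : 0 ≤ H) (hδ : 0 < δ) {x : ℝ} (h : δ ≤ |x|) : mk H x ≤ 1 / δ := by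
  unfold mk
  have h0 := mul_nonneg hH (abs_nonneg x)
  rw [div_le_div_iff₀ (by linarith) hδ]
  nlinarith

lemma mk_sq_le {H : ℝ} (hH : 0 ≤ H) (x : ℝ) : mk H x ^ 2 ≤ H ^ 2 * (1 + (H * x) ^ 2)⁻¹ := by
  unfold mk
  have h0 := mul_nonneg hH (abs_nonneg x)
  rw [div_pow, div_eq_mul_inv]
  refine mul_le_mul_of_nonneg_left (inv_anti₀ (by positivity) ?_) (by positivity)
  have : (H * x) ^ 2 = (H * |x|) ^ 2 := by rw [mul_pow, mul_pow, sq_abs]
  rw [this]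
  nlinarith

lemma mk_meas (H : ℝ) : Continuous (mk |H|) := by
  unfold mk
  refine continuous_const.div (by fun_prop) fun x => ?_
  have := mul_nonneg (abs_nonneg H) (abs_nonneg x)
  linarith

lemma mk_cont {H : ℝ} (hH : 0 ≤ H) : Continuous (mk H) := by
  have := mk_meas H
  rwa [abs_of_nonneg hH] at this

lemma mk_sq_int {H : ℝ} (hH : 0 < H) (θ : ℝ) :
    Integrable (fun ξ : ℝ => mk H (2 * Real.pi * ξ - θ) ^ 2) ∧ ∫ ξ : ℝ, mk H (2 * Real.pi * ξ - θ) ^ 2 ≤ H := by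
  have hpi := Real.pi_pos
  have hk : 0 < H * (2 * Real.pi) := by positivity
  have i0 : Integrable (fun x : ℝ => (1 + x ^ 2)⁻¹) := integrable_inv_one_add_sq
  have i1 : Integrable (fun ξ : ℝ => (1 + (H * (2 * Real.pi) * ξ - H * θ) ^ 2)⁻¹) := by
    have h1 := (i0.comp_sub_right (H * θ)).comp_mul_left' hk.ne'
    exact h1
  have e1 : ∫ ξ : ℝ, (1 + (H * (2 * Real.pi) * ξ - H * θ) ^ 2)⁻¹ = (H * (2 * Real.pi))⁻¹ * Real.pi := by
    have h1 := MeasureTheory.Measure.integral_comp_mul_left (fun x : ℝ => (1 + (x - H * θ) ^ 2)⁻¹) (H * (2 * Real.pi))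
    rw [h1, integral_sub_right_eq_self (fun x : ℝ => (1 + x ^ 2)⁻¹) (H * θ), integral_univ_inv_one_add_sq, smul_eq_mul,
      abs_of_pos (by positivity)]
  have hle : ∀ ξ : ℝ, mk H (2 * Real.pi * ξ - θ) ^ 2 ≤ H ^ 2 * (1 + (H * (2 * Real.pi) * ξ - H * θ) ^ 2)⁻¹ := by
    intro ξ
    refine (mk_sq_le hH.le _).trans (le_of_eq ?_)
    congr 4
    ring
  have hmeas : AEStronglyMeasurable (fun ξ : ℝ => mk H (2 * Real.pi * ξ - θ) ^ 2) volume :=
    (((mk_cont hH.le).comp (by fun_prop : Continuous fun ξ : ℝ => 2 * Real.pi * ξ - θ)).pow 2).aestronglyMeasurable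
  have i2 : Integrable (fun ξ : ℝ => mk H (2 * Real.pi * ξ - θ) ^ 2) :=
    (i1.const_mul (H ^ 2)).mono' hmeas (Filter.Eventually.of_forall fun ξ => by
      rw [Real.norm_of_nonneg (by positivity)]; exact hle ξ)
  refine ⟨i2, (integral_mono i2 (i1.const_mul _) hle).trans ?_⟩
  rw [integral_const_mul, e1]
  have : H ^ 2 * ((H * (2 * Real.pi))⁻¹ * Real.pi) = H / 2 := by field_simp
  rw [this]
  linarith

/-- off-diagonal products -/
lemma mk_prod {r : ℕ} {H Δ : ℝ} (hH : 0 ≤ H) (hΔ : 0 < Δ) (x : ℝ) (θ : Fin (r + 3) → ℝ) {i k : Fin (r + 3)}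
    (hgap : Δ ≤ |θ i - θ k|) :
    ∏ j, mk H (x - θ j) ≤ H ^ r * (2 / Δ) * (2 * ∑ j, mk H (x - θ j) ^ 2) := by
  classical
  obtain ⟨e, he⟩ : ∃ e : Fin (r + 3) → ℝ, e = fun j => mk H (x - θ j) := ⟨_, rfl⟩
  have he0 : ∀ j, 0 ≤ e j := fun j => by rw [he]; exact mk_nonneg hH _
  have heH : ∀ j, e j ≤ H := fun j => by rw [he]; exact mk_le hH _
  have hik : i ≠ k := by
    rintro rfl
    rw [sub_self, abs_zero] at hgap
    linarith
  have hgoal : ∏ j, e j ≤ H ^ r * (2 / Δ) * (2 * ∑ j, e j ^ 2) := by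
    rw [← Finset.mul_prod_erase Finset.univ e (Finset.mem_univ i),
      ← Finset.mul_prod_erase (Finset.univ.erase i) e (Finset.mem_erase.2 ⟨hik.symm, Finset.mem_univ k⟩)]
    have hcard : ((Finset.univ.erase i).erase k).card = r + 1 := by
      rw [Finset.card_erase_of_mem (Finset.mem_erase.2 ⟨hik.symm, Finset.mem_univ k⟩),
        Finset.card_erase_of_mem (Finset.mem_univ _), Finset.card_univ, Fintype.card_fin]
      rfl
    obtain ⟨l, hl⟩ : ((Finset.univ.erase i).erase k).Nonempty := by rw [← Finset.card_pos]; omega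
    rw [← Finset.mul_prod_erase _ e hl]
    have hrest : ∏ j ∈ ((Finset.univ.erase i).erase k).erase l, e j ≤ H ^ r := by
      have h2 : (((Finset.univ.erase i).erase k).erase l).card = r := by
        rw [Finset.card_erase_of_mem hl, hcard]; rfl
      calc ∏ j ∈ ((Finset.univ.erase i).erase k).erase l, e j ≤ ∏ j ∈ ((Finset.univ.erase i).erase k).erase l, H :=
            Finset.prod_le_prod (fun j _ => he0 j) fun j _ => heH j
        _ = H ^ r := by rw [Finset.prod_const, h2]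
    have hrest0 : 0 ≤ ∏ j ∈ ((Finset.univ.erase i).erase k).erase l, e j := Finset.prod_nonneg fun j _ => he0 j
    have hprod : e i * e k ≤ (2 / Δ) * (e i + e k) := by
      have hor : Δ / 2 ≤ |x - θ i| ∨ Δ / 2 ≤ |x - θ k| := by
        by_contra hcon
        rw [not_or, not_le, not_le] at hcon
        have : |θ i - θ k| ≤ |x - θ i| + |x - θ k| := by
          rw [show θ i - θ k = (x - θ k) - (x - θ i) by ring]
          rw [add_comm]
          exact abs_sub _ _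
        linarith
      rcases hor with h | h
      · have h1 : e i ≤ 2 / Δ := by
          rw [he]
          refine (mk_far hH (by linarith : 0 < Δ / 2) h).trans (le_of_eq ?_)
          field_simp
        have : 0 ≤ 2 / Δ * e i := mul_nonneg (by positivity) (he0 i)
        nlinarith [he0 k]
      · have h1 : e k ≤ 2 / Δ := by
          rw [he]
          refine (mk_far hH (by linarith : 0 < Δ / 2) h).trans (le_of_eq ?_)
          field_simp
        have : 0 ≤ 2 / Δ * e k := mul_nonneg (by positivity) (he0 k)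
        nlinarith [he0 i]
    have hsum : (e i + e k) * e l ≤ 2 * ∑ j, e j ^ 2 := by
      have s1 : ∀ j, e j ^ 2 ≤ ∑ j, e j ^ 2 := fun j =>
        Finset.single_le_sum (f := fun j => e j ^ 2) (fun _ _ => sq_nonneg _) (Finset.mem_univ j)
      nlinarith [s1 i, s1 k, s1 l, sq_nonneg (e i - e l), sq_nonneg (e k - e l)]
    calc e i * (e k * (e l * ∏ j ∈ ((Finset.univ.erase i).erase k).erase l, e j)) =
        (e i * e k) * (e l * ∏ j ∈ ((Finset.univ.erase i).erase k).erase l, e j) := by ring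
      _ ≤ ((2 / Δ) * (e i + e k)) * (e l * H ^ r) :=
          mul_le_mul hprod (mul_le_mul_of_nonneg_left hrest (he0 l)) (mul_nonneg (he0 l) hrest0)
            (mul_nonneg (by positivity) (add_nonneg (he0 i) (he0 k)))
      _ = H ^ r * (2 / Δ) * ((e i + e k) * e l) := by ring
      _ ≤ _ := mul_le_mul_of_nonneg_left hsum (by positivity)
  rw [he] at hgoal
  exact hgoal

/-- **off-diagonal terms** -/
theorem hi_off {r : ℕ} {a : Fin (r + 3) → ℤ} (ha : ∀ i, a i ≠ 0) {A : Fin (r + 3) → ℝ → ℂ} (lam D : Fin (r + 3) → ℝ)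
    {H Δ : ℝ} (hH : 0 < H) (hΔ : 0 < Δ) (hf : ∀ i, Nice (fun x => A i x * cexp (I * ((x * lam i : ℝ) : ℂ))))
    (hA : ∀ i ξ, ‖𝓕 (A i) ξ‖ ≤ D i * mk H (2 * Real.pi * ξ)) (hD : ∀ i, 0 ≤ D i) {i k : Fin (r + 3)}
    (hgap : Δ ≤ |lam i / a i - lam k / a k|) :
    ‖HI (m := r + 2) a (fun i x => A i x * cexp (I * ((x * lam i : ℝ) : ℂ)))‖ ≤
      |(a 0 : ℝ)| * ((∏ i, D i) * (H ^ r * (2 / Δ) * (2 * ((r + 3) * H)))) := by
  rw [hi_eq (ha 0) hf, norm_mul, Complex.norm_real, Real.norm_eq_abs, abs_abs]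
  refine mul_le_mul_of_nonneg_left ?_ (abs_nonneg _)
  have hpi := Real.pi_pos
  have hpt : ∀ ξ : ℝ, ‖∏ i, 𝓕 (fun x => A i x * cexp (I * ((x * lam i : ℝ) : ℂ))) (a i * ξ)‖ ≤
      (∏ i, D i) * (H ^ r * (2 / Δ) * (2 * ∑ j, mk H (2 * Real.pi * ξ - lam j / a j) ^ 2)) := by
    intro ξ
    rw [norm_prod]
    have h1 : ∀ i, ‖𝓕 (fun x => A i x * cexp (I * ((x * lam i : ℝ) : ℂ))) (a i * ξ)‖ ≤
        D i * mk H (2 * Real.pi * ξ - lam i / a i) := by
      intro i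
      have hai : (a i : ℝ) ≠ 0 := by exact_mod_cast ha i
      rw [fou_mod]
      refine (hA i _).trans (mul_le_mul_of_nonneg_left (mk_anti hH.le ?_) (hD i))
      have e1 : 2 * Real.pi * (a i * ξ - lam i / (2 * Real.pi)) = a i * (2 * Real.pi * ξ - lam i / a i) := by
        field_simp
      rw [e1, abs_mul]
      exact le_mul_of_one_le_left (abs_nonneg _) (abs_cast_ge (ha i))
    calc ∏ i, ‖𝓕 (fun x => A i x * cexp (I * ((x * lam i : ℝ) : ℂ))) (a i * ξ)‖ ≤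
        ∏ i, (D i * mk H (2 * Real.pi * ξ - lam i / a i)) :=
          Finset.prod_le_prod (fun _ _ => norm_nonneg _) fun i _ => h1 i
      _ = (∏ i, D i) * ∏ i, mk H (2 * Real.pi * ξ - lam i / a i) := Finset.prod_mul_distrib
      _ ≤ _ := mul_le_mul_of_nonneg_left
          (mk_prod hH.le hΔ _ (fun j => lam j / a j) hgap) (Finset.prod_nonneg fun i _ => hD i)
  have hint : ∀ j : Fin (r + 3), Integrable (fun ξ : ℝ => mk H (2 * Real.pi * ξ - lam j / a j) ^ 2) :=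
    fun j => (mk_sq_int hH _).1
  have hb : Integrable (fun ξ : ℝ => (∏ i, D i) * (H ^ r * (2 / Δ) *
      (2 * ∑ j, mk H (2 * Real.pi * ξ - lam j / a j) ^ 2))) :=
    (((integrable_finsetSum _ fun j _ => hint j).const_mul _).const_mul _).const_mul _
  refine (norm_integral_le_of_norm_le hb (Filter.Eventually.of_forall hpt)).trans ?_
  rw [integral_const_mul, integral_const_mul, integral_const_mul, integral_finsetSum _ fun j _ => hint j]
  have hs : ∑ j : Fin (r + 3), ∫ ξ : ℝ, mk H (2 * Real.pi * ξ - lam j / a j) ^ 2 ≤ (r + 3) * H := by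
    calc ∑ j : Fin (r + 3), ∫ ξ : ℝ, mk H (2 * Real.pi * ξ - lam j / a j) ^ 2 ≤ ∑ j : Fin (r + 3), H :=
          Finset.sum_le_sum fun j _ => (mk_sq_int hH _).2
      _ = (r + 3) * H := by
          rw [Finset.sum_const, Finset.card_univ, Fintype.card_fin, nsmul_eq_mul]
          push_cast
          ring
  have hDp : 0 ≤ ∏ i, D i := Finset.prod_nonneg fun i _ => hD i
  gcongr

end Pool.Agent.J4.H39.HM
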