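import Pool.Agent.J4.H39.HM.Sup
import Pool.Agent.N879.GD.M4b

/-!
# Mean square bounds
-/

set_option autoImplicit false

namespace Pool.Agent.J4.H39.HM

open MeasureTheory Set Topology
open Filter hiding mk
open Complex hiding mk
open Pool.Agent.Y969.GP Pool.Agent.N879.GD

/-- the Dirichlet polynomial over the fractions of height at most `Y` -/
noncomputable def PY (X Y : ℕ) (x : ℝ) : ℂ := ∑ p ∈ FR Y, ((cr X p x : ℝ) : ℂ) * cexp (I * ((x * lam p : ℝ) : ℂ))

lemma GB_eq (w : ℝ → ℝ) (s H : ℝ) (X Y : ℕ) (x : ℝ) : GB w s H X Y x = (w ((x - s) / H) : ℂ) * PY X Y x := by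
  unfold GB PY AA
  rw [Finset.mul_sum]
  refine Finset.sum_congr rfl fun p _ => ?_
  push_cast
  ring

/-- mean square of the truncated Dirichlet polynomial -/
lemma mean_PY : ∃ C : ℝ, 0 < C ∧ ∀ (X Y : ℕ) (T : ℝ), 1 ≤ Y → Y ≤ X → 1 ≤ T →
    ∫ x in Icc 1 T, ‖PY X Y x‖ ^ 2 ≤ C * (T + X) * (1 + Real.log X) ^ 5 * (1 + Real.log T) ^ 2 := by
  have hL := Pool.Agent.Y125.GP.t_LSW Pool.Agent.Y379.GP.t_SP
  have hCR := Pool.Agent.Y545.GP.t_CR Pool.Agent.Y587.GP.t_V
  obtain ⟨C, hC, h1⟩ := lsw_one hL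
  obtain ⟨-, -, C1, hC1, h3⟩ := hCR
  refine ⟨C * C1 ^ 2, by positivity, ?_⟩
  intro X Y T hY hYX hT
  have hX : 1 ≤ X := hY.trans hYX
  have hX' : (1 : ℝ) ≤ X := by exact_mod_cast hX
  have hY' : (1 : ℝ) ≤ Y := by exact_mod_cast hY
  have hYX' : (Y : ℝ) ≤ X := by exact_mod_cast hYX
  have hlX : 0 ≤ Real.log X := Real.log_nonneg hX'
  have hlY : 0 ≤ Real.log Y := Real.log_nonneg hY'
  have hlYX : Real.log Y ≤ Real.log X := Real.log_le_log (by linarith) hYX'
  have hlT : 0 ≤ Real.log T := Real.log_nonneg hT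
  set w : ℕ × ℕ → ℝ := fun p => C1 * (1 + Real.log X) * (√(ht p))⁻¹ * (1 + Real.log T) with hw
  have h4 := h1 Y T hY hT (fun p x => ((cr X p x : ℝ) : ℂ)) (fun p x => ((deriv (cr X p) x : ℝ) : ℂ)) w
    ?_ ?_ ?_ ?_
  · have h5 : ∑ q ∈ FR Y, w q ^ 2 ≤ C1 ^ 2 * (1 + Real.log X) ^ 2 * (1 + Real.log T) ^ 2 *
        (1 + Real.log Y) ^ 2 := by
      calc ∑ q ∈ FR Y, w q ^ 2 = C1 ^ 2 * (1 + Real.log X) ^ 2 * (1 + Real.log T) ^ 2 *
            ∑ q ∈ FR Y, (ht q)⁻¹ := by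
            rw [Finset.mul_sum]
            refine Finset.sum_congr rfl fun q _ => ?_
            have : 0 ≤ ht q := by unfold ht; positivity
            simp only [hw]
            rw [mul_pow, mul_pow, mul_pow, inv_pow, Real.sq_sqrt this]
            ring
        _ ≤ _ := by
            gcongr
            exact sum_FR_le Y
    refine (le_of_eq ?_).trans (h4.trans ?_)
    · rfl
    calc C * ((T + Y) * (1 + Real.log Y)) * ∑ q ∈ FR Y, w q ^ 2 ≤
        C * ((T + X) * (1 + Real.log X)) * (C1 ^ 2 * (1 + Real.log X) ^ 2 * (1 + Real.log T) ^ 2 *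
        (1 + Real.log X) ^ 2) := by
          refine mul_le_mul ?_ (h5.trans ?_) (Finset.sum_nonneg fun _ _ => sq_nonneg _) (by positivity)
          · gcongr
          · gcongr
      _ = _ := by ring
  · intro p hp x hx
    have := (h3 X p (FR_mono hYX hp) x (by linarith [hx.1])).1.hasDerivAt
    exact this.ofReal_comp
  · intro p hp
    refine continuous_ofReal.comp_continuousOn ?_
    intro x hx
    exact (h3 X p (FR_mono hYX hp) x (by linarith [hx.1])).2.1.continuousAt.continuousWithinAt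
  · intro p hp x hx
    have h5 := (h3 X p (FR_mono hYX hp) x (by linarith [hx.1])).2.2.2.1
    rw [Complex.norm_real, Real.norm_eq_abs]
    refine h5.trans ?_
    rw [hw]
    have h6 : 0 ≤ C1 * (1 + Real.log X) * (√(ht p))⁻¹ := by positivity
    nlinarith
  · intro p hp
    have h6 : 0 ≤ C1 * (1 + Real.log X) * (√(ht p))⁻¹ := by positivity
    have h5 : ∀ x ∈ Icc 1 T, ‖((deriv (cr X p) x : ℝ) : ℂ)‖ ≤ C1 * (1 + Real.log X) * (√(ht p))⁻¹ * x⁻¹ := by
      intro x hx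
      have hx0 : 0 < x := by linarith [hx.1]
      have h7 := (h3 X p (FR_mono hYX hp) x hx0).2.2.2.2.1
      rw [abs_mul, abs_of_pos hx0] at h7
      rw [Complex.norm_real, Real.norm_eq_abs, ← div_eq_mul_inv, le_div_iff₀ hx0]
      linarith
    have hcont : ContinuousOn (fun x => ‖((deriv (cr X p) x : ℝ) : ℂ)‖) (Icc 1 T) := by
      refine (continuous_ofReal.comp_continuousOn ?_).norm
      intro x hx
      exact (h3 X p (FR_mono hYX hp) x (by linarith [hx.1])).2.1.continuousAt.continuousWithinAt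
    have hinv : ContinuousOn (fun x : ℝ => x⁻¹) (Icc 1 T) :=
      continuousOn_inv₀.mono fun x hx => by
        simp only [mem_compl_iff, mem_singleton_iff]
        linarith [hx.1]
    calc ∫ x in (1 : ℝ)..T, ‖((deriv (cr X p) x : ℝ) : ℂ)‖ ≤
        ∫ x in (1 : ℝ)..T, C1 * (1 + Real.log X) * (√(ht p))⁻¹ * x⁻¹ := by
          refine intervalIntegral.integral_mono_on hT ?_ ?_ h5
          · exact hcont.intervalIntegrable_of_Icc hT
          · exact (hinv.const_smul (C1 * (1 + Real.log X) * (√(ht p))⁻¹)).intervalIntegrable_of_Icc hT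
      _ = C1 * (1 + Real.log X) * (√(ht p))⁻¹ * Real.log T := by
          rw [intervalIntegral.integral_const_mul, integral_inv_of_pos one_pos (by linarith), div_one]
      _ ≤ w p := by
          rw [hw]
          nlinarith

lemma PY_meas (X Y : ℕ) : Measurable (PY X Y) := by
  unfold PY
  refine Finset.measurable_sum _ fun p _ => ?_
  refine Measurable.mul (Complex.measurable_ofReal.comp (cr_meas X p)) ?_
  have : Continuous fun x : ℝ => cexp (I * ((x * lam p : ℝ) : ℂ)) := by fun_prop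
  exact this.measurable

lemma PY_contOn (X Y : ℕ) (T : ℝ) : ContinuousOn (PY X Y) (Icc 1 T) := by
  unfold PY
  refine continuousOn_finsetSum _ fun p hp => ?_
  obtain ⟨a1, a2, -⟩ := Pool.Agent.Y379.GP.mem_FR hp
  refine ContinuousOn.mul ?_ (by fun_prop)
  refine Complex.continuous_ofReal.comp_continuousOn fun x hx => ?_
  exact (cr_contDiffAt a1 a2 (by linarith [hx.1])).continuousAt.continuousWithinAt

/-- mean square over the windows -/
theorem win_sq {w : ℝ → ℝ} {R B H v τ₁ τ₂ Z : ℝ} (hw : Wt w R B) (hH : 0 < H) (hv : 0 < v) (hτ : τ₁ ≤ τ₂)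
    (h1 : 1 ≤ v * τ₁ - R * H) (h2 : v * τ₂ + R * H ≤ Z) {F : ℝ → ℝ} (hF : IntegrableOn F (Icc 1 Z))
    (hF0 : ∀ x ∈ Icc 1 Z, 0 ≤ F x) :
    IntegrableOn (fun τ => ∫ x, w ((x - v * τ) / H) ^ 2 * F x) (Icc τ₁ τ₂) ∧
    ∫ τ in Icc τ₁ τ₂, ∫ x, w ((x - v * τ) / H) ^ 2 * F x ≤ (2 * (R * H / v) * B ^ 2) * ∫ x in Icc 1 Z, F x := by
  have hR := hw.hR
  have hB := hw.hB
  have hw2 : Continuous (fun z : ℝ × ℝ => w ((z.2 - v * z.1) / H) ^ 2) :=
    (hw.diff.continuous.comp (by fun_prop)).pow 2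
  have hint : Integrable (Function.uncurry fun (τ x : ℝ) => w ((x - v * τ) / H) ^ 2 * F x)
      ((volume.restrict (Icc τ₁ τ₂)).prod (volume.restrict (Icc 1 Z))) := by
    have h3 : Integrable (fun z : ℝ × ℝ => F z.2) ((volume.restrict (Icc τ₁ τ₂)).prod (volume.restrict (Icc 1 Z))) :=
      Integrable.comp_snd hF _
    refine (h3.bdd_mul (c := B ^ 2) hw2.aestronglyMeasurable (Filter.Eventually.of_forall fun z => ?_))
    rw [Real.norm_of_nonneg (sq_nonneg _), ← sq_abs]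
    exact pow_le_pow_left₀ (abs_nonneg _) (hw.bd _) 2
  have he : ∀ τ ∈ Icc τ₁ τ₂, ∫ x, w ((x - v * τ) / H) ^ 2 * F x = ∫ x in Icc 1 Z, w ((x - v * τ) / H) ^ 2 * F x := by
    intro τ hτ'
    symm
    refine setIntegral_eq_integral_of_forall_compl_eq_zero fun x hx => ?_
    rw [win_zero hw hH, zero_pow two_ne_zero, zero_mul]
    intro hcon
    apply hx
    have e1 : v * τ₁ ≤ v * τ := mul_le_mul_of_nonneg_left hτ'.1 hv.le
    have e2 : v * τ ≤ v * τ₂ := mul_le_mul_of_nonneg_left hτ'.2 hv.le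
    exact ⟨by linarith [hcon.1], by linarith [hcon.2]⟩
  constructor
  · have h4 := hint.integral_prod_left
    refine IntegrableOn.congr_fun h4 (fun τ hτ' => ?_) measurableSet_Icc
    rw [he τ hτ']
    rfl
  · rw [setIntegral_congr_fun measurableSet_Icc he, integral_integral_swap hint]
    have h5 : ∀ x : ℝ, ∫ τ in Icc τ₁ τ₂, w ((x - v * τ) / H) ^ 2 ≤ 2 * (R * H / v) * B ^ 2 := by
      intro x
      have hz : ∀ τ, τ ∉ Icc (x / v - R * H / v) (x / v + R * H / v) → w ((x - v * τ) / H) ^ 2 = 0 := by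
        intro τ hτ'
        rw [win_zero hw hH, zero_pow two_ne_zero]
        intro hcon
        apply hτ'
        constructor
        · rw [← sub_div, div_le_iff₀ hv]; linarith [hcon.2]
        · rw [← add_div, le_div_iff₀ hv]; linarith [hcon.1]
      have h6 := int_win (f := fun τ => w ((x - v * τ) / H) ^ 2) (s := x / v) (L := R * H / v) (C := B ^ 2)
        (by positivity) hz (fun τ _ => by
          rw [abs_of_nonneg (sq_nonneg _), ← sq_abs]
          exact pow_le_pow_left₀ (abs_nonneg _) (hw.bd _) 2)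
      have hc : Continuous (fun τ : ℝ => w ((x - v * τ) / H) ^ 2) := (hw.diff.continuous.comp (by fun_prop)).pow 2
      have hcs : HasCompactSupport (fun τ : ℝ => w ((x - v * τ) / H) ^ 2) :=
        HasCompactSupport.intro (isCompact_Icc (a := x / v - R * H / v) (b := x / v + R * H / v)) hz
      have hi : Integrable (fun τ : ℝ => w ((x - v * τ) / H) ^ 2) := hc.integrable_of_hasCompactSupport hcs
      refine (setIntegral_le_integral hi (Filter.Eventually.of_forall fun τ => sq_nonneg _)).trans ?_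
      refine le_trans (integral_mono hi hi.abs fun τ => le_abs_self _) h6
    have h7 : ∀ x ∈ Icc 1 Z, ∫ τ in Icc τ₁ τ₂, w ((x - v * τ) / H) ^ 2 * F x ≤ (2 * (R * H / v) * B ^ 2) * F x := by
      intro x hx
      rw [integral_mul_const]
      exact mul_le_mul_of_nonneg_right (h5 x) (hF0 x hx)
    rw [← integral_const_mul]
    refine setIntegral_mono_on ?_ (hF.const_mul _) measurableSet_Icc h7
    exact hint.swap.integral_prod_left

/-- the two mean squares -/
theorem sq_bound {κ : ℝ} (hκ : 0 < κ) : ∃ C : ℝ, 0 < C ∧ ∀ (w : ℝ → ℝ) (R B H v τ₁ τ₂ Z : ℝ) (X Y : ℕ), Wt w R B →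
    0 < H → 0 < v → τ₁ ≤ τ₂ → 1 ≤ v * τ₁ - R * H → v * τ₂ + R * H ≤ Z → 1 ≤ Y → Y ≤ X →
    (IntegrableOn (fun τ => ∫ x, ‖GG w (v * τ) H x‖ ^ 2) (Icc τ₁ τ₂) ∧
    ∫ τ in Icc τ₁ τ₂, ∫ x, ‖GG w (v * τ) H x‖ ^ 2 ≤ (2 * (R * H / v) * B ^ 2) * (C * Z ^ (1 + κ))) ∧
    (IntegrableOn (fun τ => ∫ x, ‖GB w (v * τ) H X Y x‖ ^ 2) (Icc τ₁ τ₂) ∧
    ∫ τ in Icc τ₁ τ₂, ∫ x, ‖GB w (v * τ) H X Y x‖ ^ 2 ≤ (2 * (R * H / v) * B ^ 2) *
      (C * (Z + X) * (1 + Real.log X) ^ 5 * (1 + Real.log Z) ^ 2)) := by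
  obtain ⟨C1, hC1, h4⟩ := t_M4' κ hκ
  obtain ⟨C2, hC2, h5⟩ := mean_PY
  obtain ⟨_, _, _, hcont, _, _⟩ := t_CRU
  refine ⟨C1 + C2, by positivity, fun w R B H v τ₁ τ₂ Z X Y hw hH hv hτ h1 h2 hY hYX => ?_⟩
  have hR := hw.hR
  have hB := hw.hB
  have hZ : 1 ≤ Z := by
    have : v * τ₁ ≤ v * τ₂ := mul_le_mul_of_nonneg_left hτ hv.le
    have h3 : 0 ≤ R * H := by positivity
    linarith
  have hX0 : (1 : ℝ) ≤ X := by exact_mod_cast hY.trans hYX
  have hlX : 0 ≤ Real.log X := Real.log_nonneg hX0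
  have hlZ : 0 ≤ Real.log Z := Real.log_nonneg hZ
  have hc0 : 0 ≤ 2 * (R * H / v) * B ^ 2 := by positivity
  have e1 : ∀ τ x : ℝ, ‖GG w (v * τ) H x‖ ^ 2 = w ((x - v * τ) / H) ^ 2 * ff x ^ 2 := by
    intro τ x
    unfold GG
    rw [Complex.norm_real, Real.norm_eq_abs, sq_abs, mul_pow]
  have e2 : ∀ τ x : ℝ, ‖GB w (v * τ) H X Y x‖ ^ 2 = w ((x - v * τ) / H) ^ 2 * ‖PY X Y x‖ ^ 2 := by
    intro τ x
    rw [GB_eq, norm_mul, Complex.norm_real, Real.norm_eq_abs, mul_pow, sq_abs]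
  simp only [e1, e2]
  constructor
  · obtain ⟨g1, g2⟩ := win_sq hw hH hv hτ h1 h2 (F := fun x => ff x ^ 2) (hcont.pow 2).continuousOn.integrableOn_Icc
      (fun x _ => sq_nonneg _)
    refine ⟨g1, g2.trans (mul_le_mul_of_nonneg_left ?_ hc0)⟩
    have h6 := h4 Z hZ
    rw [intervalIntegral.integral_of_le (by linarith), ← integral_Icc_eq_integral_Ioc] at h6
    have h7 : ∫ x in Icc 1 Z, ff x ^ 2 ≤ ∫ x in Icc 0 Z, ff x ^ 2 := by
      refine setIntegral_mono_set (hcont.pow 2).continuousOn.integrableOn_Icc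
        (Filter.Eventually.of_forall fun x => sq_nonneg _) ?_
      exact (Icc_subset_Icc_left zero_le_one).eventuallyLE
    refine h7.trans (h6.trans ?_)
    exact mul_le_mul_of_nonneg_right (by linarith) (by positivity)
  · obtain ⟨g1, g2⟩ := win_sq hw hH hv hτ h1 h2 (F := fun x => ‖PY X Y x‖ ^ 2)
      ((PY_contOn X Y Z).norm.pow 2).integrableOn_Icc (fun x _ => sq_nonneg _)
    refine ⟨g1, g2.trans (mul_le_mul_of_nonneg_left ((h5 X Y Z hY hYX hZ).trans ?_) hc0)⟩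
    have h8 : 0 ≤ (Z + X) * (1 + Real.log X) ^ 5 * (1 + Real.log Z) ^ 2 := by positivity
    calc C2 * (Z + X) * (1 + Real.log X) ^ 5 * (1 + Real.log Z) ^ 2 =
        C2 * ((Z + X) * (1 + Real.log X) ^ 5 * (1 + Real.log Z) ^ 2) := by ring
      _ ≤ (C1 + C2) * ((Z + X) * (1 + Real.log X) ^ 5 * (1 + Real.log Z) ^ 2) :=
          mul_le_mul_of_nonneg_right (by linarith) h8
      _ = _ := by ring

end Pool.Agent.J4.H39.HM
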