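import Pool.Agent.J4.H39.HM.Fin

/-!
# The leading coefficient of the main term
-/

set_option autoImplicit false

namespace Pool.Agent.J4.H39.HM

open MeasureTheory Set Topology
open Filter hiding mk
open Pool.Agent.Y969.GP Pool.Agent.N879.GD

variable {m : ℕ}

/-- the sum over the coprime pairs -/
noncomputable def cop (s : ℝ) (ρ : ℕ × ℕ) : ℝ := if Nat.Coprime ρ.1 ρ.2 then (ht ρ) ^ (-s) else 0

lemma ht_scale {s : ℝ} (g : ℕ) (ρ : ℕ × ℕ) : (ht (g * ρ.1, g * ρ.2)) ^ (-s) = ((g : ℝ) ^ (-s)) ^ 2 * (ht ρ) ^ (-s) := by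
  unfold ht
  push_cast
  rw [show (g : ℝ) * ρ.1 * (g * ρ.2) = (g ^ 2) * ((ρ.1 : ℝ) * ρ.2) by ring,
    Real.mul_rpow (by positivity) (by positivity), ← Real.rpow_natCast, ← Real.rpow_natCast,
    ← Real.rpow_mul (by positivity), ← Real.rpow_mul (by positivity)]
  congr 1
  ring_nf

lemma fiber_sum {s : ℝ} {g : ℕ} (hg : 0 < g) :
    ∑' ρ : {ρ : ℕ × ℕ // Nat.gcd ρ.1 ρ.2 = g}, (ht ρ.1) ^ (-s) = ((g : ℝ) ^ (-s)) ^ 2 * ∑' ρ, cop s ρ := by
  have h1 : ∑' ρ : ℕ × ℕ, cop s ρ = ∑' ρ : {ρ : ℕ × ℕ // Nat.Coprime ρ.1 ρ.2}, (ht ρ.1) ^ (-s) := by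
    have := tsum_subtype {ρ : ℕ × ℕ | Nat.Coprime ρ.1 ρ.2} (fun ρ => (ht ρ) ^ (-s))
    rw [show (∑' ρ : {ρ : ℕ × ℕ // Nat.Coprime ρ.1 ρ.2}, (ht ρ.1) ^ (-s)) =
      ∑' ρ : ↑{ρ : ℕ × ℕ | Nat.Coprime ρ.1 ρ.2}, (ht ρ.1) ^ (-s) from rfl, this]
    refine tsum_congr fun ρ => ?_
    unfold cop
    rw [indicator_apply]
    rfl
  obtain ⟨e, he⟩ : ∃ e : {ρ : ℕ × ℕ // Nat.Coprime ρ.1 ρ.2} ≃ {ρ : ℕ × ℕ // Nat.gcd ρ.1 ρ.2 = g},
      ∀ ρ, (e ρ).1 = (g * ρ.1.1, g * ρ.1.2) := by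
    refine ⟨⟨fun ρ => ⟨(g * ρ.1.1, g * ρ.1.2), by
        simp only
        rw [Nat.gcd_mul_left, Nat.Coprime.gcd_eq_one ρ.2, mul_one]⟩,
      fun ρ => ⟨(ρ.1.1 / g, ρ.1.2 / g), by
        have h := ρ.2
        have := Nat.coprime_div_gcd_div_gcd (m := ρ.1.1) (n := ρ.1.2) (by rw [h]; exact hg)
        rw [h] at this
        exact this⟩, fun ρ => ?_, fun ρ => ?_⟩, fun ρ => rfl⟩
    · apply Subtype.ext
      simp only
      rw [Nat.mul_div_cancel_left _ hg, Nat.mul_div_cancel_left _ hg]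
    · apply Subtype.ext
      have h := ρ.2
      have d1 : g ∣ ρ.1.1 := by have := Nat.gcd_dvd_left ρ.1.1 ρ.1.2; rwa [h] at this
      have d2 : g ∣ ρ.1.2 := by have := Nat.gcd_dvd_right ρ.1.1 ρ.1.2; rwa [h] at this
      simp only
      rw [Nat.mul_div_cancel' d1, Nat.mul_div_cancel' d2]
  rw [← e.tsum_eq, h1, ← tsum_mul_left]
  refine tsum_congr fun ρ => ?_
  rw [he, ht_scale]

lemma cop_sum_real {s : ℝ} (hs : 1 < s) :
    (∑' n : ℕ, (n : ℝ) ^ (-s)) ^ 2 = (∑' n : ℕ, ((n : ℝ) ^ (-s)) ^ 2) * ∑' ρ, cop s ρ := by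
  have hn : Summable fun n : ℕ => (n : ℝ) ^ (-s) := Real.summable_nat_rpow.2 (by linarith)
  have hsm := ht_summable hs
  have e1 : (∑' n : ℕ, (n : ℝ) ^ (-s)) ^ 2 = ∑' ρ : ℕ × ℕ, (ht ρ) ^ (-s) := by
    rw [sq, hn.tsum_mul_tsum hn (hsm.congr fun ρ => ht_eq ρ s)]
    exact tsum_congr fun ρ => (ht_eq ρ s).symm
  rw [e1, ← (Equiv.sigmaFiberEquiv (fun ρ : ℕ × ℕ => Nat.gcd ρ.1 ρ.2)).tsum_eq]
  have hsm2 : Summable fun c : (Σ g : ℕ, {ρ : ℕ × ℕ // Nat.gcd ρ.1 ρ.2 = g}) =>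
      (ht ((Equiv.sigmaFiberEquiv (fun ρ : ℕ × ℕ => Nat.gcd ρ.1 ρ.2)) c)) ^ (-s) :=
    (Equiv.sigmaFiberEquiv (fun ρ : ℕ × ℕ => Nat.gcd ρ.1 ρ.2)).summable_iff.2 hsm
  rw [hsm2.tsum_sigma, ← tsum_mul_right]
  refine tsum_congr fun g => ?_
  have e2 : ∀ c : {ρ : ℕ × ℕ // Nat.gcd ρ.1 ρ.2 = g}, (Equiv.sigmaFiberEquiv (fun ρ : ℕ × ℕ => Nat.gcd ρ.1 ρ.2)) ⟨g, c⟩ = c.1 :=
    fun c => rfl
  simp only [e2]
  rcases Nat.eq_zero_or_pos g with h | h
  · subst h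
    rw [Nat.cast_zero, Real.zero_rpow (by linarith)]
    have e3 : ∀ c : {ρ : ℕ × ℕ // Nat.gcd ρ.1 ρ.2 = 0}, (ht c.1) ^ (-s) = 0 := by
      intro c
      have := (Nat.gcd_eq_zero_iff.1 c.2).1
      unfold ht
      rw [this, Nat.cast_zero, zero_mul, Real.zero_rpow (by linarith)]
    simp only [e3, tsum_zero]
    ring
  · exact fiber_sum h

/-- the singular series in closed form -/
theorem cop_sum {s : ℝ} (hs : 1 < s) :
    ((∑' ρ, cop s ρ : ℝ) : ℂ) = riemannZeta s ^ 2 / riemannZeta (2 * s) := by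
  have h1 : ∀ s : ℝ, 1 < s → riemannZeta s = ((∑' n : ℕ, (n : ℝ) ^ (-s) : ℝ) : ℂ) := by
    intro s hs
    rw [zeta_eq_tsum_one_div_nat_cpow (by rw [Complex.ofReal_re]; exact hs), Complex.ofReal_tsum]
    refine tsum_congr fun n => ?_
    rw [Complex.ofReal_cpow (Nat.cast_nonneg n), Complex.ofReal_neg, Complex.ofReal_natCast, Complex.cpow_neg, one_div]
  have h2 := h1 s hs
  have h3 := h1 (2 * s) (by linarith)
  have h4 := cop_sum_real hs
  have h5 : (∑' n : ℕ, ((n : ℝ) ^ (-s)) ^ 2) = ∑' n : ℕ, (n : ℝ) ^ (-(2 * s)) := by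
    refine tsum_congr fun n => ?_
    rw [← Real.rpow_natCast, ← Real.rpow_mul (Nat.cast_nonneg n)]
    congr 1
    push_cast
    ring
  rw [h5] at h4
  have h6 : riemannZeta (2 * (s : ℂ)) ≠ 0 := by
    refine riemannZeta_ne_zero_of_one_lt_re ?_
    rw [show (2 : ℂ) * (s : ℂ) = ((2 * s : ℝ) : ℂ) by push_cast; ring, Complex.ofReal_re]
    linarith
  rw [eq_div_iff h6, show (2 : ℂ) * (s : ℂ) = ((2 * s : ℝ) : ℂ) by push_cast; ring, h3, h2, ← Complex.ofReal_mul,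
    ← Complex.ofReal_pow, h4, mul_comm]

/-- the leading coefficient -/
theorem MT_lim {a : Fin (m + 1) → ℤ} (hs : 3 / 2 ≤ sx a) {v : Fin (m + 1) → ℝ} (hv : ∀ i, 0 < v i) :
    Tendsto (fun t : ℝ => MT a v t / (Real.log t) ^ (m + 1)) atTop (𝓝 (∑' ρ, cop (sx a) ρ)) := by
  have hpi := Real.pi_pos
  obtain ⟨A, hA⟩ : ∃ A : ℕ, ∀ i, (a i).natAbs ≤ A := ⟨∑ i, (a i).natAbs, fun i =>
    Finset.single_le_sum (f := fun i => (a i).natAbs) (fun _ _ => Nat.zero_le _) (Finset.mem_univ i)⟩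
  have e1 : (fun t : ℝ => MT a v t / (Real.log t) ^ (m + 1)) = fun t => ∑' ρ,
      mt a (fun i => Real.log (v i * t / (2 * Real.pi)) + 2 * eγ) ρ / (Real.log t) ^ (m + 1) := by
    funext t
    rw [MT_eq, tsum_div_const]
  rw [e1]
  refine tendsto_tsum_of_dominated_convergence (bound := fun ρ => ((1 + (A : ℝ)) * 2) ^ (m + 1) *
    (8 * ((m + 1 : ℕ) : ℝ) + 9) ^ (m + 1) * (ht ρ) ^ (-(5 / 4) : ℝ)) ((ht_summable (s := 5 / 4) (by norm_num)).mul_left _) ?_ ?_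
  · intro ρ
    unfold mt cop
    split_ifs with h
    · have h1 : ∀ i, Tendsto (fun t : ℝ => (Real.log (v i * t / (2 * Real.pi)) + 2 * eγ - (a i).natAbs * Real.log (ht ρ)) /
          Real.log t) atTop (𝓝 1) := by
        intro i
        have hvi := hv i
        have e2 : ∀ᶠ t : ℝ in atTop, 1 + (Real.log (v i / (2 * Real.pi)) + 2 * eγ - (a i).natAbs * Real.log (ht ρ)) / Real.log t =
            (Real.log (v i * t / (2 * Real.pi)) + 2 * eγ - (a i).natAbs * Real.log (ht ρ)) / Real.log t := by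
          filter_upwards [eventually_gt_atTop 1] with t ht1
          have hl : 0 < Real.log t := Real.log_pos ht1
          have e3 : Real.log (v i * t / (2 * Real.pi)) = Real.log (v i / (2 * Real.pi)) + Real.log t := by
            rw [← Real.log_mul (by positivity) (by positivity)]
            congr 1
            ring
          rw [e3]
          field_simp
          ring
        refine Tendsto.congr' e2 ?_
        have h2 := (Real.tendsto_log_atTop.const_div_atTop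
          (Real.log (v i / (2 * Real.pi)) + 2 * eγ - (a i).natAbs * Real.log (ht ρ))).const_add 1
        rwa [add_zero] at h2
      have h3 := (tendsto_finsetProd Finset.univ fun i _ => h1 i).const_mul ((ht ρ) ^ (-(sx a)))
      rw [Finset.prod_const_one, mul_one] at h3
      refine h3.congr fun t => ?_
      rw [Finset.prod_div_distrib, Finset.prod_const, Finset.card_univ, Fintype.card_fin, mul_div_assoc]
    · simp only [zero_div]
      exact tendsto_const_nhds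
  · filter_upwards [lm_bd hv one_pos one_pos, Real.tendsto_log_atTop.eventually_ge_atTop 1] with t h1 hl ρ
    have h2 := h1 t ⟨by linarith, by linarith⟩
    have h3 := mt_bound hs hA (by linarith) h2 (ρ := ρ) le_rfl (fun h => by
      rcases ht_cases ρ with h' | ⟨-, -, h3⟩
      · exact absurd h' h
      · exact h3)
    have hlp : 0 < (Real.log t) ^ (m + 1) := by positivity
    rw [Real.norm_eq_abs, abs_div, abs_of_pos hlp, div_le_iff₀ hlp]
    refine h3.trans (le_of_eq ?_)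
    rw [Real.one_rpow, show (1 + (A : ℝ)) * (2 * Real.log t) = (1 + A) * 2 * Real.log t by ring, mul_pow ((1 + (A : ℝ)) * 2)]
    ring

end Pool.Agent.J4.H39.HM
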