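import Pool.Agent.J4.H39.HM.Dia

/-!
# The main term
-/

set_option autoImplicit false

namespace Pool.Agent.J4.H39.HM

open MeasureTheory Set Topology
open Filter hiding mk
open Pool.Agent.Y969.GP Pool.Agent.N879.GD

variable {m : ℕ}

/-- the terms of the main term -/
noncomputable def mt (a : Fin (m + 1) → ℤ) (lm : Fin (m + 1) → ℝ) (ρ : ℕ × ℕ) : ℝ :=
  if Nat.Coprime ρ.1 ρ.2 then (ht ρ) ^ (-(sx a)) * ∏ i, (lm i - (a i).natAbs * Real.log (ht ρ)) else 0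

lemma abs_log_le {z : ℝ} (hz : |z| ≤ 1 / 2) : |Real.log (1 + z)| ≤ 2 * |z| := by
  rw [abs_le] at hz
  have h1 : 0 < 1 + z := by linarith [hz.1]
  have h2 := Real.log_le_sub_one_of_pos h1
  have h3 := Real.one_sub_inv_le_log_of_pos h1
  have h4 : 1 - (1 + z)⁻¹ = z / (1 + z) := by field_simp; ring
  have h5 : -(2 * |z|) ≤ z / (1 + z) := by
    rw [le_div_iff₀ h1]
    rcases le_or_gt 0 z with h | h
    · rw [abs_of_nonneg h]; nlinarith
    · rw [abs_of_neg h]; nlinarith [hz.1]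
  rw [abs_le]
  have h6 := le_abs_self z
  have h7 := abs_nonneg z
  constructor <;> linarith

lemma mt_bound {a : Fin (m + 1) → ℤ} (hs : 3 / 2 ≤ sx a) {A : ℕ} (hA : ∀ i, (a i).natAbs ≤ A) {lm : Fin (m + 1) → ℝ}
    {Λ : ℝ} (hΛ : 1 ≤ Λ) (hlm : ∀ i, |lm i| ≤ Λ) {ρ : ℕ × ℕ} {Z : ℝ} (hZ : 1 ≤ Z) (hZρ : ht ρ ≠ 0 → Z ≤ ht ρ) :
    |mt a lm ρ| ≤ ((1 + A) * Λ) ^ (m + 1) * (8 * ((m + 1 : ℕ) : ℝ) + 9) ^ (m + 1) * Z ^ (-(1 / 8) : ℝ) *
      (ht ρ) ^ (-(5 / 4) : ℝ) := by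
  have h0 := ht_nn ρ
  unfold mt
  split_ifs with hc
  · rcases ht_cases ρ with h | ⟨h1, h2, h3⟩
    · rw [h, Real.zero_rpow (by linarith), zero_mul, abs_zero, Real.zero_rpow (by norm_num), mul_zero]
    · have hl : 0 ≤ Real.log (ht ρ) := Real.log_nonneg h3
      have hp : |∏ i, (lm i - (a i).natAbs * Real.log (ht ρ))| ≤ ((1 + A) * Λ * (1 + Real.log (ht ρ))) ^ (m + 1) := by
        rw [Finset.abs_prod]
        calc ∏ i, |lm i - (a i).natAbs * Real.log (ht ρ)| ≤ ∏ _i : Fin (m + 1), ((1 + A) * Λ * (1 + Real.log (ht ρ))) := by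
              refine Finset.prod_le_prod (fun _ _ => abs_nonneg _) fun i _ => ?_
              refine (abs_sub _ _).trans ?_
              rw [abs_mul, abs_of_nonneg hl, Nat.abs_cast]
              have e1 : ((a i).natAbs : ℝ) ≤ A := by exact_mod_cast hA i
              have e2 : ((a i).natAbs : ℝ) * Real.log (ht ρ) ≤ A * Real.log (ht ρ) := mul_le_mul_of_nonneg_right e1 hl
              have e3 : (0 : ℝ) ≤ A := Nat.cast_nonneg A
              have e4 : 0 ≤ (A : ℝ) * Real.log (ht ρ) := mul_nonneg e3 hl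
              have e5 : (A : ℝ) * Real.log (ht ρ) ≤ Λ * (A * Real.log (ht ρ)) := le_mul_of_one_le_left e4 hΛ
              have e6 : 0 ≤ Λ * Real.log (ht ρ) := by positivity
              have e7 : 0 ≤ Λ * A := by positivity
              nlinarith [hlm i]
          _ = _ := by rw [Finset.prod_const, Finset.card_univ, Fintype.card_fin]
      have ht0 : 0 < ht ρ := by linarith
      have htb := term_bd hs (m + 1) h3 hZ (hZρ ht0.ne')
      rw [abs_mul, abs_of_pos (by positivity)]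
      calc (ht ρ) ^ (-(sx a)) * |∏ i, (lm i - (a i).natAbs * Real.log (ht ρ))| ≤
          (ht ρ) ^ (-(sx a)) * ((1 + A) * Λ * (1 + Real.log (ht ρ))) ^ (m + 1) :=
            mul_le_mul_of_nonneg_left hp (by positivity)
        _ = ((1 + A) * Λ) ^ (m + 1) * ((ht ρ) ^ (-(sx a)) * (1 + Real.log (ht ρ)) ^ (m + 1)) := by
            rw [mul_pow ((1 + (A : ℝ)) * Λ)]; ring
        _ ≤ ((1 + A) * Λ) ^ (m + 1) * ((8 * ((m + 1 : ℕ) : ℝ) + 9) ^ (m + 1) * (ht ρ) ^ (-(5 / 4) : ℝ) *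
            Z ^ (-(1 / 8) : ℝ)) := mul_le_mul_of_nonneg_left htb (by positivity)
        _ = _ := by ring
  · rw [abs_zero]
    positivity

lemma mt_summable {a : Fin (m + 1) → ℤ} (hs : 3 / 2 ≤ sx a) (lm : Fin (m + 1) → ℝ) : Summable (mt a lm) := by
  obtain ⟨Λ, hΛ, hlm⟩ : ∃ Λ : ℝ, 1 ≤ Λ ∧ ∀ i, |lm i| ≤ Λ := by
    refine ⟨1 + ∑ i, |lm i|, by have := Finset.sum_nonneg (fun i (_ : i ∈ Finset.univ) => abs_nonneg (lm i)); linarith, fun i => ?_⟩
    have := Finset.single_le_sum (f := fun i => |lm i|) (fun _ _ => abs_nonneg _) (Finset.mem_univ i)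
    linarith
  have hA : ∀ i, (a i).natAbs ≤ ∑ i, (a i).natAbs := fun i =>
    Finset.single_le_sum (f := fun i => (a i).natAbs) (fun _ _ => Nat.zero_le _) (Finset.mem_univ i)
  refine Summable.of_norm_bounded ((ht_summable (s := 5 / 4) (by norm_num)).mul_left
    (((1 + ((∑ i, (a i).natAbs : ℕ) : ℝ)) * Λ) ^ (m + 1) * (8 * ((m + 1 : ℕ) : ℝ) + 9) ^ (m + 1) * 1 ^ (-(1 / 8) : ℝ))) fun ρ => ?_
  rw [Real.norm_eq_abs]
  refine mt_bound hs hA hΛ hlm le_rfl fun h => ?_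
  rcases ht_cases ρ with h' | ⟨-, -, h3⟩
  · exact absurd h' h
  · exact h3

open Classical in
/-- **the tail of the main term** -/
lemma mt_tail {a : Fin (m + 1) → ℤ} (hs : 3 / 2 ≤ sx a) {A : ℕ} (hA : ∀ i, (a i).natAbs ≤ A) (hA1 : 1 ≤ A)
    {lm : Fin (m + 1) → ℝ} {Λ : ℝ} (hΛ : 1 ≤ Λ) (hlm : ∀ i, |lm i| ≤ Λ) {Y : ℕ} (hY : 1 ≤ Y) :
    |∑ ρ ∈ RT a Y, mt a lm ρ - ∑' ρ, mt a lm ρ| ≤ (((1 + A) * Λ) ^ (m + 1) * (8 * ((m + 1 : ℕ) : ℝ) + 9) ^ (m + 1) *
      ((Y : ℝ) ^ (1 / (A : ℝ))) ^ (-(1 / 8) : ℝ)) * ∑' ρ : ℕ × ℕ, (ht ρ) ^ (-(5 / 4) : ℝ) := by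
  have hY0 : (1 : ℝ) ≤ Y := by exact_mod_cast hY
  have hAR : (1 : ℝ) ≤ A := by exact_mod_cast hA1
  have hsm := mt_summable hs lm
  have e1 : ∑ ρ ∈ RT a Y, mt a lm ρ = ∑' ρ, if ρ ∈ RT a Y then mt a lm ρ else 0 := by
    rw [tsum_eq_sum (s := RT a Y) (fun ρ hρ => if_neg hρ)]
    exact Finset.sum_congr rfl fun ρ hρ => (if_pos hρ).symm
  have hfin : Summable fun ρ => if ρ ∈ RT a Y then mt a lm ρ else 0 :=
    summable_of_ne_finset_zero (s := RT a Y) fun ρ hρ => if_neg hρ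
  rw [e1, ← hfin.tsum_sub hsm, ← Real.norm_eq_abs, ← tsum_mul_left]
  have hsum := (ht_summable (s := 5 / 4) (by norm_num)).mul_left (((1 + (A : ℝ)) * Λ) ^ (m + 1) *
    (8 * ((m + 1 : ℕ) : ℝ) + 9) ^ (m + 1) * ((Y : ℝ) ^ (1 / (A : ℝ))) ^ (-(1 / 8) : ℝ))
  refine tsum_of_norm_bounded hsum.hasSum fun ρ => ?_
  split_ifs with h
  · rw [sub_self, norm_zero]
    have := ht_nn ρ
    positivity
  · rw [zero_sub, norm_neg, Real.norm_eq_abs]
    by_cases hcop : Nat.Coprime ρ.1 ρ.2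
    · refine mt_bound hs hA hΛ hlm (Real.one_le_rpow hY0 (by positivity)) fun hne => ?_
      rcases ht_cases ρ with h' | ⟨h1, h2, h3⟩
      · exact absurd h' hne
      · by_contra hcon
        rw [not_le] at hcon
        apply h
        have h4 : (ht ρ) ^ A ≤ Y := by
          have e2 : (ht ρ) ^ A ≤ ((Y : ℝ) ^ (1 / (A : ℝ))) ^ A := pow_le_pow_left₀ (by linarith) hcon.le A
          refine e2.trans (le_of_eq ?_)
          rw [← Real.rpow_natCast, ← Real.rpow_mul (by linarith), one_div, inv_mul_cancel₀ (by linarith), Real.rpow_one]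
        have h5 : (ρ.1 * ρ.2) ^ A ≤ Y := by
          unfold ht at h4
          exact_mod_cast h4
        have hq : 1 ≤ ρ.1 * ρ.2 := Nat.mul_pos h1 h2
        unfold RT
        rw [Finset.mem_filter]
        refine ⟨mem_FR' h1 h2 ((Nat.le_self_pow (by omega) _).trans h5) hcop, fun i => ?_⟩
        obtain ⟨b1, b2⟩ := pw_pos (a i) h1 h2
        refine mem_FR' b1 b2 ?_ (pw_cop _ hcop)
        rw [pw_prod]
        exact (Nat.pow_le_pow_right hq (hA i)).trans h5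
    · unfold mt
      rw [if_neg hcop, abs_zero]
      have := ht_nn ρ
      positivity

/-- **one diagonal term** -/
lemma dd_main {a : Fin (m + 1) → ℤ} (ha : a 0 ≠ 0) {v : Fin (m + 1) → ℝ} (hav : ∑ i, (a i : ℝ) * v i = 0)
    {w : Fin (m + 1) → ℝ → ℝ} {R B : ℝ} (hw : ∀ i, Wt (w i) R B) {X : ℕ} {H τ Λ E : ℝ} (hH : 0 < H)
    {ρ : ℕ × ℕ} (h1 : 1 ≤ ρ.1) (h2 : 1 ≤ ρ.2) {lm : Fin (m + 1) → ℝ} (hE0 : 0 ≤ E) (hEΛ : E ≤ Λ)
    (hΛ : ∀ i, |lm i - (a i).natAbs * Real.log (ht ρ)| ≤ Λ)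
    (hE : ∀ i, ∀ y, |y| ≤ R → |√(ht (pw ρ (a i))) * cr X (pw ρ (a i)) (v i * τ + H * y) -
      (lm i - (a i).natAbs * Real.log (ht ρ))| ≤ E) :
    |DD a v w H X ρ τ - H ^ m * Om a w * ((ht ρ) ^ (-(sx a)) * ∏ i, (lm i - (a i).natAbs * Real.log (ht ρ)))| ≤
      H ^ m * ((ht ρ) ^ (-(sx a))) * ((m + 1) * E * (3 * Λ) ^ m * (B * (2 * R * B) ^ m)) := by
  classical
  have hht : 0 < ht ρ := Pool.Agent.Y545.GP.ht_pos h1 h2
  have hΛ0 : 0 ≤ Λ := hE0.trans hEΛ
  obtain ⟨hb1, hb2⟩ := bnd_int (a := a) hw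
  obtain ⟨ho1, -⟩ := om_int (a := a) hw
  obtain ⟨y', hy'⟩ : ∃ y' : Fin (m + 1) → ℝ, y' = fun i => lm i - (a i).natAbs * Real.log (ht ρ) := ⟨_, rfl⟩
  obtain ⟨x', hx'⟩ : ∃ x' : (Fin m → ℝ) → Fin (m + 1) → ℝ, x' = fun y i =>
    √(ht (pw ρ (a i))) * cr X (pw ρ (a i)) (v i * τ + H * yy a y i) := ⟨_, rfl⟩
  have hyΛ : ∀ i, |y' i| ≤ Λ := fun i => by rw [hy']; exact hΛ i
  have hfac : ∀ y : Fin m → ℝ, ∏ i, (w i (yy a y i) * cr X (pw ρ (a i)) (v i * τ + H * yy a y i)) =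
      (ht ρ) ^ (-(sx a)) * ((∏ i, w i (yy a y i)) * ∏ i, x' y i) := by
    intro y
    rw [← ht_prod (a := a) h1 h2, ← Finset.prod_mul_distrib, ← Finset.prod_mul_distrib, hx']
    refine Finset.prod_congr rfl fun i _ => ?_
    obtain ⟨b1, b2⟩ := pw_pos (a i) h1 h2
    have : √(ht (pw ρ (a i))) ≠ 0 := (Real.sqrt_pos.2 (Pool.Agent.Y545.GP.ht_pos b1 b2)).ne'
    field_simp
  have hpt : ∀ y : Fin m → ℝ, |(∏ i, w i (yy a y i)) * ∏ i, x' y i - (∏ i, w i (yy a y i)) * ∏ i, y' i| ≤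
      ((m + 1) * E * (3 * Λ) ^ m) * ∏ i, |w i (yy a y i)| := by
    intro y
    rw [← mul_sub, abs_mul, Finset.abs_prod, mul_comm]
    by_cases hy : ∀ i, |yy a y i| ≤ R
    · refine mul_le_mul_of_nonneg_right ?_ (Finset.prod_nonneg fun _ _ => abs_nonneg _)
      have hxE : ∀ i, |x' y i - y' i| ≤ E := fun i => by rw [hx', hy']; exact hE i _ (hy i)
      have hx3 : ∀ i, |x' y i| + |y' i| ≤ 3 * Λ := by
        intro i
        have e1 : |x' y i| ≤ |x' y i - y' i| + |y' i| := by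
          have := abs_add_le (x' y i - y' i) (y' i)
          rwa [sub_add_cancel] at this
        linarith [hxE i, hyΛ i]
      have h3 := prod_sub_le Finset.univ (x' y) y'
      rw [← Real.norm_eq_abs]
      refine h3.trans ?_
      calc ∑ i, ‖x' y i - y' i‖ * ∏ k ∈ Finset.univ.erase i, (‖x' y k‖ + ‖y' k‖) ≤
          ∑ _i : Fin (m + 1), E * (3 * Λ) ^ m := by
            refine Finset.sum_le_sum fun i _ => mul_le_mul (hxE i) ?_ (Finset.prod_nonneg fun _ _ => by positivity) hE0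
            calc ∏ k ∈ Finset.univ.erase i, (‖x' y k‖ + ‖y' k‖) ≤ ∏ _k ∈ Finset.univ.erase i, (3 * Λ) :=
                  Finset.prod_le_prod (fun _ _ => by positivity) fun k _ => hx3 k
              _ = (3 * Λ) ^ m := by
                  rw [Finset.prod_const, Finset.card_erase_of_mem (Finset.mem_univ _), Finset.card_univ, Fintype.card_fin]
                  rfl
        _ = _ := by
            rw [Finset.sum_const, Finset.card_univ, Fintype.card_fin, nsmul_eq_mul]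
            push_cast
            ring
    · push Not at hy
      obtain ⟨i, hi⟩ := hy
      have : ∏ i, |w i (yy a y i)| = 0 := Finset.prod_eq_zero (Finset.mem_univ i) (by rw [(hw i).supp _ hi, abs_zero])
      rw [this, mul_zero, mul_zero]
  have hmeas : Measurable fun y : Fin m → ℝ => (∏ i, w i (yy a y i)) * ∏ i, x' y i := by
    refine Measurable.mul (Finset.measurable_prod _ fun i _ => ?_) (Finset.measurable_prod _ fun i _ => ?_)
    · exact (hw i).diff.continuous.measurable.comp (yy_cont a i).measurable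
    · rw [hx']
      refine Measurable.const_mul ((cr_meas _ _).comp ?_) _
      exact ((yy_cont a i).measurable.const_mul H).const_add _
  have hint2 : Integrable fun y : Fin m → ℝ => (∏ i, w i (yy a y i)) * ∏ i, y' i := ho1.mul_const _
  have hint1 : Integrable fun y : Fin m → ℝ => (∏ i, w i (yy a y i)) * ∏ i, x' y i := by
    have h4 : Integrable fun y : Fin m → ℝ => (∏ i, w i (yy a y i)) * ∏ i, x' y i - (∏ i, w i (yy a y i)) * ∏ i, y' i :=
      (hb1.const_mul _).mono' (hmeas.aestronglyMeasurable.sub hint2.aestronglyMeasurable)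
        (Filter.Eventually.of_forall fun y => by rw [Real.norm_eq_abs]; exact hpt y)
    refine (h4.add hint2).congr (Filter.Eventually.of_forall fun y => ?_)
    simp only [Pi.add_apply]
    ring
  rw [dd_eq ha hav w X hH ρ τ]
  simp only [hfac]
  rw [integral_const_mul]
  have hOm : Om a w * ∏ i, y' i = ∫ y : Fin m → ℝ, (∏ i, w i (yy a y i)) * ∏ i, y' i := by
    rw [integral_mul_const]; rfl
  have e2 : H ^ m * ((ht ρ) ^ (-(sx a)) * ∫ y : Fin m → ℝ, (∏ i, w i (yy a y i)) * ∏ i, x' y i) -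
      H ^ m * Om a w * ((ht ρ) ^ (-(sx a)) * ∏ i, (lm i - (a i).natAbs * Real.log (ht ρ))) =
      (H ^ m * (ht ρ) ^ (-(sx a))) * ∫ y : Fin m → ℝ, ((∏ i, w i (yy a y i)) * ∏ i, x' y i -
        (∏ i, w i (yy a y i)) * ∏ i, y' i) := by
    rw [integral_sub hint1 hint2, ← hOm, hy']
    ring
  rw [e2, abs_mul, abs_of_pos (by positivity : 0 < H ^ m * (ht ρ) ^ (-(sx a)))]
  refine mul_le_mul_of_nonneg_left ?_ (by positivity)
  rw [← Real.norm_eq_abs]
  refine (norm_integral_le_of_norm_le (hb1.const_mul _) (Filter.Eventually.of_forall fun y => by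
    rw [Real.norm_eq_abs]; exact hpt y)).trans ?_
  rw [integral_const_mul]
  exact mul_le_mul_of_nonneg_left hb2 (by positivity)

end Pool.Agent.J4.H39.HM
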