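import Pool.Agent.J4.H39.HM.MainT

/-!
# The diagonal is the main term, with a power saving
-/

set_option autoImplicit false

namespace Pool.Agent.J4.H39.HM

open MeasureTheory Set Topology
open Filter hiding mk
open Pool.Agent.Y969.GP Pool.Agent.N879.GD

variable {m : ℕ}

lemma MT_eq (a : Fin (m + 1) → ℤ) (v : Fin (m + 1) → ℝ) (τ : ℝ) :
    MT a v τ = ∑' ρ, mt a (fun i => Real.log (v i * τ / (2 * Real.pi)) + 2 * eγ) ρ := rfl

lemma log_pow_ev (n : ℕ) {ε : ℝ} (hε : 0 < ε) : ∀ᶠ T : ℝ in atTop, (Real.log T) ^ n ≤ T ^ ε := by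
  have h := (isLittleO_log_rpow_rpow_atTop (n : ℝ) hε).bound (show (0 : ℝ) < 1 by norm_num)
  filter_upwards [h, eventually_gt_atTop 1] with T hT hT1
  have hl : 0 < Real.log T := Real.log_pos hT1
  rw [Real.norm_of_nonneg (by positivity), Real.norm_of_nonneg (by positivity), one_mul, Real.rpow_natCast] at hT
  exact hT

/-- the size of one coefficient in the window -/
lemma coef_bd {R κ α β c δ η v₀ v₁ : ℝ} (hR : 1 ≤ R) (hα : 0 < α) (hc : 0 < c)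
    (hη1 : η ≤ 1 / 4) (hv₀ : 0 < v₀) (hcv : 2 * (v₁ * β) ≤ c) (hδ : 0 < δ) :
    ∃ K : ℝ, 0 < K ∧ ∀ T : ℝ, 1 ≤ T → 1 ≤ c * T → ∀ (H τ vi y : ℝ) (p : ℕ × ℕ), 0 < H → H ≤ T ^ (1 - κ) →
      2 * (R * H) ≤ vi * (α * T) → v₀ ≤ vi → vi ≤ v₁ → α * T ≤ τ → τ ≤ β * T → |y| ≤ R → p ∈ FR (YY η T) →
      YY η T ≤ XX c δ T → (YY η T : ℝ) ≤ T ^ η →
      |√(ht p) * cr (XX c δ T) p (vi * τ + H * y) - (Real.log (vi * τ / (2 * Real.pi)) + 2 * eγ - Real.log (ht p))| ≤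
        K * T ^ (-(min κ (min (1 / 4) δ))) := by
  obtain ⟨C, hC, hcr⟩ := cr_asym
  refine ⟨C * (√(2 / (v₀ * α)) + c ^ (-δ)) + 2 * (R / (v₀ * α)), by positivity, ?_⟩
  intro T hT hcT H τ vi y p hH hHκ hHv hvi hvi1 hτ1 hτ2 hy hp hYX hYη
  have hT0 : 0 < T := by linarith
  have hpi := Real.pi_pos
  have hvi0 : 0 < vi := hv₀.trans_le hvi
  have hτ0 : 0 < τ := (by positivity : 0 < α * T).trans_le hτ1
  have hHy : |H * y| ≤ R * H := by
    rw [abs_mul, abs_of_pos hH, mul_comm]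
    exact mul_le_mul_of_nonneg_right hy hH.le
  have hvτ : vi * (α * T) ≤ vi * τ := mul_le_mul_of_nonneg_left hτ1 hvi0.le
  have hvτ2 : vi * τ ≤ v₁ * (β * T) := by
    have hβ : 0 ≤ β * T := hτ0.le.trans hτ2
    exact mul_le_mul hvi1 hτ2 hτ0.le (hvi0.le.trans hvi1)
  have habs := abs_le.1 hHy
  have hvατ : v₀ * α * T ≤ vi * τ := by
    refine le_trans (le_of_eq ?_) (le_trans (mul_le_mul_of_nonneg_right hvi (by positivity : 0 ≤ α * T)) hvτ)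
    ring
  obtain ⟨u, hu⟩ : ∃ u : ℝ, u = vi * τ + H * y := ⟨_, rfl⟩
  have hu1 : vi * τ / 2 ≤ u := by rw [hu]; linarith [habs.1]
  have hu0 : 0 < u := by
    have : 0 < vi * τ := by positivity
    linarith
  have hu2 : u ≤ c * T := by
    have h1 : 2 * (v₁ * β) * T ≤ c * T := mul_le_mul_of_nonneg_right hcv hT0.le
    have h2 : 0 < vi * τ := by positivity
    have h3 : v₁ * (β * T) = v₁ * β * T := by ring
    rw [hu]; linarith [habs.2]
  obtain ⟨a1, a2, a3, -, -, -⟩ := Pool.Agent.Y379.GP.mem_FR hp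
  have hpX : p.1 * p.2 ≤ XX c δ T := a3.trans hYX
  have hht : 0 < ht p := Pool.Agent.Y545.GP.ht_pos a1 a2
  have h1 := hcr (XX c δ T) p u a1 a2 hpX hu0
  have hmin1 : T ^ (-(1 / 4) : ℝ) ≤ T ^ (-(min κ (min (1 / 4) δ))) :=
    Real.rpow_le_rpow_of_exponent_le hT (neg_le_neg ((min_le_right _ _).trans (min_le_left _ _)))
  have hmin2 : T ^ (-δ) ≤ T ^ (-(min κ (min (1 / 4) δ))) :=
    Real.rpow_le_rpow_of_exponent_le hT (neg_le_neg ((min_le_right _ _).trans (min_le_right _ _)))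
  have hmin3 : T ^ (-κ) ≤ T ^ (-(min κ (min (1 / 4) δ))) :=
    Real.rpow_le_rpow_of_exponent_le hT (neg_le_neg (min_le_left _ _))
  -- the three errors
  have e1 : √(ht p / u) ≤ √(2 / (v₀ * α)) * T ^ (-(1 / 4) : ℝ) := by
    have h2 : ht p ≤ T ^ (1 / 4 : ℝ) := by
      have h3 : ht p ≤ (YY η T : ℝ) := by unfold ht; exact_mod_cast a3
      exact h3.trans (hYη.trans (Real.rpow_le_rpow_of_exponent_le hT hη1))
    have h4 : ht p / u ≤ 2 / (v₀ * α) * (T ^ (-(1 / 4) : ℝ)) ^ 2 := by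
      rw [div_le_iff₀ hu0]
      have h5 : v₀ * α * T / 2 ≤ u := by linarith
      have h6 : 2 / (v₀ * α) * (T ^ (-(1 / 4) : ℝ)) ^ 2 * (v₀ * α * T / 2) = T ^ (1 / 2 : ℝ) := by
        rw [← Real.rpow_natCast, ← Real.rpow_mul hT0.le]
        have h7 : T ^ (1 / 2 : ℝ) = T ^ (-(1 / 4) * ((2 : ℕ) : ℝ)) * T := by
          nth_rewrite 3 [← Real.rpow_one T]
          rw [← Real.rpow_add hT0]
          norm_num
        rw [h7]
        field_simp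
      calc ht p ≤ T ^ (1 / 4 : ℝ) := h2
        _ ≤ T ^ (1 / 2 : ℝ) := Real.rpow_le_rpow_of_exponent_le hT (by norm_num)
        _ = 2 / (v₀ * α) * (T ^ (-(1 / 4) : ℝ)) ^ 2 * (v₀ * α * T / 2) := h6.symm
        _ ≤ _ := mul_le_mul_of_nonneg_left h5 (by positivity)
    calc √(ht p / u) ≤ √(2 / (v₀ * α) * (T ^ (-(1 / 4) : ℝ)) ^ 2) := Real.sqrt_le_sqrt h4
      _ = √(2 / (v₀ * α)) * T ^ (-(1 / 4) : ℝ) := by
          rw [Real.sqrt_mul (by positivity), Real.sqrt_sq (by positivity)]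
  have e2 : u / (XX c δ T : ℝ) ≤ c ^ (-δ) * T ^ (-δ) := by
    have h2 : (c * T) ^ (1 + δ) ≤ (XX c δ T : ℝ) := XX_ge c δ T
    have hcT0 : 0 < c * T := by positivity
    have h3 : u / (XX c δ T : ℝ) ≤ (c * T) / (c * T) ^ (1 + δ) :=
      div_le_div₀ hcT0.le hu2 (by positivity) h2
    refine h3.trans (le_of_eq ?_)
    rw [← Real.mul_rpow hc.le hT0.le, div_eq_iff (by positivity), ← Real.rpow_add hcT0]
    rw [show -δ + (1 + δ) = 1 by ring, Real.rpow_one]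
  have e3 : |Real.log (u / (2 * Real.pi)) - Real.log (vi * τ / (2 * Real.pi))| ≤ 2 * (R / (v₀ * α)) * T ^ (-κ) := by
    have hvτ0 : 0 < vi * τ := by positivity
    have h2 : Real.log (u / (2 * Real.pi)) - Real.log (vi * τ / (2 * Real.pi)) = Real.log (1 + H * y / (vi * τ)) := by
      rw [← Real.log_div (by positivity) (by positivity)]
      congr 1
      rw [hu]
      field_simp
    have h3 : |H * y / (vi * τ)| ≤ R * H / (vi * τ) := by
      rw [abs_div, abs_of_pos hvτ0]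
      exact div_le_div_of_nonneg_right hHy hvτ0.le
    have h4 : R * H / (vi * τ) ≤ 1 / 2 := by
      rw [div_le_div_iff₀ hvτ0 (by norm_num)]
      linarith
    rw [h2]
    refine (abs_log_le (h3.trans h4)).trans ?_
    have h5 : R * H / (vi * τ) ≤ (R / (v₀ * α)) * T ^ (-κ) := by
      have h6 : R * H / (vi * τ) ≤ R * H / (v₀ * α * T) :=
        div_le_div_of_nonneg_left (by positivity) (by positivity) hvατ
      refine h6.trans ?_
      rw [div_le_iff₀ (by positivity)]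
      have h7 : (R / (v₀ * α)) * T ^ (-κ) * (v₀ * α * T) = R * (T ^ (-κ) * T) := by field_simp
      have h8 : T ^ (-κ) * T = T ^ (1 - κ) := by
        nth_rewrite 2 [← Real.rpow_one T]
        rw [← Real.rpow_add hT0]
        ring_nf
      rw [h7, h8]
      exact mul_le_mul_of_nonneg_left hHκ (by linarith)
    calc 2 * |H * y / (vi * τ)| ≤ 2 * ((R / (v₀ * α)) * T ^ (-κ)) := by linarith
      _ = _ := by ring
  rw [← hu]
  have e4 : √(ht p) * cr (XX c δ T) p u - (Real.log (vi * τ / (2 * Real.pi)) + 2 * eγ - Real.log (ht p)) =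
      (√(ht p) * cr (XX c δ T) p u - (Real.log (u / (2 * Real.pi)) + 2 * eγ - Real.log (ht p))) +
      (Real.log (u / (2 * Real.pi)) - Real.log (vi * τ / (2 * Real.pi))) := by ring
  rw [e4]
  refine (abs_add_le _ _).trans ?_
  obtain ⟨P, hP⟩ : ∃ P : ℝ, P = T ^ (-(min κ (min (1 / 4) δ))) := ⟨_, rfl⟩
  rw [← hP] at hmin1 hmin2 hmin3 ⊢
  calc _ ≤ C * (√(ht p / u) + u / (XX c δ T : ℝ)) + 2 * (R / (v₀ * α)) * T ^ (-κ) := add_le_add h1 e3
    _ ≤ C * (√(2 / (v₀ * α)) * P + c ^ (-δ) * P) + 2 * (R / (v₀ * α)) * P := by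
        refine add_le_add (mul_le_mul_of_nonneg_left (add_le_add (e1.trans ?_) (e2.trans ?_)) hC.le) ?_
        · exact mul_le_mul_of_nonneg_left hmin1 (by positivity)
        · exact mul_le_mul_of_nonneg_left hmin2 (by positivity)
        · exact mul_le_mul_of_nonneg_left hmin3 (by positivity)
    _ = _ := by ring

/-- **the diagonal** -/
theorem diag_main {a : Fin (m + 1) → ℤ} (ha : a 0 ≠ 0) (hs : 3 / 2 ≤ sx a) {v : Fin (m + 1) → ℝ} (hv : ∀ i, 0 < v i)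
    (hav : ∑ i, (a i : ℝ) * v i = 0) {R κ δ η : ℝ} (hR : 1 ≤ R) (hκ : 0 < κ) (hδ : 0 < δ) (hη : 0 < η) (hη1 : η ≤ 1 / 4)
    {α β c : ℝ} (hα : 0 < α) (hαβ : α ≤ β) (hc : 0 < c) (hcv : ∀ i, 2 * (v i * β) ≤ c) :
    ∃ c₂ K : ℝ, 0 < c₂ ∧ 0 < K ∧ ∀ᶠ T : ℝ in atTop, YY η T ≤ XX c δ T →
      ∀ (H B : ℝ) (w : Fin (m + 1) → ℝ → ℝ) (τ : ℝ), 0 < H → H ≤ T ^ (1 - κ) → (∀ i, 2 * (R * H) ≤ v i * (α * T)) →
      1 ≤ B → (∀ i, Wt (w i) R B) → τ ∈ Icc (α * T) (β * T) →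
      |∑ ρ ∈ RT a (YY η T), DD a v w H (XX c δ T) ρ τ - H ^ m * Om a w * MT a v τ| ≤
        K * B ^ (m + 1) * (T ^ (-c₂) * H ^ m) := by
  classical
  obtain ⟨A, hA, hA1⟩ : ∃ A : ℕ, (∀ i, (a i).natAbs ≤ A) ∧ 1 ≤ A := by
    refine ⟨∑ i, (a i).natAbs + 1, fun i => ?_, by omega⟩
    have := Finset.single_le_sum (f := fun i => (a i).natAbs) (fun _ _ => Nat.zero_le _) (Finset.mem_univ i)
    omega
  have hAR : (1 : ℝ) ≤ A := by exact_mod_cast hA1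
  obtain ⟨v₀, hv₀, hvv⟩ : ∃ v₀ : ℝ, 0 < v₀ ∧ ∀ i, v₀ ≤ v i := by
    obtain ⟨i, -, hi⟩ := Finset.exists_min_image Finset.univ v ⟨0, Finset.mem_univ _⟩
    exact ⟨v i, hv i, fun j => hi j (Finset.mem_univ _)⟩
  obtain ⟨v₁, hv₁, hvv1⟩ : ∃ v₁ : ℝ, 2 * (v₁ * β) ≤ c ∧ ∀ i, v i ≤ v₁ := by
    obtain ⟨i, -, hi⟩ := Finset.exists_max_image Finset.univ v ⟨0, Finset.mem_univ _⟩
    exact ⟨v i, hcv i, fun j => hi j (Finset.mem_univ _)⟩
  obtain ⟨K₁, hK₁, hco⟩ := coef_bd (κ := κ) (β := β) (v₁ := v₁) hR hα hc hη1 hv₀ hv₁ hδ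
  obtain ⟨c₀, hc₀⟩ : ∃ c₀ : ℝ, c₀ = min κ (min (1 / 4) δ) := ⟨_, rfl⟩
  have hc₀0 : 0 < c₀ := by rw [hc₀]; exact lt_min hκ (lt_min (by norm_num) hδ)
  rw [← hc₀] at hco
  obtain ⟨c₅, hc₅⟩ : ∃ c₅ : ℝ, c₅ = min c₀ (η / (8 * A)) := ⟨_, rfl⟩
  have hc₅0 : 0 < c₅ := by rw [hc₅]; exact lt_min hc₀0 (by positivity)
  obtain ⟨S1, hS1⟩ : ∃ S1 : ℝ, S1 = ∑' ρ : ℕ × ℕ, (ht ρ) ^ (-(sx a)) := ⟨_, rfl⟩
  obtain ⟨S2, hS2⟩ : ∃ S2 : ℝ, S2 = ∑' ρ : ℕ × ℕ, (ht ρ) ^ (-(5 / 4) : ℝ) := ⟨_, rfl⟩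
  have hS10 : 0 ≤ S1 := by rw [hS1]; exact tsum_nonneg fun ρ => Real.rpow_nonneg (ht_nn ρ) _
  have hS20 : 0 ≤ S2 := by rw [hS2]; exact tsum_nonneg fun ρ => Real.rpow_nonneg (ht_nn ρ) _
  obtain ⟨K₂, hK₂⟩ : ∃ K₂ : ℝ, K₂ = |Real.log (v₀ * α / (2 * Real.pi))| + |Real.log (v₁ * β / (2 * Real.pi))| + 2 := ⟨_, rfl⟩
  have hpi := Real.pi_pos
  have hβ : 0 < β := hα.trans_le hαβ
  have hv₁0 : 0 < v₁ := (hv 0).trans_le (hvv1 0)
  obtain ⟨D1, hD1⟩ : ∃ D1 : ℝ, D1 = S1 * ((m + 1) * K₁ * 9 ^ m * (2 * R) ^ m) := ⟨_, rfl⟩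
  obtain ⟨D2, hD2⟩ : ∃ D2 : ℝ, D2 = (2 * R) ^ m * ((((1 + A) * 2) ^ (m + 1) * (8 * ((m + 1 : ℕ) : ℝ) + 9) ^ (m + 1) * 2) * S2) :=
    ⟨_, rfl⟩
  have hD10 : 0 ≤ D1 := by rw [hD1]; positivity
  have hD20 : 0 ≤ D2 := by rw [hD2]; positivity
  refine ⟨c₅ / 2, D1 + D2 + 1, by linarith, by positivity, ?_⟩
  filter_upwards [YY_bd hη, eventually_ge_atTop 1, eventually_ge_atTop (1 / c), log_pow_ev (m + 1) (by linarith : 0 < c₅ / 2),
    Real.tendsto_log_atTop.eventually_ge_atTop (K₂ + 1),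
    (tendsto_rpow_neg_atTop hc₀0).eventually (Iio_mem_nhds (show (0 : ℝ) < 1 / K₁ by positivity))] with
    T hYb hT hTc hlogp hlog hEs hYX H B w τ hH hHκ hHv hB hw hτ
  have hT0 : 0 < T := by linarith
  have hcT : 1 ≤ c * T := by rw [div_le_iff₀ hc] at hTc; linarith
  have hK₂1 : 2 ≤ K₂ := by
    have e1 := abs_nonneg (Real.log (v₀ * α / (2 * Real.pi)))
    have e2 := abs_nonneg (Real.log (v₁ * β / (2 * Real.pi)))
    rw [hK₂]; linarith
  obtain ⟨L, hL⟩ : ∃ L : ℝ, L = Real.log T := ⟨_, rfl⟩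
  rw [← hL] at hlogp hlog
  have hL1 : 1 ≤ L := by linarith
  obtain ⟨lm, hlm⟩ : ∃ lm : Fin (m + 1) → ℝ, lm = fun i => Real.log (v i * τ / (2 * Real.pi)) + 2 * eγ := ⟨_, rfl⟩
  obtain ⟨hg0, hg1⟩ := gam_bd
  have hτ0 : 0 < τ := (by positivity : 0 < α * T).trans_le hτ.1
  have hlmL : ∀ i, |lm i| ≤ 2 * L := by
    intro i
    have hvi := hv i
    have e1 : Real.log (v₀ * α / (2 * Real.pi)) + L ≤ Real.log (v i * τ / (2 * Real.pi)) := by
      rw [hL, ← Real.log_mul (by positivity) hT0.ne']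
      refine Real.log_le_log (by positivity) ?_
      rw [div_mul_eq_mul_div]
      refine div_le_div_of_nonneg_right ?_ (by positivity)
      calc v₀ * α * T = v₀ * (α * T) := by ring
        _ ≤ v i * τ := mul_le_mul (hvv i) hτ.1 (by positivity) hvi.le
    have e2 : Real.log (v i * τ / (2 * Real.pi)) ≤ Real.log (v₁ * β / (2 * Real.pi)) + L := by
      rw [hL, ← Real.log_mul (by positivity) hT0.ne']
      refine Real.log_le_log (by positivity) ?_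
      rw [div_mul_eq_mul_div]
      refine div_le_div_of_nonneg_right ?_ (by positivity)
      calc v i * τ ≤ v₁ * (β * T) := mul_le_mul (hvv1 i) hτ.2 hτ0.le hv₁0.le
        _ = _ := by ring
    have e3 := neg_abs_le (Real.log (v₀ * α / (2 * Real.pi)))
    have e4 := le_abs_self (Real.log (v₁ * β / (2 * Real.pi)))
    have e5 := abs_nonneg (Real.log (v₀ * α / (2 * Real.pi)))
    have e6 := abs_nonneg (Real.log (v₁ * β / (2 * Real.pi)))
    rw [hlm, abs_le]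
    constructor <;> simp only <;> linarith
  obtain ⟨E, hE⟩ : ∃ E : ℝ, E = K₁ * T ^ (-c₀) := ⟨_, rfl⟩
  have hE0 : 0 ≤ E := by rw [hE]; positivity
  have hE1 : E ≤ 1 := by
    have e1 : T ^ (-c₀) < 1 / K₁ := hEs
    rw [lt_div_iff₀ hK₁] at e1
    rw [hE]; linarith
  have hRB : 0 ≤ 2 * R * B := by positivity
  -- each term
  have hterm : ∀ ρ ∈ RT a (YY η T), |DD a v w H (XX c δ T) ρ τ - H ^ m * Om a w * mt a lm ρ| ≤
      H ^ m * ((ht ρ) ^ (-(sx a))) * ((m + 1) * E * (3 * (3 * L)) ^ m * (B * (2 * R * B) ^ m)) := by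
    intro ρ hρ
    unfold RT at hρ
    rw [Finset.mem_filter] at hρ
    obtain ⟨hρ1, hρ2⟩ := hρ
    obtain ⟨a1, a2, -, a4, -, -⟩ := Pool.Agent.Y379.GP.mem_FR hρ1
    have hht : 0 < ht ρ := Pool.Agent.Y545.GP.ht_pos a1 a2
    have hlogpw : ∀ i, Real.log (ht (pw ρ (a i))) = (a i).natAbs * Real.log (ht ρ) := fun i => by
      rw [ht_pw, Real.log_pow]
    have h1 : mt a lm ρ = (ht ρ) ^ (-(sx a)) * ∏ i, (lm i - (a i).natAbs * Real.log (ht ρ)) := by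
      unfold mt
      rw [if_pos a4]
    rw [h1]
    refine dd_main (Λ := 3 * L) (E := E) ha hav hw hH a1 a2 hE0 (by linarith) (fun i => ?_) fun i y hy => ?_
    · refine (abs_sub _ _).trans ?_
      have h2 : |((a i).natAbs : ℝ) * Real.log (ht ρ)| ≤ L := by
        rw [← hlogpw, abs_of_nonneg (Real.log_nonneg (ht_pos' (hρ2 i)))]
        rw [hL]
        refine Real.log_le_log (by linarith [ht_pos' (hρ2 i)]) ?_
        have h3 : ht (pw ρ (a i)) ≤ (YY η T : ℝ) := by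
          obtain ⟨-, -, b3, -⟩ := Pool.Agent.Y379.GP.mem_FR (hρ2 i)
          unfold ht; exact_mod_cast b3
        refine h3.trans (hYb.2.1.trans ?_)
        calc T ^ η ≤ T ^ (1 : ℝ) := Real.rpow_le_rpow_of_exponent_le hT (by linarith)
          _ = T := Real.rpow_one T
      linarith [hlmL i]
    · rw [← hlogpw, hlm, hE]
      exact hco T hT hcT H τ (v i) y (pw ρ (a i)) hH hHκ (hHv i) (hvv i) (hvv1 i) hτ.1 hτ.2 hy (hρ2 i) hYX hYb.2.1
  -- the sum over the fractions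
  have hsum1 : |∑ ρ ∈ RT a (YY η T), DD a v w H (XX c δ T) ρ τ - H ^ m * Om a w * ∑ ρ ∈ RT a (YY η T), mt a lm ρ| ≤
      D1 * B ^ (m + 1) * (L ^ m * T ^ (-c₀) * H ^ m) := by
    rw [Finset.mul_sum, ← Finset.sum_sub_distrib]
    refine (Finset.abs_sum_le_sum_abs _ _).trans ((Finset.sum_le_sum hterm).trans ?_)
    rw [← Finset.sum_mul, ← Finset.mul_sum]
    have h2 : ∑ ρ ∈ RT a (YY η T), (ht ρ) ^ (-(sx a)) ≤ S1 := by
      rw [hS1]
      exact (ht_summable (by linarith : 1 < sx a)).sum_le_tsum _ fun ρ _ => Real.rpow_nonneg (ht_nn ρ) _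
    calc H ^ m * (∑ ρ ∈ RT a (YY η T), (ht ρ) ^ (-(sx a))) * ((m + 1) * E * (3 * (3 * L)) ^ m * (B * (2 * R * B) ^ m)) ≤
        H ^ m * S1 * ((m + 1) * E * (3 * (3 * L)) ^ m * (B * (2 * R * B) ^ m)) := by gcongr
      _ = _ := by
          rw [hE, hD1, show 3 * (3 * L) = 9 * L by ring, mul_pow 9 L, mul_pow (2 * R) B, pow_succ B m]
          ring
  have hsum2 : |H ^ m * Om a w * ∑ ρ ∈ RT a (YY η T), mt a lm ρ - H ^ m * Om a w * MT a v τ| ≤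
      D2 * B ^ (m + 1) * (L ^ (m + 1) * T ^ (-(η / (8 * A))) * H ^ m) := by
    rw [MT_eq, ← hlm, ← mul_sub, abs_mul, abs_mul, abs_of_pos (by positivity : 0 < H ^ m)]
    have h3 := mt_tail hs hA hA1 (by linarith : 1 ≤ 2 * L) hlmL hYb.2.2
    rw [← hS2] at h3
    have h4 := (om_int (a := a) hw).2
    have h5 : ((YY η T : ℝ) ^ (1 / (A : ℝ))) ^ (-(1 / 8) : ℝ) ≤ 2 * T ^ (-(η / (8 * A))) := by
      have hY1 : (1 : ℝ) ≤ YY η T := by exact_mod_cast hYb.2.2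
      rw [← Real.rpow_mul (by linarith)]
      have e1 : 1 / (A : ℝ) * (-(1 / 8)) = -(1 / (8 * A)) := by field_simp
      rw [e1]
      have e2 : (YY η T : ℝ) ^ (-(1 / (8 * (A : ℝ)))) ≤ (T ^ η / 2) ^ (-(1 / (8 * (A : ℝ)))) :=
        Real.rpow_le_rpow_of_nonpos (by positivity) hYb.1 (by
          have : 0 < 1 / (8 * (A : ℝ)) := by positivity
          linarith)
      refine e2.trans ?_
      rw [Real.div_rpow (by positivity) (by norm_num), ← Real.rpow_mul hT0.le, div_eq_mul_inv, mul_comm,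
        ← Real.rpow_neg (by norm_num), neg_neg]
      have e3 : (2 : ℝ) ^ (1 / (8 * (A : ℝ))) ≤ 2 := by
        calc (2 : ℝ) ^ (1 / (8 * (A : ℝ))) ≤ (2 : ℝ) ^ (1 : ℝ) := by
              refine Real.rpow_le_rpow_of_exponent_le (by norm_num) ?_
              rw [div_le_one (by positivity)]
              linarith
          _ = 2 := Real.rpow_one 2
      have e4 : η * -(1 / (8 * (A : ℝ))) = -(η / (8 * A)) := by field_simp
      rw [e4]
      exact mul_le_mul_of_nonneg_right e3 (by positivity)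
    calc H ^ m * |Om a w| * |∑ ρ ∈ RT a (YY η T), mt a lm ρ - ∑' ρ, mt a lm ρ| ≤
        H ^ m * (B * (2 * R * B) ^ m) * ((((1 + A) * (2 * L)) ^ (m + 1) * (8 * ((m + 1 : ℕ) : ℝ) + 9) ^ (m + 1) *
          (2 * T ^ (-(η / (8 * A))))) * S2) := by
          refine mul_le_mul (mul_le_mul_of_nonneg_left h4 (by positivity)) (h3.trans ?_) (abs_nonneg _) (by positivity)
          gcongr
      _ = _ := by
          rw [hD2, show (1 + (A : ℝ)) * (2 * L) = ((1 + A) * 2) * L by ring, mul_pow ((1 + (A : ℝ)) * 2) L, mul_pow (2 * R) B,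
            pow_succ B m]
          ring
  have hp1 : L ^ m * T ^ (-c₀) ≤ T ^ (-(c₅ / 2)) := by
    have e1 : L ^ m ≤ L ^ (m + 1) := pow_le_pow_right₀ hL1 (Nat.le_succ m)
    have e2 : T ^ (-c₀) ≤ T ^ (-c₅) := Real.rpow_le_rpow_of_exponent_le hT (neg_le_neg (by rw [hc₅]; exact min_le_left _ _))
    calc L ^ m * T ^ (-c₀) ≤ T ^ (c₅ / 2) * T ^ (-c₅) := mul_le_mul (e1.trans hlogp) e2 (by positivity) (by positivity)
      _ = _ := by rw [← Real.rpow_add hT0]; ring_nf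
  have hp2 : L ^ (m + 1) * T ^ (-(η / (8 * A))) ≤ T ^ (-(c₅ / 2)) := by
    have e2 : T ^ (-(η / (8 * A))) ≤ T ^ (-c₅) :=
      Real.rpow_le_rpow_of_exponent_le hT (neg_le_neg (by rw [hc₅]; exact min_le_right _ _))
    calc L ^ (m + 1) * T ^ (-(η / (8 * A))) ≤ T ^ (c₅ / 2) * T ^ (-c₅) := mul_le_mul hlogp e2 (by positivity) (by positivity)
      _ = _ := by rw [← Real.rpow_add hT0]; ring_nf
  have hBp : 0 < B ^ (m + 1) := by positivity
  have hHp : 0 < H ^ m := by positivity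
  calc |∑ ρ ∈ RT a (YY η T), DD a v w H (XX c δ T) ρ τ - H ^ m * Om a w * MT a v τ| ≤
      |∑ ρ ∈ RT a (YY η T), DD a v w H (XX c δ T) ρ τ - H ^ m * Om a w * ∑ ρ ∈ RT a (YY η T), mt a lm ρ| +
      |H ^ m * Om a w * ∑ ρ ∈ RT a (YY η T), mt a lm ρ - H ^ m * Om a w * MT a v τ| := abs_sub_le _ _ _
    _ ≤ D1 * B ^ (m + 1) * (L ^ m * T ^ (-c₀) * H ^ m) + D2 * B ^ (m + 1) * (L ^ (m + 1) * T ^ (-(η / (8 * A))) * H ^ m) :=
        add_le_add hsum1 hsum2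
    _ ≤ D1 * B ^ (m + 1) * (T ^ (-(c₅ / 2)) * H ^ m) + D2 * B ^ (m + 1) * (T ^ (-(c₅ / 2)) * H ^ m) := by gcongr
    _ ≤ _ := by
        have h6 : 0 < B ^ (m + 1) * (T ^ (-(c₅ / 2)) * H ^ m) := by positivity
        have e1 : D1 * B ^ (m + 1) * (T ^ (-(c₅ / 2)) * H ^ m) + D2 * B ^ (m + 1) * (T ^ (-(c₅ / 2)) * H ^ m) =
          (D1 + D2) * (B ^ (m + 1) * (T ^ (-(c₅ / 2)) * H ^ m)) := by ring
        rw [e1, mul_assoc (D1 + D2 + 1)]
        exact mul_le_mul_of_nonneg_right (by linarith) h6.le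

end Pool.Agent.J4.H39.HM
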