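import Pool.Agent.J4.H39.HM.Win

/-!
# Smooth plateaus
-/

set_option autoImplicit false

namespace Pool.Agent.J4.H39.HM

open MeasureTheory Set Topology

/-- a smooth plateau: `1` for `|y| ≤ l`, `0` for `|y| ≥ l + θ` -/
noncomputable def pl (l θ y : ℝ) : ℝ := Real.smoothTransition ((l + θ - y) / θ) * Real.smoothTransition ((l + θ + y) / θ)

lemma pl_nonneg (l θ y : ℝ) : 0 ≤ pl l θ y :=
  mul_nonneg (Real.smoothTransition.nonneg _) (Real.smoothTransition.nonneg _)

lemma pl_le_one (l θ y : ℝ) : pl l θ y ≤ 1 :=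
  mul_le_one₀ (Real.smoothTransition.le_one _) (Real.smoothTransition.nonneg _) (Real.smoothTransition.le_one _)

lemma pl_one {l θ y : ℝ} (hθ : 0 < θ) (hy : |y| ≤ l) : pl l θ y = 1 := by
  rw [abs_le] at hy
  unfold pl
  rw [Real.smoothTransition.one_of_one_le, Real.smoothTransition.one_of_one_le, mul_one]
  · rw [le_div_iff₀ hθ]; linarith [hy.1]
  · rw [le_div_iff₀ hθ]; linarith [hy.2]

lemma pl_zero {l θ y : ℝ} (hθ : 0 < θ) (hy : l + θ ≤ |y|) : pl l θ y = 0 := by
  unfold pl
  rcases le_or_gt 0 y with h | h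
  · rw [abs_of_nonneg h] at hy
    rw [Real.smoothTransition.zero_of_nonpos, zero_mul]
    exact div_nonpos_of_nonpos_of_nonneg (by linarith) hθ.le
  · rw [abs_of_neg h] at hy
    rw [mul_comm, Real.smoothTransition.zero_of_nonpos, zero_mul]
    exact div_nonpos_of_nonpos_of_nonneg (by linarith) hθ.le

lemma pl_contDiff (l θ : ℝ) : ContDiff ℝ 2 (pl l θ) := by
  unfold pl
  refine (Real.smoothTransition.contDiff.comp ?_).mul (Real.smoothTransition.contDiff.comp ?_)
  · exact (contDiff_const.sub contDiff_id).div_const θ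
  · exact (contDiff_const.add contDiff_id).div_const θ

lemma st_deriv : ∃ S : ℝ, 1 ≤ S ∧ ∀ x, |deriv Real.smoothTransition x| ≤ S := by
  have hc : Continuous (deriv Real.smoothTransition) :=
    (Real.smoothTransition.contDiff (n := 1)).continuous_deriv (by norm_num)
  obtain ⟨C, hC⟩ := isCompact_Icc.exists_bound_of_continuousOn (s := Icc (-1 : ℝ) 2) hc.continuousOn
  refine ⟨max C 1, le_max_right _ _, fun x => ?_⟩
  by_cases hx : x ∈ Icc (-1 : ℝ) 2
  · have := hC x hx
    rw [Real.norm_eq_abs] at this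
    exact this.trans (le_max_left _ _)
  · have h0 : deriv Real.smoothTransition x = 0 := by
      rw [mem_Icc, not_and_or, not_le, not_le] at hx
      rcases hx with h | h
      · have hev : Real.smoothTransition =ᶠ[𝓝 x] fun _ => 0 := by
          filter_upwards [Iio_mem_nhds (show x < 0 by linarith)] with y hy
          exact Real.smoothTransition.zero_of_nonpos (le_of_lt hy)
        rw [hev.deriv_eq, deriv_const]
      · have hev : Real.smoothTransition =ᶠ[𝓝 x] fun _ => 1 := by
          filter_upwards [Ioi_mem_nhds (show 1 < x by linarith)] with y hy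
          exact Real.smoothTransition.one_of_one_le (le_of_lt hy)
        rw [hev.deriv_eq, deriv_const]
    rw [h0, abs_zero]
    exact zero_le_one.trans (le_max_right _ _)

/-- the derivative of a plateau with a dilated argument -/
lemma pl_wt : ∃ S : ℝ, 1 ≤ S ∧ ∀ (l θ u R : ℝ), 0 < θ → θ ≤ 1 → 0 < u → 1 ≤ R → u * (l + θ) ≤ R →
    Wt (fun y => pl l θ (y / u)) R ((2 * S + 1) / (θ * u) + 1) := by
  obtain ⟨S, hS, h⟩ := st_deriv
  refine ⟨S, hS, fun l θ u R hθ hθ1 hu hR hl => ?_⟩
  have hpos : 0 < (2 * S + 1) / (θ * u) := by positivity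
  refine ⟨(pl_contDiff l θ).comp (contDiff_id.div_const u), fun x hx => ?_, fun x => ?_, fun x => ?_, hR⟩
  · refine pl_zero hθ ?_
    rw [abs_div, abs_of_pos hu, le_div_iff₀ hu]
    linarith
  · rw [abs_of_nonneg (pl_nonneg _ _ _)]
    have := pl_le_one l θ (x / u)
    linarith
  · have hst : ∀ z, HasDerivAt Real.smoothTransition (deriv Real.smoothTransition z) z := fun z =>
      ((Real.smoothTransition.contDiff (n := 1)).differentiable (by norm_num)).differentiableAt.hasDerivAt
    have d1 : HasDerivAt (fun y : ℝ => (l + θ - y / u) / θ) (-(1 / u) / θ) x := by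
      have := (((hasDerivAt_id x).div_const u).const_sub (l + θ)).div_const θ
      simpa using this
    have d2 : HasDerivAt (fun y : ℝ => (l + θ + y / u) / θ) ((1 / u) / θ) x := by
      have := (((hasDerivAt_id x).div_const u).const_add (l + θ)).div_const θ
      simpa using this
    have d3 := ((hst _).comp x d1).mul ((hst _).comp x d2)
    have e : deriv (fun y => pl l θ (y / u)) x = deriv Real.smoothTransition ((l + θ - x / u) / θ) * (-(1 / u) / θ) *
        Real.smoothTransition ((l + θ + x / u) / θ) + Real.smoothTransition ((l + θ - x / u) / θ) *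
        (deriv Real.smoothTransition ((l + θ + x / u) / θ) * ((1 / u) / θ)) := d3.deriv
    rw [e]
    have b1 := h ((l + θ - x / u) / θ)
    have b2 := h ((l + θ + x / u) / θ)
    have b3 : |Real.smoothTransition ((l + θ + x / u) / θ)| ≤ 1 := by
      rw [abs_of_nonneg (Real.smoothTransition.nonneg _)]; exact Real.smoothTransition.le_one _
    have b4 : |Real.smoothTransition ((l + θ - x / u) / θ)| ≤ 1 := by
      rw [abs_of_nonneg (Real.smoothTransition.nonneg _)]; exact Real.smoothTransition.le_one _
    have b5 : |-(1 / u) / θ| = 1 / (θ * u) := by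
      rw [abs_div, abs_neg, abs_of_pos (by positivity : 0 < 1 / u), abs_of_pos hθ]
      field_simp
    have b6 : |(1 / u) / θ| = 1 / (θ * u) := by
      rw [abs_div, abs_of_pos (by positivity : 0 < 1 / u), abs_of_pos hθ]
      field_simp
    have hk : 0 < 1 / (θ * u) := by positivity
    refine (abs_add_le _ _).trans ?_
    rw [abs_mul, abs_mul, abs_mul, abs_mul, b5, b6]
    calc _ ≤ S * (1 / (θ * u)) * 1 + 1 * (S * (1 / (θ * u))) := by
          refine add_le_add (mul_le_mul (mul_le_mul_of_nonneg_right b1 hk.le) b3 (abs_nonneg _) (by positivity))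
            (mul_le_mul b4 (mul_le_mul_of_nonneg_right b2 hk.le) (by positivity) zero_le_one)
      _ ≤ _ := by
          have e1 : (2 * S + 1) / (θ * u) = (2 * S + 1) * (1 / (θ * u)) := by ring
          rw [e1]
          nlinarith

lemma pl_int {l θ : ℝ} (hθ : 0 < θ) (hl : 0 ≤ l) : Integrable (pl l θ) ∧ 2 * l ≤ ∫ y, pl l θ y ∧
    ∫ y, pl l θ y ≤ 2 * (l + θ) := by
  have hz : ∀ x, x ∉ Icc (0 - (l + θ)) (0 + (l + θ)) → pl l θ x = 0 := by
    intro x hx
    refine pl_zero hθ ?_
    by_contra hcon
    rw [not_le, abs_lt] at hcon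
    exact hx ⟨by linarith [hcon.1], by linarith [hcon.2]⟩
  have hi : Integrable (pl l θ) := by
    refine (pl_contDiff l θ).continuous.integrable_of_hasCompactSupport ?_
    exact HasCompactSupport.intro (isCompact_Icc (a := 0 - (l + θ)) (b := 0 + (l + θ))) hz
  refine ⟨hi, ?_, ?_⟩
  · have h1 : ∫ y in Icc (-l) l, (1 : ℝ) ≤ ∫ y in Icc (-l) l, pl l θ y := by
      refine setIntegral_mono_on (integrableOn_const (by rw [Real.volume_Icc]; exact ENNReal.ofReal_ne_top))
        hi.integrableOn measurableSet_Icc fun y hy => ?_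
      rw [pl_one hθ (abs_le.2 hy)]
    have h2 : ∫ y in Icc (-l) l, pl l θ y ≤ ∫ y, pl l θ y :=
      setIntegral_le_integral hi (Filter.Eventually.of_forall fun y => pl_nonneg _ _ _)
    rw [setIntegral_const, Measure.real, Real.volume_Icc, ENNReal.toReal_ofReal (by linarith), smul_eq_mul, mul_one] at h1
    linarith
  · have h3 := int_win (f := pl l θ) (s := 0) (L := l + θ) (C := 1) (by linarith) hz fun x _ => by
      rw [abs_of_nonneg (pl_nonneg _ _ _)]; exact pl_le_one _ _ _
    have h4 : ∫ y, pl l θ y = ∫ y, |pl l θ y| := by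
      refine integral_congr_ae (Filter.Eventually.of_forall fun y => ?_)
      exact (abs_of_nonneg (pl_nonneg _ _ _)).symm
    rw [h4]
    linarith

end Pool.Agent.J4.H39.HM
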