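import Pool.Agent.Y379.GP.Sp

/-!
# Powers of reduced fractions; the diagonal and the off-diagonal tuples
-/

set_option autoImplicit false

namespace Pool.Agent.J4.H39.HM

open Pool.Agent.Y969.GP Finset

/-- the power of a reduced fraction -/
def pw (p : ℕ × ℕ) (a : ℤ) : ℕ × ℕ :=
  if 0 ≤ a then (p.1 ^ a.natAbs, p.2 ^ a.natAbs) else (p.2 ^ a.natAbs, p.1 ^ a.natAbs)

lemma lam_pw {p : ℕ × ℕ} (a : ℤ) : lam (pw p a) = a * lam p := by
  unfold pw lam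
  split_ifs with h
  · have h1 : (a : ℝ) = (a.natAbs : ℝ) := by
      rw [Nat.cast_natAbs, abs_of_nonneg h]
    rw [h1]
    push_cast
    rw [Real.log_pow, Real.log_pow]
    push_cast
    ring
  · have h1 : (a : ℝ) = -(a.natAbs : ℝ) := by
      rw [Nat.cast_natAbs, abs_of_neg (by omega)]
      push_cast
      ring
    rw [h1]
    push_cast
    rw [Real.log_pow, Real.log_pow]
    push_cast
    ring

lemma ht_pw (p : ℕ × ℕ) (a : ℤ) : ht (pw p a) = ht p ^ a.natAbs := by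
  unfold pw ht
  split_ifs with h
  · push_cast; rw [mul_pow]
  · push_cast; rw [mul_pow, mul_comm]

lemma pw_prod (p : ℕ × ℕ) (a : ℤ) : (pw p a).1 * (pw p a).2 = (p.1 * p.2) ^ a.natAbs := by
  unfold pw
  split_ifs with h
  · simp only; rw [mul_pow]
  · simp only; rw [mul_pow, mul_comm]

lemma pw_pos {p : ℕ × ℕ} (a : ℤ) (h1 : 1 ≤ p.1) (h2 : 1 ≤ p.2) : 1 ≤ (pw p a).1 ∧ 1 ≤ (pw p a).2 := by
  unfold pw
  split_ifs with h
  · exact ⟨Nat.one_le_pow _ _ h1, Nat.one_le_pow _ _ h2⟩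
  · exact ⟨Nat.one_le_pow _ _ h2, Nat.one_le_pow _ _ h1⟩

lemma pw_cop {p : ℕ × ℕ} (a : ℤ) (h : Nat.Coprime p.1 p.2) : Nat.Coprime (pw p a).1 (pw p a).2 := by
  unfold pw
  split_ifs with h1
  · exact Nat.Coprime.pow _ _ h
  · exact Nat.Coprime.pow _ _ h.symm

lemma mem_FR' {X : ℕ} {p : ℕ × ℕ} (h1 : 1 ≤ p.1) (h2 : 1 ≤ p.2) (h3 : p.1 * p.2 ≤ X)
    (h4 : Nat.Coprime p.1 p.2) : p ∈ FR X := by
  unfold FR PS
  simp only [Finset.mem_filter, Finset.mem_product, Finset.mem_Icc]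
  refine ⟨⟨⟨⟨h1, ?_⟩, h2, ?_⟩, h3⟩, h4⟩
  · exact (Nat.le_mul_of_pos_right _ h2).trans h3
  · exact (Nat.le_mul_of_pos_left _ h1).trans h3

lemma lam_inj {p q : ℕ × ℕ} {X Y : ℕ} (hp : p ∈ FR X) (hq : q ∈ FR Y) (h : lam p = lam q) : p = q := by
  obtain ⟨a1, a2, a3, a4, -, -⟩ := Pool.Agent.Y379.GP.mem_FR hp
  obtain ⟨b1, b2, b3, b4, -, -⟩ := Pool.Agent.Y379.GP.mem_FR hq
  have hp' : p ∈ FR (max X Y) := mem_FR' a1 a2 (a3.trans (le_max_left _ _)) a4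
  have hq' : q ∈ FR (max X Y) := mem_FR' b1 b2 (b3.trans (le_max_right _ _)) b4
  by_contra hne
  have h1 := Pool.Agent.Y379.GP.sp1 _ p q hp' hq' hne
  rw [h, sub_self, abs_zero] at h1
  have h2 : 1 ≤ max X Y := (Nat.mul_pos a1 a2).trans_le (a3.trans (le_max_left _ _))
  have h3 : (0 : ℝ) < ((max X Y : ℕ) : ℝ) := by exact_mod_cast h2
  have : (0:ℝ) < 1 / (2 * ((max X Y : ℕ) : ℝ)) := by positivity
  linarith

lemma pw_mem {p : ℕ × ℕ} {Y A : ℕ} (hp : p ∈ FR Y) {a : ℤ} (ha : a.natAbs ≤ A) : pw p a ∈ FR (Y ^ A) := by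
  obtain ⟨a1, a2, a3, a4, -, -⟩ := Pool.Agent.Y379.GP.mem_FR hp
  obtain ⟨b1, b2⟩ := pw_pos a a1 a2
  refine mem_FR' b1 b2 ?_ (pw_cop a a4)
  rw [pw_prod]
  have hY : 1 ≤ Y := (Nat.mul_pos a1 a2).trans_le a3
  exact (Nat.pow_le_pow_left a3 _).trans (Nat.pow_le_pow_right hY ha)

/-- spacing of the quotients `λ / a` -/
lemma gap {p q : ℕ × ℕ} {Y A : ℕ} (hp : p ∈ FR Y) (hq : q ∈ FR Y) {a b : ℤ} (ha : a ≠ 0) (hb : b ≠ 0)
    (hA : a.natAbs ≤ A) (hB : b.natAbs ≤ A) (hne : lam p / a ≠ lam q / b) :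
    1 / (2 * (A : ℝ) ^ 2 * (Y : ℝ) ^ A) ≤ |lam p / a - lam q / b| := by
  have ha' : (a : ℝ) ≠ 0 := by exact_mod_cast ha
  have hb' : (b : ℝ) ≠ 0 := by exact_mod_cast hb
  have h1 : pw p b ≠ pw q a := by
    intro h
    apply hne
    have := congrArg lam h
    rw [lam_pw, lam_pw] at this
    field_simp
    linarith
  have h2 := Pool.Agent.Y379.GP.sp1 _ _ _ (pw_mem hp hB) (pw_mem hq hA) h1
  rw [lam_pw, lam_pw] at h2
  have h3 : lam p / a - lam q / b = (b * lam p - a * lam q) / (a * b) := by field_simp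
  rw [h3, abs_div]
  have hA1 : |(a : ℝ)| ≤ A := by
    rw [← Int.cast_abs, ← Nat.cast_natAbs]; exact_mod_cast hA
  have hB1 : |(b : ℝ)| ≤ A := by
    rw [← Int.cast_abs, ← Nat.cast_natAbs]; exact_mod_cast hB
  have h4 : |(a : ℝ) * b| ≤ (A : ℝ) ^ 2 := by
    rw [abs_mul, sq]
    exact mul_le_mul hA1 hB1 (abs_nonneg _) ((abs_nonneg _).trans hA1)
  have h5 : 0 < |(a : ℝ) * b| := abs_pos.2 (mul_ne_zero ha' hb')
  have hY : 1 ≤ Y := by
    obtain ⟨a1, a2, a3, -⟩ := Pool.Agent.Y379.GP.mem_FR hp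
    exact (Nat.mul_pos a1 a2).trans_le a3
  have hY' : (0 : ℝ) < Y := by exact_mod_cast hY
  have hA0 : (0 : ℝ) < (A : ℝ) ^ 2 := h5.trans_le h4
  rw [le_div_iff₀ h5]
  refine le_trans ?_ h2
  push_cast
  rw [div_mul_eq_mul_div, div_le_div_iff₀ (by positivity) (by positivity)]
  have : 0 < (Y : ℝ) ^ A := by positivity
  nlinarith

/-- the fraction with logarithm `μ` -/
lemma root {n : ℕ} {q : Fin n → ℕ × ℕ} {a k : Fin n → ℤ} (hk : ∑ i, k i * a i = 1)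
    (hpos : ∀ i, 1 ≤ (q i).1 ∧ 1 ≤ (q i).2) {μ : ℝ} (hμ : ∀ i, lam (q i) = a i * μ) :
    ∃ r : ℕ × ℕ, 1 ≤ r.1 ∧ 1 ≤ r.2 ∧ Nat.Coprime r.1 r.2 ∧ lam r = μ := by
  obtain ⟨ρ, hρ⟩ : ∃ ρ : ℚ, ρ = ∏ i, (((q i).2 : ℚ) / (q i).1) ^ (k i) := ⟨_, rfl⟩
  have hρ0 : 0 < ρ := by
    rw [hρ]
    refine Finset.prod_pos fun i _ => zpow_pos ?_ _
    have h1 : (0 : ℚ) < (q i).1 := by exact_mod_cast (hpos i).1
    have h2 : (0 : ℚ) < (q i).2 := by exact_mod_cast (hpos i).2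
    positivity
  have hnum : 0 < ρ.num := Rat.num_pos.2 hρ0
  refine ⟨(ρ.den, ρ.num.natAbs), ρ.den_pos, by simp only; omega, ρ.reduced.symm, ?_⟩
  have h1 : lam (ρ.den, ρ.num.natAbs) = Real.log (ρ : ℝ) := by
    unfold lam
    simp only
    have h2 : ((ρ.num.natAbs : ℕ) : ℝ) = (ρ.num : ℝ) := by
      rw [Nat.cast_natAbs, abs_of_pos hnum]
    have h3 : (ρ : ℝ) = (ρ.num : ℝ) / (ρ.den : ℝ) := Rat.cast_def ρ
    rw [h2, h3, Real.log_div (by exact_mod_cast hnum.ne') (by exact_mod_cast ρ.den_pos.ne')]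
  have h4 : Real.log (ρ : ℝ) = ∑ i, (k i : ℝ) * lam (q i) := by
    rw [hρ]
    push_cast
    rw [Real.log_prod (fun i _ => ?_)]
    · refine Finset.sum_congr rfl fun i _ => ?_
      have e1 : ((q i).1 : ℝ) ≠ 0 := by exact_mod_cast (Nat.one_le_iff_ne_zero.1 (hpos i).1)
      have e2 : ((q i).2 : ℝ) ≠ 0 := by exact_mod_cast (Nat.one_le_iff_ne_zero.1 (hpos i).2)
      rw [Real.log_zpow, Real.log_div e2 e1]
      rfl
    · have e1 : (0:ℝ) < (q i).1 := by exact_mod_cast (hpos i).1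
      have e2 : (0:ℝ) < (q i).2 := by exact_mod_cast (hpos i).2
      positivity
  rw [h1, h4]
  have h5 : ∑ i, (k i : ℝ) * lam (q i) = (∑ i, (k i : ℝ) * a i) * μ := by
    rw [Finset.sum_mul]
    refine Finset.sum_congr rfl fun i _ => ?_
    rw [hμ i]
    ring
  rw [h5]
  have h6 : ∑ i, (k i : ℝ) * a i = 1 := by exact_mod_cast hk
  rw [h6, one_mul]

open Classical in
/-- the diagonal tuples -/
noncomputable def DG {n : ℕ} (a : Fin n → ℤ) (Y : ℕ) : Finset (Fin n → ℕ × ℕ) :=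
  (Fintype.piFinset fun _ : Fin n => FR Y).filter fun q => ∀ i k, lam (q i) / a i = lam (q k) / a k

open Classical in
/-- the fractions whose powers have height at most `Y` -/
noncomputable def RT {n : ℕ} (a : Fin n → ℤ) (Y : ℕ) : Finset (ℕ × ℕ) :=
  (FR Y).filter fun r => ∀ i, pw r (a i) ∈ FR Y

open Classical in
theorem sum_diag {n : ℕ} {a : Fin (n + 1) → ℤ} (ha : ∀ i, a i ≠ 0) (hk : ∃ k : Fin (n + 1) → ℤ, ∑ i, k i * a i = 1)
    (Y : ℕ) {M : Type*} [AddCommMonoid M] (f : (Fin (n + 1) → ℕ × ℕ) → M) :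
    ∑ q ∈ DG a Y, f q = ∑ r ∈ RT a Y, f (fun i => pw r (a i)) := by
  symm
  obtain ⟨k, hk⟩ := hk
  have ha' : ∀ i, (a i : ℝ) ≠ 0 := fun i => by exact_mod_cast ha i
  refine Finset.sum_bij (fun r _ => fun i => pw r (a i)) ?_ ?_ ?_ ?_
  · intro r hr
    unfold RT at hr
    rw [Finset.mem_filter] at hr
    unfold DG
    rw [Finset.mem_filter, Fintype.mem_piFinset]
    refine ⟨hr.2, fun i k => ?_⟩
    rw [lam_pw, lam_pw, mul_div_cancel_left₀ _ (ha' i), mul_div_cancel_left₀ _ (ha' k)]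
  · intro r hr r' hr' h
    unfold RT at hr hr'
    rw [Finset.mem_filter] at hr hr'
    have h1 := congrArg lam (congrFun h 0)
    rw [lam_pw, lam_pw] at h1
    exact lam_inj hr.1 hr'.1 (mul_left_cancel₀ (ha' 0) h1)
  · intro q hq
    unfold DG at hq
    rw [Finset.mem_filter, Fintype.mem_piFinset] at hq
    obtain ⟨hq1, hq2⟩ := hq
    have hμ : ∀ i, lam (q i) = a i * (lam (q 0) / a 0) := fun i => by
      rw [← hq2 i 0, mul_div_cancel₀ _ (ha' i)]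
    have hpos : ∀ i, 1 ≤ (q i).1 ∧ 1 ≤ (q i).2 := fun i => by
      obtain ⟨a1, a2, -⟩ := Pool.Agent.Y379.GP.mem_FR (hq1 i)
      exact ⟨a1, a2⟩
    obtain ⟨r, hr1, hr2, hr3, hr4⟩ := root hk hpos hμ
    have hr5 : ∀ i, q i = pw r (a i) := by
      intro i
      obtain ⟨b1, b2⟩ := pw_pos (a i) hr1 hr2
      have hm : pw r (a i) ∈ FR ((pw r (a i)).1 * (pw r (a i)).2) := mem_FR' b1 b2 le_rfl (pw_cop _ hr3)
      refine lam_inj (hq1 i) hm ?_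
      rw [lam_pw, hr4]
      exact hμ i
    refine ⟨r, ?_, funext fun i => (hr5 i).symm⟩
    unfold RT
    rw [Finset.mem_filter]
    refine ⟨mem_FR' hr1 hr2 ?_ hr3, fun i => hr5 i ▸ hq1 i⟩
    obtain ⟨-, -, c3, -⟩ := Pool.Agent.Y379.GP.mem_FR (hq1 0)
    rw [hr5 0, pw_prod] at c3
    refine le_trans ?_ c3
    exact Nat.le_self_pow (by have := ha 0; omega) _
  · intro r _
    rfl

end Pool.Agent.J4.H39.HM
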