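import Pool.Agent.Y379.GP.Sp
import Pool.Agent.J4.H39.HM.Pw
import Pool.Agent.J4.H39.HM.Hyp

/-!
# Row sums over reduced fractions of large height
-/

set_option autoImplicit false

namespace Pool.Agent.J4.H39.HM

open Pool.Agent.Y969.GP Finset

lemma FR_mono {X Y : ℕ} (h : Y ≤ X) : FR Y ⊆ FR X := by
  intro p hp
  obtain ⟨a1, a2, a3, a4, -, -⟩ := Pool.Agent.Y379.GP.mem_FR hp
  exact mem_FR' a1 a2 (a3.trans h) a4

lemma ht_gt {X Y : ℕ} {p : ℕ × ℕ} (hp : p ∈ FR X \ FR Y) : (Y : ℝ) ≤ ht p := by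
  rw [mem_sdiff] at hp
  obtain ⟨a1, a2, a3, a4, -, -⟩ := Pool.Agent.Y379.GP.mem_FR hp.1
  by_contra hcon
  rw [not_le] at hcon
  apply hp.2
  refine mem_FR' a1 a2 ?_ a4
  unfold ht at hcon
  exact_mod_cast hcon.le

lemma ht_pos' {X : ℕ} {p : ℕ × ℕ} (hp : p ∈ FR X) : 1 ≤ ht p := by
  obtain ⟨a1, a2, a3, a4, -, -⟩ := Pool.Agent.Y379.GP.mem_FR hp
  unfold ht
  have e1 : (1 : ℝ) ≤ p.1 := by exact_mod_cast a1
  have e2 : (1 : ℝ) ≤ p.2 := by exact_mod_cast a2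
  nlinarith

lemma dyad : ∃ C : ℝ, 0 < C ∧ ∀ (K Y : ℕ) (H θ : ℝ), 1 ≤ Y → 1 ≤ H →
    ∑ p ∈ FR (2 ^ K * Y) \ FR Y, (√(ht p))⁻¹ * mk H (lam p - θ) ≤
      K * (C * (1 + Real.log (2 ^ K * Y)) * (H / √Y + 2 * √(2 ^ K * Y))) := by
  obtain ⟨-, C, hC, hS⟩ := Pool.Agent.Y379.GP.t_SP
  refine ⟨C, hC, fun K Y H θ hY hH => ?_⟩
  have hY0 : (1 : ℝ) ≤ Y := by exact_mod_cast hY
  have hH0 : 0 ≤ H := by linarith
  induction K with
  | zero => simp
  | succ K ih =>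
    obtain ⟨Z, hZ⟩ : ∃ Z : ℕ, Z = 2 ^ K * Y := ⟨_, rfl⟩
    have hZY : Y ≤ Z := by rw [hZ]; exact Nat.le_mul_of_pos_left _ (by positivity)
    have hZ1 : 1 ≤ Z := hY.trans hZY
    have hZ0 : (1 : ℝ) ≤ Z := by exact_mod_cast hZ1
    have hZYR : (Y : ℝ) ≤ Z := by exact_mod_cast hZY
    have e1 : 2 ^ (K + 1) * Y = 2 * Z := by rw [hZ]; ring
    have e2 : (2 : ℝ) ^ (K + 1) * Y = 2 * Z := by rw [hZ]; push_cast; ring
    have e3 : (2 : ℝ) ^ K * Y = Z := by rw [hZ]; push_cast; ring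
    rw [e1, e2]
    rw [← hZ, e3] at ih
    have hsub : FR (2 * Z) \ FR Y ⊆ (FR Z \ FR Y) ∪ (FR (2 * Z) \ FR Z) := by
      intro p hp
      rw [mem_sdiff] at hp
      rw [mem_union, mem_sdiff, mem_sdiff]
      by_cases h : p ∈ FR Z
      · exact Or.inl ⟨h, hp.2⟩
      · exact Or.inr ⟨hp.1, h⟩
    have hnn : ∀ p : ℕ × ℕ, 0 ≤ (√(ht p))⁻¹ * mk H (lam p - θ) := fun p =>
      mul_nonneg (by positivity) (mk_nonneg hH0 _)
    have h1 : ∑ p ∈ FR (2 * Z) \ FR Y, (√(ht p))⁻¹ * mk H (lam p - θ) ≤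
        ∑ p ∈ FR Z \ FR Y, (√(ht p))⁻¹ * mk H (lam p - θ) +
        ∑ p ∈ FR (2 * Z) \ FR Z, (√(ht p))⁻¹ * mk H (lam p - θ) := by
      refine (sum_le_sum_of_subset_of_nonneg hsub fun p _ _ => hnn p).trans ?_
      have := sum_union_inter (s₁ := FR Z \ FR Y) (s₂ := FR (2 * Z) \ FR Z)
        (f := fun p => (√(ht p))⁻¹ * mk H (lam p - θ))
      have h2 : 0 ≤ ∑ p ∈ (FR Z \ FR Y) ∩ (FR (2 * Z) \ FR Z), (√(ht p))⁻¹ * mk H (lam p - θ) :=
        sum_nonneg fun p _ => hnn p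
      linarith
    have h2 : ∑ p ∈ FR (2 * Z) \ FR Z, (√(ht p))⁻¹ * mk H (lam p - θ) ≤
        (√Z)⁻¹ * (C * ((H + 2 * Z) * (1 + Real.log (2 * Z)))) := by
      calc ∑ p ∈ FR (2 * Z) \ FR Z, (√(ht p))⁻¹ * mk H (lam p - θ) ≤
          ∑ p ∈ FR (2 * Z) \ FR Z, (√Z)⁻¹ * mk H (lam p - θ) := by
            refine sum_le_sum fun p hp => mul_le_mul_of_nonneg_right ?_ (mk_nonneg hH0 _)
            exact inv_anti₀ (Real.sqrt_pos.2 (by linarith)) (Real.sqrt_le_sqrt (ht_gt hp))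
        _ = (√Z)⁻¹ * ∑ p ∈ FR (2 * Z) \ FR Z, mk H (lam p - θ) := by rw [mul_sum]
        _ ≤ (√Z)⁻¹ * ∑ p ∈ FR (2 * Z), mk H (lam p - θ) := by
            refine mul_le_mul_of_nonneg_left ?_ (by positivity)
            exact sum_le_sum_of_subset_of_nonneg sdiff_subset fun p _ _ => mk_nonneg hH0 _
        _ ≤ _ := by
            refine mul_le_mul_of_nonneg_left ?_ (by positivity)
            have := hS (2 * Z) H θ (by omega) hH
            push_cast at this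
            exact this
    have hsq : 0 < √(Z : ℝ) := Real.sqrt_pos.2 (by linarith)
    have hlog : 0 ≤ Real.log (2 * Z) := Real.log_nonneg (by linarith)
    have h3 : (√Z)⁻¹ * (C * ((H + 2 * Z) * (1 + Real.log (2 * Z)))) ≤
        C * (1 + Real.log (2 * Z)) * (H / √Y + 2 * √(2 * Z)) := by
      have h4 : (√(Z : ℝ))⁻¹ * (H + 2 * Z) ≤ H / √Y + 2 * √(2 * Z) := by
        rw [mul_add]
        refine add_le_add ?_ ?_
        · rw [inv_mul_eq_div]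
          exact div_le_div_of_nonneg_left hH0 (Real.sqrt_pos.2 (by linarith)) (Real.sqrt_le_sqrt hZYR)
        · have h5 : (√(Z : ℝ))⁻¹ * (2 * Z) = 2 * √Z := by
            have h6 : (Z : ℝ) = √Z * √Z := (Real.mul_self_sqrt (by linarith)).symm
            nth_rewrite 2 [h6]
            field_simp
          rw [h5]
          have : √(Z : ℝ) ≤ √(2 * Z) := Real.sqrt_le_sqrt (by linarith)
          linarith
      calc (√Z)⁻¹ * (C * ((H + 2 * Z) * (1 + Real.log (2 * Z)))) =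
          C * (1 + Real.log (2 * Z)) * ((√(Z : ℝ))⁻¹ * (H + 2 * Z)) := by ring
        _ ≤ _ := mul_le_mul_of_nonneg_left h4 (by positivity)
    have h4 : K * (C * (1 + Real.log Z) * (H / √Y + 2 * √Z)) ≤
        K * (C * (1 + Real.log (2 * Z)) * (H / √Y + 2 * √(2 * Z))) := by
      have e5 : Real.log Z ≤ Real.log (2 * Z) := Real.log_le_log (by linarith) (by linarith)
      have e6 : √(Z : ℝ) ≤ √(2 * Z) := Real.sqrt_le_sqrt (by linarith)
      have e7 : 0 ≤ Real.log (Z : ℝ) := Real.log_nonneg hZ0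
      gcongr
    push_cast
    nlinarith [h1, h2, h3, h4, ih]

/-- **rows** -/
theorem rows : ∃ C : ℝ, 0 < C ∧ ∀ (X Y : ℕ) (H θ : ℝ), 1 ≤ Y → Y ≤ X → 1 ≤ H →
    ∑ p ∈ FR X \ FR Y, (√(ht p))⁻¹ * mk H (lam p - θ) ≤
      C * (1 + Real.log X) ^ 2 * (H / √Y + √(X * Y)) := by
  obtain ⟨C, hC, h⟩ := dyad
  refine ⟨12 * C, by positivity, fun X Y H θ hY hYX hH => ?_⟩
  have hH0 : 0 ≤ H := by linarith
  have hX1 : 1 ≤ X := hY.trans hYX
  have hX0 : (1 : ℝ) ≤ X := by exact_mod_cast hX1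
  have hY0 : (1 : ℝ) ≤ Y := by exact_mod_cast hY
  have hYXR : (Y : ℝ) ≤ X := by exact_mod_cast hYX
  have hlX : 0 ≤ Real.log X := Real.log_nonneg hX0
  obtain ⟨K, hK⟩ : ∃ K : ℕ, K = Nat.log 2 X + 1 := ⟨_, rfl⟩
  have hK1 : X < 2 ^ K := by rw [hK]; exact Nat.lt_pow_succ_log_self (by norm_num) _
  have hK2 : 2 ^ K ≤ 2 * X := by
    rw [hK, pow_succ, mul_comm]
    exact Nat.mul_le_mul_left _ (Nat.pow_log_le_self 2 (by omega))
  have hK2' : (2 : ℝ) ^ K ≤ 2 * X := by exact_mod_cast hK2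
  have hKlog : (K : ℝ) ≤ 2 * (1 + Real.log X) := by
    have h1 : ((Nat.log 2 X : ℕ) : ℝ) * Real.log 2 ≤ Real.log X := by
      rw [← Real.log_pow]
      refine Real.log_le_log (by positivity) ?_
      exact_mod_cast Nat.pow_log_le_self 2 (by omega : X ≠ 0)
    have h2 : (0.5 : ℝ) ≤ Real.log 2 := by linarith [Real.log_two_gt_d9]
    rw [hK]
    push_cast
    have h3 : (0 : ℝ) ≤ ((Nat.log 2 X : ℕ) : ℝ) := Nat.cast_nonneg _
    nlinarith
  have hnn : ∀ p : ℕ × ℕ, 0 ≤ (√(ht p))⁻¹ * mk H (lam p - θ) := fun p =>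
    mul_nonneg (by positivity) (mk_nonneg hH0 _)
  have h1 : ∑ p ∈ FR X \ FR Y, (√(ht p))⁻¹ * mk H (lam p - θ) ≤
      ∑ p ∈ FR (2 ^ K * Y) \ FR Y, (√(ht p))⁻¹ * mk H (lam p - θ) := by
    refine sum_le_sum_of_subset_of_nonneg (sdiff_subset_sdiff (FR_mono ?_) (le_refl _)) fun p _ _ => hnn p
    exact hK1.le.trans (Nat.le_mul_of_pos_right _ hY)
  refine h1.trans ((h K Y H θ hY hH).trans ?_)
  have h2 : (2 : ℝ) ^ K * Y ≤ 2 * (X * Y) := by nlinarith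
  have hpos : (1 : ℝ) ≤ (2 : ℝ) ^ K * Y := by
    have : (1 : ℝ) ≤ 2 ^ K := one_le_pow₀ (by norm_num)
    nlinarith
  have h3 : 1 + Real.log ((2 : ℝ) ^ K * Y) ≤ 2 * (1 + Real.log X) := by
    have h4 : Real.log ((2 : ℝ) ^ K * Y) ≤ Real.log (2 * (X * Y)) := Real.log_le_log (by linarith) h2
    have h5 : Real.log (2 * ((X : ℝ) * Y)) = Real.log 2 + (Real.log X + Real.log Y) := by
      rw [Real.log_mul (by norm_num) (by positivity), Real.log_mul (by positivity) (by positivity)]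
    have h6 : Real.log (Y : ℝ) ≤ Real.log X := Real.log_le_log (by linarith) hYXR
    have h7 : Real.log 2 ≤ 1 := by linarith [Real.log_two_lt_d9]
    linarith
  have h4 : 2 * √((2 : ℝ) ^ K * Y) ≤ 3 * √(X * Y) := by
    have h5 : √((2 : ℝ) ^ K * Y) ≤ √2 * √(X * Y) := by
      rw [← Real.sqrt_mul (by norm_num)]
      exact Real.sqrt_le_sqrt h2
    have h6 : √(2:ℝ) ≤ 1.5 := by
      rw [Real.sqrt_le_left (by norm_num)]
      norm_num
    have h7 : 0 ≤ √((X : ℝ) * Y) := Real.sqrt_nonneg _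
    nlinarith
  have hl0 : 0 ≤ Real.log ((2 : ℝ) ^ K * Y) := Real.log_nonneg hpos
  have hHY : 0 ≤ H / √(Y : ℝ) := by positivity
  have hXY : 0 ≤ √((X : ℝ) * Y) := Real.sqrt_nonneg _
  calc (K : ℝ) * (C * (1 + Real.log (2 ^ K * Y)) * (H / √Y + 2 * √(2 ^ K * Y))) ≤
      (2 * (1 + Real.log X)) * (C * (2 * (1 + Real.log X)) * (3 * (H / √Y + √(X * Y)))) := by
        refine mul_le_mul hKlog ?_ (by positivity) (by positivity)
        refine mul_le_mul (mul_le_mul_of_nonneg_left h3 hC.le) (by linarith) (by positivity) (by positivity)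
    _ = 12 * C * (1 + Real.log X) ^ 2 * (H / √Y + √(X * Y)) := by ring

/-- the whole row -/
theorem rows_all : ∃ C : ℝ, 0 < C ∧ ∀ (X : ℕ) (H θ : ℝ), 1 ≤ X → 1 ≤ H →
    ∑ p ∈ FR X, (√(ht p))⁻¹ * mk H (lam p - θ) ≤ C * (1 + Real.log X) ^ 2 * (H + √X) := by
  obtain ⟨C, hC, h⟩ := rows
  refine ⟨C + 1, by positivity, fun X H θ hX hH => ?_⟩
  have hH0 : 0 ≤ H := by linarith
  have hX0 : (1 : ℝ) ≤ X := by exact_mod_cast hX
  have hlX : 0 ≤ Real.log X := Real.log_nonneg hX0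
  have h1 := h X 1 H θ le_rfl hX hH
  rw [Nat.cast_one, Real.sqrt_one, div_one, mul_one] at h1
  have h2 : ∑ p ∈ FR 1, (√(ht p))⁻¹ * mk H (lam p - θ) ≤ H := by
    have hsub : FR 1 ⊆ {(1, 1)} := by
      intro p hp
      obtain ⟨a1, a2, a3, a4, a5, a6⟩ := Pool.Agent.Y379.GP.mem_FR hp
      rw [mem_singleton]
      exact Prod.ext (by simp only; omega) (by simp only; omega)
    refine (sum_le_sum_of_subset_of_nonneg hsub fun p _ _ => mul_nonneg (by positivity) (mk_nonneg hH0 _)).trans ?_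
    rw [sum_singleton]
    have e1 : ht (1, 1) = 1 := by unfold ht; simp
    rw [e1, Real.sqrt_one, inv_one, one_mul]
    exact mk_le hH0 _
  rw [← sum_sdiff (FR_mono hX)]
  have h3 : (1 : ℝ) ≤ (1 + Real.log X) ^ 2 := one_le_pow₀ (by linarith)
  have h4 : H ≤ (1 + Real.log X) ^ 2 * (H + √X) := by
    have : 0 ≤ √(X : ℝ) := Real.sqrt_nonneg _
    nlinarith
  calc _ ≤ C * (1 + Real.log X) ^ 2 * (H + √X) + H := add_le_add h1 h2
    _ ≤ (C + 1) * (1 + Real.log X) ^ 2 * (H + √X) := by nlinarith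

end Pool.Agent.J4.H39.HM
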