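import Pool.Agent.J4.H39.HM.BlockT
import Pool.Agent.J4.H39.HM.Plat
import Pool.Agent.J4.H39.HM.Cov

/-!
# From smooth windows to sharp cutoffs
-/

set_option autoImplicit false

namespace Pool.Agent.J4.H39.HM

open MeasureTheory Set Topology
open Filter hiding mk
open Pool.Agent.Y969.GP Pool.Agent.N879.GD

variable {r : ℕ}

lemma Wt.mono {w : ℝ → ℝ} {R B R' B' : ℝ} (h : Wt w R B) (hR : R ≤ R') (hB : B ≤ B') : Wt w R' B' :=
  ⟨h.diff, fun x hx => h.supp x (hR.trans_lt hx), fun x => (h.bd x).trans hB, fun x => (h.bd' x).trans hB, h.hR.trans hR⟩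

/-- the windows -/
noncomputable def wd (v : Fin (r + 3) → ℝ) (R θ : ℝ) (l : Fin (r + 1) → ℝ) : Fin (r + 3) → ℝ → ℝ :=
  Fin.cons (pl R 1) (Fin.cons (fun y => pl θ θ (y / v 1)) (fun j y => pl (l j) θ y))

lemma wd_wt (v : Fin (r + 3) → ℝ) (hv1 : 0 < v 1) : ∃ S : ℝ, 1 ≤ S ∧ ∀ (R θ : ℝ) (l : Fin (r + 1) → ℝ) (Rb : ℝ), 0 < θ → θ ≤ 1 →
    1 ≤ Rb → R + 1 ≤ Rb → v 1 * (θ + θ) ≤ Rb → (∀ j, l j + θ ≤ Rb) → ∀ i, Wt (wd v R θ l i) Rb (S / θ) := by
  obtain ⟨S, hS, h⟩ := pl_wt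
  refine ⟨(2 * S + 1) * (1 + 1 / v 1) + 1, ?_, fun R θ l Rb hθ hθ1 hRb h0 h1 hl i => ?_⟩
  · have : 0 < 1 / v 1 := by positivity
    nlinarith
  have hv1' : 0 < 1 / v 1 := by positivity
  have e0 : ∀ b : ℝ, b + θ ≤ (2 * S + 1) * (1 + 1 / v 1) + 1 → b / θ + 1 ≤ ((2 * S + 1) * (1 + 1 / v 1) + 1) / θ := by
    intro b hb
    rw [div_add_one hθ.ne']
    exact div_le_div_of_nonneg_right hb hθ.le
  have hS2 : 2 * S + 1 ≤ (2 * S + 1) * (1 + 1 / v 1) := by nlinarith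
  have hS3 : (2 * S + 1) / v 1 ≤ (2 * S + 1) * (1 + 1 / v 1) := by
    rw [mul_add, mul_one, mul_one_div]
    linarith
  refine Fin.cases ?_ (fun j => Fin.cases ?_ (fun j => ?_) j) i
  · have := h R 1 1 Rb one_pos le_rfl one_pos hRb (by linarith)
    simp only [div_one] at this
    refine this.mono le_rfl ?_
    have h2 := e0 (2 * S + 1) (by linarith)
    have h3 : 2 * S + 1 ≤ (2 * S + 1) / θ := by
      rw [le_div_iff₀ hθ]
      nlinarith
    linarith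
  · have := h θ θ (v 1) Rb hθ hθ1 hv1 hRb h1
    refine this.mono le_rfl ?_
    have h2 := e0 ((2 * S + 1) / v 1) (by linarith)
    rwa [div_div, mul_comm (v 1) θ] at h2
  · have := h (l j) θ 1 Rb hθ hθ1 one_pos hRb (by linarith [hl j])
    simp only [div_one, mul_one] at this
    exact this.mono le_rfl (e0 (2 * S + 1) (by linarith))

lemma y0_bd {m : ℕ} {a : Fin (m + 1) → ℤ} (ha : a 0 ≠ 0) {y : Fin m → ℝ} {W : ℝ} (h : ∀ j, |y j| ≤ W) :
    |y0 a y| ≤ W * ∑ j : Fin m, |(a j.succ : ℝ)| := by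
  have h1 : (1 : ℝ) ≤ |(a 0 : ℝ)| := by
    rw [← Int.cast_abs]
    exact_mod_cast Int.one_le_abs ha
  have h2 : |∑ j : Fin m, (a j.succ : ℝ) * y j| ≤ W * ∑ j : Fin m, |(a j.succ : ℝ)| := by
    rw [Finset.mul_sum]
    refine (Finset.abs_sum_le_sum_abs _ _).trans (Finset.sum_le_sum fun j _ => ?_)
    rw [abs_mul, mul_comm]
    exact mul_le_mul_of_nonneg_right (h j) (abs_nonneg _)
  unfold y0
  rw [abs_div, abs_neg]
  exact (div_le_self (abs_nonneg _) h1).trans h2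

lemma wd_prod {a : Fin (r + 3) → ℤ} (ha : a 0 ≠ 0) {v : Fin (r + 3) → ℝ} (hv1 : 0 < v 1) {R θ W : ℝ} {l : Fin (r + 1) → ℝ}
    (hθ : 0 < θ) (h1 : v 1 * (θ + θ) ≤ W) (hl : ∀ j, l j + θ ≤ W) (hR : W * ∑ j : Fin (r + 2), |(a j.succ : ℝ)| ≤ R)
    (y : Fin (r + 2) → ℝ) :
    ∏ i, wd v R θ l i (yy (m := r + 2) a y i) = pl θ θ (y 0 / v 1) * ∏ j : Fin (r + 1), pl (l j) θ (y j.succ) := by
  rw [Fin.prod_univ_succ, Fin.prod_univ_succ]
  simp only [wd, yy, Fin.cons_zero, Fin.cons_succ]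
  by_cases h : ∀ j, |y j| ≤ W
  · rw [pl_one one_pos ((y0_bd ha h).trans hR), one_mul]
  · rw [not_forall] at h
    obtain ⟨j, hj⟩ := h
    rw [not_le] at hj
    have h0 : pl θ θ (y 0 / v 1) * ∏ j : Fin (r + 1), pl (l j) θ (y j.succ) = 0 := by
      revert hj
      refine Fin.cases (fun hj => ?_) (fun j hj => ?_) j
      · rw [pl_zero hθ, zero_mul]
        rw [abs_div, abs_of_pos hv1, le_div_iff₀ hv1]
        linarith
      · rw [Finset.prod_eq_zero (Finset.mem_univ j), mul_zero]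
        exact pl_zero hθ ((hl j).trans hj.le)
    rw [h0, mul_zero]

lemma Om_wd {a : Fin (r + 3) → ℤ} (ha : a 0 ≠ 0) {v : Fin (r + 3) → ℝ} (hv1 : 0 < v 1) {R θ W : ℝ} {l : Fin (r + 1) → ℝ}
    (hθ : 0 < θ) (h1 : v 1 * (θ + θ) ≤ W) (hl : ∀ j, l j + θ ≤ W) (hR : W * ∑ j : Fin (r + 2), |(a j.succ : ℝ)| ≤ R) :
    Om (m := r + 2) a (wd v R θ l) = v 1 * (∫ y, pl θ θ y) * ∏ j, ∫ y, pl (l j) θ y := by
  unfold Om
  simp only [wd_prod ha hv1 hθ h1 hl hR]
  obtain ⟨f, hf⟩ : ∃ f : Fin (r + 2) → ℝ → ℝ, f = Fin.cons (fun y => pl θ θ (y / v 1)) (fun j y => pl (l j) θ y) := ⟨_, rfl⟩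
  have e1 : ∀ y : Fin (r + 2) → ℝ, pl θ θ (y 0 / v 1) * ∏ j : Fin (r + 1), pl (l j) θ (y j.succ) = ∏ j, f j (y j) := by
    intro y
    symm
    rw [Fin.prod_univ_succ, hf]
    simp only [Fin.cons_zero, Fin.cons_succ]
  simp only [e1]
  rw [integral_fintype_prod_volume_eq_prod (f := f), Fin.prod_univ_succ, hf]
  simp only [Fin.cons_zero, Fin.cons_succ]
  rw [MeasureTheory.Measure.integral_comp_div, smul_eq_mul, abs_of_pos hv1]

lemma Wn_yy {m : ℕ} {a : Fin (m + 1) → ℤ} (ha : a 0 ≠ 0) {v : Fin (m + 1) → ℝ} (hav : ∑ i, (a i : ℝ) * v i = 0)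
    (w : Fin (m + 1) → ℝ → ℝ) (H τ : ℝ) (x : Fin m → ℝ) :
    Wn a v w H τ x = ∏ i, w i (yy a (fun j => (x j - v j.succ * τ) / H) i) := by
  have ha' : (a 0 : ℝ) ≠ 0 := by exact_mod_cast ha
  rw [Fin.prod_univ_succ]
  simp only [yy, Fin.cons_zero, Fin.cons_succ]
  unfold Wn
  rw [mul_comm]
  congr 2
  unfold y0 x0
  rw [Fin.sum_univ_succ] at hav
  have e3 : (a 0 : ℝ) * v 0 = -∑ j : Fin m, (a j.succ : ℝ) * v j.succ := by linarith
  have e4 : ∑ j : Fin m, (a j.succ : ℝ) * ((x j - v j.succ * τ) / H) =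
      (∑ j : Fin m, (a j.succ : ℝ) * x j + (a 0 : ℝ) * v 0 * τ) / H := by
    rw [e3, neg_mul, ← sub_eq_add_neg, Finset.sum_mul, ← Finset.sum_sub_distrib, Finset.sum_div]
    refine Finset.sum_congr rfl fun j _ => ?_
    ring
  rw [e4]
  field_simp
  ring

/-- the window in closed form -/
lemma Wn_wd {a : Fin (r + 3) → ℤ} (ha : a 0 ≠ 0) {v : Fin (r + 3) → ℝ} (hav : ∑ i, (a i : ℝ) * v i = 0) (hv1 : 0 < v 1)
    {R θ W : ℝ} {l : Fin (r + 1) → ℝ} (hθ : 0 < θ) (h1 : v 1 * (θ + θ) ≤ W) (hl : ∀ j, l j + θ ≤ W)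
    (hR : W * ∑ j : Fin (r + 2), |(a j.succ : ℝ)| ≤ R) (H τ : ℝ) (x : Fin (r + 2) → ℝ) :
    Wn (m := r + 2) a v (wd v R θ l) H τ x = pl θ θ ((x 0 / v 1 - τ) / H) *
      ∏ j : Fin (r + 1), pl (l j) θ ((x j.succ - v j.succ.succ * τ) / H) := by
  rw [Wn_yy ha hav, wd_prod ha hv1 hθ h1 hl hR]
  congr 1
  congr 1
  have : (Fin.succ (0 : Fin (r + 2))) = 1 := rfl
  rw [this]
  field_simp

lemma int_t (θ : ℝ) {H : ℝ} (hH : 0 < H) (t : ℝ) : ∫ τ, pl θ θ ((t - τ) / H) = H * ∫ y, pl θ θ y := by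
  have h1 := integral_sub_left_eq_self (μ := volume) (fun u : ℝ => pl θ θ (u / H)) t
  rw [h1, MeasureTheory.Measure.integral_comp_div, smul_eq_mul, abs_of_pos hH]

lemma int_t_integrable {θ : ℝ} (hθ : 0 < θ) {H : ℝ} (hH : 0 < H) (t : ℝ) : Integrable fun τ => pl θ θ ((t - τ) / H) := by
  have h1 : Integrable fun u : ℝ => pl θ θ (u / H) := (pl_int hθ hθ.le).1.comp_div hH.ne'
  exact h1.comp_sub_left t

/-- the swap of the integrations -/
lemma swap {m : ℕ} {a : Fin (m + 1) → ℤ} {v : Fin (m + 1) → ℝ} {w : Fin (m + 1) → ℝ → ℝ} {R B H : ℝ} (hw : ∀ i, Wt (w i) R B)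
    (hv : ∀ i, 0 < v i) (hH : 0 < H) (τ₁ τ₂ : ℝ) :
    (Integrable fun x : Fin m → ℝ => (∫ τ in Icc τ₁ τ₂, Wn a v w H τ x) * Pf a x) ∧
    ∫ τ in Icc τ₁ τ₂, BB a v w H τ = ∫ x : Fin m → ℝ, (∫ τ in Icc τ₁ τ₂, Wn a v w H τ x) * Pf a x := by
  have hj := joint_int (a := a) hw hv hH τ₁ τ₂
  constructor
  · have := hj.integral_prod_right
    simpa only [Function.uncurry_apply_pair, integral_mul_const] using this
  · unfold BB
    rw [integral_integral_swap hj]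
    simp only [integral_mul_const]

/-- **the upper bound** -/
theorem sharp_upper {a : Fin (r + 3) → ℤ} (ha : a 0 ≠ 0) {v : Fin (r + 3) → ℝ} (hav : ∑ i, (a i : ℝ) * v i = 0) (hv : ∀ i, 0 < v i)
    {R θ W Rb B : ℝ} {l : Fin (r + 1) → ℝ} (hθ : 0 < θ) (h1 : v 1 * (θ + θ) ≤ W) (hl : ∀ j, l j + θ ≤ W)
    (hR : W * ∑ j : Fin (r + 2), |(a j.succ : ℝ)| ≤ R) (hl1 : ∀ j : Fin (r + 1), 1 + 2 * v j.succ.succ * θ ≤ l j)
    (hw : ∀ i, Wt (wd v R θ l i) Rb B) {H : ℝ} (hH : 0 < H) (T₁ T₂ : ℝ) :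
    H * (∫ y, pl θ θ y) * ∫ x in SS (fun j : Fin (r + 1) => v j.succ.succ) (v 1) T₁ T₂ H, Pf (m := r + 2) a x ≤
      ∫ τ in Icc (T₁ - 2 * θ * H) (T₂ + 2 * θ * H), BB (m := r + 2) a v (wd v R θ l) H τ := by
  obtain ⟨hi, he⟩ := swap (m := r + 2) (a := a) hw hv hH (T₁ - 2 * θ * H) (T₂ + 2 * θ * H)
  have hcp := SS_compact (fun j : Fin (r + 1) => v j.succ.succ) (hv 1) T₁ T₂ H
  have hPi : IntegrableOn (Pf (m := r + 2) a) (SS (fun j : Fin (r + 1) => v j.succ.succ) (v 1) T₁ T₂ H) :=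
    (Pf_cont a).continuousOn.integrableOn_compact hcp
  rw [he, ← integral_const_mul, ← integral_indicator hcp.measurableSet]
  refine integral_mono ((integrable_indicator_iff hcp.measurableSet).2 (hPi.const_mul _)) hi fun x => ?_
  simp only
  by_cases hx : x ∈ SS (fun j : Fin (r + 1) => v j.succ.succ) (v 1) T₁ T₂ H
  · rw [indicator_of_mem hx]
    refine mul_le_mul_of_nonneg_right (le_of_eq ?_) (Pf_nonneg a x)
    obtain ⟨hx1, hx2⟩ := hx
    have e1 : ∀ τ : ℝ, Wn (m := r + 2) a v (wd v R θ l) H τ x = pl θ θ ((x 0 / v 1 - τ) / H) := by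
      intro τ
      rw [Wn_wd ha hav (hv 1) hθ h1 hl hR]
      by_cases hτ : θ + θ ≤ |(x 0 / v 1 - τ) / H|
      · rw [pl_zero hθ hτ, zero_mul]
      · rw [not_le] at hτ
        rw [Finset.prod_eq_one, mul_one]
        intro j _
        refine pl_one hθ (le_trans ?_ (hl1 j))
        have h3 := hx2 j
        have h4 : (x j.succ - v j.succ.succ * τ) / H =
            (x j.succ - v j.succ.succ * (x 0 / v 1)) / H + v j.succ.succ * ((x 0 / v 1 - τ) / H) := by ring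
        rw [h4]
        refine (abs_add_le _ _).trans (add_le_add ?_ ?_)
        · rw [abs_div, abs_of_pos hH, div_le_one hH]
          exact abs_le.2 h3
        · rw [abs_mul, abs_of_pos (hv _)]
          have := mul_le_mul_of_nonneg_left hτ.le (hv j.succ.succ).le
          linarith
    simp only [e1]
    rw [← int_t θ hH (x 0 / v 1)]
    symm
    rw [← integral_indicator measurableSet_Icc]
    refine integral_congr_ae (Filter.Eventually.of_forall fun τ => ?_)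
    simp only
    by_cases hτ : τ ∈ Icc (T₁ - 2 * θ * H) (T₂ + 2 * θ * H)
    · rw [indicator_of_mem hτ]
    · rw [indicator_of_notMem hτ, pl_zero hθ]
      rw [abs_div, abs_of_pos hH, le_div_iff₀ hH]
      by_contra hcon
      rw [not_le, abs_lt] at hcon
      refine hτ ⟨?_, ?_⟩
      · linarith [hcon.2, hx1.1]
      · linarith [hcon.1, hx1.2]
  · rw [indicator_of_notMem hx]
    refine mul_nonneg (integral_nonneg fun τ => ?_) (Pf_nonneg a x)
    simp only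
    rw [Wn_wd ha hav (hv 1) hθ h1 hl hR]
    exact mul_nonneg (pl_nonneg _ _ _) (Finset.prod_nonneg fun j _ => pl_nonneg _ _ _)

/-- **the lower bound** -/
theorem sharp_lower {a : Fin (r + 3) → ℤ} (ha : a 0 ≠ 0) {v : Fin (r + 3) → ℝ} (hav : ∑ i, (a i : ℝ) * v i = 0) (hv : ∀ i, 0 < v i)
    {R θ W Rb B : ℝ} {l : Fin (r + 1) → ℝ} (hθ : 0 < θ) (h1 : v 1 * (θ + θ) ≤ W) (hl : ∀ j, l j + θ ≤ W)
    (hR : W * ∑ j : Fin (r + 2), |(a j.succ : ℝ)| ≤ R) (hl1 : ∀ j : Fin (r + 1), l j + θ ≤ 1 - 2 * v j.succ.succ * θ)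
    (hw : ∀ i, Wt (wd v R θ l i) Rb B) {H : ℝ} (hH : 0 < H) (T₁ T₂ : ℝ) :
    ∫ τ in Icc (T₁ + 2 * θ * H) (T₂ - 2 * θ * H), BB (m := r + 2) a v (wd v R θ l) H τ ≤
    H * (∫ y, pl θ θ y) * ∫ x in SS (fun j : Fin (r + 1) => v j.succ.succ) (v 1) T₁ T₂ H, Pf (m := r + 2) a x := by
  obtain ⟨hi, he⟩ := swap (m := r + 2) (a := a) hw hv hH (T₁ + 2 * θ * H) (T₂ - 2 * θ * H)
  have hcp := SS_compact (fun j : Fin (r + 1) => v j.succ.succ) (hv 1) T₁ T₂ H
  have hPi : IntegrableOn (Pf (m := r + 2) a) (SS (fun j : Fin (r + 1) => v j.succ.succ) (v 1) T₁ T₂ H) :=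
    (Pf_cont a).continuousOn.integrableOn_compact hcp
  rw [he, ← integral_const_mul, ← integral_indicator hcp.measurableSet]
  refine integral_mono hi ((integrable_indicator_iff hcp.measurableSet).2 (hPi.const_mul _)) fun x => ?_
  simp only
  by_cases hx : x ∈ SS (fun j : Fin (r + 1) => v j.succ.succ) (v 1) T₁ T₂ H
  · rw [indicator_of_mem hx]
    refine mul_le_mul_of_nonneg_right ?_ (Pf_nonneg a x)
    rw [← int_t θ hH (x 0 / v 1)]
    have hit := int_t_integrable hθ hH (x 0 / v 1)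
    refine le_trans ?_ (setIntegral_le_integral (s := Icc (T₁ + 2 * θ * H) (T₂ - 2 * θ * H)) hit
      (Filter.Eventually.of_forall fun τ => pl_nonneg _ _ _))
    refine integral_mono_of_nonneg (Filter.Eventually.of_forall fun τ => ?_) hit.integrableOn
      (Filter.Eventually.of_forall fun τ => ?_)
    · simp only [Pi.zero_apply]
      rw [Wn_wd ha hav (hv 1) hθ h1 hl hR]
      exact mul_nonneg (pl_nonneg _ _ _) (Finset.prod_nonneg fun j _ => pl_nonneg _ _ _)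
    · simp only
      rw [Wn_wd ha hav (hv 1) hθ h1 hl hR]
      exact mul_le_of_le_one_right (pl_nonneg _ _ _) (Finset.prod_le_one (fun j _ => pl_nonneg _ _ _)
        fun j _ => pl_le_one _ _ _)
  · rw [indicator_of_notMem hx]
    have e0 : ∫ τ in Icc (T₁ + 2 * θ * H) (T₂ - 2 * θ * H), Wn (m := r + 2) a v (wd v R θ l) H τ x = 0 := by
      rw [setIntegral_eq_zero_of_forall_eq_zero]
      intro τ hτ
      rw [Wn_wd ha hav (hv 1) hθ h1 hl hR]
      by_contra hne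
      apply hx
      have h2 : |(x 0 / v 1 - τ) / H| < θ + θ := by
        by_contra hcon
        rw [not_lt] at hcon
        exact hne (by rw [pl_zero hθ hcon, zero_mul])
      have h3 : ∀ j : Fin (r + 1), |(x j.succ - v j.succ.succ * τ) / H| < l j + θ := by
        intro j
        by_contra hcon
        rw [not_lt] at hcon
        exact hne (by rw [Finset.prod_eq_zero (Finset.mem_univ j) (pl_zero hθ hcon), mul_zero])
      have h2' := h2
      rw [abs_div, abs_of_pos hH, div_lt_iff₀ hH, abs_lt] at h2'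
      refine ⟨⟨?_, ?_⟩, fun j => abs_le.1 ?_⟩
      · linarith [h2'.1, hτ.1]
      · linarith [h2'.2, hτ.2]
      · have h4 : (x j.succ - v j.succ.succ * (x 0 / v 1)) / H =
            (x j.succ - v j.succ.succ * τ) / H - v j.succ.succ * ((x 0 / v 1 - τ) / H) := by ring
        have h5 : |(x j.succ - v j.succ.succ * (x 0 / v 1)) / H| ≤ 1 := by
          rw [h4]
          refine (abs_sub _ _).trans ?_
          rw [abs_mul, abs_of_pos (hv _)]
          have h6 := mul_le_mul_of_nonneg_left h2.le (hv j.succ.succ).le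
          have h7 := hl1 j
          have h8 := (h3 j).le
          linarith
        rwa [abs_div, abs_of_pos hH, div_le_one hH] at h5
    rw [e0, zero_mul]

end Pool.Agent.J4.H39.HM
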