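import Pool.Agent.J4.H39.HM.Win

/-!
# Sup norm bounds
-/

set_option autoImplicit false

namespace Pool.Agent.J4.H39.HM

open MeasureTheory Set Topology
open Filter hiding mk
open Complex hiding mk
open FourierTransform hiding mk
open Pool.Agent.Y969.GP

lemma GB_fou {w : ℝ → ℝ} {R B s H : ℝ} (hw : Wt w R B) (hH : 0 < H) (hs : R * H < s) (X Y : ℕ) (ξ : ℝ) :
    𝓕 (GB w s H X Y) ξ = ∑ p ∈ FR Y, 𝓕 (AA w s H X p) (ξ - lam p / (2 * Real.pi)) := by
  unfold GB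
  rw [fou_sum (FR Y) (f := fun p x => AA w s H X p x * cexp (I * ((x * lam p : ℝ) : ℂ)))
    (fun p hp => ((AA_cs hw hH hs hp).mod _).int)]
  exact Finset.sum_congr rfl fun p _ => fou_mod _ _ _

/-- the Dirichlet polynomial, with the fractions of large height only -/
theorem sup_tail : ∃ K : ℝ, 0 < K ∧ ∀ (w : ℝ → ℝ) (R B s H : ℝ) (X Y : ℕ) (ξ : ℝ), Wt w R B → 1 ≤ H →
    2 * (R * H) ≤ s → 1 ≤ Y → Y ≤ X →
    ‖𝓕 (GB w s H X X) ξ - 𝓕 (GB w s H X Y) ξ‖ ≤ K * (R * B) * (1 + Real.log X) ^ 3 * (H / √Y + √(X * Y)) ∧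
    ‖𝓕 (GB w s H X Y) ξ‖ ≤ K * (R * B) * (1 + Real.log X) ^ 3 * (H + √X) := by
  obtain ⟨K, hK, hA⟩ := AA_fou
  obtain ⟨C1, hC1, h1⟩ := rows
  obtain ⟨C2, hC2, h2⟩ := rows_all
  refine ⟨K * (C1 + C2), by positivity, fun w R B s H X Y ξ hw hH hs hY hYX => ?_⟩
  have hR := hw.hR
  have hB := hw.hB
  have hH0 : 0 < H := by linarith
  have hs0 : R * H < s := by nlinarith
  have hX1 : 1 ≤ X := hY.trans hYX
  have hX0 : (1 : ℝ) ≤ X := by exact_mod_cast hX1
  have hlX : 0 ≤ Real.log X := Real.log_nonneg hX0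
  have hRB : 0 ≤ R * B := by positivity
  have hpi := Real.pi_pos
  have hterm : ∀ p ∈ FR X, ‖𝓕 (AA w s H X p) (ξ - lam p / (2 * Real.pi))‖ ≤
      (K * (R * B) * (1 + Real.log X)) * ((√(ht p))⁻¹ * mk H (lam p - 2 * Real.pi * ξ)) := by
    intro p hp
    refine (hA w R B s H X p _ hw hH hs hX1 hp).trans (le_of_eq ?_)
    have e1 : mk H (2 * Real.pi * (ξ - lam p / (2 * Real.pi))) = mk H (lam p - 2 * Real.pi * ξ) := by
      unfold mk
      have e2 : 2 * Real.pi * (ξ - lam p / (2 * Real.pi)) = -(lam p - 2 * Real.pi * ξ) := by field_simp; ring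
      rw [e2, abs_neg]
    rw [e1]
    ring
  have hc0 : 0 ≤ K * (R * B) * (1 + Real.log X) := by positivity
  constructor
  · rw [GB_fou hw hH0 hs0, GB_fou hw hH0 hs0, ← Finset.sum_sdiff (FR_mono hYX), add_sub_cancel_right]
    refine (norm_sum_le _ _).trans ((Finset.sum_le_sum fun p hp => hterm p (Finset.mem_sdiff.1 hp).1).trans ?_)
    rw [← Finset.mul_sum]
    have h3 := h1 X Y H (2 * Real.pi * ξ) hY hYX hH
    have h4 : 0 ≤ (1 + Real.log X) ^ 2 * (H / √(Y : ℝ) + √((X : ℝ) * Y)) := by positivity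
    calc (K * (R * B) * (1 + Real.log X)) * ∑ p ∈ FR X \ FR Y, (√(ht p))⁻¹ * mk H (lam p - 2 * Real.pi * ξ) ≤
        (K * (R * B) * (1 + Real.log X)) * (C1 * (1 + Real.log X) ^ 2 * (H / √Y + √(X * Y))) :=
          mul_le_mul_of_nonneg_left h3 hc0
      _ ≤ (K * (R * B) * (1 + Real.log X)) * ((C1 + C2) * (1 + Real.log X) ^ 2 * (H / √Y + √(X * Y))) := by
          refine mul_le_mul_of_nonneg_left ?_ hc0
          rw [mul_assoc, mul_assoc]
          exact mul_le_mul_of_nonneg_right (by linarith) h4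
      _ = _ := by ring
  · rw [GB_fou hw hH0 hs0]
    refine (norm_sum_le _ _).trans ((Finset.sum_le_sum fun p hp => hterm p (FR_mono hYX hp)).trans ?_)
    rw [← Finset.mul_sum]
    have h3 := h2 Y H (2 * Real.pi * ξ) hY hH
    have hY0 : (1 : ℝ) ≤ Y := by exact_mod_cast hY
    have hYXR : (Y : ℝ) ≤ X := by exact_mod_cast hYX
    have hlY : 0 ≤ Real.log Y := Real.log_nonneg hY0
    have hlYX : Real.log Y ≤ Real.log X := Real.log_le_log (by linarith) hYXR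
    have hsq : √(Y : ℝ) ≤ √X := Real.sqrt_le_sqrt hYXR
    have h4 : C2 * (1 + Real.log Y) ^ 2 * (H + √Y) ≤ (C1 + C2) * (1 + Real.log X) ^ 2 * (H + √X) := by
      refine mul_le_mul (mul_le_mul (by linarith) ?_ (by positivity) (by positivity)) (by linarith) (by positivity)
        (by positivity)
      exact pow_le_pow_left₀ (by linarith) (by linarith) 2
    calc (K * (R * B) * (1 + Real.log X)) * ∑ p ∈ FR Y, (√(ht p))⁻¹ * mk H (lam p - 2 * Real.pi * ξ) ≤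
        (K * (R * B) * (1 + Real.log X)) * ((C1 + C2) * (1 + Real.log X) ^ 2 * (H + √X)) :=
          mul_le_mul_of_nonneg_left (h3.trans h4) hc0
      _ = _ := by ring

/-- the approximate functional equation in the window -/
theorem sup_afe {ε : ℝ} (hε : 0 < ε) (hε2 : ε < 1 / 2) : ∃ K : ℝ, 0 < K ∧ ∀ (w : ℝ → ℝ) (R B s H : ℝ) (X : ℕ) (ξ : ℝ),
    Wt w R B → 1 ≤ H → 2 * (R * H) ≤ s → (2 * s) ^ (1 + ε) ≤ X →
    ‖𝓕 (GG w s H) ξ - 𝓕 (GB w s H X X) ξ‖ ≤ K * (R * B) * (H * s ^ (-(1 / 2) + ε)) := by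
  obtain ⟨C, hC, hafe⟩ := Pool.Agent.Y891.GP.t_AFE Pool.Agent.Y587.GP.t_V Pool.Agent.Y587.GP.Chi.t_CHI ε hε
  obtain ⟨h2, -, -⟩ := Pool.Agent.Y545.GP.t_CR Pool.Agent.Y587.GP.t_V
  refine ⟨4 * C, by positivity, fun w R B s H X ξ hw hH hs hX => ?_⟩
  have hR := hw.hR
  have hB := hw.hB
  have hH0 : 0 < H := by linarith
  have hRH : 1 ≤ R * H := by nlinarith
  have hs0 : R * H < s := by linarith
  have hs1 : 0 < s := by linarith
  have hsub := fou_sub (GG_cs hw hH0 hs0).int (GB_cs hw hH0 hs0 X X).int ξ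
  rw [← hsub]
  refine (fou_norm_le _ _).trans ?_
  have e1 : ∀ x : ℝ, GG w s H x - GB w s H X X x = (w ((x - s) / H) : ℂ) * ((ff x : ℂ) - PX X x) := by
    intro x
    unfold GG GB AA
    rw [h2, mul_sub, Finset.mul_sum]
    push_cast
    congr 1
    refine Finset.sum_congr rfl fun p _ => ?_
    ring
  have e2 : ∀ x : ℝ, ‖GG w s H x - GB w s H X X x‖ = |(|w ((x - s) / H)| * ‖(ff x : ℂ) - PX X x‖)| := by
    intro x
    rw [e1, norm_mul, Complex.norm_real, Real.norm_eq_abs, abs_mul, abs_abs, abs_of_nonneg (norm_nonneg _)]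
  rw [integral_congr_ae (Filter.Eventually.of_forall e2)]
  refine (int_win (s := s) (L := R * H) (C := B * (C * (2 * s ^ (-(1 / 2) + ε)))) (by positivity)
    (fun x hx => by rw [win_zero hw hH0 hx, abs_zero, zero_mul]) fun x hx => ?_).trans (le_of_eq (by ring))
  have hx0 : s / 2 ≤ x := by linarith [hx.1]
  have hx1 : 1 ≤ x := by linarith [hx.1]
  have hx2 : x ≤ 2 * s := by linarith [hx.2]
  have h3 := hafe x X hx1 ((Real.rpow_le_rpow (by linarith) hx2 (by linarith)).trans hX)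
  rw [abs_mul, abs_abs, abs_of_nonneg (norm_nonneg _)]
  refine mul_le_mul (hw.bd _) (h3.trans (mul_le_mul_of_nonneg_left ?_ hC.le)) (norm_nonneg _) hB
  have h4 : x ^ (-(1 / 2) + ε) ≤ (s / 2) ^ (-(1 / 2) + ε) :=
    Real.rpow_le_rpow_of_nonpos (by linarith) hx0 (by linarith)
  refine h4.trans ?_
  rw [Real.div_rpow hs1.le (by norm_num), div_eq_mul_inv, mul_comm, ← Real.rpow_neg (by norm_num)]
  refine mul_le_mul_of_nonneg_right ?_ (by positivity)
  calc (2 : ℝ) ^ (-(-(1 / 2) + ε)) ≤ (2 : ℝ) ^ (1 : ℝ) := Real.rpow_le_rpow_of_exponent_le (by norm_num) (by linarith)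
    _ = 2 := Real.rpow_one 2

end Pool.Agent.J4.H39.HM
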