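import Pool.Agent.J4.H39.HM.Row
import Pool.Agent.J4.H39.HM.Crl
import Pool.Agent.N879.GD.Cru
import Pool.Agent.Y891.GP.AFE
import Pool.Agent.Y587.GP.Chi

/-!
# Windows: the Fourier transforms of `w((x - s)/H) |ζ(1/2 + ix)|²` and of its Dirichlet polynomial
-/

set_option autoImplicit false

namespace Pool.Agent.J4.H39.HM

open MeasureTheory Set Topology
open Filter hiding mk
open Complex hiding mk
open FourierTransform hiding mk
open Pool.Agent.Y969.GP

/-- a weight -/
structure Wt (w : ℝ → ℝ) (R B : ℝ) : Prop where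
  diff : ContDiff ℝ 2 w
  supp : ∀ x, R < |x| → w x = 0
  bd : ∀ x, |w x| ≤ B
  bd' : ∀ x, |deriv w x| ≤ B
  hR : 1 ≤ R

lemma Wt.hB {w : ℝ → ℝ} {R B : ℝ} (h : Wt w R B) : 0 ≤ B := (abs_nonneg _).trans (h.bd 0)

/-- the coefficient of a fraction, with the window -/
noncomputable def AA (w : ℝ → ℝ) (s H : ℝ) (X : ℕ) (p : ℕ × ℕ) (x : ℝ) : ℂ := ((w ((x - s) / H) * cr X p x : ℝ) : ℂ)

/-- the window times `|ζ|²` -/
noncomputable def GG (w : ℝ → ℝ) (s H : ℝ) (x : ℝ) : ℂ := ((w ((x - s) / H) * ff x : ℝ) : ℂ)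

/-- the window times the Dirichlet polynomial over the fractions of height at most `Y` -/
noncomputable def GB (w : ℝ → ℝ) (s H : ℝ) (X Y : ℕ) (x : ℝ) : ℂ :=
  ∑ p ∈ FR Y, AA w s H X p x * cexp (I * ((x * lam p : ℝ) : ℂ))

lemma win_zero {w : ℝ → ℝ} {R B s H x : ℝ} (hw : Wt w R B) (hH : 0 < H) (hx : x ∉ Icc (s - R * H) (s + R * H)) :
    w ((x - s) / H) = 0 := by
  apply hw.supp
  rw [abs_div, abs_of_pos hH, lt_div_iff₀ hH]
  by_contra hcon
  rw [not_lt, abs_le] at hcon
  exact hx ⟨by linarith [hcon.1], by linarith [hcon.2]⟩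

lemma ff_contDiff : ContDiff ℝ 2 ff := by
  have h1 : ContDiff ℝ 2 (fun u : ℝ => riemannZeta (1 / 2 + I * u)) := by
    rw [contDiff_iff_contDiffAt]
    intro u
    have h2 : ContDiffOn ℂ 2 riemannZeta {1}ᶜ :=
      DifferentiableOn.contDiffOn (fun z hz => (differentiableAt_riemannZeta hz).differentiableWithinAt)
        isOpen_compl_singleton
    have h3 : ContDiffAt ℂ 2 riemannZeta (1 / 2 + I * u) :=
      h2.contDiffAt (isOpen_compl_singleton.mem_nhds (Pool.Agent.N879.GD.Cru.line_ne u))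
    have h4 : ContDiffAt ℝ 2 riemannZeta (1 / 2 + I * u) := h3.restrict_scalars ℝ
    have h5 : ContDiff ℝ 2 (fun u : ℝ => (1 / 2 + I * u : ℂ)) :=
      contDiff_const.add (contDiff_const.mul Complex.ofRealCLM.contDiff)
    exact h4.comp u h5.contDiffAt
  exact h1.norm_sq ℝ

/-- products of a window with a function which is `C²` on the right half line -/
lemma win_cs {w : ℝ → ℝ} {R B s H : ℝ} (hw : Wt w R B) (hH : 0 < H) (hs : R * H < s) {h : ℝ → ℝ}
    (hh : ∀ x, 0 < x → ContDiffAt ℝ 2 h x) : CS fun x => ((w ((x - s) / H) * h x : ℝ) : ℂ) := by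
  constructor
  · rw [contDiff_iff_contDiffAt]
    intro x
    have hw2 : ContDiff ℝ 2 (fun x : ℝ => w ((x - s) / H)) :=
      hw.diff.comp ((contDiff_id.sub contDiff_const).div_const _)
    rcases lt_or_ge 0 x with hx | hx
    · exact (Complex.ofRealCLM.contDiff.contDiffAt (x := w ((x - s) / H) * h x)).comp x
        (hw2.contDiffAt.mul (hh x hx))
    · have hev : (fun x => ((w ((x - s) / H) * h x : ℝ) : ℂ)) =ᶠ[𝓝 x] fun _ => 0 := by
        filter_upwards [Iio_mem_nhds (show x < s - R * H by linarith)] with y hy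
        rw [win_zero hw hH (fun hcon => absurd hcon.1 (not_le.2 hy)), zero_mul, Complex.ofReal_zero]
      exact contDiffAt_const.congr_of_eventuallyEq hev
  · refine HasCompactSupport.intro (isCompact_Icc (a := s - R * H) (b := s + R * H)) fun x hx => ?_
    rw [win_zero hw hH hx, zero_mul, Complex.ofReal_zero]

lemma AA_cs {w : ℝ → ℝ} {R B s H : ℝ} (hw : Wt w R B) (hH : 0 < H) (hs : R * H < s) {X Z : ℕ} {p : ℕ × ℕ}
    (hp : p ∈ FR Z) : CS (AA w s H X p) := by
  obtain ⟨a1, a2, -⟩ := Pool.Agent.Y379.GP.mem_FR hp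
  exact win_cs hw hH hs fun x hx => cr_contDiffAt a1 a2 hx

lemma GG_cs {w : ℝ → ℝ} {R B s H : ℝ} (hw : Wt w R B) (hH : 0 < H) (hs : R * H < s) : CS (GG w s H) :=
  win_cs hw hH hs fun _ _ => ff_contDiff.contDiffAt

lemma exp_cd (l : ℝ) : ContDiff ℝ 2 (fun x : ℝ => cexp (I * ((x * l : ℝ) : ℂ))) := by
  refine ContDiff.cexp (contDiff_const.mul ?_)
  exact Complex.ofRealCLM.contDiff.comp (contDiff_id.mul contDiff_const)

lemma CS.mod {f : ℝ → ℂ} (hf : CS f) (l : ℝ) : CS fun x => f x * cexp (I * ((x * l : ℝ) : ℂ)) :=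
  ⟨hf.diff.mul (exp_cd l), hf.cs.mul_right⟩

lemma CS.sum {ι : Type*} (s : Finset ι) {f : ι → ℝ → ℂ} (hf : ∀ i ∈ s, CS (f i)) : CS fun x => ∑ i ∈ s, f i x := by
  classical
  induction s using Finset.induction_on with
  | empty =>
    refine ⟨by simpa using contDiff_const, ?_⟩
    refine HasCompactSupport.intro isCompact_empty fun x _ => by simp
  | insert i s hi ih =>
    have h1 := hf i (Finset.mem_insert_self _ _)
    have h2 := ih fun j hj => hf j (Finset.mem_insert_of_mem hj)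
    simp only [Finset.sum_insert hi]
    exact ⟨h1.diff.add h2.diff, h1.cs.add h2.cs⟩

lemma CS.int {f : ℝ → ℂ} (hf : CS f) : Integrable f := hf.nice.int

lemma GB_cs {w : ℝ → ℝ} {R B s H : ℝ} (hw : Wt w R B) (hH : 0 < H) (hs : R * H < s) (X Y : ℕ) : CS (GB w s H X Y) :=
  CS.sum _ fun _ hp => (AA_cs hw hH hs hp).mod _

lemma fou_sum {ι : Type*} (s : Finset ι) {f : ι → ℝ → ℂ} (hf : ∀ i ∈ s, Integrable (f i)) (ξ : ℝ) :
    𝓕 (fun x => ∑ i ∈ s, f i x) ξ = ∑ i ∈ s, 𝓕 (f i) ξ := by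
  rw [fou_eq]
  simp only [fou_eq, Finset.mul_sum]
  refine integral_finsetSum _ fun i hi => ?_
  have hc : Continuous fun v : ℝ => cexp (((-2 * Real.pi * v * ξ : ℝ) : ℂ) * I) := by fun_prop
  exact (hf i hi).bdd_mul (c := 1) hc.aestronglyMeasurable (Filter.Eventually.of_forall fun z => by rw [exp_norm])

lemma fou_sub {f g : ℝ → ℂ} (hf : Integrable f) (hg : Integrable g) (ξ : ℝ) :
    𝓕 (fun x => f x - g x) ξ = 𝓕 f ξ - 𝓕 g ξ := by
  rw [fou_eq, fou_eq, fou_eq]
  have hc : Continuous fun v : ℝ => cexp (((-2 * Real.pi * v * ξ : ℝ) : ℂ) * I) := by fun_prop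
  rw [← integral_sub (hf.bdd_mul (c := 1) hc.aestronglyMeasurable (Filter.Eventually.of_forall fun z => by rw [exp_norm]))
    (hg.bdd_mul (c := 1) hc.aestronglyMeasurable (Filter.Eventually.of_forall fun z => by rw [exp_norm]))]
  refine integral_congr_ae (Filter.Eventually.of_forall fun v => ?_)
  simp only
  ring

/-- integral of a function supported and bounded on the window -/
lemma int_win {f : ℝ → ℝ} {s L C : ℝ} (hL : 0 ≤ L) (h0 : ∀ x, x ∉ Icc (s - L) (s + L) → f x = 0)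
    (hC : ∀ x ∈ Icc (s - L) (s + L), |f x| ≤ C) : ∫ x, |f x| ≤ 2 * L * C := by
  have h1 : ∫ x, |f x| = ∫ x in Icc (s - L) (s + L), |f x| := by
    rw [setIntegral_eq_integral_of_forall_compl_eq_zero]
    intro x hx
    rw [h0 x hx, abs_zero]
  rw [h1]
  have h2 := norm_setIntegral_le_of_norm_le_const (μ := volume) (s := Icc (s - L) (s + L)) (f := fun x => |f x|) (C := C)
    (by rw [Real.volume_Icc]; exact ENNReal.ofReal_lt_top) (fun x hx => by rw [Real.norm_eq_abs, abs_abs]; exact hC x hx)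
  rw [Measure.real, Real.volume_Icc, ENNReal.toReal_ofReal (by linarith)] at h2
  refine (le_abs_self _).trans (h2.trans (le_of_eq ?_))
  ring

/-- **Fourier transform of one term** -/
theorem AA_fou : ∃ K : ℝ, 0 < K ∧ ∀ (w : ℝ → ℝ) (R B s H : ℝ) (X : ℕ) (p : ℕ × ℕ) (ξ : ℝ), Wt w R B → 1 ≤ H →
    2 * (R * H) ≤ s → 1 ≤ X → p ∈ FR X →
    ‖𝓕 (AA w s H X p) ξ‖ ≤ (K * (R * B) * (1 + Real.log X) * (√(ht p))⁻¹) * mk H (2 * Real.pi * ξ) := by
  obtain ⟨-, -, C, hC, hcr⟩ := Pool.Agent.Y545.GP.t_CR Pool.Agent.Y587.GP.t_V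
  refine ⟨8 * C, by positivity, fun w R B s H X p ξ hw hH hs hX hp => ?_⟩
  have hR := hw.hR
  have hB := hw.hB
  have hH0 : 0 < H := by linarith
  have hRH : 1 ≤ R * H := by nlinarith
  have hs0 : R * H < s := by linarith
  have hX0 : (1 : ℝ) ≤ X := by exact_mod_cast hX
  have hlX : 0 ≤ Real.log X := Real.log_nonneg hX0
  obtain ⟨q, hq⟩ : ∃ q : ℝ, q = C * (1 + Real.log X) * (√(ht p))⁻¹ := ⟨_, rfl⟩
  have hq0 : 0 ≤ q := by rw [hq]; positivity
  have hcs := AA_cs (X := X) hw hH0 hs0 hp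
  have hpos : ∀ x ∈ Icc (s - R * H) (s + R * H), R * H ≤ x := fun x hx => by linarith [hx.1]
  have hA : ∫ v, ‖AA w s H X p v‖ ≤ 2 * (R * H) * (B * q) := by
    have e1 : ∀ v, ‖AA w s H X p v‖ = |w ((v - s) / H) * cr X p v| := fun v => by
      unfold AA; rw [Complex.norm_real, Real.norm_eq_abs]
    simp only [e1]
    refine int_win (by positivity) (fun x hx => by rw [win_zero hw hH0 hx, zero_mul]) fun x hx => ?_
    obtain ⟨-, -, -, h1, -⟩ := hcr X p hp x (by linarith [hpos x hx])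
    rw [abs_mul]
    rw [← hq] at h1
    exact mul_le_mul (hw.bd _) h1 (abs_nonneg _) hB
  have hB' : ∫ v, ‖deriv (AA w s H X p) v‖ ≤ 2 * (R * H) * (B * (q * (2 / H))) := by
    have e1 : ∀ v, ‖deriv (AA w s H X p) v‖ = |‖deriv (AA w s H X p) v‖| := fun v => (abs_of_nonneg (norm_nonneg _)).symm
    rw [integral_congr_ae (Filter.Eventually.of_forall e1)]
    refine int_win (f := fun v => ‖deriv (AA w s H X p) v‖) (s := s) (by positivity) (fun x hx => ?_) fun x hx => ?_
    · have hev : AA w s H X p =ᶠ[𝓝 x] fun _ => 0 := by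
        filter_upwards [isClosed_Icc.isOpen_compl.mem_nhds hx] with y hy
        unfold AA
        rw [win_zero hw hH0 hy, zero_mul, Complex.ofReal_zero]
      rw [hev.deriv_eq, deriv_const, norm_zero]
    · have hx0 : 0 < x := by linarith [hpos x hx]
      obtain ⟨h1, -, -, h2, h3, -⟩ := hcr X p hp x hx0
      rw [← hq] at h2 h3
      have hd : HasDerivAt (AA w s H X p) ((deriv w ((x - s) / H) * (1 / H) * cr X p x +
          w ((x - s) / H) * deriv (cr X p) x : ℝ) : ℂ) x := by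
        have d1 : HasDerivAt (fun x : ℝ => (x - s) / H) (1 / H) x := ((hasDerivAt_id x).sub_const s).div_const H
        have d2 : HasDerivAt w (deriv w ((x - s) / H)) ((x - s) / H) :=
          (hw.diff.differentiable (by norm_num)).differentiableAt.hasDerivAt
        exact ((d2.comp x d1).mul h1.hasDerivAt).ofReal_comp
      rw [hd.deriv, Complex.norm_real, Real.norm_eq_abs, abs_abs]
      have h4 : |deriv (cr X p) x| ≤ q / H := by
        have h5 : x * |deriv (cr X p) x| ≤ q := by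
          rw [abs_mul, abs_of_pos hx0] at h3; exact h3
        rw [le_div_iff₀ hH0]
        have h6 : H ≤ x := by
          have := hpos x hx
          nlinarith
        have := abs_nonneg (deriv (cr X p) x)
        nlinarith
      refine (abs_add_le _ _).trans ?_
      rw [abs_mul, abs_mul, abs_mul, abs_of_pos (by positivity : 0 < 1 / H)]
      calc |deriv w ((x - s) / H)| * (1 / H) * |cr X p x| + |w ((x - s) / H)| * |deriv (cr X p) x| ≤
          B * (1 / H) * q + B * (q / H) := by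
            refine add_le_add (mul_le_mul (mul_le_mul_of_nonneg_right (hw.bd' _) (by positivity)) h2 (abs_nonneg _)
              (by positivity)) (mul_le_mul (hw.bd _) h4 (abs_nonneg _) hB)
        _ = B * (q * (2 / H)) := by ring
  obtain ⟨g1, g2⟩ := fou_ibp hcs hA hB' ξ
  have g3 : 2 * (R * H) * (B * (q * (2 / H))) = 4 * (R * B) * q := by field_simp; ring
  rw [g3] at g2
  have h0 : 0 ≤ H * |2 * Real.pi * ξ| := by positivity
  unfold mk
  rw [mul_div_assoc', le_div_iff₀ (by linarith)]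
  have h7 : 0 ≤ R * B * q := by positivity
  calc ‖𝓕 (AA w s H X p) ξ‖ * (1 + H * |2 * Real.pi * ξ|) =
      ‖𝓕 (AA w s H X p) ξ‖ + H * (|2 * Real.pi * ξ| * ‖𝓕 (AA w s H X p) ξ‖) := by ring
    _ ≤ 2 * (R * H) * (B * q) + H * (4 * (R * B) * q) :=
        add_le_add g1 (mul_le_mul_of_nonneg_left g2 hH0.le)
    _ = 6 * (R * B * q) * H := by ring
    _ ≤ 8 * (R * B * q) * H := by nlinarith
    _ = _ := by rw [hq]; ring

end Pool.Agent.J4.H39.HM
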